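import Pool.Agent.Work.MP_475c1a_ag.Defs

-- merged part: Pool.Agent.Work.MP_475c1a_ag.QLine
section
-- merged part: Pool.Agent.Work.MP_475c1a_ag.QDefs
section
/-! Invariants of binary quartics and of plane quartics restricted to lines. -/

namespace Pool.Agent.Work.MP_475c1a_ag

open MvPolynomial Matrix

section

variable {A : Type} [CommRing A]

/-- The invariant `I` of `a + b X + c X ^ 2 + d X ^ 3 + e X ^ 4`. -/
def qI (a b c d e : A) : A := 12 * a * e - 3 * b * d + c ^ 2

/-- The invariant `J` of `a + b X + c X ^ 2 + d X ^ 3 + e X ^ 4`. -/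
def qJ (a b c d e : A) : A :=
  72 * a * c * e + 9 * b * c * d - 27 * a * d ^ 2 - 27 * e * b ^ 2 - 2 * c ^ 3

/-- The seminvariant of weight two. -/
def qP (a b c : A) : A := 3 * b ^ 2 - 8 * a * c

/-- The seminvariant of weight three. -/
def qR (a b c d : A) : A := b ^ 3 + 8 * a ^ 2 * d - 4 * a * b * c

theorem syzygy (a b c d e : A) : 27 * qR a b c d ^ 2 =
    qP a b c ^ 3 - 48 * qI a b c d e * a ^ 2 * qP a b c - 64 * qJ a b c d e * a ^ 3 := by
  simp only [qI, qJ, qP, qR]; ring

/-- `I` of a polynomial of degree at most four. -/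
def pI (p : Polynomial A) : A := qI (p.coeff 0) (p.coeff 1) (p.coeff 2) (p.coeff 3) (p.coeff 4)

/-- `J` of a polynomial of degree at most four. -/
def pJ (p : Polynomial A) : A := qJ (p.coeff 0) (p.coeff 1) (p.coeff 2) (p.coeff 3) (p.coeff 4)

/-- The seminvariant of weight two of a polynomial of degree at most four. -/
def pP (p : Polynomial A) : A := qP (p.coeff 0) (p.coeff 1) (p.coeff 2)

/-- The seminvariant of weight three of a polynomial of degree at most four. -/
def pR (p : Polynomial A) : A := qR (p.coeff 0) (p.coeff 1) (p.coeff 2) (p.coeff 3)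

variable [Algebra ℂ A]

/-- The restriction of `f` to the line `x + X z`. -/
noncomputable def res (f : MvPolynomial (Fin 3) ℂ) (x z : Fin 3 → A) : Polynomial A :=
  aeval (fun i => Polynomial.C (x i) + Polynomial.C (z i) * Polynomial.X) f

end

/-- `I` and `J` are the contravariants of degrees four and six of the quartic `f`. -/
structure IsIJ (f I J : MvPolynomial (Fin 3) ℂ) : Prop where
  homI : I.IsHomogeneous 4
  homJ : J.IsHomogeneous 6
  eqI : ∀ (A : Type) [CommRing A] [Algebra ℂ A] (x z : Fin 3 → A),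
    aeval (crossProduct x z) I = pI (res f x z)
  eqJ : ∀ (A : Type) [CommRing A] [Algebra ℂ A] (x z : Fin 3 → A),
    aeval (crossProduct x z) J = pJ (res f x z)

/-- Linear substitution: `lin g p` is `x ↦ p (g x)`. -/
noncomputable def lin (g : Matrix (Fin 3) (Fin 3) ℂ) :
    MvPolynomial (Fin 3) ℂ →ₐ[ℂ] MvPolynomial (Fin 3) ℂ :=
  aeval fun i => ∑ j, C (g i j) * X j

/-- The cofactor matrix. -/
noncomputable def cof (g : Matrix (Fin 3) (Fin 3) ℂ) : Matrix (Fin 3) (Fin 3) ℂ := (adjugate g)ᵀ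

/-- The quartic restricted to the general line `x2 = α x1 + β x0`, where `α = X 0`, `β = X 1`. -/
noncomputable def genRes (f : MvPolynomial (Fin 3) ℂ) : Polynomial (MvPolynomial (Fin 2) ℂ) :=
  res f ![1, 0, X 1] ![0, 1, X 0]

/-- The affine equation `f (1, s, y)`, where `s = X 0`, `y = X 1`. -/
noncomputable def aff (f : MvPolynomial (Fin 3) ℂ) : MvPolynomial (Fin 2) ℂ :=
  aeval ![1, X 0, X 1] f

end Pool.Agent.Work.MP_475c1a_ag
end

-- merged part: Pool.Agent.Work.MP_475c1a_ag.QLine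
section
/-! Restriction of forms to lines, linear substitutions and frames. -/

namespace Pool.Agent.Work.MP_475c1a_ag

open MvPolynomial Matrix

variable {f : MvPolynomial (Fin 3) ℂ}

theorem hom_induction {σ R : Type*} [CommSemiring R] {P : ℕ → MvPolynomial σ R → Prop}
    (hC : ∀ r, P 0 (C r)) (h0 : ∀ d, P d 0) (hadd : ∀ d p q, P d p → P d q → P d (p + q))
    (hX : ∀ d p i, P d p → P (d + 1) (X i * p)) {d : ℕ} {p : MvPolynomial σ R}
    (hp : p.IsHomogeneous d) : P d p := by
  classical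
  have key : ∀ (d : ℕ) (m : σ →₀ ℕ) (r : R), m.degree = d → P d (monomial m r) := by
    intro d
    induction d with
    | zero =>
      intro m r hm
      obtain rfl : m = 0 := (Finsupp.degree_eq_zero_iff m).1 hm
      exact hC r
    | succ d ih =>
      intro m r hm
      have hm0 : m ≠ 0 := by
        rintro rfl
        simp at hm
      obtain ⟨i, hi⟩ := Finsupp.ne_iff.1 hm0
      have h1 : m = Finsupp.single i 1 + (m - Finsupp.single i 1) := by
        rw [add_tsub_cancel_of_le]
        exact Finsupp.single_le_iff.2 (Nat.one_le_iff_ne_zero.2 hi)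
      have h2 : (m - Finsupp.single i 1).degree = d := by
        rw [h1, map_add, Finsupp.degree_single] at hm
        omega
      have h3 := hX d _ i (ih _ r h2)
      rw [X, monomial_mul, one_mul, ← h1] at h3
      exact h3
  rw [p.as_sum]
  refine Finset.sum_induction _ (P d) (hadd d) (h0 d) fun m hm => key d m _ ?_
  have := hp (mem_support_iff.1 hm)
  rw [← this, Finsupp.degree_eq_weight_one]
  rfl

theorem chain_rule {σ R A M : Type*} [Fintype σ] [CommRing R] [CommRing A] [Algebra R A]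
    [AddCommGroup M] [Module A M] [Module R M] (D : Derivation R A M)
    (u : σ → A) (p : MvPolynomial σ R) :
    D (aeval u p) = ∑ j, aeval u (pderiv j p) • D (u j) := by
  classical
  induction p using MvPolynomial.induction_on with
  | C r => simp
  | add p q hp hq => simp only [map_add, hp, hq, add_smul, Finset.sum_add_distrib]
  | mul_X p i hp =>
    simp only [map_mul, aeval_X, Derivation.leibniz, hp, smul_eq_mul, map_add, add_smul,
      Finset.sum_add_distrib, Finset.smul_sum, pderiv_X, mul_smul]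
    congr 1
    rw [Finset.sum_eq_single i]
    · simp
    · intro j _ hj
      simp [Pi.single_eq_of_ne hj.symm]
    · simp

section Easy

variable {A : Type} [CommRing A] [Algebra ℂ A]

theorem aeval_smul_hom {σ : Type} {p : MvPolynomial σ ℂ} {d : ℕ} (hp : p.IsHomogeneous d)
    (c : A) (x : σ → A) : aeval (c • x) p = c ^ d * aeval x p := by
  refine hom_induction (P := fun d p => aeval (c • x) p = c ^ d * aeval x p) ?_ ?_ ?_ ?_ hp
  · intro r; simp
  · intro d; simp
  · intro d p q hp hq; simp only [map_add, hp, hq, mul_add]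
  · intro d p i hp; simp only [map_mul, aeval_X, hp, Pi.smul_apply, smul_eq_mul]; ring

theorem aeval_lin (g : Matrix (Fin 3) (Fin 3) ℂ) (x : Fin 3 → A) (p : MvPolynomial (Fin 3) ℂ) :
    aeval x (lin g p) = aeval ((g.map (algebraMap ℂ A)) *ᵥ x) p := by
  rw [lin, ← AlgHom.comp_apply, comp_aeval]
  congr 2
  funext i
  simp [Matrix.mulVec, dotProduct]

theorem lin_eq (g : Matrix (Fin 3) (Fin 3) ℂ) (p : MvPolynomial (Fin 3) ℂ) :
    lin g p = aeval ((g.map (algebraMap ℂ (MvPolynomial (Fin 3) ℂ))) *ᵥ X) p := by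
  rw [← aeval_lin, aeval_X_left_apply]

theorem lin_lin (g h : Matrix (Fin 3) (Fin 3) ℂ) (p : MvPolynomial (Fin 3) ℂ) :
    lin h (lin g p) = lin (g * h) p := by
  rw [lin_eq h, aeval_lin, lin_eq, Matrix.mulVec_mulVec, Matrix.map_mul]

theorem lin_one (p : MvPolynomial (Fin 3) ℂ) : lin 1 p = p := by
  rw [lin_eq, Matrix.map_one _ (map_zero _) (map_one _), Matrix.one_mulVec, aeval_X_left_apply]

theorem lin_hom (g : Matrix (Fin 3) (Fin 3) ℂ) {p : MvPolynomial (Fin 3) ℂ} {d : ℕ}
    (hp : p.IsHomogeneous d) : (lin g p).IsHomogeneous d := by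
  have h := hp.aeval (n := 1) (fun i => ∑ j, C (g i j) * X j)
    fun i => IsHomogeneous.sum _ _ _ fun j _ => isHomogeneous_C_mul_X _ _
  rw [one_mul] at h
  exact h

theorem cross_mulVec (g : Matrix (Fin 3) (Fin 3) ℂ) (x z : Fin 3 → A) :
    crossProduct ((g.map (algebraMap ℂ A)) *ᵥ x) ((g.map (algebraMap ℂ A)) *ᵥ z) =
      ((cof g).map (algebraMap ℂ A)) *ᵥ crossProduct x z := by
  funext i
  fin_cases i <;>
    simp [cof, cross_apply, Matrix.adjugate_fin_three, Matrix.mulVec, dotProduct,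
      Fin.sum_univ_three] <;> ring

theorem pderiv_lin (g : Matrix (Fin 3) (Fin 3) ℂ) (p : MvPolynomial (Fin 3) ℂ) (i : Fin 3) :
    pderiv i (lin g p) = ∑ k, lin g (pderiv k p) * C (g k i) := by
  rw [lin, chain_rule]
  refine Finset.sum_congr rfl fun k _ => ?_
  rw [smul_eq_mul]
  congr 1
  rw [map_sum, Finset.sum_eq_single i]
  · simp
  · intro j _ hj
    simp [Pi.single_eq_of_ne hj]
  · simp

theorem smooth_lin (hs : IsSmoothForm f) {g : Matrix (Fin 3) (Fin 3) ℂ} (hg : g.det ≠ 0) :
    IsSmoothForm (lin g f) := by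
  intro x hx
  have h1 : g *ᵥ x ≠ 0 := fun h => hx (Matrix.eq_zero_of_mulVec_eq_zero hg h)
  obtain ⟨i, hi⟩ := hs _ h1
  by_contra hcon
  push Not at hcon
  have h2 : (fun k => eval (g *ᵥ x) (pderiv k f)) ᵥ* g = 0 := by
    funext j
    have h3 := hcon j
    rw [pderiv_lin, map_sum] at h3
    rw [Pi.zero_apply, ← h3, Matrix.vecMul, dotProduct]
    refine Finset.sum_congr rfl fun k _ => ?_
    rw [map_mul, eval_C, ← coe_aeval_eq_eval, ← coe_aeval_eq_eval]
    congr 1
    exact (aeval_lin g x _).symm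
  exact hi (congrFun (Matrix.eq_zero_of_vecMul_eq_zero hg h2) i)

theorem res_eq (p : MvPolynomial (Fin 3) ℂ) (x z : Fin 3 → A) :
    res p x z = aeval ((Polynomial.C ∘ x) + (Polynomial.X : Polynomial A) • (Polynomial.C ∘ z)) p := by
  rw [res]
  congr 2
  funext i
  simp only [Pi.add_apply, Pi.smul_apply, Function.comp_apply, smul_eq_mul]
  ring

theorem res_lin (g : Matrix (Fin 3) (Fin 3) ℂ) (x z : Fin 3 → A) :
    res (lin g f) x z = res f ((g.map (algebraMap ℂ A)) *ᵥ x) ((g.map (algebraMap ℂ A)) *ᵥ z) := by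
  rw [res, aeval_lin, res]
  congr 2
  funext i
  simp only [Matrix.mulVec, dotProduct, Fin.sum_univ_three, Matrix.map_apply, map_add, map_mul,
    Polynomial.algebraMap_apply]
  ring

theorem res_map {B : Type} [CommRing B] [Algebra ℂ B] (φ : A →ₐ[ℂ] B) (x z : Fin 3 → A) :
    (res f x z).map (φ : A →+* B) = res f (φ ∘ x) (φ ∘ z) := by
  have h := congrArg (fun ψ => ψ f) (comp_aeval (R := ℂ) (Polynomial.mapAlgHom φ)
    (f := fun i => Polynomial.C (x i) + Polynomial.C (z i) * Polynomial.X))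
  simp only [AlgHom.comp_apply, Polynomial.coe_mapAlgHom] at h
  rw [res, res, h]
  congr 2
  funext i
  simp

theorem res_eval (x z : Fin 3 → A) (s : A) : (res f x z).eval s = aeval (x + s • z) f := by
  have h := congrArg (fun ψ => ψ f) (comp_aeval (R := ℂ)
    ((Polynomial.aeval s : Polynomial A →ₐ[A] A).restrictScalars ℂ)
    (f := fun i => Polynomial.C (x i) + Polynomial.C (z i) * Polynomial.X))
  simp only [AlgHom.comp_apply, AlgHom.coe_restrictScalars', Polynomial.coe_aeval_eq_eval] at h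
  rw [res, h]
  congr 2
  funext i
  simp
  ring

theorem res_taylor (x z : Fin 3 → A) (s : A) :
    Polynomial.taylor s (res f x z) = res f (x + s • z) z := by
  have h := congrArg (fun ψ => ψ f) (comp_aeval (R := ℂ)
    ((Polynomial.taylorAlgHom s).restrictScalars ℂ)
    (f := fun i => Polynomial.C (x i) + Polynomial.C (z i) * Polynomial.X))
  simp only [AlgHom.comp_apply, AlgHom.coe_restrictScalars', Polynomial.taylorAlgHom_apply] at h
  rw [res, h, res]
  congr 2
  funext i
  simp [Polynomial.taylor_mul]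
  ring

theorem aeval_line {p : MvPolynomial (Fin 3) ℂ} {d : ℕ} (hp : p.IsHomogeneous d)
    (x z : Fin 3 → A) (l m : A) : aeval (l • x + m • z) p =
      ∑ j ∈ Finset.range (d + 1), (res p x z).coeff j * l ^ (d - j) * m ^ j := by
  let q : MvPolynomial (Fin 2) A := aeval (fun i => C (x i) * X 1 + C (z i) * X 0) p
  have hq : q.IsHomogeneous d := by
    have h := hp.eval₂ (n := 1) (algebraMap ℂ (MvPolynomial (Fin 2) A))
      (fun i => C (x i) * X 1 + C (z i) * X 0) (fun r => isHomogeneous_C _ _)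
      fun i => (isHomogeneous_C_mul_X _ _).add (isHomogeneous_C_mul_X _ _)
    rw [one_mul] at h
    exact h
  have h1 : ∀ {B : Type} [CommRing B] [Algebra ℂ B] [Algebra A B] [IsScalarTower ℂ A B]
      (u : Fin 2 → B), aeval u q =
        aeval (fun i => algebraMap A B (x i) * u 1 + algebraMap A B (z i) * u 0) p := by
    intro B _ _ _ _ u
    have h := congrArg (fun ψ => ψ p) (comp_aeval (R := ℂ)
      ((aeval u : MvPolynomial (Fin 2) A →ₐ[A] B).restrictScalars ℂ)
      (f := fun i => C (x i) * X 1 + C (z i) * X 0))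
    simp only [AlgHom.comp_apply, AlgHom.coe_restrictScalars'] at h
    rw [h]
    congr 2
    funext i
    simp
  have h2 : (res p x z).homogenize d = q := by
    refine Polynomial.homogenize_eq_of_isHomogeneous hq ?_
    rw [h1, res]
    simp
  have h3 : aeval (l • x + m • z) p = aeval ![m, l] q := by
    rw [h1]
    congr 2
    funext i
    simp [mul_comm]
  rw [h3, ← h2, Polynomial.homogenize, map_sum, Finset.Nat.sum_antidiagonal_eq_sum_range_succ_mk]
  refine Finset.sum_congr rfl fun j _ => ?_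
  rw [aeval_monomial, Finsupp.prod_fintype _ _ (by simp)]
  simp [Fin.prod_univ_two]
  ring

theorem res_frame {p : MvPolynomial (Fin 3) ℂ} {d : ℕ} (hp : p.IsHomogeneous d)
    (x z : Fin 3 → A) (l m k n : A) : res p (l • x + m • z) (k • x + n • z) =
      ∑ j ∈ Finset.range (d + 1), Polynomial.C ((res p x z).coeff j) *
        (Polynomial.C l + Polynomial.C k * Polynomial.X) ^ (d - j) *
          (Polynomial.C m + Polynomial.C n * Polynomial.X) ^ j := by
  have h := aeval_line hp (Polynomial.C ∘ x) (Polynomial.C ∘ z)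
    (Polynomial.C l + Polynomial.C k * Polynomial.X)
    (Polynomial.C m + Polynomial.C n * Polynomial.X)
  have h2 := res_map (f := p) (Polynomial.CAlgHom : A →ₐ[ℂ] Polynomial A) x z
  have h3 : ∀ j, (res p (Polynomial.C ∘ x) (Polynomial.C ∘ z)).coeff j =
      Polynomial.C ((res p x z).coeff j) := fun j => by
    have := congrArg (fun r => Polynomial.coeff r j) h2
    simp only [Polynomial.coeff_map] at this
    exact this.symm
  simp only [h3] at h
  rw [← h, res]
  congr 2
  funext i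
  simp
  ring

theorem res_sum {p : MvPolynomial (Fin 3) ℂ} {d : ℕ} (hp : p.IsHomogeneous d)
    (x z : Fin 3 → A) : res p x z =
      ∑ j ∈ Finset.range (d + 1), Polynomial.C ((res p x z).coeff j) * Polynomial.X ^ j := by
  have h := res_frame hp x z 1 0 0 1
  simpa using h

theorem res_natDegree' {p : MvPolynomial (Fin 3) ℂ} {d : ℕ} (hp : p.IsHomogeneous d)
    (x z : Fin 3 → A) : (res p x z).natDegree ≤ d := by
  rw [res_sum hp]
  refine Polynomial.natDegree_sum_le_of_forall_le _ _ fun j hj => ?_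
  exact (Polynomial.natDegree_C_mul_X_pow_le _ _).trans (by simpa [Nat.lt_succ_iff] using hj)

theorem res_coeff_top {p : MvPolynomial (Fin 3) ℂ} {d : ℕ} (hp : p.IsHomogeneous d)
    (x z : Fin 3 → A) : (res p x z).coeff d = aeval z p := by
  have h := aeval_line hp x z 0 1
  rw [Finset.sum_range_succ, Finset.sum_eq_zero] at h
  · simpa using h.symm
  · intro j hj
    rw [zero_pow (by have := Finset.mem_range.1 hj; omega)]
    simp

theorem res_coeff_zero (p : MvPolynomial (Fin 3) ℂ) (x z : Fin 3 → A) :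
    (res p x z).coeff 0 = aeval x p := by
  rw [Polynomial.coeff_zero_eq_eval_zero, res_eval]
  simp

theorem res_natDegree (hf : f.IsHomogeneous 4) (x z : Fin 3 → A) : (res f x z).natDegree ≤ 4 :=
  res_natDegree' hf x z

theorem res_coeff_four (hf : f.IsHomogeneous 4) (x z : Fin 3 → A) :
    (res f x z).coeff 4 = aeval z f :=
  res_coeff_top hf x z

end Easy

end Pool.Agent.Work.MP_475c1a_ag
end
end

-- merged part: Pool.Agent.Work.MP_475c1a_ag.QFrame
section
/-! Covariance of the invariants under a change of frame, and existence of the contravariants. -/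

namespace Pool.Agent.Work.MP_475c1a_ag

open MvPolynomial Matrix

variable {f f' I J I' J' : MvPolynomial (Fin 3) ℂ}

section Easy

variable {A : Type} [CommRing A]

/-- The polynomial with given five coefficients. -/
noncomputable def quart (a b c d e : A) : Polynomial A :=
  Polynomial.C a + Polynomial.C b * Polynomial.X + Polynomial.C c * Polynomial.X ^ 2 +
    Polynomial.C d * Polynomial.X ^ 3 + Polynomial.C e * Polynomial.X ^ 4

theorem quart_coeff (a b c d e : A) : (quart a b c d e).coeff 0 = a ∧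
    (quart a b c d e).coeff 1 = b ∧ (quart a b c d e).coeff 2 = c ∧
    (quart a b c d e).coeff 3 = d ∧ (quart a b c d e).coeff 4 = e := by
  simp [quart, Polynomial.coeff_X, Polynomial.coeff_C, Polynomial.coeff_X_pow]

theorem eq_quart {p : Polynomial A} (hp : p.natDegree ≤ 4) :
    p = quart (p.coeff 0) (p.coeff 1) (p.coeff 2) (p.coeff 3) (p.coeff 4) := by
  conv_lhs => rw [p.as_sum_range' 5 (by omega)]
  simp [quart, Finset.sum_range_succ, ← Polynomial.C_mul_X_pow_eq_monomial]

theorem frame_quart (a b c d e l m k n : A) :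
    Polynomial.C a * (Polynomial.C l + Polynomial.C k * Polynomial.X) ^ 4 +
      Polynomial.C b * (Polynomial.C l + Polynomial.C k * Polynomial.X) ^ 3 *
        (Polynomial.C m + Polynomial.C n * Polynomial.X) +
      Polynomial.C c * (Polynomial.C l + Polynomial.C k * Polynomial.X) ^ 2 *
        (Polynomial.C m + Polynomial.C n * Polynomial.X) ^ 2 +
      Polynomial.C d * (Polynomial.C l + Polynomial.C k * Polynomial.X) *
        (Polynomial.C m + Polynomial.C n * Polynomial.X) ^ 3 +
      Polynomial.C e * (Polynomial.C m + Polynomial.C n * Polynomial.X) ^ 4 =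
    quart (a * l ^ 4 + b * l ^ 3 * m + c * l ^ 2 * m ^ 2 + d * l * m ^ 3 + e * m ^ 4)
      (4 * a * l ^ 3 * k + b * (3 * l ^ 2 * k * m + l ^ 3 * n) +
        c * (2 * l * k * m ^ 2 + 2 * l ^ 2 * m * n) + d * (k * m ^ 3 + 3 * l * m ^ 2 * n) +
        4 * e * m ^ 3 * n)
      (6 * a * l ^ 2 * k ^ 2 + b * (3 * l * k ^ 2 * m + 3 * l ^ 2 * k * n) +
        c * (k ^ 2 * m ^ 2 + 4 * l * k * m * n + l ^ 2 * n ^ 2) +
        d * (3 * k * m ^ 2 * n + 3 * l * m * n ^ 2) + 6 * e * m ^ 2 * n ^ 2)
      (4 * a * l * k ^ 3 + b * (k ^ 3 * m + 3 * l * k ^ 2 * n) +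
        c * (2 * k ^ 2 * m * n + 2 * l * k * n ^ 2) + d * (3 * k * m * n ^ 2 + l * n ^ 3) +
        4 * e * m * n ^ 3)
      (a * k ^ 4 + b * k ^ 3 * n + c * k ^ 2 * n ^ 2 + d * k * n ^ 3 + e * n ^ 4) := by
  simp only [quart, map_add, map_mul, map_pow, map_ofNat]
  ring

variable [Algebra ℂ A]

theorem res_frame_quart (hf : f.IsHomogeneous 4) (x z : Fin 3 → A) (l m k n : A) {a b c d e : A}
    (ha : (res f x z).coeff 0 = a) (hb : (res f x z).coeff 1 = b) (hc : (res f x z).coeff 2 = c)
    (hd : (res f x z).coeff 3 = d) (he : (res f x z).coeff 4 = e) :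
    res f (l • x + m • z) (k • x + n • z) =
    quart (a * l ^ 4 + b * l ^ 3 * m + c * l ^ 2 * m ^ 2 + d * l * m ^ 3 + e * m ^ 4)
      (4 * a * l ^ 3 * k + b * (3 * l ^ 2 * k * m + l ^ 3 * n) +
        c * (2 * l * k * m ^ 2 + 2 * l ^ 2 * m * n) + d * (k * m ^ 3 + 3 * l * m ^ 2 * n) +
        4 * e * m ^ 3 * n)
      (6 * a * l ^ 2 * k ^ 2 + b * (3 * l * k ^ 2 * m + 3 * l ^ 2 * k * n) +
        c * (k ^ 2 * m ^ 2 + 4 * l * k * m * n + l ^ 2 * n ^ 2) +
        d * (3 * k * m ^ 2 * n + 3 * l * m * n ^ 2) + 6 * e * m ^ 2 * n ^ 2)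
      (4 * a * l * k ^ 3 + b * (k ^ 3 * m + 3 * l * k ^ 2 * n) +
        c * (2 * k ^ 2 * m * n + 2 * l * k * n ^ 2) + d * (3 * k * m * n ^ 2 + l * n ^ 3) +
        4 * e * m * n ^ 3)
      (a * k ^ 4 + b * k ^ 3 * n + c * k ^ 2 * n ^ 2 + d * k * n ^ 3 + e * n ^ 4) := by
  rw [res_frame hf, ← frame_quart]
  simp [Finset.sum_range_succ, ha, hb, hc, hd, he]

theorem pI_frame (hf : f.IsHomogeneous 4) (x z : Fin 3 → A) (l m k n : A) :
    pI (res f (l • x + m • z) (k • x + n • z)) = (l * n - k * m) ^ 4 * pI (res f x z) := by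
  rw [res_frame_quart hf x z l m k n rfl rfl rfl rfl rfl]
  simp only [pI, qI, quart_coeff]
  ring

theorem pJ_frame (hf : f.IsHomogeneous 4) (x z : Fin 3 → A) (l m k n : A) :
    pJ (res f (l • x + m • z) (k • x + n • z)) = (l * n - k * m) ^ 6 * pJ (res f x z) := by
  rw [res_frame_quart hf x z l m k n rfl rfl rfl rfl rfl]
  simp only [pJ, qJ, quart_coeff]
  ring

theorem pP_frame (hf : f.IsHomogeneous 4) (x z : Fin 3 → A) (l k n : A) :
    pP (res f (l • x) (k • x + n • z)) = (l ^ 3 * n) ^ 2 * pP (res f x z) := by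
  have h := res_frame_quart hf x z l 0 k n rfl rfl rfl rfl rfl
  rw [zero_smul, add_zero] at h
  rw [h]
  simp only [pP, qP, quart_coeff]
  ring

theorem pR_frame (hf : f.IsHomogeneous 4) (x z : Fin 3 → A) (l k n : A) :
    pR (res f (l • x) (k • x + n • z)) = (l ^ 3 * n) ^ 3 * pR (res f x z) := by
  have h := res_frame_quart hf x z l 0 k n rfl rfl rfl rfl rfl
  rw [zero_smul, add_zero] at h
  rw [h]
  simp only [pR, qR, quart_coeff]
  ring

end Easy

section Sep

variable {A B : Type} [CommRing A] [CommRing B]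

theorem pI_map (φ : A →+* B) (p : Polynomial A) : pI (p.map φ) = φ (pI p) := by
  simp [pI, qI, map_ofNat]

theorem pJ_map (φ : A →+* B) (p : Polynomial A) : pJ (p.map φ) = φ (pJ p) := by
  simp [pJ, qJ, map_ofNat]

theorem disc_of_root {p : Polynomial A} (hp : p.natDegree ≤ 4) (r : A) (h0 : p.eval r = 0)
    (h1 : p.derivative.eval r = 0) : 4 * pI p ^ 3 - pJ p ^ 2 = 0 := by
  rw [eq_quart hp] at h0 h1
  simp only [pI, pJ, qI, qJ]
  generalize p.coeff 0 = a, p.coeff 1 = b, p.coeff 2 = c, p.coeff 3 = d, p.coeff 4 = e at *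
  simp [quart] at h0 h1
  obtain rfl : b = -(2 * c * r + 3 * d * r ^ 2 + 4 * e * r ^ 3) := by linear_combination h1
  obtain rfl : a = c * r ^ 2 + 2 * d * r ^ 3 + 3 * e * r ^ 4 := by linear_combination h0
  ring

theorem separable_of_disc {K : Type} [Field K] [CharZero K] {p : Polynomial K}
    (hp : p.natDegree = 4) (h : 4 * pI p ^ 3 - pJ p ^ 2 ≠ 0) : p.Separable := by
  rw [Polynomial.separable_def,
    Polynomial.isCoprime_iff_aeval_ne_zero_of_isAlgClosed (k := K) (AlgebraicClosure K)]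
  intro r
  by_contra hcon
  push Not at hcon
  have h1 := disc_of_root (p := p.map (algebraMap K (AlgebraicClosure K)))
    (Polynomial.natDegree_map_le.trans hp.le) r
    (by rw [Polynomial.eval_map_algebraMap]; exact hcon.1)
    (by rw [Polynomial.derivative_map, Polynomial.eval_map_algebraMap]; exact hcon.2)
  rw [pI_map, pJ_map] at h1
  apply h
  apply (algebraMap K (AlgebraicClosure K)).injective
  simpa [map_ofNat] using h1

end Sep

theorem hom_of_X_pow_mul {σ : Type} {p : MvPolynomial σ ℂ} {i : σ} {k n : ℕ}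
    (h : (X i ^ k * p).IsHomogeneous (k + n)) : p.IsHomogeneous n := by
  intro m hm
  have h1 : coeff (Finsupp.single i k + m) (X i ^ k * p) ≠ 0 := by
    rwa [X_pow_eq_monomial, coeff_monomial_mul, one_mul]
  have h2 := h h1
  rw [map_add, Finsupp.weight_single] at h2
  simpa using h2

theorem res_coeff_hom {σ : Type} {p : MvPolynomial (Fin 3) ℂ} {d : ℕ} (hp : p.IsHomogeneous d)
    {x z : Fin 3 → MvPolynomial σ ℂ} {n : ℕ} (hx : ∀ i, (x i).IsHomogeneous n)
    (hz : ∀ i, (z i).IsHomogeneous n) (j : ℕ) : ((res p x z).coeff j).IsHomogeneous (d * n) := by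
  revert j
  refine hom_induction (P := fun d p => ∀ j, ((res p x z).coeff j).IsHomogeneous (d * n))
    ?_ ?_ ?_ ?_ hp
  · intro r j
    rw [res, algHom_C, Polynomial.algebraMap_apply, Polynomial.coeff_C, zero_mul]
    split_ifs
    · exact isHomogeneous_C _ _
    · exact isHomogeneous_zero _ _ _
  · intro d j
    simpa [res] using isHomogeneous_zero _ _ _
  · intro d p q hp hq j
    have h := (hp j).add (hq j)
    simpa [res] using h
  · intro d p i hp j
    have h1 : res (X i * p) x z = Polynomial.C (x i) * res p x z +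
        Polynomial.C (z i) * (Polynomial.X * res p x z) := by
      simp only [res, map_mul, aeval_X]
      ring
    rw [h1, Polynomial.coeff_add, Polynomial.coeff_C_mul, Polynomial.coeff_C_mul,
      show (d + 1) * n = n + d * n by ring]
    refine ((hx i).mul (hp j)).add ((hz i).mul ?_)
    cases j with
    | zero => simpa using isHomogeneous_zero _ _ _
    | succ j => simpa using hp j

theorem hom_ofNat {σ : Type} (n : ℕ) [n.AtLeastTwo] :
    (OfNat.ofNat n : MvPolynomial σ ℂ).IsHomogeneous 0 := by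
  rw [← map_ofNat C n]
  exact isHomogeneous_C _ _

theorem pI_hom {σ : Type} {p : Polynomial (MvPolynomial σ ℂ)} {n : ℕ}
    (h : ∀ j, (p.coeff j).IsHomogeneous n) : (pI p).IsHomogeneous (2 * n) := by
  have h1 := ((hom_ofNat 12).mul (h 0)).mul (h 4)
  have h2 := ((hom_ofNat 3).mul (h 1)).mul (h 3)
  have h3 := (h 2).pow 2
  rw [show 0 + n + n = 2 * n by ring] at h1 h2
  rw [mul_comm] at h3
  exact (h1.sub h2).add h3

theorem pJ_hom {σ : Type} {p : Polynomial (MvPolynomial σ ℂ)} {n : ℕ}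
    (h : ∀ j, (p.coeff j).IsHomogeneous n) : (pJ p).IsHomogeneous (3 * n) := by
  have h1 := (((hom_ofNat 72).mul (h 0)).mul (h 2)).mul (h 4)
  have h2 := (((hom_ofNat 9).mul (h 1)).mul (h 2)).mul (h 3)
  have h3 := ((hom_ofNat 27).mul (h 0)).mul ((h 3).pow 2)
  have h4 := ((hom_ofNat 27).mul (h 4)).mul ((h 1).pow 2)
  have h5 := (hom_ofNat 2).mul ((h 2).pow 3)
  rw [show 0 + n + n + n = 3 * n by ring] at h1 h2
  rw [show 0 + n + n * 2 = 3 * n by ring] at h3 h4
  rw [show 0 + n * 3 = 3 * n by ring] at h5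
  exact (((h1.add h2).sub h3).sub h4).sub h5

theorem map_cross {A B F : Type} [CommRing A] [CommRing B] [FunLike F A B] [RingHomClass F A B]
    (φ : F) (x z : Fin 3 → A) :
    (fun i => φ (crossProduct x z i)) = crossProduct (φ ∘ x) (φ ∘ z) := by
  funext i
  fin_cases i <;> simp [cross_apply]

/-- Existence of a contravariant attached to an invariant `Φ` of weight `w`. -/
theorem exists_contra (w n : ℕ) (hn : n = 2 * w)
    (Φ : ∀ (A : Type) [CommRing A] [Algebra ℂ A], (Fin 3 → A) → (Fin 3 → A) → A)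
    (hmap : ∀ (A B : Type) [CommRing A] [Algebra ℂ A] [CommRing B] [Algebra ℂ B]
      (φ : A →ₐ[ℂ] B) (x z : Fin 3 → A), φ (Φ A x z) = Φ B (φ ∘ x) (φ ∘ z))
    (hfr : ∀ (A : Type) [CommRing A] [Algebra ℂ A] (x z : Fin 3 → A) (l m k n : A),
      Φ A (l • x + m • z) (k • x + n • z) = (l * n - k * m) ^ w * Φ A x z)
    (hhom : ∀ x z : Fin 3 → MvPolynomial (Fin 3) ℂ, (∀ i, (x i).IsHomogeneous 1) →
      (∀ i, (z i).IsHomogeneous 1) → (Φ _ x z).IsHomogeneous n) :
    ∃ I : MvPolynomial (Fin 3) ℂ, I.IsHomogeneous w ∧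
      ∀ (A : Type) [CommRing A] [Algebra ℂ A] (x z : Fin 3 → A),
        aeval (crossProduct x z) I = Φ A x z := by
  let R := MvPolynomial (Fin 3) ℂ
  let e : Fin 3 → R := ![X 2, 0, -X 0]
  let e' : Fin 3 → R := ![0, X 2, -X 1]
  let d : Fin 3 → R := ![-X 1, X 0, 0]
  let d' : Fin 3 → R := ![-X 2, 0, X 0]
  have h1 := hfr R e e' (X 0) 0 0 (X 0)
  have h2 := hfr R d d' 0 (-X 0) (X 2) (-X 1)
  have h3 : (X 0 : R) • e + (0 : R) • e' = (0 : R) • d + (-X 0 : R) • d' := by
    funext i
    fin_cases i <;> simp [e, e', d, d']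
  have h4 : (0 : R) • e + (X 0 : R) • e' = (X 2 : R) • d + (-X 1 : R) • d' := by
    funext i
    fin_cases i <;> simp [e, e', d, d'] <;> ring
  rw [h3, h4, h2] at h1
  have h5 : X 2 ^ w * Φ R d d' = X 0 ^ w * Φ R e e' := by
    apply mul_left_cancel₀ (pow_ne_zero w (X_ne_zero (0 : Fin 3)))
    rw [← mul_assoc, ← mul_assoc, ← mul_pow, ← mul_pow]
    convert h1 using 3 <;> ring
  have h6 : (X 2 : R) ^ w ∣ Φ R e e' := by
    refine (X_prime (i := (2 : Fin 3))).pow_dvd_of_dvd_mul_left w ?_ ⟨_, h5.symm⟩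
    intro h
    have := (X_prime (i := (2 : Fin 3))).dvd_of_dvd_pow h
    simp at this
  obtain ⟨I, hI⟩ := h6
  have he : ∀ i, (e i).IsHomogeneous 1 := fun i => by
    fin_cases i
    exacts [isHomogeneous_X _ _, isHomogeneous_zero _ _ _, (isHomogeneous_X _ _).neg]
  have he' : ∀ i, (e' i).IsHomogeneous 1 := fun i => by
    fin_cases i
    exacts [isHomogeneous_zero _ _ _, isHomogeneous_X _ _, (isHomogeneous_X _ _).neg]
  refine ⟨I, hom_of_X_pow_mul (i := 2) (k := w) ?_, ?_⟩
  · rw [← hI, ← two_mul, ← hn]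
    exact hhom e e' he he'
  let U := MvPolynomial (Fin 3 ⊕ Fin 3) ℂ
  let x : Fin 3 → U := fun i => X (Sum.inl i)
  let z : Fin 3 → U := fun i => X (Sum.inr i)
  have ha : crossProduct x z 2 = x 0 * z 1 - x 1 * z 0 := by simp [cross_apply]
  have ha0 : crossProduct x z 2 ≠ 0 := by
    intro h
    have := congrArg (eval (Sum.elim ![1, 0, 0] ![0, 1, 0])) h
    simp [ha, x, z] at this
  have hU : aeval (crossProduct x z) I = Φ U x z := by
    apply mul_left_cancel₀ (pow_ne_zero w ha0)
    have h7 := hmap R U (aeval (crossProduct x z)) e e'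
    have h8 := hfr U x z (z 1) (-x 1) (-z 0) (x 0)
    have h9 : (aeval (crossProduct x z) : R →ₐ[ℂ] U) ∘ e = z 1 • x + (-x 1) • z := by
      funext i
      fin_cases i <;> simp [e, cross_apply] <;> ring
    have h10 : (aeval (crossProduct x z) : R →ₐ[ℂ] U) ∘ e' = (-z 0) • x + (x 0) • z := by
      funext i
      fin_cases i <;> simp [e', cross_apply] <;> ring
    rw [h9, h10, h8, hI, map_mul, map_pow, aeval_X] at h7
    rw [h7, ha]
    congr 2
    ring
  intro A _ _ x' z'
  let φ : U →ₐ[ℂ] A := aeval (Sum.elim x' z')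
  have hx : φ ∘ x = x' := funext fun i => aeval_X (Sum.elim x' z') (Sum.inl i)
  have hz : φ ∘ z = z' := funext fun i => aeval_X (Sum.elim x' z') (Sum.inr i)
  have h11 := congrArg φ hU
  rwa [hmap, ← AlgHom.comp_apply, comp_aeval, map_cross, hx, hz] at h11

theorem exists_IJ (hf : f.IsHomogeneous 4) : ∃ I J, IsIJ f I J := by
  obtain ⟨I, h1, h2⟩ := exists_contra 4 8 rfl (fun A _ _ x z => pI (res f x z))
    (fun A B _ _ _ _ φ x z => by rw [← res_map, pI_map]; rfl)
    (fun A _ _ x z l m k n => pI_frame hf x z l m k n)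
    (fun x z hx hz => pI_hom (res_coeff_hom hf hx hz))
  obtain ⟨J, h3, h4⟩ := exists_contra 6 12 rfl (fun A _ _ x z => pJ (res f x z))
    (fun A B _ _ _ _ φ x z => by rw [← res_map, pJ_map]; rfl)
    (fun A _ _ x z l m k n => pJ_frame hf x z l m k n)
    (fun x z hx hz => pJ_hom (res_coeff_hom hf hx hz))
  exact ⟨I, J, h1, h3, h2, h4⟩

theorem eq_of_cross {p q : MvPolynomial (Fin 3) ℂ} {n : ℕ} (hp : p.IsHomogeneous n)
    (hq : q.IsHomogeneous n)
    (h : ∀ x z : Fin 3 → MvPolynomial (Fin 3) ℂ,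
      aeval (crossProduct x z) p = aeval (crossProduct x z) q) : p = q := by
  have h1 := h ![X 2, 0, -X 0] ![0, X 2, -X 1]
  have h2 : crossProduct (![X 2, 0, -X 0] : Fin 3 → MvPolynomial (Fin 3) ℂ) ![0, X 2, -X 1] =
      (X 2 : MvPolynomial (Fin 3) ℂ) • X := by
    funext i
    fin_cases i <;> simp [cross_apply, mul_comm]
  rw [h2, aeval_smul_hom hp, aeval_smul_hom hq, aeval_X_left_apply, aeval_X_left_apply] at h1
  exact mul_left_cancel₀ (pow_ne_zero n (X_ne_zero _)) h1

theorem IsIJ.unique (h : IsIJ f I J) (h' : IsIJ f I' J') : I = I' ∧ J = J' :=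
  ⟨eq_of_cross h.homI h'.homI fun x z => (h.eqI _ x z).trans (h'.eqI _ x z).symm,
    eq_of_cross h.homJ h'.homJ fun x z => (h.eqJ _ x z).trans (h'.eqJ _ x z).symm⟩

theorem IsIJ.lin (h : IsIJ f I J) (g : Matrix (Fin 3) (Fin 3) ℂ) :
    IsIJ (lin g f) (lin (cof g) I) (lin (cof g) J) where
  homI := lin_hom _ h.homI
  homJ := lin_hom _ h.homJ
  eqI A _ _ x z := by rw [aeval_lin, ← cross_mulVec, h.eqI, res_lin]
  eqJ A _ _ x z := by rw [aeval_lin, ← cross_mulVec, h.eqJ, res_lin]

end Pool.Agent.Work.MP_475c1a_ag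
end
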