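import Pool.Agent.Work.MP_475c1a_ag.LocFact
import Pool.Agent.Work.MP_475c1a_ag.QFrame

-- merged part: Pool.Agent.Work.MP_475c1a_ag.AutS
section
/-! Automorphisms of the del Pezzo surface are linear. -/

namespace Pool.Agent.Work.MP_475c1a_ag

open MvPolynomial Matrix CategoryTheory

set_option linter.unusedSectionVars false
set_option maxHeartbeats 400000

variable {L : Type} [Field L] [Algebra ℂ L]

/-- A complex matrix acting on vectors over an algebra. -/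
noncomputable def act {A : Type} [CommRing A] [Algebra ℂ A] (g : Matrix (Fin 3) (Fin 3) ℂ)
    (x : Fin 3 → A) : Fin 3 → A := g.map (algebraMap ℂ A) *ᵥ x

theorem act_smul {A : Type} [CommRing A] [Algebra ℂ A] (c : ℂ) (g : Matrix (Fin 3) (Fin 3) ℂ)
    (x : Fin 3 → A) : act (c • g) x = algebraMap ℂ A c • act g x := by
  funext i
  simp [act, mulVec, dotProduct, Finset.mul_sum, mul_assoc]

theorem act_one {A : Type} [CommRing A] [Algebra ℂ A] (x : Fin 3 → A) : act 1 x = x := by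
  rw [act, Matrix.map_one _ (map_zero _) (map_one _), one_mulVec]

theorem aeval_lin_X {A : Type} [CommRing A] [Algebra ℂ A] (g : Matrix (Fin 3) (Fin 3) ℂ)
    (x : Fin 3 → A) (i : Fin 3) : aeval x (lin g (X i)) = act g x i := by
  rw [aeval_lin, aeval_X, act]

theorem lin_smul (c : ℂ) (g : Matrix (Fin 3) (Fin 3) ℂ) {p : MvPolynomial (Fin 3) ℂ} {d : ℕ}
    (hp : p.IsHomogeneous d) : lin (c • g) p = C (c ^ d) * lin g p := by
  have h1 := aeval_lin (A := MvPolynomial (Fin 3) ℂ) (c • g) X p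
  have h2 := aeval_lin (A := MvPolynomial (Fin 3) ℂ) g X p
  rw [aeval_X_left_apply] at h1 h2
  rw [h1, h2, ← act, act_smul, aeval_smul_hom hp, map_pow]; rfl

theorem exists_matrix {x : Fin 3 → L} (hx : ∀ p : MvPolynomial (Fin 3) ℂ, p.IsHomogeneous 1 →
    aeval x p = 0 → p = 0) (σ : L ≃ₐ[ℂ] L) {m : L}
    (h : ∀ i, ∃ p : MvPolynomial (Fin 3) ℂ, p.IsHomogeneous 1 ∧ σ (x i) = m * aeval x p) :
    ∃ g : Matrix (Fin 3) (Fin 3) ℂ, g.det ≠ 0 ∧ ∀ i, σ (x i) = m * act g x i := by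
  have h1 : ∀ i, ∃ c : Fin 3 → ℂ, σ (x i) = m * ∑ j, algebraMap ℂ L (c j) * x j := fun i => by
    obtain ⟨p, hp, e⟩ := h i
    rw [← mem_homogeneousSubmodule, homogeneousSubmodule_one_eq_span_X,
      Submodule.mem_span_range_iff_exists_fun] at hp
    obtain ⟨c, rfl⟩ := hp
    exact ⟨c, by simpa [Algebra.smul_def] using e⟩
  choose g hg using h1
  refine ⟨of g, fun h0 => ?_, hg⟩
  obtain ⟨c, hc, h2⟩ := exists_vecMul_eq_zero_iff.mpr h0
  have h3 : σ (aeval x (∑ i, C (c i) * X i)) = 0 := by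
    have h4 := fun j => congrArg (algebraMap ℂ L) (congrFun h2 j)
    simp only [vecMul, dotProduct, of_apply, map_sum, map_mul, Pi.zero_apply, map_zero] at h4
    simp only [map_sum, map_mul, aeval_C, aeval_X, AlgEquiv.commutes, hg, Finset.mul_sum]
    rw [Finset.sum_comm]
    refine Finset.sum_eq_zero fun j _ => ?_
    rw [← mul_zero (m * x j), ← h4 j, Finset.mul_sum]
    exact Finset.sum_congr rfl fun i _ => by ring
  have h5 := hx _ (IsHomogeneous.sum _ _ _ fun i _ => (isHomogeneous_X ℂ i).C_mul (c i))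
    (σ.injective (h3.trans (map_zero σ).symm))
  refine hc (funext fun i => ?_)
  simpa [Pi.single_apply] using congrArg (eval (Pi.single i 1)) h5

theorem lin_inv {g : Matrix (Fin 3) (Fin 3) ℂ} (hg : g.det ≠ 0) (i : Fin 3) :
    lin g (lin g⁻¹ (X i)) = X i ∧ lin g⁻¹ (lin g (X i)) = X i := by
  rw [lin_lin, lin_lin, nonsing_inv_mul _ hg.isUnit, mul_nonsing_inv _ hg.isUnit, lin_one]
  exact ⟨rfl, rfl⟩

/-- The action of a matrix on the function field of the surface. -/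
structure SAct (g : Matrix (Fin 3) (Fin 3) ℂ) (σ : L → L) (u s y : L) : Prop where
  ne : act g ![1, s, y] 0 ≠ 0
  x : ∀ i, σ (![1, s, y] i) = act g ![1, s, y] i / act g ![1, s, y] 0
  u : σ u = u / act g ![1, s, y] 0 ^ 2

namespace SPack

variable {f : MvPolynomial (Fin 3) ℂ} {hf : f.IsHomogeneous 4} {θ : (dp hf).Ring →+* L}
  {P : PrimeDiv (under.obj (dp hf).scheme) → Ideal (dp hf).Ring}
  {v : PrimeDiv (under.obj (dp hf).scheme) → DV L} {pl : Aut (dp hf).scheme → L ≃+* L}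
  {inf : PrimeDiv (under.obj (dp hf).scheme)} {u s y : L} (K : SPack hf θ P v pl inf u s y)

include K

theorem theta_base (p : MvPolynomial (Fin 3) ℂ) : θ ((dp hf).base p) = aeval ![1, s, y] p := by
  rw [WHyp.base_apply, K.theta, aeval_rename]; rfl

theorem theta_u : θ ((dp hf).mk' (X 0)) = u := by rw [K.theta, aeval_X]; rfl

omit K in
theorem base_mem {p : MvPolynomial (Fin 3) ℂ} {d : ℕ} (hp : p.IsHomogeneous d) :
    (dp hf).base p ∈ (dp hf).piece d :=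
  (dp hf).mk_mem (hom_rename _ (fun j => by fin_cases j <;> rfl) hp)

theorem hom_inj {p : MvPolynomial (Fin 3) ℂ} {d : ℕ} (hp : p.IsHomogeneous d)
    (h : aeval ![1, s, y] p = 0) : p = 0 :=
  ((dp hf).quad (F := f) rfl).inj (K.chart.hm.inj (base_mem hp) (zero_mem _)
    (by rw [K.theta_base, h, map_zero]) |>.trans (map_zero _).symm)

theorem sq : u ^ 2 = aeval ![1, s, y] f := by
  rw [← K.theta_base, ← ((dp hf).quad (F := f) rfl).sq, map_pow, K.theta_u]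

theorem const (τ : Aut (dp hf).scheme) (c : ℂ) : pl τ (algebraMap ℂ L c) = algebraMap ℂ L c := by
  have := K.geo.pl_const τ c
  rwa [← (dp hf).mk'.commutes, K.theta, AlgHom.commutes] at this

theorem hom_ext {M : Type} [Field M] {k k' : L →+* M}
    (h0 : ∀ c, k (algebraMap ℂ L c) = k' (algebraMap ℂ L c)) (h1 : k u = k' u) (h2 : k s = k' s)
    (h3 : k y = k' y) (g : L) : k g = k' g := by
  have := K.dom
  refine K.chart.hom_ext (fun r => ?_) g
  obtain ⟨p, rfl⟩ := (dp hf).mk_surj r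
  rw [K.theta]
  refine DFunLike.congr_fun (f := k.comp (aeval ![u, 1, s, y]).toRingHom)
    (g := k'.comp (aeval ![u, 1, s, y]).toRingHom) (ringHom_ext (by simpa) fun i => ?_) p
  fin_cases i <;> simp [h1, h2, h3]

theorem real {g : Matrix (Fin 3) (Fin 3) ℂ} (hg : g.det ≠ 0) (h : lin g f = f) :
    ∃ τ, SAct g (pl τ) u s y := by
  have := K.dom
  let G : Matrix (Fin 3) (Fin 3) ℂ → Fin 4 → MvPolynomial (Fin 4) ℂ := fun g =>
    Fin.cons (X 0) fun j => rename Fin.succ (lin g (X j))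
  have h1 : ∀ g i, (G g i).IsWeightedHomogeneous (dp hf).wt ((dp hf).wt i) := fun g i => by
    refine Fin.cases (isWeightedHomogeneous_X ℂ _ 0) (fun j => ?_) i
    rw [show (dp hf).wt j.succ = 1 by fin_cases j <;> rfl]
    exact hom_rename Fin.succ (fun j => by fin_cases j <;> rfl) (lin_hom g (isHomogeneous_X ℂ j))
  have h2 : ∀ g p, aeval (G g) (rename Fin.succ p) = rename Fin.succ (lin g p) := fun g p =>
    DFunLike.congr_fun (f := (aeval (G g)).comp (rename Fin.succ))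
      (g := (rename Fin.succ).comp (lin g)) (algHom_ext fun j => by simp [G]) p
  obtain ⟨e, e1, e2, e3⟩ := (dp hf).exists_equiv (dp hf) rfl (G g) (G g⁻¹) (h1 g) (h1 g⁻¹)
    (Fin.cases (by simp [G]) fun j => (h2 _ _).trans (by rw [(lin_inv hg j).1, rename_X]))
    (Fin.cases (by simp [G]) fun j => (h2 _ _).trans (by rw [(lin_inv hg j).2, rename_X]))
    one_ne_zero (by
      change aeval _ (X 0 ^ 2 - rename _ f) = C 1 * (X 0 ^ 2 - rename _ f)
      rw [map_sub, h2, h]; simp [G])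
  obtain ⟨τ, hτ⟩ := K.geo.real e e2 e3
  have h3 : ∀ j, θ (e ((dp hf).base (X j))) = act g ![1, s, y] j := fun j => by
    rw [WHyp.base_apply, e1, h2, ← WHyp.base_apply, K.theta_base, aeval_lin_X]
  have h4 : θ (e ((dp hf).mk' (X 1))) = act g ![1, s, y] 0 := by
    rw [← h3, WHyp.base_apply, rename_X]; rfl
  refine ⟨τ, h4 ▸ K.chart.hm.ne (e2 _ _ K.chart.hm.hs) (by simpa using K.chart.hm.s_ne),
    fun i => ?_, ?_⟩
  · have := hτ _ _ (base_mem (isHomogeneous_X ℂ i))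
    rwa [K.theta_base, aeval_X, h3, h4, pow_one] at this
  · have := hτ _ _ ((dp hf).X_mem 0)
    rwa [h4, e1, aeval_X, show G g 0 = X 0 from rfl, K.theta_u] at this

theorem not_dvd (j : Fin 3) (hj : j ≠ 0) : ¬ (dp hf).mk' (X 1) ∣ (dp hf).mk' (X j.succ) := by
  have e1 : ∀ i, (dp hf).base (X i) = (dp hf).mk' (X i.succ) := fun i => by
    rw [WHyp.base_apply, rename_X]
  rw [show (dp hf).mk' (X 1) = _ from (e1 0).symm, ← e1, ((dp hf).quad (F := f) rfl).dvd_iff',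
    X_dvd_X]
  exact hj.symm

theorem v_inf_s : (v inf).v s = -1 := by
  have := K.dom
  simpa [K.theta] using K.chart.v_inf (d := 1) ((dp hf).X_mem 2) (K.not_dvd 1 one_ne_zero)

theorem v_inf_u : (v inf).v u = -2 := by
  have := K.dom
  have h := K.chart.v_inf ((dp hf).X_mem 0) fun h => by
    have h1 := (((dp hf).quad (F := f) rfl).dvd_iff (p := X 0) (x := 0) (y := 1)).mp
      (by simpa [WHyp.base_apply] using h)
    exact X_prime.not_dvd_one h1.2
  rwa [K.theta_u] at h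

theorem canonical (hs : IsSmoothForm f) (τ : Aut (dp hf).scheme)
    [DecidableEq (PrimeDiv (under.obj (dp hf).scheme))] : ∃ m ≠ 0, ∀ i, (v i).v m =
      (if i = inf then 1 else 0) - if primeMap (under.mapIso τ) i = inf then 1 else 0 := by
  have := K.dom
  have h1 := K.v_inf_s
  have h2 := K.v_inf_u
  have hs0 : s ≠ 0 := by rintro rfl; simp at h1
  have hu := K.chart.quadF.u_ne
  have h3 : ∀ l, (v inf).Ge 0 (![1 / s, y / s] l) := fun l => by
    fin_cases l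
    · exact DV.ge_one.div h1 (by norm_num)
    · exact DV.Ge.div (m := -1) (by simpa [K.theta] using K.chart.ge_inf (d := 1) ((dp hf).X_mem 3)) h1 le_rfl
  have h4 : (v inf).v (u / s ^ 2) = 0 := by rw [DV.v_div _ hu (pow_ne_zero 2 hs0), DV.v_pow]; omega
  have h5 : ∀ u', Reg (v inf) ![1 / s, y / s] u' 1 := fun u' => by
    simpa using Reg.const (w := v inf) (c := 1) (by simpa using DV.ge_one)
  refine K.chart.canonical K.theta (x := ![s, y]) (RingEquiv.refl _) (fun _ => rfl) rfl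
    (fun i hi h => ?_) h3 h4 (div_ne_zero hu (pow_ne_zero 2 hs0)) ?_
    (fun g => K.chart.reg_inf K.theta (j := 2) rfl (K.not_dvd 1 one_ne_zero) fun i => ?_)
    (fun D hD => ?_) { pl τ with commutes' := K.const τ } (K.geo.v_pl τ)
  · by_contra! h6
    have h7 := aff_prime hf hs
    have h8 : (v i).Ge 1 (aeval ![s, y] (aff f)) := by
      rw [show aeval ![s, y] (aff f) = u ^ 2 from K.chart.quadF.sq.symm]
      exact (h.pow 2).mono (by norm_num)
    exact h7.not_isUnit (aff_smooth hf hs dvd_rfl (K.chart.dvd_of_cen hi h7 h8 (h6 0))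
      (K.chart.dvd_of_cen hi h7 h8 (h6 1)))
  · rw [show (u / s ^ 2) ^ 2 = aeval ![1 / s, 1, y / s] f by
      rw [show ![1 / s, 1, y / s] = s⁻¹ • ![1, s, y] by simp [hs0, div_eq_inv_mul],
        aeval_smul_hom hf, ← K.sq]; field_simp]
    refine Reg.aeval (K.chart.ge_const K.theta inf) (fun i => ?_) f
    fin_cases i
    exacts [.coord (l := 0) (h3 0), h5 _, .coord (l := 1) (h3 1)]
  · fin_cases i
    · exact .root (Or.inr h4.ge)
    · simpa [dp] using Reg.coord (l := 0) (h3 0)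
    · simpa [dp, hs0] using h5 _
    · simpa [dp] using Reg.coord (l := 1) (h3 1)
  · have e : jac D ![1 / s, y / s] = -1 / s ^ 3 := by
      have a0 : D 0 s = 1 := hD 0 0
      have a1 : D 0 y = 0 := hD 0 1
      have a2 : D 1 s = 0 := hD 1 0
      have a3 : D 1 y = 1 := hD 1 1
      simp [jac, det_fin_two, Derivation.leibniz_div, Derivation.leibniz_inv, a0, a1, a2, a3]
      field_simp
    rw [e, show u * (-1 / s ^ 3) / (u / s ^ 2) = -s⁻¹ by field_simp]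
    exact ⟨div_ne_zero (by simp) (pow_ne_zero 3 hs0), by simp [h1]⟩

theorem aut (hs : IsSmoothForm f) (τ : Aut (dp hf).scheme) :
    ∃ g : Matrix (Fin 3) (Fin 3) ℂ, g.det ≠ 0 ∧ lin g f = f ∧ SAct g (pl τ) u s y := by
  classical
  have := K.dom
  obtain ⟨m, hm, h1⟩ := K.canonical hs τ
  have h2 := fun d r => K.chart.pull_sections K.theta (K.geo.v_pl τ) hm (k := 1) h1 d (r := r)
  simp only [mul_one] at h2
  have hw : (fun i : Fin 3 => (dp hf).wt i.succ) = 1 := by funext i; fin_cases i <;> rfl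
  let σ : L ≃ₐ[ℂ] L := { pl τ with commutes' := K.const τ }
  obtain ⟨g, hg, h3⟩ := exists_matrix (fun p hp => K.hom_inj hp) σ (m := m) fun i => by
    obtain ⟨_, ⟨p, hp, rfl⟩, e⟩ := h2 _ _ (base_mem (isHomogeneous_X ℂ i))
    obtain ⟨a, b, rfl, ha, -, hb⟩ := whom_split (show 1 < 2 * 2 by decide) hp
    rw [hw] at ha
    rw [hb (show 1 < 2 by decide), map_zero, zero_mul, add_zero, K.theta_base, aeval_X, pow_one] at e
    exact ⟨a, ha, e.trans (congrArg _ (K.theta_base a))⟩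
  obtain ⟨_, ⟨p, hp, rfl⟩, e⟩ := h2 2 _ ((dp hf).X_mem 0)
  have hp' := (dp hf).mk_mem hp
  obtain ⟨a, b, rfl, ha, hb, -⟩ := whom_split (show 2 < 2 * 2 by decide) hp
  rw [hw] at ha hb
  obtain ⟨c, rfl⟩ := whom_zero (by simp) hb
  have hq := (dp hf).quad (F := f) rfl
  have e1 : (dp hf).mk' (rename Fin.succ a + rename Fin.succ (C c) * X 0) =
    (dp hf).base a + (dp hf).base (C c) * (dp hf).mk' (X 0) := by simp [WHyp.base_apply]
  have e2 := congrArg σ K.sq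
  rw [map_pow, ← AlgEquiv.coe_toAlgHom σ, aeval_congr_of_hom, show (fun i => σ.toAlgHom (![1, s, y] i))
    = m • act g ![1, s, y] from funext h3, aeval_smul_hom hf, act, ← aeval_lin, ← K.theta_base] at e2
  rw [K.theta_u] at e
  have e3 := K.chart.hm.inj (d := 4) (SetLike.mul_mem_graded hp' hp')
    (base_mem (lin_hom g hf)) (mul_left_cancel₀ (pow_ne_zero 4 hm) (by
      rw [← e2, map_mul, show σ.toAlgHom u = _ from e, AlgHom.toLinearMap_apply]; ring))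
  rw [e1, hq.mul] at e3
  obtain ⟨e4, e5⟩ := hq.ext (x' := lin g f) (y' := 0) (by rw [e3, map_zero, zero_mul, add_zero])
  have hc : c ≠ 0 := by
    rintro rfl
    have h4 := prime_form (lin_hom g hf) (smooth_lin hs hg)
    rw [map_zero, zero_mul, zero_mul, add_zero] at e4
    exact h4.not_isUnit (e4 ▸ ((h4.irreducible.isUnit_or_isUnit e4.symm).elim
      (fun h => h.mul h) fun h => h.mul h))
  obtain rfl : a = 0 := by
    rw [mul_comm (C c), ← two_mul] at e5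
    simpa [hc] using e5
  obtain ⟨μ, hμ⟩ := IsAlgClosed.exists_pow_nat_eq c⁻¹ two_pos
  have hμ0 : μ ≠ 0 := by rintro rfl; exact inv_ne_zero hc (by simpa using hμ.symm)
  have hμ1 : algebraMap ℂ L μ ≠ 0 := by simpa using hμ0
  have h4 : m * act g ![1, s, y] 0 = 1 := (h3 0).symm.trans (map_one σ)
  have h5 := right_ne_zero_of_mul_eq_one h4
  have h6 : m = (act g ![1, s, y] 0)⁻¹ := eq_inv_of_mul_eq_one_left h4
  refine ⟨μ • g, by simp [hg, hμ0], ?_, ?_, fun i => ?_, ?_⟩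
  · rw [lin_smul _ _ hf, ← e4, show 4 = 2 * 2 from rfl, pow_mul, hμ, mul_zero, zero_add,
      ← map_mul, ← mul_assoc, ← map_mul, show c⁻¹ ^ 2 * (c * c) = 1 by field_simp, map_one, one_mul]
  · rw [act_smul]; exact mul_ne_zero hμ1 h5
  · rw [act_smul, Pi.smul_apply, Pi.smul_apply, smul_eq_mul, smul_eq_mul, mul_div_mul_left _ _ hμ1,
      div_eq_inv_mul, ← h6]
    exact h3 i
  · rw [e, act_smul, Pi.smul_apply, smul_eq_mul, mul_pow, ← map_pow, hμ, h6,
      AlgHom.toLinearMap_apply, K.theta]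
    simp [div_eq_inv_mul]
    ring

end SPack

end Pool.Agent.Work.MP_475c1a_ag
end

-- merged part: Pool.Agent.Work.MP_475c1a_ag.AutV
section
/-! Automorphisms of the Weierstrass threefold preserve the hyperplane class. -/

namespace Pool.Agent.Work.MP_475c1a_ag

open MvPolynomial Matrix CategoryTheory

set_option linter.unusedSectionVars false
set_option maxHeartbeats 400000

variable {L : Type} [Field L] [Algebra ℂ L]

theorem finSuccEquiv_pderiv {n : ℕ} (p : MvPolynomial (Fin (n + 1)) ℂ) :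
    finSuccEquiv ℂ n (pderiv 0 p) = Polynomial.derivative (finSuccEquiv ℂ n p) := by
  induction p using MvPolynomial.induction_on with
  | C c => simp [finSuccEquiv_apply]
  | add p q hp hq => simp only [map_add, hp, hq]
  | mul_X p i hp =>
    rw [Derivation.leibniz, map_add, map_mul, Polynomial.derivative_mul, smul_eq_mul, smul_eq_mul,
      map_mul, map_mul, hp]
    refine Fin.cases ?_ (fun i => ?_) i
    · simp [finSuccEquiv_X_zero]; ring
    · simp [finSuccEquiv_X_succ, pderiv_X_of_ne (Fin.succ_ne_zero i)]; ring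

theorem aeval_dual {A : Type} [CommRing A] [Algebra ℂ A] (α β : A) (p : MvPolynomial (Fin 3) ℂ) :
    aeval ![α, β] (dual p) = aeval ![-β, -α, 1] p := by
  rw [dual, aeval_congr_of_hom]
  congr 2
  funext i
  fin_cases i <;> simp

theorem dual_disc {I J : MvPolynomial (Fin 3) ℂ} (hI : I.IsHomogeneous 4) (hJ : J.IsHomogeneous 6)
    (hd : 4 * I ^ 3 - J ^ 2 ≠ 0) : 4 * dual I ^ 3 - dual J ^ 2 ≠ 0 := by
  have := dual_ne_zero (d := 12) (((hI.pow 3).C_mul 4).sub (hJ.pow 2)) hd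
  simpa [map_ofNat] using this

/-- The action of a matrix on the function field of the threefold. -/
structure VAct (g : Matrix (Fin 3) (Fin 3) ℂ) (σ : L → L) (W T α β : L) : Prop where
  ne : act g ![-β, -α, 1] 2 ≠ 0
  x : ∀ i, σ (![-β, -α, 1] i) = act g ![-β, -α, 1] i / act g ![-β, -α, 1] 2
  T : σ T = T / act g ![-β, -α, 1] 2 ^ 2
  W : σ W = W / act g ![-β, -α, 1] 2 ^ 3

namespace VPack

variable {I J : MvPolynomial (Fin 3) ℂ} {hI : I.IsHomogeneous 4} {hJ : J.IsHomogeneous 6}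
  {θ : (vc hI hJ).Ring →+* L} {P : PrimeDiv (under.obj (vc hI hJ).scheme) → Ideal (vc hI hJ).Ring}
  {v : PrimeDiv (under.obj (vc hI hJ).scheme) → DV L} {pl : Aut (vc hI hJ).scheme → L ≃+* L}
  {inf : PrimeDiv (under.obj (vc hI hJ).scheme)} {W T α β : L}
  (K : VPack hI hJ θ P v pl inf W T α β)

theorem base_mem {p : MvPolynomial (Fin 3) ℂ} {d : ℕ} (hp : p.IsHomogeneous d) :
    (vc hI hJ).mk' (rename (Fin.succ ∘ Fin.succ) p) ∈ (vc hI hJ).piece d :=
  (vc hI hJ).mk_mem (hom_rename _ (fun j => by fin_cases j <;> rfl) hp)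

theorem piece_split {d : ℕ} (hd : d < 4) {r : (vc hI hJ).Ring} (hr : r ∈ (vc hI hJ).piece d) :
    ∃ (a b : MvPolynomial (Fin 3) ℂ) (c : ℂ), a.IsHomogeneous d ∧ b.IsHomogeneous (d - 2) ∧
      (d < 2 → b = 0) ∧ (d < 3 → c = 0) ∧ r = (vc hI hJ).mk' (rename (Fin.succ ∘ Fin.succ) a +
        rename (Fin.succ ∘ Fin.succ) b * X 1 + C c * X 0) := by
  obtain ⟨p, hp, rfl⟩ := hr
  obtain ⟨x, y, rfl, h1, h2, h3⟩ := whom_split (show d < 2 * 3 by omega) hp
  obtain ⟨a, b, rfl, h4, h5, h6⟩ := whom_split (show d < 2 * 2 by omega) h1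
  have hw : (fun i : Fin 3 => (vc hI hJ).wt i.succ.succ) = 1 := by funext i; fin_cases i <;> rfl
  rw [hw] at h4 h5
  rw [show d - (vc hI hJ).wt 0 = 0 from Nat.sub_eq_zero_of_le (show d ≤ 3 by omega)] at h2
  obtain ⟨c, rfl⟩ := whom_zero (fun i => by fin_cases i <;> simp [vc]) h2
  exact ⟨a, b, c, h4, h5, h6, fun h => by simpa using h3 h, by simp⟩

include K

theorem theta_base (p : MvPolynomial (Fin 3) ℂ) :
    θ ((vc hI hJ).mk' (rename (Fin.succ ∘ Fin.succ) p)) = aeval ![-β, -α, 1] p := by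
  rw [K.theta, aeval_rename]; rfl

theorem theta_split (a b : MvPolynomial (Fin 3) ℂ) (c : ℂ) :
    θ ((vc hI hJ).mk' (rename (Fin.succ ∘ Fin.succ) a + rename (Fin.succ ∘ Fin.succ) b * X 1 +
      C c * X 0)) = aeval ![-β, -α, 1] a + aeval ![-β, -α, 1] b * T + algebraMap ℂ L c * W := by
  simp only [K.theta, map_add, map_mul, aeval_rename, aeval_C, aeval_X]
  rfl

theorem hom_inj {p : MvPolynomial (Fin 3) ℂ} {d : ℕ} (hp : p.IsHomogeneous d)
    (h : aeval ![-β, -α, 1] p = 0) : p = 0 := by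
  have := K.dom
  by_contra h0
  exact K.chart.quadF.ne0 (Polynomial.C_ne_zero.mpr (dual_ne_zero hp h0))
    (by simpa [aeval_dual] using h)

theorem sq : W ^ 2 = T ^ 3 - 27 * aeval ![-β, -α, 1] I * T - 27 * aeval ![-β, -α, 1] J := by
  have := K.dom
  simpa [cub, aeval_dual, map_ofNat] using K.chart.quadF.sq

theorem const (τ : Aut (vc hI hJ).scheme) (c : ℂ) : pl τ (algebraMap ℂ L c) = algebraMap ℂ L c := by
  have := K.geo.pl_const τ c
  rwa [← (vc hI hJ).mk'.commutes, K.theta, AlgHom.commutes] at this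

theorem hom_ext {M : Type} [Field M] {k k' : L →+* M}
    (h0 : ∀ c, k (algebraMap ℂ L c) = k' (algebraMap ℂ L c)) (h1 : k W = k' W) (h2 : k T = k' T)
    (h3 : k α = k' α) (h4 : k β = k' β) (g : L) : k g = k' g := by
  have := K.dom
  refine K.chart.hom_ext (fun r => ?_) g
  obtain ⟨p, rfl⟩ := (vc hI hJ).mk_surj r
  rw [K.theta]
  refine DFunLike.congr_fun (f := k.comp (aeval ![W, T, -β, -α, 1]).toRingHom)
    (g := k'.comp (aeval ![W, T, -β, -α, 1]).toRingHom) (ringHom_ext (by simpa) fun i => ?_) p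
  fin_cases i <;> simp [h1, h2, h3, h4]

omit K in
theorem not_dvd : ¬ (vc hI hJ).mk' (X 4) ∣ (vc hI hJ).mk' (X 3) ∧
    ¬ (vc hI hJ).mk' (X 4) ∣ (vc hI hJ).mk' (X 0) := by
  have hq := (vc hI hJ).quad (F := cub4 I J) rfl
  have e1 : ∀ i, (vc hI hJ).base (X i) = (vc hI hJ).mk' (X i.succ) := fun i => by
    rw [WHyp.base_apply, rename_X]
  rw [show (vc hI hJ).mk' (X 4) = _ from (e1 3).symm, show (vc hI hJ).mk' (X 3) = _ from (e1 2).symm,
    hq.dvd_iff', X_dvd_X]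
  exact ⟨by decide, fun h => X_prime.not_dvd_one
    ((hq.dvd_iff (p := X 3) (x := 0) (y := 1)).mp (by simpa using h)).2⟩

theorem v_inf_alpha : (v inf).v α = -1 := by
  have := K.dom
  simpa [K.theta] using K.chart.v_inf (d := 1) ((vc hI hJ).X_mem 3) not_dvd.1

theorem vertical {i : PrimeDiv (under.obj (vc hI hJ).scheme)} (hi : i ≠ inf)
    {q : MvPolynomial (Fin 2) ℂ} (hq : q ≠ 0) (h : (v i).Ge 1 (aeval ![α, β] q)) :
    ∃ p : MvPolynomial (Fin 2) ℂ, Prime p ∧ (v i).v (aeval ![α, β] p) = 1 ∧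
      ∀ k ≠ inf, k ≠ i → (v k).v (aeval ![α, β] p) = 0 := by
  have := K.dom
  obtain ⟨p, hp, -, h1⟩ := DV.exists_prime (j := (aeval ![α, β]).toRingHom)
    (fun p => by simpa using K.chart.reg_b hi (Polynomial.C p)) hq h
  have h2 := K.chart.v_prime hi (Polynomial.prime_C_iff.mpr hp) (cub_odd hp _ _)
    (by simpa using h1)
  rw [bV_C] at h2
  exact ⟨p, hp, h2⟩

theorem canonical (hd : 4 * I ^ 3 - J ^ 2 ≠ 0) (τ : Aut (vc hI hJ).scheme)
    [DecidableEq (PrimeDiv (under.obj (vc hI hJ).scheme))] : ∃ m ≠ 0, ∀ i, (v i).v m =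
      (if i = inf then 2 else 0) - if primeMap (under.mapIso τ) i = inf then 2 else 0 := by
  have := K.dom
  have h1 : (v inf).v (-α) = -1 := by rw [DV.v_neg, K.v_inf_alpha]
  have h2 : (v inf).v W = -3 := by
    simpa [K.theta] using K.chart.v_inf (d := 3) ((vc hI hJ).X_mem 0) not_dvd.2
  have hα : α ≠ 0 := by rintro rfl; simp at h1
  have hs0 : -α ≠ 0 := neg_ne_zero.mpr hα
  have hu := K.chart.quadF.u_ne
  have h3 : ∀ l, (v inf).Ge 0 (![T / (-α) ^ 2, -β / -α, 1 / -α] l) := fun l => by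
    fin_cases l
    · exact DV.Ge.div (m := -2) (by
        simpa [K.theta] using K.chart.ge_inf (d := 2) ((vc hI hJ).X_mem 1)) rfl
        (by rw [DV.v_pow]; omega)
    · exact DV.Ge.div (m := -1) (by
        simpa [K.theta] using K.chart.ge_inf (d := 1) ((vc hI hJ).X_mem 2)) h1 le_rfl
    · exact DV.ge_one.div h1 (by norm_num)
  have h4 : (v inf).v (W / (-α) ^ 3) = 0 := by
    rw [DV.v_div _ hu (pow_ne_zero 3 hs0), DV.v_pow]; omega
  have h5 : ∀ u' (i : Fin 4), Reg (v inf) ![T / (-α) ^ 2, -β / -α, 1 / -α] u'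
      (![W, T, -β, -α, 1] i.succ / (-α) ^ (vc hI hJ).wt i.succ) := fun u' i => by
    fin_cases i
    · exact Reg.coord (l := 0) (h3 0)
    · simpa [vc] using Reg.coord (l := 1) (h3 1)
    · simpa [vc, hα] using Reg.const (w := v inf) (c := 1) (by simpa using DV.ge_one)
    · simpa [vc] using Reg.coord (l := 2) (h3 2)
  have he : ∀ p, aeval ![T, α, β] p = bV α β T ((finSuccEquiv ℂ 2).toRingEquiv p) :=
    fun p => DFunLike.congr_fun (f := (aeval ![T, α, β]).toRingHom) (g := (bV α β T).comp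
      (finSuccEquiv ℂ 2).toRingEquiv.toRingHom)
      (ringHom_ext (fun c => by simp [finSuccEquiv_apply]) <| Fin.cases
        (by simp [finSuccEquiv_X_zero]) fun i => by simp [finSuccEquiv_X_succ]) p
  refine K.chart.canonical K.theta (finSuccEquiv ℂ 2).toRingEquiv he rfl
    (fun i hi h => ⟨0, fun h6 => ?_⟩) h3 h4 (div_ne_zero hu (pow_ne_zero 3 hs0)) ?_
    (fun g => K.chart.reg_inf K.theta (j := 3) rfl not_dvd.1
      (Fin.cases (.root (Or.inr h4.ge)) (h5 _)))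
    (fun D hD => ?_) { pl τ with commutes' := K.const τ } (K.geo.v_pl τ)
  · have hΔ := dual_disc hI hJ hd
    rw [he, show (finSuccEquiv ℂ 2).toRingEquiv (pderiv 0 _) = _ from finSuccEquiv_pderiv _,
      show finSuccEquiv ℂ 2 _ = _ from (finSuccEquiv ℂ 2).toRingEquiv.apply_symm_apply _] at h6
    have h7 := (h.pow 2).mono (show (1 : ℤ) ≤ _ by norm_num)
    rw [K.chart.quadF.sq] at h7
    obtain ⟨x, y, e⟩ := cub_disc (dual I) (dual J)
    have h8 := ((K.chart.reg_b hi x).mul_left h7).add ((K.chart.reg_b hi y).mul_left h6)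
    rw [← map_mul, ← map_mul, ← map_add, e] at h8
    obtain ⟨p, hp, h9, -⟩ := K.vertical hi (mul_ne_zero (pow_ne_zero 9 (OfNat.ofNat_ne_zero 3)) hΔ)
      (bV_C α β T _ ▸ h8)
    have hp' := Polynomial.prime_C_iff.mpr hp
    exact hp'.not_isUnit (isUnit_of_dvd_cub hΔ
      (K.chart.dvd_of_cen hi hp' (Or.inr (by simp [h9])) h7)
      (K.chart.dvd_of_cen hi hp' (Or.inr (by simp [h9])) h6))
  · have e := whom_scale ![W, T, -β, -α, 1] (-α) (vc hI hJ).hom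
    rw [← K.theta, (vc hI hJ).mk_eq_zero.mpr dvd_rfl, map_zero, zero_div,
      show (vc hI hJ).eqn = X 0 ^ 2 - rename Fin.succ (cub4 I J) from rfl, map_sub, map_pow,
      aeval_X, sub_eq_zero, aeval_rename] at e
    exact e ▸ Reg.aeval (K.chart.ge_const K.theta inf) (h5 0) _
  · have e : jac D ![T / (-α) ^ 2, -β / -α, 1 / -α] = -1 / α ^ 5 := by
      have a0 : ∀ k, D k T = if k = 0 then 1 else 0 := fun k => hD k 0
      have a1 : ∀ k, D k α = if k = 1 then 1 else 0 := fun k => hD k 1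
      have a2 : ∀ k, D k β = if k = 2 then 1 else 0 := fun k => hD k 2
      simp [jac, det_fin_three, Derivation.leibniz_div, Derivation.leibniz_inv, a0, a1, a2]
      field_simp
    rw [e, show W * (-1 / α ^ 5) / (W / (-α) ^ 3) = α⁻¹ ^ 2 by field_simp]
    exact ⟨div_ne_zero (by simp) (pow_ne_zero 5 hα), by simp [K.v_inf_alpha]⟩

end VPack

end Pool.Agent.Work.MP_475c1a_ag
end

-- merged part: Pool.Agent.Work.MP_475c1a_ag.AutV2
section
/-! Automorphisms of the Weierstrass threefold are linear. -/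

namespace Pool.Agent.Work.MP_475c1a_ag

open MvPolynomial Matrix CategoryTheory

set_option linter.unusedSectionVars false
set_option maxHeartbeats 400000

variable {L : Type} [Field L] [Algebra ℂ L]

theorem cubic_zero {A : Type} [CommRing A] {a b c d : A} (h : Polynomial.C a + Polynomial.C b *
    Polynomial.X ^ 1 + Polynomial.C c * Polynomial.X ^ 2 + Polynomial.C d * Polynomial.X ^ 3 = 0) :
    a = 0 ∧ b = 0 ∧ c = 0 ∧ d = 0 := by
  have h1 := fun n => congrArg (Polynomial.coeff · n) h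
  simp only [Polynomial.coeff_add, Polynomial.coeff_C_mul_X_pow, Polynomial.coeff_C] at h1
  exact ⟨by simpa using h1 0, by simpa using h1 1, by simpa using h1 2, by simpa using h1 3⟩

namespace VPack

variable {I J : MvPolynomial (Fin 3) ℂ} {hI : I.IsHomogeneous 4} {hJ : J.IsHomogeneous 6}
  {θ : (vc hI hJ).Ring →+* L} {P : PrimeDiv (under.obj (vc hI hJ).scheme) → Ideal (vc hI hJ).Ring}
  {v : PrimeDiv (under.obj (vc hI hJ).scheme) → DV L} {pl : Aut (vc hI hJ).scheme → L ≃+* L}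
  {inf : PrimeDiv (under.obj (vc hI hJ).scheme)} {W T α β : L}
  (K : VPack hI hJ θ P v pl inf W T α β)

include K

theorem pull_two {τ : Aut (vc hI hJ).scheme} [DecidableEq (PrimeDiv (under.obj (vc hI hJ).scheme))]
    {m : L} (hm : m ≠ 0) {k d : ℕ} (hk : d * k = 2) (h : ∀ i, (v i).v m = (if i = inf then (k : ℤ)
      else 0) - if primeMap (under.mapIso τ) i = inf then (k : ℤ) else 0) {r : (vc hI hJ).Ring}
    (hr : r ∈ (vc hI hJ).piece 2) : ∃ (q : MvPolynomial (Fin 3) ℂ) (c : ℂ), q.IsHomogeneous 2 ∧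
      pl τ (θ r) = m ^ d * (aeval ![-β, -α, 1] q + algebraMap ℂ L c * T) := by
  have := K.dom
  obtain ⟨p, hp, e⟩ := K.chart.pull_sections K.theta (K.geo.v_pl τ) hm h d (hk ▸ hr)
  obtain ⟨a, b, c, h1, h2, -, h3, rfl⟩ := piece_split (d := 2) (by decide) (hk ▸ hp)
  obtain ⟨b, rfl⟩ := whom_zero (by simp) h2
  exact ⟨a, b, h1, by rw [e, K.theta_split, h3 (by decide)]; simp⟩

theorem canonical_one (hd : 4 * I ^ 3 - J ^ 2 ≠ 0) (τ : Aut (vc hI hJ).scheme)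
    [DecidableEq (PrimeDiv (under.obj (vc hI hJ).scheme))] : ∃ m ≠ 0, ∀ i, (v i).v m =
      (if i = inf then 1 else 0) - if primeMap (under.mapIso τ) i = inf then 1 else 0 := by
  have := K.dom
  obtain ⟨m, hm, h1⟩ := K.canonical hd τ
  obtain ⟨j, hj⟩ : ∃ j, ∀ i, primeMap (under.mapIso τ) i = inf ↔ i = j :=
    ⟨primeMap (under.mapIso τ).symm inf, fun i => ⟨fun h => by rw [← h, primeMap_symm],
      fun h => h ▸ primeMap_symm (under.mapIso τ).symm inf⟩⟩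
  simp only [hj] at h1 ⊢
  by_cases h2 : j = inf
  · exact ⟨1, one_ne_zero, by simp [h2]⟩
  have h3 := fun i k => K.pull_two (τ := τ) hm (k := 2) (d := 1) rfl (by simp only [hj]; exact h1)
    (base_mem ((isHomogeneous_X ℂ i).mul (isHomogeneous_X ℂ k)))
  simp only [K.theta_base, pow_one, map_mul, aeval_X] at h3
  obtain ⟨q, c, -, e⟩ := h3 2 2
  obtain ⟨q', c', -, e'⟩ := h3 0 2
  obtain ⟨q'', c'', -, e''⟩ := h3 0 0
  simp only [cons_val, map_one, mul_one, ← aeval_dual] at e e' e''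
  obtain rfl : c = 0 := by
    by_contra hc
    have h4 : ∀ q c, aeval ![α, β] q + algebraMap ℂ L c * T =
      bV α β T (Polynomial.C q + Polynomial.C (C c) * Polynomial.X) := fun q c => by simp
    rw [h4] at e e' e''
    have h5 := K.chart.quadF.inj (a₁ := (Polynomial.C (dual q) + Polynomial.C (C c) * Polynomial.X) *
      (Polynomial.C (dual q'') + Polynomial.C (C c'') * Polynomial.X))
      (a₂ := (Polynomial.C (dual q') + Polynomial.C (C c') * Polynomial.X) ^ 2)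
      (mul_left_cancel₀ (pow_ne_zero 2 hm) (by
        rw [map_mul, map_pow, ← mul_pow, ← e', pow_two, pow_two, mul_mul_mul_comm, ← e, ← e'',
          one_mul]))
    have h6 := congrArg (Polynomial.eval (-C c⁻¹ * dual q)) h5
    have h7 : (C c : MvPolynomial (Fin 2) ℂ) * C c⁻¹ = 1 := by rw [← map_mul, mul_inv_cancel₀ hc, map_one]
    simp only [Polynomial.eval_mul, Polynomial.eval_add, Polynomial.eval_C, Polynomial.eval_X,
      Polynomial.eval_pow] at h6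
    rw [show dual q + C c * (-C c⁻¹ * dual q) = 0 by linear_combination -dual q * h7, zero_mul,
      eq_comm, pow_eq_zero_iff two_ne_zero] at h6
    have h8 : pl τ (-β) = pl τ (algebraMap ℂ L (c' * c⁻¹)) := by
      rw [K.const, e', ← mul_one (algebraMap ℂ L _), e, mul_left_comm]
      congr 1
      rw [← aeval_C ![α, β], ← bV_C α β T, ← map_mul]
      congr 1
      have h9 := congrArg Polynomial.C h6
      have h10 := congrArg Polynomial.C h7
      simp only [map_mul, map_add, map_neg, map_one, map_zero] at h9 h10 ⊢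
      linear_combination h9 - Polynomial.C (C c') * Polynomial.X * h10
    have h9 := K.hom_inj (p := X 0 - C (c' * c⁻¹) * X 2)
      ((isHomogeneous_X ℂ 0).sub ((isHomogeneous_X ℂ 2).C_mul _))
      (by simp [(pl τ).injective h8])
    simpa using congrArg (eval ![1, 0, 0]) h9
  rw [map_zero, zero_mul, add_zero] at e
  have h4 := congrArg (v j).v e
  have h5 := right_ne_zero_of_mul_eq_one e.symm
  rw [DV.v_mul _ hm h5, h1, DV.v_one, if_neg h2, if_pos rfl] at h4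
  obtain ⟨p, hp, h6, h7⟩ := K.vertical h2 (q := dual q) (fun h => h5 (by rw [h, map_zero]))
    (Or.inr (by omega))
  have h8 : aeval ![α, β] p ≠ 0 := fun h => by simp [h] at h6
  have h9 := K.chart.v_inf_eq_zero (g := m * aeval ![α, β] p ^ 2) fun i hi => by
    rw [DV.v_mul _ hm (pow_ne_zero 2 h8), DV.v_pow, h1, if_neg hi]
    by_cases h : i = j
    · simp [h, h6]
    · simp [h, h7 i hi h]
  rw [DV.v_mul _ hm (pow_ne_zero 2 h8), DV.v_pow, h1, if_pos rfl, if_neg (Ne.symm h2)] at h9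
  refine ⟨_, inv_ne_zero h8, fun i => ?_⟩
  rw [DV.v_inv]
  by_cases h : i = j
  · simp [h, h6, h2]
  by_cases hi : i = inf
  · rw [if_pos hi, if_neg h, hi]; omega
  · simp [h, hi, h7 i hi h]

theorem aut (hd : 4 * I ^ 3 - J ^ 2 ≠ 0) (τ : Aut (vc hI hJ).scheme) :
    ∃ g : Matrix (Fin 3) (Fin 3) ℂ, g.det ≠ 0 ∧ lin g I = I ∧ lin g J = J ∧
      VAct g (pl τ) W T α β := by
  classical
  have := K.dom
  obtain ⟨m, hm, h1⟩ := K.canonical_one hd τ
  have h2 := fun d r => K.chart.pull_sections K.theta (K.geo.v_pl τ) hm (k := 1) h1 d (r := r)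
  simp only [mul_one] at h2
  let σ : L ≃ₐ[ℂ] L := { pl τ with commutes' := K.const τ }
  obtain ⟨g, hg, h3⟩ := exists_matrix (fun p hp => K.hom_inj hp) σ (m := m) fun i => by
    obtain ⟨p, hp, e⟩ := h2 _ _ (base_mem (isHomogeneous_X ℂ i))
    obtain ⟨a, b, c, a1, -, a2, a3, rfl⟩ := piece_split (by decide) hp
    rw [K.theta_split, a2 (by decide), a3 (by decide), K.theta_base, aeval_X] at e
    exact ⟨a, a1, e.trans (by simp)⟩
  have h4 : ∀ {d} {p : MvPolynomial (Fin 3) ℂ}, p.IsHomogeneous d →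
      σ (aeval ![-β, -α, 1] p) = m ^ d * aeval ![-β, -α, 1] (lin g p) := fun hp => by
    rw [← AlgEquiv.coe_toAlgHom σ, aeval_congr_of_hom, show (fun i => σ.toAlgHom (![-β, -α, 1] i))
      = m • act g ![-β, -α, 1] from funext h3, aeval_smul_hom hp, act, aeval_lin]
  obtain ⟨q, c, hq, e⟩ := K.pull_two hm (k := 1) (d := 2) rfl h1 ((vc hI hJ).X_mem 1)
  obtain ⟨p, hp, e'⟩ := h2 3 _ ((vc hI hJ).X_mem 0)
  obtain ⟨a, b, d, ha, hb, -, -, rfl⟩ := piece_split (by decide) hp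
  rw [K.theta, aeval_X] at e e'
  replace e : σ T = _ := e
  replace e' : σ W = _ := e'
  have hc : c ≠ 0 := by
    rintro rfl
    rw [map_zero, zero_mul, add_zero, ← lin_one q, ← nonsing_inv_mul _ hg.isUnit, ← lin_lin,
      ← h4 (lin_hom _ hq), σ.injective.eq_iff, ← aeval_dual, ← bV_C α β T] at e
    exact Polynomial.X_ne_C _ (K.chart.quadF.inj ((bV_X α β T).trans e))
  obtain ⟨A, hA, a1, a2⟩ := vc_quad hI hJ
  have e1 := congrArg σ K.sq
  simp only [map_sub, map_mul, map_pow, map_ofNat, h4 hI, h4 hJ] at e1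
  have hT : (vc hI hJ).mk' (rename (Fin.succ ∘ Fin.succ) q + C c * X 1) ∈ (vc hI hJ).piece 2 := by
    rw [map_add]
    exact add_mem (base_mem hq) ((vc hI hJ).mk_mem ((isWeightedHomogeneous_X ℂ _ 1).C_mul c))
  have e2 := K.chart.hm.inj (d := 6) (SetLike.mul_mem_graded hp hp) (sub_mem (sub_mem
    (SetLike.pow_mem_graded 3 hT) (SetLike.mul_mem_graded (base_mem ((lin_hom g hI).C_mul 27)) hT))
    (base_mem ((lin_hom g hJ).C_mul 27))) (mul_left_cancel₀ (pow_ne_zero 6 hm) (by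
      rw [e, e'] at e1
      simp only [map_sub, map_mul θ, map_pow, K.theta_base]
      simp only [map_mul, map_add, K.theta_base, K.theta (X 1), K.theta (C c), aeval_X, aeval_C,
        map_ofNat, cons_val] at e1 ⊢
      linear_combination e1))
  have a3 : ∀ c, (vc hI hJ).mk' (C c) = A (Polynomial.C (C c)) := fun c => by rw [a2, rename_C]
  simp only [map_add (vc hI hJ).mk', map_mul (vc hI hJ).mk', ← a2, ← a1, a3] at e2
  simp only [← map_mul A, ← map_add A, ← map_pow A, ← map_sub A] at e2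
  rw [hA.mul] at e2
  have e5 : ∀ x, A x = A x + A 0 * (vc hI hJ).mk' (X 0) := fun x => by simp
  obtain ⟨e3, e4⟩ := hA.ext (e2.trans (e5 _))
  obtain ⟨f0, f1, f2, f3⟩ := cubic_zero (a := a ^ 2 - 27 * C d ^ 2 * J - q ^ 3 + 27 * lin g I * q +
      27 * lin g J) (b := 2 * a * b - 27 * C d ^ 2 * I - 3 * q ^ 2 * C c + 27 * lin g I * C c)
      (c := b ^ 2 - 3 * q * C c ^ 2) (d := C d ^ 2 - C c ^ 3) (by
    simp only [cub, map_add, map_sub, map_mul, map_pow, map_ofNat] at e3 ⊢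
    linear_combination e3)
  have f4 : d ^ 2 = c ^ 3 := C_injective (Fin 3) ℂ (by rw [map_pow, map_pow, ← sub_eq_zero, f3])
  have hd0 : d ≠ 0 := by rintro rfl; exact pow_ne_zero 3 hc (by simpa using f4.symm)
  obtain ⟨rfl, rfl, -⟩ := cubic_zero (a := a) (b := b) (c := 0) (d := 0) (by
    rw [mul_comm (Polynomial.C (C d)), ← two_mul] at e4
    simpa [hd0] using e4)
  obtain rfl : q = 0 := by simpa [hc] using f2
  have g1 : (c / d) ^ 2 * c = 1 := by rw [div_pow, f4]; field_simp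
  have g2 : (c / d) ^ 3 * d = 1 := by rw [div_pow, ← f4]; field_simp
  have hμ0 : c / d ≠ 0 := div_ne_zero hc hd0
  have hμ1 : algebraMap ℂ L (c / d) ≠ 0 := (map_ne_zero _).mpr hμ0
  have h5 : m * act g ![-β, -α, 1] 2 = 1 := (h3 2).symm.trans (map_one σ)
  have h6 := right_ne_zero_of_mul_eq_one h5
  have h7 : m = (act g ![-β, -α, 1] 2)⁻¹ := eq_inv_of_mul_eq_one_left h5
  have g3 := congrArg (C (σ := Fin 3)) g1
  have g4 := congrArg (C (σ := Fin 3)) g2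
  have g5 := congrArg (algebraMap ℂ L) g1
  have g6 := congrArg (algebraMap ℂ L) g2
  rw [map_mul, map_pow, map_one] at g3 g4 g5 g6
  have h27 : (27 : MvPolynomial (Fin 3) ℂ) ≠ 0 := OfNat.ofNat_ne_zero 27
  refine ⟨(c / d) • g, by simp [hg, hc, hd0], ?_, ?_, ?_, fun i => ?_, ?_, ?_⟩
  · rw [lin_smul _ _ hI, map_pow]
    apply mul_left_cancel₀ h27
    linear_combination C (c / d) ^ 6 * f1 - 27 * C (c / d) ^ 4 * lin g I * g3 +
      27 * I * (C (c / d) ^ 3 * C d + 1) * g4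
  · rw [lin_smul _ _ hJ, map_pow]
    apply mul_left_cancel₀ h27
    linear_combination C (c / d) ^ 6 * f0 + 27 * J * (C (c / d) ^ 3 * C d + 1) * g4
  · rw [act_smul]; exact mul_ne_zero hμ1 h6
  · rw [act_smul, Pi.smul_apply, Pi.smul_apply, smul_eq_mul, smul_eq_mul, mul_div_mul_left _ _ hμ1,
      div_eq_inv_mul, ← h7]
    exact h3 i
  · rw [act_smul, Pi.smul_apply, smul_eq_mul, eq_div_iff (pow_ne_zero 2 (mul_ne_zero hμ1 h6))]
    refine (congrArg (· * _) e).trans ?_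
    simp only [map_zero, zero_add]
    linear_combination (m * act g ![-β, -α, 1] 2) ^ 2 * T * g5 +
      T * (m * act g ![-β, -α, 1] 2 + 1) * h5
  · rw [act_smul, Pi.smul_apply, smul_eq_mul, eq_div_iff (pow_ne_zero 3 (mul_ne_zero hμ1 h6))]
    refine (congrArg (· * _) e').trans ?_
    rw [K.theta_split]
    simp only [map_zero, zero_add, zero_mul]
    linear_combination (m * act g ![-β, -α, 1] 2) ^ 3 * W * g6 +
      W * ((m * act g ![-β, -α, 1] 2) ^ 2 + m * act g ![-β, -α, 1] 2 + 1) * h5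

theorem real {g : Matrix (Fin 3) (Fin 3) ℂ} (hg : g.det ≠ 0) (h : lin g I = I) (h' : lin g J = J) :
    ∃ τ, VAct g (pl τ) W T α β := by
  have := K.dom
  let G : Matrix (Fin 3) (Fin 3) ℂ → Fin 5 → MvPolynomial (Fin 5) ℂ := fun g =>
    Fin.cons (X 0) (Fin.cons (X 1) fun j => rename (Fin.succ ∘ Fin.succ) (lin g (X j)))
  have h1 : ∀ g i, (G g i).IsWeightedHomogeneous (vc hI hJ).wt ((vc hI hJ).wt i) := fun g i => by
    refine Fin.cases (isWeightedHomogeneous_X ℂ _ 0) (Fin.cases (isWeightedHomogeneous_X ℂ _ 1)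
      fun j => ?_) i
    rw [show (vc hI hJ).wt j.succ.succ = 1 by fin_cases j <;> rfl]
    exact hom_rename _ (fun j => by fin_cases j <;> rfl) (lin_hom g (isHomogeneous_X ℂ j))
  have h2 : ∀ g p, aeval (G g) (rename (Fin.succ ∘ Fin.succ) p) =
      rename (Fin.succ ∘ Fin.succ) (lin g p) := fun g p =>
    DFunLike.congr_fun (f := (aeval (G g)).comp (rename (Fin.succ ∘ Fin.succ)))
      (g := (rename (Fin.succ ∘ Fin.succ)).comp (lin g)) (algHom_ext fun j => by simp [G]) p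
  obtain ⟨e, e1, e2, e3⟩ := (vc hI hJ).exists_equiv (vc hI hJ) rfl (G g) (G g⁻¹) (h1 g) (h1 g⁻¹)
    (Fin.cases (aeval_X _ _) (Fin.cases (aeval_X _ _) fun j =>
      (h2 _ _).trans (by rw [(lin_inv hg j).1, rename_X]; rfl)))
    (Fin.cases (aeval_X _ _) (Fin.cases (aeval_X _ _) fun j =>
      (h2 _ _).trans (by rw [(lin_inv hg j).2, rename_X]; rfl)))
    one_ne_zero (by
      change aeval _ (X 0 ^ 2 - rename _ (cub4 I J)) = C 1 * (X 0 ^ 2 - rename _ (cub4 I J))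
      simp only [cub4, map_sub, map_mul, map_pow, rename_rename, h2, h, h', rename_X, aeval_X,
        map_ofNat, map_one, one_mul]
      rfl)
  obtain ⟨τ, hτ⟩ := K.geo.real e e2 e3
  have h3 : ∀ j, θ (e ((vc hI hJ).mk' (rename (Fin.succ ∘ Fin.succ) (X j)))) =
      act g ![-β, -α, 1] j := fun j => by rw [e1, h2, K.theta_base, aeval_lin_X]
  have h4 : θ (e ((vc hI hJ).mk' (X 4))) = act g ![-β, -α, 1] 2 := by rw [← h3, rename_X]; rfl
  refine ⟨τ, h4 ▸ K.chart.hm.ne (e2 _ _ K.chart.hm.hs) (by simpa using K.chart.hm.s_ne),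
    fun i => ?_, ?_, ?_⟩
  · have := hτ _ _ (base_mem (isHomogeneous_X ℂ i))
    rwa [K.theta_base, aeval_X, h3, h4, pow_one] at this
  · have := hτ _ _ ((vc hI hJ).X_mem 1)
    rwa [h4, e1, aeval_X, show G g 1 = X 1 from rfl, K.theta, aeval_X] at this
  · have := hτ _ _ ((vc hI hJ).X_mem 0)
    rwa [h4, e1, aeval_X, show G g 0 = X 0 from rfl, K.theta, aeval_X] at this

end VPack

end Pool.Agent.Work.MP_475c1a_ag
end

-- merged part: Pool.Agent.Work.MP_475c1a_ag.Big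
section
/-! The function field of the variety of pairs of a point and a line through it. -/

namespace Pool.Agent.Work.MP_475c1a_ag

open Polynomial

set_option linter.unusedSectionVars false
set_option maxHeartbeats 400000

section QuadF

variable {B M : Type} [CommRing B] [IsDomain B] [Field M] {ι : B →+* M} {u : M} {F : B}

/-- The ring generated by the base ring and the square root. -/
def quadRing (ι : B →+* M) {u : M} {F : B} (h : u ^ 2 = ι F) : Subring M where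
  carrier := {g | ∃ x y, g = ι x + ι y * u}
  mul_mem' := by
    rintro _ _ ⟨x, y, rfl⟩ ⟨x', y', rfl⟩
    exact ⟨x * x' + y * y' * F, x * y' + y * x', by simp only [map_add, map_mul, ← h]; ring⟩
  one_mem' := ⟨1, 0, by simp⟩
  add_mem' := by
    rintro _ _ ⟨x, y, rfl⟩ ⟨x', y', rfl⟩
    exact ⟨x + x', y + y', by simp only [map_add]; ring⟩
  zero_mem' := ⟨0, 0, by simp⟩
  neg_mem' := by
    rintro _ ⟨x, y, rfl⟩
    exact ⟨-x, -y, by simp only [map_neg]; ring⟩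

theorem base_mem_quadRing (h : u ^ 2 = ι F) (x : B) : ι x ∈ quadRing ι h := ⟨x, 0, by simp⟩

theorem root_mem_quadRing (h : u ^ 2 = ι F) : u ∈ quadRing ι h := ⟨0, 1, by simp⟩

theorem QuadF.quad (h : QuadF ι u F) :
    Quad (ι.codRestrict _ (base_mem_quadRing h.sq)) ⟨u, root_mem_quadRing h.sq⟩ F :=
  ⟨Subtype.ext h.sq, fun e => h.indep (congrArg Subtype.val e),
    fun ⟨_, x, y, e⟩ => ⟨x, y, Subtype.ext e⟩⟩

theorem QuadF.of_gen (h1 : u ^ 2 = ι F) (h2 : ∀ {x y}, ι x + ι y * u = 0 → x = 0 ∧ y = 0)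
    (h3 : ∀ S : Subfield M, (∀ x, ι x ∈ S) → u ∈ S → ∀ g, g ∈ S) : QuadF ι u F := by
  have h0 : ∀ {z}, z ≠ 0 → ι z ≠ 0 := fun hz e => hz (h2 (y := 0) (by simp [e])).1
  refine ⟨h1, h2, fun g => ?_⟩
  obtain ⟨_, ⟨x, y, rfl⟩, _, ⟨x', y', rfl⟩, rfl⟩ := Subfield.mem_closure_iff.mp
    (h3 (Subfield.closure (quadRing ι h1 : Set M)) (fun x => Subfield.subset_closure
      (base_mem_quadRing h1 x)) (Subfield.subset_closure (root_mem_quadRing h1)) g) |>.imp
      fun _ h => h.imp (fun h => (Subring.closure_eq _).le h) fun h => h.imp fun _ h =>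
        h.imp (fun h => (Subring.closure_eq _).le h) id
  by_cases e : ι x' + ι y' * u = 0
  · exact ⟨0, 0, 1, one_ne_zero, by simp [e]⟩
  have e1 : ι x' + ι (-y') * u ≠ 0 := fun e1 => by
    obtain ⟨rfl, e2⟩ := h2 e1
    exact e (by simp [neg_eq_zero.mp e2])
  have e2 : (ι x' + ι y' * u) * (ι x' + ι (-y') * u) = ι (x' ^ 2 - y' ^ 2 * F) := by
    simp only [map_sub, map_mul, map_pow, map_neg, ← h1]; ring
  obtain ⟨a, b, e3⟩ := (quadRing ι h1).mul_mem ⟨x, y, rfl⟩ ⟨x', -y', rfl⟩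
  refine ⟨a, b, x' ^ 2 - y' ^ 2 * F, fun e4 => mul_ne_zero e e1 (by rw [e2, e4, map_zero]), ?_⟩
  rw [← e3, ← e2, mul_div_mul_right _ _ e1]

theorem QuadF.localize (h : QuadF ι u F) {B' : Type} [CommRing B'] [IsDomain B'] {ι' : B' →+* M}
    {m : B →+* B'} (h1 : ∀ x, ι' (m x) = ι x) (h2 : ∀ x', ∃ c ≠ 0, ∃ x, m c * x' = m x) :
    QuadF ι' u (m F) := by
  have h3 : ∀ {c}, c ≠ 0 → m c ≠ 0 := fun hc e => h.ne0 hc (by rw [← h1, e, map_zero])
  refine ⟨h1 F ▸ h.sq, fun {x y} e => ?_, fun g => ?_⟩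
  · obtain ⟨c, hc, x', hx⟩ := h2 x
    obtain ⟨d, hd, y', hy⟩ := h2 y
    obtain ⟨e1, e2⟩ := h.indep (x := d * x') (y := c * y') (by
      rw [map_mul, map_mul, ← h1 x', ← h1 y', ← hx, ← hy, map_mul, map_mul, h1, h1]
      linear_combination ι c * ι d * e)
    rw [(mul_eq_zero.mp e1).resolve_left hd, map_zero] at hx
    rw [(mul_eq_zero.mp e2).resolve_left hc, map_zero] at hy
    exact ⟨(mul_eq_zero.mp hx).resolve_left (h3 hc), (mul_eq_zero.mp hy).resolve_left (h3 hd)⟩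
  · obtain ⟨x, y, z, hz, rfl⟩ := h.frac g
    exact ⟨m x, m y, m z, h3 hz, by rw [h1, h1, h1]⟩

theorem QuadF.ge_ring (h : QuadF ι u F) {w : DV M} (h0 : ∀ x, w.Ge 0 (ι x)) {g : M}
    (hg : g ∈ quadRing ι h.sq) : w.Ge 0 g := by
  obtain ⟨x, y, rfl⟩ := hg
  exact (h0 x).add ((h0 y).mul0 (h.ge_u h0))

theorem QuadF.dim_one {Q : Type} [CommRing Q] [IsDomain Q] {ι : Q[X] →+* M} {F : Q[X]}
    (h : QuadF ι u F) {w w' : DV M} (hn : w.Norm) (h0 : ∀ x, w.Ge 0 (ι x)) (h0' : ∀ x, w'.Ge 0 (ι x))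
    (h1 : ∀ g ∈ quadRing ι h.sq, w.Ge 1 g → w'.Ge 1 g) (h2 : ∀ c, w'.Ge 1 (ι (C c)) → c = 0) :
    ∀ g ∈ quadRing ι h.sq, w'.Ge 1 g → w.Ge 1 g := by
  have h3 := h.quad.dim_one (Q₀ := w.cen (quadRing ι h.sq).subtype fun a => h.ge_ring h0 a.2)
    (Q := w'.cen (quadRing ι h.sq).subtype fun a => h.ge_ring h0' a.2) inferInstance (fun e => by
      obtain ⟨x, hx, h4⟩ := h.exists_ge_one hn h0
      exact h.ne0 hx (congrArg Subtype.val (Ideal.mem_bot.mp ((SetLike.ext_iff.mp e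
        ⟨ι x, base_mem_quadRing h.sq x⟩).mp h4)))) (fun a => h1 a a.2) h2
  exact fun g hg e => (SetLike.ext_iff.mp h3 ⟨g, hg⟩).mpr e

end QuadF

theorem exists_denom {A K : Type} [CommRing A] [IsDomain A] [Field K] [Algebra A K]
    [IsFractionRing A K] (p : K[X]) :
    ∃ c ≠ 0, ∃ q : A[X], mapRingHom (algebraMap A K) (C c) * p = mapRingHom (algebraMap A K) q := by
  obtain ⟨c, hc, h⟩ := IsLocalization.integerNormalization_spec (nonZeroDivisors A) p
  exact ⟨c, nonZeroDivisors.ne_zero hc, _, by rw [coe_mapRingHom, h, map_C, Algebra.smul_def]; rfl⟩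

section BV

variable {A A' : Type} [CommRing A] [Algebra ℂ A] [CommRing A'] [Algebra ℂ A']

theorem bV_ext {f g : (MvPolynomial (Fin 2) ℂ)[X] →+* A}
    (h : ∀ c, f (C (.C c)) = g (C (.C c))) (h0 : f (C (.X 0)) = g (C (.X 0)))
    (h1 : f (C (.X 1)) = g (C (.X 1))) (h2 : f X = g X) (p) : f p = g p :=
  DFunLike.congr_fun (ringHom_ext' (MvPolynomial.ringHom_ext h fun i => by
    fin_cases i; exacts [h0, h1]) h2) p

theorem map_bV (φ : A →ₐ[ℂ] A') (a b t : A) (p) : φ (bV a b t p) = bV (φ a) (φ b) (φ t) p :=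
  bV_ext (f := φ.toRingHom.comp (bV a b t)) (by simp) (by simp) (by simp) (by simp) p

theorem bV_self (p) : bV (C (.X 0)) (C (.X 1)) X p = p :=
  bV_ext (g := RingHom.id _) (by simp) (by simp) (by simp) (by simp) p

theorem bV_genRes (f : MvPolynomial (Fin 3) ℂ) (a b t : A) :
    bV a b t (genRes f) = MvPolynomial.aeval ![1, t, b + t * a] f := by
  have h := res_map (f := f) (MvPolynomial.aeval ![a, b]) ![1, 0, .X 1] ![0, 1, .X 0]
  rw [bV, coe_eval₂RingHom, eval₂_eq_eval_map, genRes, h, res_eval]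
  congr 2
  funext i
  fin_cases i <;> simp

/-- The change of variables between coordinates of the point and coordinates of the line. -/
noncomputable def chi : (MvPolynomial (Fin 2) ℂ)[X] ≃+* (MvPolynomial (Fin 2) ℂ)[X] :=
  RingEquiv.ofRingHom (bV X (C (.X 1) - X * C (.X 0)) (C (.X 0)))
    (bV X (C (.X 1) + X * C (.X 0)) (C (.X 0)))
    (RingHom.ext (bV_ext (by simp) (by simp) (by simp) (by simp)))
    (RingHom.ext (bV_ext (by simp) (by simp) (by simp) (by simp)))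

theorem chi_apply (p) : chi p = bV X (C (.X 1) - X * C (.X 0)) (C (.X 0)) p := rfl

theorem bV_chi (s y α : A) (p) : bV s y α (chi p) = bV α (y - α * s) s p := by
  rw [chi_apply, ← RingHom.comp_apply]
  exact bV_ext (by simp) (by simp) (by simp; ring) (by simp) p

end BV

variable {L M : Type} [Field L] [Algebra ℂ L] [Field M] [Algebra ℂ M]

/-- Evaluation of polynomials over the small field. -/
noncomputable def eR (j : L →ₐ[ℂ] M) (α : M) : L[X] →+* M := eval₂RingHom (j : L →+* M) α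

@[simp] theorem eR_C (j : L →ₐ[ℂ] M) (α : M) (c : L) : eR j α (C c) = j c := by simp [eR]

@[simp] theorem eR_X (j : L →ₐ[ℂ] M) (α : M) : eR j α X = α := by simp [eR]

/-- `M` is the field of rational functions in `α` over `L`. -/
structure IsRat (j : L →ₐ[ℂ] M) (α : M) : Prop where
  inj : Function.Injective (eR j α)
  frac : ∀ g, ∃ p q, q ≠ 0 ∧ g = eR j α p / eR j α q

theorem exists_isRat (L : Type) [Field L] [Algebra ℂ L] :
    ∃ (M : Type) (_ : Field M) (_ : Algebra ℂ M) (j : L →ₐ[ℂ] M) (α : M), IsRat j α := by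
  have h : ∀ p, eR (IsScalarTower.toAlgHom ℂ L (RatFunc L)) RatFunc.X p = algebraMap _ _ p :=
    fun p => DFunLike.congr_fun (ringHom_ext' (RingHom.ext fun c => by simp [eR]) (by simp)) p
  refine ⟨RatFunc L, inferInstance, inferInstance, IsScalarTower.toAlgHom ℂ L _, RatFunc.X,
    fun p q e => IsFractionRing.injective L[X] (RatFunc L) (by rwa [h, h] at e), fun g =>
      ⟨g.num, g.denom, g.denom_ne_zero, by rw [h, h, RatFunc.num_div_denom]⟩⟩

theorem eR_map (j : L →ₐ[ℂ] M) (α : M) (s y : L) (p : (MvPolynomial (Fin 2) ℂ)[X]) :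
    eR j α (p.map (MvPolynomial.aeval ![s, y] : _ →ₐ[ℂ] L)) = bV (j s) (j y) α p :=
  bV_ext (f := (eR j α).comp (mapRingHom (MvPolynomial.aeval ![s, y] : _ →ₐ[ℂ] L).toRingHom))
    (by simp) (by simp) (by simp) (by simp) p

theorem aeval_aff {A : Type} [CommRing A] [Algebra ℂ A] (s y : A) (f : MvPolynomial (Fin 3) ℂ) :
    MvPolynomial.aeval ![s, y] (aff f) = MvPolynomial.aeval ![1, s, y] f := by
  rw [aff, aeval_congr_of_hom]
  congr 2
  funext i
  fin_cases i <;> simp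

theorem IsRat.quadF {j : L →ₐ[ℂ] M} {α : M} (h : IsRat j α) {u s y : L} {f : MvPolynomial (Fin 3) ℂ}
    (hq : QuadF (MvPolynomial.aeval ![s, y] : _ →ₐ[ℂ] L) u (aff f)) :
    QuadF (bV α (j y - α * j s) (j s)) (j u) (genRes f) := by
  refine .of_gen ?_ (fun {a b} e => ?_) fun S h1 h2 g => ?_
  · rw [bV_genRes, ← map_pow, hq.sq, RingHom.coe_coe, aeval_aff, aeval_congr_of_hom]
    congr 2
    funext i
    fin_cases i <;> simp [mul_comm]
  · rw [← bV_chi, ← bV_chi, ← eR_map, ← eR_map, ← eR_C j α u, ← map_mul, ← map_add,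
      map_eq_zero_iff _ h.inj] at e
    have e1 := fun n => hq.indep (x := (chi a).coeff n) (y := (chi b).coeff n)
      (by simpa using congrArg (coeff · n) e)
    exact ⟨chi.map_eq_zero_iff.mp (ext fun n => (e1 n).1),
      chi.map_eq_zero_iff.mp (ext fun n => (e1 n).2)⟩
  · have h3 : ∀ p, bV (j s) (j y) α p ∈ S := fun p => by
      rw [← chi.apply_symm_apply p, bV_chi]; exact h1 _
    have h4 : ∀ p, j ((MvPolynomial.aeval ![s, y] : _ →ₐ[ℂ] L).toRingHom p) ∈ S := fun p => by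
      have := h3 (C p)
      rwa [← eR_map, map_C, eR_C] at this
    have h5 : ∀ p, eR j α p ∈ S := fun p => by
      induction p using Polynomial.induction_on with
      | C c =>
        obtain ⟨a, b, c, -, rfl⟩ := hq.frac c
        rw [eR_C, map_div₀, map_add, map_mul]
        exact div_mem (add_mem (h4 a) (mul_mem (h4 b) h2)) (h4 c)
      | add p q hp hq => rw [map_add]; exact add_mem hp hq
      | monomial n c hc =>
        rw [pow_succ, ← mul_assoc, map_mul, eR_X]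
        exact mul_mem hc (by simpa using h3 X)
    obtain ⟨p, q, -, rfl⟩ := h.frac g
    exact div_mem (h5 p) (h5 q)

end Pool.Agent.Work.MP_475c1a_ag
end

-- merged part: Pool.Agent.Work.MP_475c1a_ag.Hyper
section
/-! Reduction of divisors on the curve `u ^ 2 = φ`. -/

namespace Pool.Agent.Work.MP_475c1a_ag

open Polynomial

set_option linter.unusedSectionVars false
set_option maxHeartbeats 400000

variable {K M κ : Type} [Field K] [Field M] {ι : K[X] →+* M} {u : M} {φ : K[X]}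
  {w : κ → DV M} {s : Set κ}

variable (ι u w s) in
/-- `D` is the divisor cut out by `p` and `u - v`. -/
structure IsD (p v : K[X]) (D : κ →₀ ℤ) : Prop where
  pos : ∀ k ∈ s, (w k).Ge 1 (u - ι v) → D k = (w k).v (ι p)
  neg : ∀ k ∈ s, ¬ (w k).Ge 1 (u - ι v) → D k = 0

variable [CharZero K] (h : QuadF ι u φ) (hs : ∀ k ∈ s, Good ι u (w k))
  (hfin : ∀ g, g ≠ 0 → {k | (w k).v g ≠ 0}.Finite) (hw : Function.Injective w)

include h hs

include hw in
theorem QuadF.fin_good (c : M ≃+* M) (c1 : ∀ x, c (ι x) = ι x) (c2 : c u = -u) {g : M}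
    (hg : g ≠ 0) : {k ∈ s | (w k).v g ≠ 0}.Finite := by
  classical
  have key : ∀ p : K[X], p ≠ 0 → {k ∈ s | (w k).Ge 1 (ι p)}.Finite := fun p hp => by
    have h1 : ∀ q, Prime q → {k ∈ s | (w k).Ge 1 (ι q)}.Finite := fun q hq => by
      rcases Set.eq_empty_or_nonempty {k ∈ s | (w k).Ge 1 (ι q)} with h0 | ⟨k, hk, h0⟩
      · rw [h0]; exact Set.finite_empty
      · exact ((Set.toFinite {w k, (w k).comap (c : M →+* M)}).preimage hw.injOn).subset
          fun k' hk' => h.pair c c1 c2 (hs k hk) (hs k' hk'.1) hq h0 hk'.2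
    refine ((UniqueFactorizationMonoid.factors p).toFinset.finite_toSet.biUnion fun q hq => h1 q
      (UniqueFactorizationMonoid.prime_of_factor q (by simpa using hq))).subset fun k hk => ?_
    obtain ⟨q, hq, h2, h3⟩ := exists_prime_ge_one (hs k hk.1).triv (hs k hk.1).ge hp hk.2
    obtain ⟨r, hr, a, ha⟩ := UniqueFactorizationMonoid.exists_mem_factors_of_dvd hp hq.irreducible h2
    refine Set.mem_biUnion (x := r) (by simpa using hr) ⟨hk.1, ?_⟩
    rw [← ha, map_mul]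
    exact h3.mul_right ((hs k hk.1).ge _)
  obtain ⟨x, y, z, hz, rfl⟩ := h.frac g
  have h4 : ι x + ι y * u ≠ 0 := fun e => hg (by simp [e])
  refine ((key z hz).union (key (x ^ 2 - y ^ 2 * φ) fun e =>
    mul_ne_zero h4 (h.conj_ne h4) (by rw [h.norm, e, map_zero]))).subset fun k hk => ?_
  have g := hs k hk.1
  by_contra hn
  have h5 := (DV.v_eq_zero (g.ge z) fun e => hn (Or.inl ⟨hk.1, e⟩)).2
  have h6 := (DV.v_eq_zero ((g.ge x).add ((g.ge y).mul0 (h.ge_u g.ge))) fun e => hn (Or.inr ⟨hk.1,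
    h.norm x y ▸ e.mul_right ((g.ge x).sub ((g.ge y).mul0 (h.ge_u g.ge)))⟩)).2
  exact hk.2 (by rw [DV.v_div _ h4 (h.ne0 hz), h5, h6, sub_zero])

include hfin in
theorem QuadF.exists_isD {p : K[X]} (hp : p ≠ 0) (v : K[X]) : ∃ D, IsD ι u w s p v D := by
  classical
  obtain ⟨E, hE⟩ := exists_div hfin (h.ne0 hp)
  exact ⟨E.filter fun k => (w k).Ge 1 (u - ι v), fun k _ hk => by
    rw [Finsupp.filter_apply, if_pos hk, hE], fun k _ hk => by rw [Finsupp.filter_apply, if_neg hk]⟩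

theorem QuadF.sub_ne (v : K[X]) : u - ι v ≠ 0 := fun e =>
  one_ne_zero (h.indep (x := -v) (y := 1) (by rw [← e, map_neg, map_one]; ring)).2

theorem QuadF.isD_add {p p' v : K[X]} (e : p * p' = v ^ 2 - φ) {D D' : κ →₀ ℤ}
    (hD : IsD ι u w s p v D) (hD' : IsD ι u w s p' v D') : D + D' ∈ SatOn w s := by
  have h0 := h.sub_ne hs v
  have h1 : u + ι v ≠ 0 := by simpa using h.sub_ne hs (-v)
  have h2 : ι p * ι p' = -((u - ι v) * (u + ι v)) := by
    rw [← map_mul, e, map_sub, map_pow, ← h.sq]; ring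
  have h3 : ι p * ι p' ≠ 0 := by rw [h2]; exact neg_ne_zero.mpr (mul_ne_zero h0 h1)
  refine satOn_of_eq h0 fun k hk => ?_
  have g := hs k hk
  by_cases h4 : (w k).Ge 1 (u - ι v)
  · rw [Finsupp.add_apply, hD.pos k hk h4, hD'.pos k hk h4, ← DV.v_mul _ (left_ne_zero_of_mul h3)
      (right_ne_zero_of_mul h3), h2, DV.v_neg, DV.v_mul _ h0 h1,
      (DV.v_eq_zero ((h.ge_u g.ge).add (g.ge v)) (h.not_both g h4)).2, add_zero]
  · rw [Finsupp.add_apply, hD.neg k hk h4, hD'.neg k hk h4,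
      (DV.v_eq_zero ((h.ge_u g.ge).sub (g.ge v)) h4).2, add_zero]

theorem IsD.shift {p v : K[X]} {D : κ →₀ ℤ} (hD : IsD ι u w s p v D) (q : K[X]) :
    IsD ι u w s p (v + p * q) D := by
  have key : ∀ k ∈ s, (w k).Ge 1 (ι p) →
      ((w k).Ge 1 (u - ι (v + p * q)) ↔ (w k).Ge 1 (u - ι v)) := fun k hk h1 => by
    have h2 := h1.mul_right ((hs k hk).ge q)
    rw [map_add, map_mul, ← sub_sub]
    exact ⟨fun h3 => by simpa using h3.add h2, fun h3 => h3.sub h2⟩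
  have key2 : ∀ k ∈ s, ¬ (w k).Ge 1 (ι p) → D k = 0 ∧ (w k).v (ι p) = 0 := fun k hk h1 => by
    have h2 := (DV.v_eq_zero ((hs k hk).ge p) h1).2
    by_cases h3 : (w k).Ge 1 (u - ι v)
    · exact ⟨(hD.pos k hk h3).trans h2, h2⟩
    · exact ⟨hD.neg k hk h3, h2⟩
  refine ⟨fun k hk h3 => ?_, fun k hk h3 => ?_⟩ <;> by_cases h1 : (w k).Ge 1 (ι p)
  · exact hD.pos k hk ((key k hk h1).mp h3)
  · rw [(key2 k hk h1).1, (key2 k hk h1).2]
  · exact hD.neg k hk (mt (key k hk h1).mpr h3)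
  · exact (key2 k hk h1).1

variable {T : AddSubgroup (κ →₀ ℤ)} (T1 : SatOn w s ≤ T)
  (T2 : ∀ (N : ℤ) D, 0 < N → N • D ∈ T → D ∈ T)
  (T3 : ∀ p v p' D, p.natDegree ≤ 2 → v.natDegree ≤ 2 → p'.natDegree ≤ 2 →
    p * p' = v ^ 2 - φ → IsD ι u w s p v D → D ∈ T) (hd : φ.natDegree = 4)

include hfin T1 T2 T3 hd in
theorem QuadF.isD_mem {p v : K[X]} (hp : p ≠ 0) (hv : p ∣ v ^ 2 - φ) {D : κ →₀ ℤ}
    (hD : IsD ι u w s p v D) : D ∈ T := by
  have red : ∀ {p v D}, p ≠ 0 → p ∣ v ^ 2 - φ → IsD ι u w s p v D → 2 ≤ p.natDegree →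
      ∃ v p', IsD ι u w s p v D ∧ v.natDegree < p.natDegree ∧ p * p' = v ^ 2 - φ ∧ p' ≠ 0 ∧
        p.natDegree + p'.natDegree ≤ max (2 * v.natDegree) 4 := fun {p v D} hp hv hD h2 => by
    have e : v % p = v + p * -(v / p) := by rw [EuclideanDomain.mod_eq_sub_mul_div]; ring
    obtain ⟨p', hp'⟩ : p ∣ (v % p) ^ 2 - φ := by
      have := hv.add (dvd_mul_right p (-(v / p) * (2 * v + p * -(v / p))))
      rw [e]; convert this using 1; ring
    have h0 : p' ≠ 0 := fun h0 => by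
      have := h.norm (v % p) 1
      rw [one_pow, one_mul, hp', h0, mul_zero, map_zero, map_one, one_mul] at this
      refine mul_ne_zero ?_ ?_ this
      · simpa [add_comm] using h.sub_ne hs (-(v % p))
      · exact sub_ne_zero.mpr (sub_ne_zero.mp (h.sub_ne hs (v % p))).symm
    refine ⟨v % p, p', e ▸ hD.shift h hs _, natDegree_mod_lt _ (by omega), hp'.symm, h0, ?_⟩
    rw [← natDegree_mul hp h0, ← hp', ← hd]
    exact (natDegree_sub_le _ _).trans (max_le_max natDegree_pow_le le_rfl)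
  have two : ∀ {p v D}, p ≠ 0 → p ∣ v ^ 2 - φ → IsD ι u w s p v D → p.natDegree = 2 → D ∈ T :=
    fun hp hv hD h2 => by
      obtain ⟨v, p', a1, a2, a3, -, a5⟩ := red hp hv hD h2.ge
      exact T3 _ v p' _ h2.le (by omega) (by omega) a3 a1
  induction hn : p.natDegree using Nat.strong_induction_on generalizing p v D with
  | _ n ih =>
  by_cases h1 : ∃ k ∈ s, (w k).Ge 1 (u - ι v) ∧ (w k).Ge 1 (ι p)
  swap
  · refine T1 (satOn_of_eq one_ne_zero fun k hk => ?_)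
    by_cases h2 : (w k).Ge 1 (u - ι v)
    · rw [hD.pos k hk h2, (DV.v_eq_zero ((hs k hk).ge p) fun e => h1 ⟨k, hk, h2, e⟩).2, DV.v_one]
    · rw [hD.neg k hk h2, DV.v_one]
  obtain ⟨k, hk, h2, h3⟩ := h1
  obtain rfl | rfl | rfl | h4 : n = 0 ∨ n = 1 ∨ n = 2 ∨ 3 ≤ n := by omega
  · have := h3.le (h.ne0 hp)
    rw [eq_C_of_natDegree_eq_zero hn, (hs k hk).triv] at this
    omega
  · have h5 := irreducible_of_degree_eq_one ((degree_eq_iff_natDegree_eq hp).mpr hn)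
    obtain ⟨a, b, e⟩ := h5.coprime_iff_not_dvd.mpr (show ¬ p ∣ 2 * v from fun ⟨q, e⟩ => by
      have h6 := h3.mul_right ((hs k hk).ge q)
      rw [← map_mul, ← e, map_mul, map_ofNat] at h6
      exact h.not_both (hs k hk) h2 (by convert h2.add h6 using 1; ring))
    obtain ⟨q, hq⟩ := hv
    have h6 := hD.shift h hs (-(q * b))
    refine T2 2 D two_pos (two (p := p ^ 2) (v := v + p * -(q * b)) (pow_ne_zero 2 hp)
      ⟨q * a + q ^ 2 * b ^ 2, by linear_combination hq - p * q * e⟩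
      ⟨fun k hk h7 => by simp [h6.pos k hk h7], fun k hk h7 => by simp [h6.neg k hk h7]⟩
      (by rw [natDegree_pow, hn]))
  · exact two hp hv hD hn
  · obtain ⟨v, p', a1, a2, a3, a4, a5⟩ := red hp hv hD (by omega)
    obtain ⟨D', hD'⟩ := h.exists_isD hs hfin a4 v
    have := T.sub_mem (T1 (h.isD_add hs a3 a1 hD'))
      (ih _ (by omega) a4 ⟨p, by rw [← a3, mul_comm]⟩ hD' rfl)
    simpa using this

include hfin hw T1 T2 T3 hd in
theorem QuadF.mem_top (D : κ →₀ ℤ) : D ∈ T := by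
  refine mem_of_single fun k _ => ?_
  by_cases hk : k ∈ s
  swap
  · exact T1 (satOn_of_eq one_ne_zero fun i hi => by
      rw [Finsupp.single_eq_of_ne (by rintro rfl; exact hk hi), DV.v_one])
  have g := hs k hk
  obtain ⟨x, hx, h1⟩ := h.exists_ge_one g.norm g.ge
  obtain ⟨p, hp, -, h2⟩ := exists_prime_ge_one g.triv g.ge hx h1
  have h3 := h2.le (h.ne0 hp.ne_zero)
  have h4 : ∀ i ∈ s, (w i).v (ι p) ≠ 0 → (w i).Ge 1 (ι p) := fun i hi e => by
    have := ((hs i hi).ge p).nonneg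
    exact Or.inr (by omega)
  by_cases hv : ∃ v, p ∣ v ^ 2 - φ
  · obtain ⟨v, hv, h5⟩ : ∃ v, p ∣ v ^ 2 - φ ∧ (w k).Ge 1 (u - ι v) := by
      obtain ⟨v, hv⟩ := hv
      rcases h.ge_or g h2 hv with h5 | h5
      · exact ⟨v, hv, h5⟩
      · exact ⟨-v, by simpa using hv, by simpa using h5⟩
    have h6 : ∀ i ∈ s, (w i).Ge 1 (u - ι v) → i ≠ k → (w i).v (ι p) = 0 := fun i hi h6 h7 =>
      by_contra fun e => h7 (hw ((h.eq_or_split (hs i hi) g hp (h4 i hi e) h2).1 v h6 h5))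
    refine T2 ((w k).v (ι p)) _ (by omega) (h.isD_mem hs hfin T1 T2 T3 hd hp.ne_zero hv
      ⟨fun i hi h7 => ?_, fun i hi h7 => ?_⟩)
    · by_cases h8 : i = k
      · simp [h8]
      · simp [Finsupp.single_eq_of_ne h8, h6 i hi h7 h8]
    · simp [Finsupp.single_eq_of_ne (show i ≠ k by rintro rfl; exact h7 h5)]
  · exact T1 (single_mem_satOn (h.ne0 hp.ne_zero) (by omega) fun i hi h7 => by_contra fun e =>
      h7 (hw ((h.eq_or_split (hs i hi) g hp (h4 i hi e) h2).2 fun v h8 => hv ⟨v, h8⟩)))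

include hw in
theorem QuadF.add_conj (c : M ≃+* M) (c1 : ∀ x, c (ι x) = ι x) (c2 : c u = -u) {ρ : κ → κ}
    (hρ : ∀ k, w (ρ k) = (w k).comap (c : M →+* M)) (hρ' : ∀ k, ρ k ∈ s ↔ k ∈ s) (D : κ →₀ ℤ) :
    D + D.mapDomain ρ ∈ SatOn w s := by
  change D ∈ (SatOn w s).comap (AddMonoidHom.id _ + Finsupp.mapDomain.addMonoidHom ρ)
  refine mem_of_single fun k _ => ?_
  change Finsupp.single k 1 + (Finsupp.single k 1).mapDomain ρ ∈ SatOn w s
  rw [Finsupp.mapDomain_single]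
  by_cases hk : k ∈ s
  swap
  · exact satOn_of_eq one_ne_zero fun i hi => by
      rw [Finsupp.add_apply, Finsupp.single_eq_of_ne (by rintro rfl; exact hk hi),
        Finsupp.single_eq_of_ne (by rintro rfl; exact hk ((hρ' k).mp hi)), DV.v_one, add_zero]
  have g := hs k hk
  obtain ⟨x, hx, h1⟩ := h.exists_ge_one g.norm g.ge
  obtain ⟨p, hp, -, h2⟩ := exists_prime_ge_one g.triv g.ge hx h1
  have h3 := h2.le (h.ne0 hp.ne_zero)
  have h4 : ∀ i ∈ s, i ≠ k → i ≠ ρ k → (w i).v (ι p) = 0 := fun i hi e1 e2 =>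
    (DV.v_eq_zero ((hs i hi).ge p) fun e => (h.pair c c1 c2 g (hs i hi) hp h2 e).elim
      (fun e => e1 (hw e)) fun e => e2 (hw (e.trans (hρ k).symm))).2
  by_cases h5 : ρ k = k
  · rw [h5] at h4 ⊢
    have := single_mem_satOn (h.ne0 hp.ne_zero) (by omega) fun i hi e => h4 i hi e e
    exact add_mem this this
  · refine ⟨(w k).v (ι p), by omega, _, h.ne0 hp.ne_zero, fun i hi => ?_⟩
    by_cases e1 : i = k
    · simp [e1, Finsupp.single_eq_of_ne (Ne.symm h5)]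
    by_cases e2 : i = ρ k
    · simp [e2, Finsupp.single_eq_of_ne h5, hρ, DV.comap, c1]
    simp [Finsupp.single_eq_of_ne e1, Finsupp.single_eq_of_ne e2, h4 i hi e1 e2]

end Pool.Agent.Work.MP_475c1a_ag
end

-- merged part: Pool.Agent.Work.MP_475c1a_ag.Cover
section
/-! The function relating a divisor of degree two with the fibre of the covering map. -/

namespace Pool.Agent.Work.MP_475c1a_ag

open Polynomial

set_option linter.unusedSectionVars false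
set_option maxHeartbeats 400000

section Ident

variable {A : Type} [CommRing A] (p0 p1 p2 v0 v1 v2 q0 q1 q2 u : A)

/-- The numerator of the function. -/
def cG : A := p1 * (u + v0) ^ 2 - 2 * v1 * (u + v0) * p0 + q1 * p0 ^ 2

/-- A third of the abscissa. -/
def cT : A := v1 ^ 2 - 4 * v0 * v2 - (p1 * q1 - 2 * p0 * q2 - 2 * p2 * q0)

/-- The determinant. -/
def cD : A := p0 * (v1 * q2 - v2 * q1) - p1 * (v0 * q2 - v2 * q0) + p2 * (v0 * q1 - v1 * q0)

/-- The polynomial `v ^ 2 - p q`. -/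
noncomputable def cF : A[X] :=
  (C v0 + C v1 * X + C v2 * X ^ 2) ^ 2 - (C p0 + C p1 * X + C p2 * X ^ 2) *
    (C q0 + C q1 * X + C q2 * X ^ 2)

theorem cF_coeff : (cF p0 p1 p2 v0 v1 v2 q0 q1 q2).coeff 0 = v0 ^ 2 - p0 * q0 ∧
    (cF p0 p1 p2 v0 v1 v2 q0 q1 q2).coeff 1 = 2 * v0 * v1 - p0 * q1 - p1 * q0 ∧
    (cF p0 p1 p2 v0 v1 v2 q0 q1 q2).coeff 2 =
      v1 ^ 2 + 2 * v0 * v2 - p0 * q2 - p1 * q1 - p2 * q0 ∧
    (cF p0 p1 p2 v0 v1 v2 q0 q1 q2).coeff 3 = 2 * v1 * v2 - p1 * q2 - p2 * q1 ∧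
    (cF p0 p1 p2 v0 v1 v2 q0 q1 q2).coeff 4 = v2 ^ 2 - p2 * q2 := by
  have : cF p0 p1 p2 v0 v1 v2 q0 q1 q2 = C (v0 ^ 2 - p0 * q0) +
      C (2 * v0 * v1 - p0 * q1 - p1 * q0) * X ^ 1 +
      C (v1 ^ 2 + 2 * v0 * v2 - p0 * q2 - p1 * q1 - p2 * q0) * X ^ 2 +
      C (2 * v1 * v2 - p1 * q2 - p2 * q1) * X ^ 3 + C (v2 ^ 2 - p2 * q2) * X ^ 4 := by
    simp only [cF, map_sub, map_add, map_mul, map_pow, map_ofNat]; ring
  simp only [this, coeff_add, coeff_C_mul_X_pow, coeff_C]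
  simp

theorem ident_curve : (-27 * cD p0 p1 p2 v0 v1 v2 q0 q1 q2) ^ 2 =
    (3 * cT p0 p1 p2 v0 v1 v2 q0 q1 q2) ^ 3 - 27 * pI (cF p0 p1 p2 v0 v1 v2 q0 q1 q2) *
      (3 * cT p0 p1 p2 v0 v1 v2 q0 q1 q2) - 27 * pJ (cF p0 p1 p2 v0 v1 v2 q0 q1 q2) := by
  obtain ⟨h0, h1, h2, h3, h4⟩ := cF_coeff p0 p1 p2 v0 v1 v2 q0 q1 q2
  simp only [pI, pJ, h0, h1, h2, h3, h4, qI, qJ, cD, cT]; ring

variable (hu : u ^ 2 = v0 ^ 2 - p0 * q0)

include hu

theorem ident_norm : 3 * cG p0 p1 v0 v1 q1 u * cG p0 p1 v0 v1 q1 (-u) = p0 ^ 2 *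
    (pP (cF p0 p1 p2 v0 v1 v2 q0 q1 q2) - 4 * u ^ 2 * cT p0 p1 p2 v0 v1 v2 q0 q1 q2) := by
  obtain ⟨h0, h1, h2, -, -⟩ := cF_coeff p0 p1 p2 v0 v1 v2 q0 q1 q2
  have e : ∀ u, cG p0 p1 v0 v1 q1 u = p1 * (u ^ 2 + v0 ^ 2) - 2 * v1 * v0 * p0 + q1 * p0 ^ 2 +
    (2 * p1 * v0 - 2 * v1 * p0) * u := fun u => by rw [cG]; ring
  have e2 : ∀ x y : A, 3 * (x + y * u) * (x + y * -u) = 3 * (x ^ 2 - y ^ 2 * u ^ 2) :=
    fun x y => by ring
  rw [e, e, neg_sq, e2, hu]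
  simp only [pP, h0, h1, h2, qP, cT]; ring

theorem ident_ord : ∃ H0 H1 : A, (∀ S : Subring A, p0 ∈ S → p1 ∈ S → p2 ∈ S → v0 ∈ S → v1 ∈ S →
    v2 ∈ S → q0 ∈ S → q1 ∈ S → q2 ∈ S → H0 ∈ S ∧ H1 ∈ S) ∧
    cG p0 p1 v0 v1 q1 u * (H0 + H1 * u) = p0 ^ 2 *
      (pR (cF p0 p1 p2 v0 v1 v2 q0 q1 q2) + 8 * cD p0 p1 p2 v0 v1 v2 q0 q1 q2 * u ^ 3) := by
  obtain ⟨h0, h1, h2, h3, -⟩ := cF_coeff p0 p1 p2 v0 v1 v2 q0 q1 q2
  refine ⟨4 * p0 ^ 3 * q0 * q2 - p0 ^ 3 * q1 ^ 2 - 4 * p0 ^ 2 * p2 * q0 ^ 2 -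
    4 * p0 ^ 2 * v0 ^ 2 * q2 + 4 * p0 ^ 2 * v0 * v1 * q1 - 8 * p0 ^ 2 * v0 * v2 * q0 +
    p0 * p1 ^ 2 * q0 ^ 2 - 2 * p0 * p1 * v0 ^ 2 * q1 + 12 * p0 * p2 * v0 ^ 2 * q0 +
    8 * p0 * v0 ^ 3 * v2 - 4 * p0 * v0 ^ 2 * v1 ^ 2 - 2 * p1 ^ 2 * v0 ^ 2 * q0 +
    4 * p1 * v0 ^ 3 * v1 - 8 * p2 * v0 ^ 4,
    -2 * p0 ^ 2 * v1 * q1 + 8 * p0 ^ 2 * v2 * q0 + 2 * p0 * p1 * v0 * q1 - 2 * p0 * p1 * v1 * q0 -
    8 * p0 * p2 * v0 * q0 - 8 * p0 * v0 ^ 2 * v2 + 4 * p0 * v0 * v1 ^ 2 + 2 * p1 ^ 2 * v0 * q0 -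
    4 * p1 * v0 ^ 2 * v1 + 8 * p2 * v0 ^ 3, fun S _ _ _ _ _ _ _ _ _ => ⟨?_, ?_⟩, ?_⟩
  · repeat' first | assumption | apply ofNat_mem | apply sub_mem | apply add_mem | apply mul_mem | apply pow_mem
  · repeat' first | assumption | apply ofNat_mem | apply sub_mem | apply add_mem | apply mul_mem | apply pow_mem | apply neg_mem
  have e : cG p0 p1 v0 v1 q1 u = p1 * (u ^ 2 + v0 ^ 2) - 2 * v1 * v0 * p0 + q1 * p0 ^ 2 +
    (2 * p1 * v0 - 2 * v1 * p0) * u := by rw [cG]; ring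
  have e2 : ∀ x y z t : A, (x + y * u) * (z + t * u) = x * z + y * t * u ^ 2 + (x * t + y * z) * u :=
    fun x y z t => by ring
  rw [e, e2, pow_succ u 2, hu]
  simp only [pR, h0, h1, h2, h3, qR, cD]; ring

theorem ident_prod : ∃ H : A, (∀ S : Subring A, p0 ∈ S → p1 ∈ S → p2 ∈ S → v0 ∈ S → v1 ∈ S →
    v2 ∈ S → q0 ∈ S → q1 ∈ S → q2 ∈ S → H ∈ S) ∧
    3 ^ 3 * ((pR (cF p0 p1 p2 v0 v1 v2 q0 q1 q2) + 8 * cD p0 p1 p2 v0 v1 v2 q0 q1 q2 * u ^ 3) *
      (pR (cF p0 p1 p2 v0 v1 v2 q0 q1 q2) + 8 * cD p0 p1 p2 v0 v1 v2 q0 q1 q2 * (-u) ^ 3)) =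
      (pP (cF p0 p1 p2 v0 v1 v2 q0 q1 q2) - 4 * u ^ 2 * cT p0 p1 p2 v0 v1 v2 q0 q1 q2) * H := by
  have e1 := ident_curve p0 p1 p2 v0 v1 v2 q0 q1 q2
  obtain ⟨h0, h1, h2, h3, h4⟩ := cF_coeff p0 p1 p2 v0 v1 v2 q0 q1 q2
  have e2 : ∀ F : A[X], 27 * pR F ^ 2 = pP F ^ 3 - 48 * pI F * F.coeff 0 ^ 2 * pP F -
    64 * pJ F * F.coeff 0 ^ 3 := fun F => syzygy _ _ _ _ _
  refine ⟨pP (cF p0 p1 p2 v0 v1 v2 q0 q1 q2) ^ 2 + 4 * (v0 ^ 2 - p0 * q0) *
    cT p0 p1 p2 v0 v1 v2 q0 q1 q2 * pP (cF p0 p1 p2 v0 v1 v2 q0 q1 q2) +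
    16 * ((v0 ^ 2 - p0 * q0) * cT p0 p1 p2 v0 v1 v2 q0 q1 q2) ^ 2 -
    48 * pI (cF p0 p1 p2 v0 v1 v2 q0 q1 q2) * (v0 ^ 2 - p0 * q0) ^ 2,
    fun S _ _ _ _ _ _ _ _ _ => ?_, ?_⟩
  · simp only [pP, pI, h0, h1, h2, h3, h4, qP, qI, cT]
    repeat' first | assumption | apply ofNat_mem | apply sub_mem | apply add_mem | apply mul_mem | apply pow_mem
  have e3 : ∀ x y : A, (x + y * u ^ 3) * (x + y * (-u) ^ 3) = x ^ 2 - y ^ 2 * (u ^ 2) ^ 3 :=
    fun x y => by ring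
  rw [e3, hu]
  simp only [pP, pI, pR, h0, h1, h2, h3, h4, qP, qI, qR, cT, cD]; ring

end Ident

section Local

variable {M : Type} [Field M] {w : DV M} {p0 p1 p2 v0 v1 v2 q0 q1 q2 u : M}
  (hu : u ^ 2 = v0 ^ 2 - p0 * q0) (h2 : w.v 2 = 0) (h2' : (2 : M) ≠ 0) (h3 : w.v 3 = 0)
  (h3' : (3 : M) ≠ 0) (hw : w.v u = 0) (hu0 : u ≠ 0)
  (a0 : w.Ge 0 p0) (a1 : w.Ge 0 p1) (a2 : w.Ge 0 p2) (b0 : w.Ge 0 v0) (b1 : w.Ge 0 v1)
  (b2 : w.Ge 0 v2) (c0 : w.Ge 0 q0) (c1 : w.Ge 0 q1) (c2 : w.Ge 0 q2) {n r d : M}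
  (hn : n = pP (cF p0 p1 p2 v0 v1 v2 q0 q1 q2) - 4 * u ^ 2 * cT p0 p1 p2 v0 v1 v2 q0 q1 q2)
  (hr : r = pR (cF p0 p1 p2 v0 v1 v2 q0 q1 q2)) (hd : d = cD p0 p1 p2 v0 v1 v2 q0 q1 q2)
  (hn0 : n ≠ 0) (hd0 : d ≠ 0) (hd1 : w.v d = 0) (hp : p0 ≠ 0)

include hu h2 h2' h3 h3' hw hu0 a0 a1 a2 b0 b1 b2 c0 c1 c2 hn hr hd hn0 hd0 hd1 hp

theorem not_both_ord (e1 : w.Ge 1 (r + 8 * d * u ^ 3)) (e2 : w.Ge 1 (r + 8 * d * (-u) ^ 3)) :
    False := by
  have e3 := e1.sub e2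
  rw [show r + 8 * d * u ^ 3 - (r + 8 * d * (-u) ^ 3) = 2 ^ 4 * (d * u ^ 3) by ring] at e3
  have e4 := mul_ne_zero hd0 (pow_ne_zero 3 hu0)
  have := e3.le (mul_ne_zero (pow_ne_zero 4 h2') e4)
  rw [w.v_mul (pow_ne_zero 4 h2') e4, w.v_mul hd0 (pow_ne_zero 3 hu0), w.v_pow, w.v_pow] at this
  omega

theorem v_norm_cG : cG p0 p1 v0 v1 q1 u ≠ 0 ∧
    w.v (cG p0 p1 v0 v1 q1 u) + w.v (cG p0 p1 v0 v1 q1 (-u)) = 2 * w.v p0 + w.v n := by
  have e := ident_norm p0 p1 p2 v0 v1 v2 q0 q1 q2 u hu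
  rw [← hn] at e
  have e0 : 3 * cG p0 p1 v0 v1 q1 u * cG p0 p1 v0 v1 q1 (-u) ≠ 0 :=
    e ▸ mul_ne_zero (pow_ne_zero 2 hp) hn0
  have e1 := congrArg w.v e
  rw [w.v_mul (left_ne_zero_of_mul e0) (right_ne_zero_of_mul e0), w.v_mul h3'
    (right_ne_zero_of_mul (left_ne_zero_of_mul e0)), w.v_mul (pow_ne_zero 2 hp) hn0, w.v_pow] at e1
  exact ⟨right_ne_zero_of_mul (left_ne_zero_of_mul e0), by omega⟩

theorem loc_zero (hp1 : w.v p0 = 0) :
    (w.Ge 1 (r + 8 * d * u ^ 3) → w.v (cG p0 p1 v0 v1 q1 u) = w.v n) ∧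
      (¬ w.Ge 1 (r + 8 * d * u ^ 3) → w.v (cG p0 p1 v0 v1 q1 u) = 0) := by
  have key : ∀ u, u ^ 2 = v0 ^ 2 - p0 * q0 → w.v u = 0 → ¬ w.Ge 1 (r + 8 * d * u ^ 3) →
      w.v (cG p0 p1 v0 v1 q1 u) = 0 := fun u hu hw e => by
    have e0 : w.Ge 0 u := Or.inr hw.ge
    refine (DV.v_eq_zero (((a1.mul0 ((e0.add b0).pow0 2)).sub ((((DV.ge_ofNat 2).mul0 b1).mul0
      (e0.add b0)).mul0 a0)).add (c1.mul0 (a0.pow0 2))) fun e1 => e ?_).2
    obtain ⟨H0, H1, e2, e3⟩ := ident_ord p0 p1 p2 v0 v1 v2 q0 q1 q2 u hu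
    obtain ⟨e4, e5⟩ := e2 w.O a0 a1 a2 b0 b1 b2 c0 c1 c2
    have := DV.Ge.mul_right e1 (DV.Ge.add e4 (DV.Ge.mul0 e5 e0))
    rw [← cG, e3, ← hr, ← hd] at this
    exact this.of_mul (pow_ne_zero 2 hp) (by rw [w.v_pow, hp1, mul_zero])
  refine ⟨fun e => ?_, key u hu hw⟩
  have e1 := key (-u) (by rw [neg_sq, hu]) (by rw [w.v_neg, hw])
    (not_both_ord hu h2 h2' h3 h3' hw hu0 a0 a1 a2 b0 b1 b2 c0 c1 c2 hn hr hd hn0 hd0 hd1 hp e)
  have e2 := (v_norm_cG hu h2 h2' h3 h3' hw hu0 a0 a1 a2 b0 b1 b2 c0 c1 c2 hn hr hd hn0 hd0 hd1 hp).2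
  omega

theorem loc_one (e1 : w.Ge 1 p0) (e2 : w.Ge 1 (u + v0)) :
    (w.Ge 1 (r + 8 * d * u ^ 3) → w.v (cG p0 p1 v0 v1 q1 u) = w.v n + 2 * w.v p0) ∧
      (¬ w.Ge 1 (r + 8 * d * u ^ 3) → w.v (cG p0 p1 v0 v1 q1 u) = 2 * w.v p0) := by
  have f1 : 2 * u ≠ 0 ∧ w.v (2 * u) = 0 := ⟨mul_ne_zero h2' hu0, by rw [w.v_mul h2' hu0]; omega⟩
  obtain ⟨f2, f3⟩ := DV.add_of_lt (w := w) (neg_ne_zero.mpr f1.1) (y := u + v0)
    (by rwa [w.v_neg, f1.2])
  rw [show -(2 * u) + (u + v0) = v0 - u by ring] at f2 f3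
  rw [w.v_neg, f1.2] at f3
  obtain ⟨k, hk, f4, f5⟩ : ∃ k, w.Ge 0 k ∧ q0 + 2 * k * v0 + k ^ 2 * p0 ≠ 0 ∧
      w.v (q0 + 2 * k * v0 + k ^ 2 * p0) = 0 := by
    by_cases h : w.Ge 1 q0
    · obtain ⟨f4, f5⟩ := DV.add_of_lt (w := w) (neg_ne_zero.mpr f1.1)
        (y := q0 + 2 * (u + v0) + p0)
        (by rw [w.v_neg, f1.2]; exact (h.add ((DV.ge_ofNat 2).mul_left e2)).add e1)
      rw [show -(2 * u) + (q0 + 2 * (u + v0) + p0) = q0 + 2 * 1 * v0 + 1 ^ 2 * p0 by ring] at f4 f5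
      exact ⟨1, DV.ge_one, f4, by rw [f5, w.v_neg, f1.2]⟩
    · exact ⟨0, DV.ge_zero 0, by simpa using DV.v_eq_zero c0 h⟩
  have g1 : ∀ {q v p}, w.Ge 0 q → w.Ge 0 v → w.Ge 0 p → w.Ge 0 (q + 2 * k * v + k ^ 2 * p) :=
    fun a b c => (a.add (((DV.ge_ofNat 2).mul0 hk).mul0 b)).add ((hk.pow0 2).mul0 c)
  have g2 : ∀ {v p}, w.Ge 0 v → w.Ge 0 p → w.Ge 0 (v + k * p) := fun b c => b.add (hk.mul0 c)
  have g3 : cF (q0 + 2 * k * v0 + k ^ 2 * p0) (q1 + 2 * k * v1 + k ^ 2 * p1)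
      (q2 + 2 * k * v2 + k ^ 2 * p2) (v0 + k * p0) (v1 + k * p1) (v2 + k * p2) p0 p1 p2 =
      cF p0 p1 p2 v0 v1 v2 q0 q1 q2 := by
    simp only [cF, map_add, map_mul, map_pow, map_ofNat]; ring
  have g4 := loc_zero (u := -u) (n := n) (r := r) (d := -d) (by rw [neg_sq, hu]; ring) h2 h2' h3 h3'
    (by rw [w.v_neg, hw]) (neg_ne_zero.mpr hu0) (g1 c0 b0 a0) (g1 c1 b1 a1) (g1 c2 b2 a2)
    (g2 b0 a0) (g2 b1 a1) (g2 b2 a2) a0 a1 a2 (by rw [g3, hn]; simp only [cT]; ring)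
    (by rw [g3, hr]) (by rw [hd]; simp only [cD]; ring) hn0 (neg_ne_zero.mpr hd0)
    (by rw [w.v_neg, hd1]) f4 f5
  rw [show r + 8 * -d * (-u) ^ 3 = r + 8 * d * u ^ 3 by ring] at g4
  obtain ⟨f6, f7⟩ := DV.add_of_lt (w := w) f2 (y := k * p0) (by rw [f3]; exact hk.mul_left e1)
  have g5 : cG p0 p1 v0 v1 q1 u * (v0 - u + k * p0) ^ 2 = p0 ^ 2 *
      cG (q0 + 2 * k * v0 + k ^ 2 * p0) (q1 + 2 * k * v1 + k ^ 2 * p1) (v0 + k * p0) (v1 + k * p1)
        p1 (-u) := by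
    simp only [cG]
    linear_combination (p1 * (u ^ 2 - v0 ^ 2 - p0 * q0 - 2 * k * p0 * (u + v0)) +
      2 * v1 * p0 * (v0 - u + k * p0)) * hu
  have g6 := (v_norm_cG hu h2 h2' h3 h3' hw hu0 a0 a1 a2 b0 b1 b2 c0 c1 c2 hn hr hd hn0 hd0 hd1 hp).1
  have g7 := congrArg w.v g5
  rw [w.v_mul g6 (pow_ne_zero 2 f6), w.v_mul (pow_ne_zero 2 hp) (right_ne_zero_of_mul
    (g5 ▸ mul_ne_zero g6 (pow_ne_zero 2 f6))), w.v_pow, w.v_pow] at g7
  exact ⟨fun e => by have := g4.1 e; omega, fun e => by have := g4.2 e; omega⟩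

theorem loc_all {D : ℤ} (e1 : w.Ge 1 (u - v0) → D = w.v p0) (e2 : ¬ w.Ge 1 (u - v0) → D = 0) :
    (w.Ge 1 (r + 8 * d * u ^ 3) → w.v (cG p0 p1 v0 v1 q1 u) = w.v n + 2 * w.v p0 - 2 * D) ∧
      (¬ w.Ge 1 (r + 8 * d * u ^ 3) → w.v (cG p0 p1 v0 v1 q1 u) = 2 * w.v p0 - 2 * D) := by
  have e0 : w.Ge 0 u := Or.inr hw.ge
  by_cases f1 : w.Ge 1 p0
  swap
  · have f2 := (DV.v_eq_zero a0 f1).2
    have f3 : D = 0 := by by_cases h : w.Ge 1 (u - v0); exacts [(e1 h).trans f2, e2 h]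
    simpa [f2, f3] using
      loc_zero hu h2 h2' h3 h3' hw hu0 a0 a1 a2 b0 b1 b2 c0 c1 c2 hn hr hd hn0 hd0 hd1 hp f2
  by_cases f2 : w.Ge 1 (u - v0)
  swap
  · have f3 := (DV.prime_ge (e0.sub b0) (e0.add b0) (by
      have := (f1.mul_right c0).neg
      rwa [show -(p0 * q0) = (u - v0) * (u + v0) by linear_combination -hu] at this)).resolve_left f2
    simpa [e2 f2] using
      loc_one hu h2 h2' h3 h3' hw hu0 a0 a1 a2 b0 b1 b2 c0 c1 c2 hn hr hd hn0 hd0 hd1 hp f1 f3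
  have f3 := loc_one (u := -u) (by rw [neg_sq, hu]) h2 h2' h3 h3' (by rw [w.v_neg, hw])
    (neg_ne_zero.mpr hu0) a0 a1 a2 b0 b1 b2 c0 c1 c2 (by rw [neg_sq, ← hn]) hr hd hn0 hd0 hd1 hp f1
    (by convert f2.neg using 1; ring)
  have f4 := (v_norm_cG hu h2 h2' h3 h3' hw hu0 a0 a1 a2 b0 b1 b2 c0 c1 c2 hn hr hd hn0 hd0 hd1 hp).2
  have f5 := e1 f2
  refine ⟨fun e => ?_, fun e => ?_⟩
  · have := f3.2
      (not_both_ord hu h2 h2' h3 h3' hw hu0 a0 a1 a2 b0 b1 b2 c0 c1 c2 hn hr hd hn0 hd0 hd1 hp e)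
    omega
  by_cases f6 : w.Ge 1 (r + 8 * d * (-u) ^ 3)
  · have := f3.1 f6
    omega
  have f7 := f3.2 f6
  obtain ⟨H, g1, g2⟩ := ident_prod p0 p1 p2 v0 v1 v2 q0 q1 q2 u hu
  rw [← hr, ← hd, ← hn] at g2
  have g3 : w.Ge 0 H := g1 w.O a0 a1 a2 b0 b1 b2 c0 c1 c2
  have g4 : ∀ {x}, ¬ w.Ge 1 x → x ≠ 0 ∧ w.v x ≤ 0 := fun h =>
    ⟨fun e => h (Or.inl e), by_contra fun e => h (Or.inr (by omega))⟩
  have g5 := congrArg w.v g2
  have g6 := mul_ne_zero (g4 e).1 (g4 f6).1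
  rw [w.v_mul (pow_ne_zero 3 h3') g6, w.v_mul (g4 e).1 (g4 f6).1, w.v_pow, w.v_mul hn0
    (right_ne_zero_of_mul (g2 ▸ mul_ne_zero (pow_ne_zero 3 h3') g6))] at g5
  have g7 := g3.nonneg
  have g8 := (g4 e).2
  have g9 := (g4 f6).2
  have : w.Ge 0 (cG p0 p1 v0 v1 q1 u) := ((a1.mul0 ((e0.add b0).pow0 2)).sub
    ((((DV.ge_ofNat 2).mul0 b1).mul0 (e0.add b0)).mul0 a0)).add (c1.mul0 (a0.pow0 2))
  have := this.nonneg
  omega

end Local

end Pool.Agent.Work.MP_475c1a_ag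
end
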