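import Pool.Agent.Work.MP_475c1a_ag.Pull

/-! Definitions: Weil divisor class groups with the action of automorphisms, weighted projective
hypersurfaces, double Veronese cones and del Pezzo surfaces of degree two. -/

namespace Pool.Agent.Work.MP_475c1a_ag

open AlgebraicGeometry CategoryTheory MvPolynomial TensorProduct

section ClassGroup

variable {X Y Z : Scheme.{0}}

/-- The prime divisors of a scheme: its points of codimension one. -/
def PrimeDiv (X : Scheme.{0}) : Type := {x : X // Order.coheight x = 1}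

/-- The principal Weil divisors: the divisors of zeros and poles of rational functions. -/
noncomputable def principal (X : Scheme.{0}) : AddSubgroup (PrimeDiv X →₀ ℤ) :=
  AddSubgroup.closure {D | ∃ (_ : IsIntegral X) (_ : IsLocallyNoetherian X)
    (g : X.functionField), g ≠ 0 ∧ ∀ x, D x = X.ord g x.1}

/-- The Weil divisor class group. -/
def Cl (X : Scheme.{0}) : Type := (PrimeDiv X →₀ ℤ) ⧸ principal X

noncomputable instance Cl.addCommGroup (X : Scheme.{0}) : AddCommGroup (Cl X) :=
  QuotientAddGroup.Quotient.addCommGroup (principal X)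

theorem coheight_hom (e : X ≅ Y) (x : PrimeDiv X) : Order.coheight (e.hom x.1) = 1 :=
  (coheight_eq_of_isOpenImmersion e.hom).trans x.2

/-- The image of a prime divisor under an isomorphism. -/
noncomputable def primeMap (e : X ≅ Y) (x : PrimeDiv X) : PrimeDiv Y :=
  ⟨e.hom x.1, coheight_hom e x⟩

theorem primeMap_trans (e : X ≅ Y) (e' : Y ≅ Z) :
    primeMap (e ≪≫ e') = primeMap e' ∘ primeMap e := by
  funext x
  exact Subtype.ext (by simp [primeMap])

theorem primeMap_refl : primeMap (Iso.refl X) = id := by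
  funext x
  exact Subtype.ext (by simp [primeMap])

theorem primeMap_symm (e : X ≅ Y) (x : PrimeDiv X) : primeMap e.symm (primeMap e x) = x := by
  have h := congrFun (primeMap_trans e e.symm) x
  rw [Iso.self_symm_id, primeMap_refl] at h
  exact h.symm

theorem principal_le (e : X ≅ Y) :
    principal X ≤ (principal Y).comap (Finsupp.mapDomain.addMonoidHom (primeMap e)) := by
  rw [principal, AddSubgroup.closure_le]
  rintro D ⟨h1, h2, g, hg, hD⟩
  have : Nonempty Y := ⟨e.hom (genericPoint X)⟩
  have h3 : IsIntegral Y := isIntegral_of_isOpenImmersion e.inv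
  have h4 : IsLocallyNoetherian Y := isLocallyNoetherian_of_isOpenImmersion e.inv
  refine AddSubgroup.subset_closure ⟨h3, h4, pull e.symm g, by simpa using hg, fun y => ?_⟩
  have hy : y = primeMap e (primeMap e.symm y) := (primeMap_symm e.symm y).symm
  rw [ord_pull, Finsupp.mapDomain.addMonoidHom_apply]
  conv_lhs => rw [hy]
  rw [Finsupp.mapDomain_apply (Function.LeftInverse.injective (primeMap_symm e)), hD]
  rfl

/-- The map of class groups induced by an isomorphism. -/
noncomputable def clMap (e : X ≅ Y) : Cl X →+ Cl Y :=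
  QuotientAddGroup.map _ _ (Finsupp.mapDomain.addMonoidHom (primeMap e)) (principal_le e)

theorem clMap_trans (e : X ≅ Y) (e' : Y ≅ Z) : clMap (e ≪≫ e') = (clMap e').comp (clMap e) := by
  ext D
  obtain ⟨D, rfl⟩ := QuotientAddGroup.mk_surjective D
  change QuotientAddGroup.mk (D.mapDomain _) = QuotientAddGroup.mk ((D.mapDomain _).mapDomain _)
  rw [primeMap_trans, Finsupp.mapDomain_comp]

theorem clMap_refl : clMap (Iso.refl X) = AddMonoidHom.id _ := by
  ext D
  obtain ⟨D, rfl⟩ := QuotientAddGroup.mk_surjective D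
  change QuotientAddGroup.mk (D.mapDomain _) = QuotientAddGroup.mk D
  rw [primeMap_refl, Finsupp.mapDomain_id]

/-- The complexified class group. -/
def ClC (X : Scheme.{0}) : Type := ℂ ⊗[ℤ] Cl X

noncomputable instance ClC.addCommGroup (X : Scheme.{0}) : AddCommGroup (ClC X) :=
  TensorProduct.addCommGroup

noncomputable instance ClC.module (X : Scheme.{0}) : Module ℂ (ClC X) :=
  TensorProduct.leftModule

/-- The map of complexified class groups induced by an isomorphism. -/
noncomputable def clCMap (e : X ≅ Y) : ClC X →ₗ[ℂ] ClC Y :=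
  (clMap e).toIntLinearMap.baseChange ℂ

theorem clCMap_trans (e : X ≅ Y) (e' : Y ≅ Z) :
    clCMap (e ≪≫ e') = (clCMap e').comp (clCMap e) := by
  rw [clCMap, clMap_trans]
  exact LinearMap.baseChange_comp (clMap e).toIntLinearMap (clMap e').toIntLinearMap

theorem clCMap_refl : clCMap (Iso.refl X) = LinearMap.id := by
  rw [clCMap, clMap_refl]
  exact LinearMap.baseChange_id

/-- Complex schemes. -/
def CScheme : Type 1 := Over (Spec (CommRingCat.of ℂ))

noncomputable instance CScheme.category : Category CScheme := instCategoryOver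

/-- The underlying scheme of a complex scheme. -/
noncomputable def under : CScheme ⥤ Scheme.{0} := Over.forget (Spec (CommRingCat.of ℂ))

theorem clRep_one (W : CScheme) : clCMap (under.mapIso (1 : Aut W)) = 1 :=
  (congrArg clCMap (under.mapIso_refl W)).trans clCMap_refl

theorem clRep_mul (W : CScheme) (σ τ : Aut W) :
    clCMap (under.mapIso (σ * τ)) = clCMap (under.mapIso σ) * clCMap (under.mapIso τ) :=
  (congrArg clCMap (under.mapIso_trans τ σ)).trans (clCMap_trans _ _)

/-- The representation of the automorphism group on the complexified class group. -/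
noncomputable def clRep (W : CScheme) : Representation ℂ (Aut W) (ClC (under.obj W)) where
  toFun σ := clCMap (under.mapIso σ)
  map_one' := clRep_one W
  map_mul' := clRep_mul W

/-- There is an isomorphism of automorphism groups under which the complexified class groups are
isomorphic representations. -/
def SameClRep (V S : CScheme) : Prop :=
  ∃ (φ : Aut V ≃* Aut S) (e : ClC (under.obj V) ≃ₗ[ℂ] ClC (under.obj S)),
    ∀ σ v, e (clRep V σ v) = clRep S (φ σ) (e v)

/-- An integral locally Noetherian scheme. -/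
def IsVariety (W : CScheme) : Prop := IsIntegral (under.obj W) ∧ IsLocallyNoetherian (under.obj W)

end ClassGroup

section Hypersurface

/-- A weighted homogeneous polynomial, the equation of a weighted projective hypersurface. -/
structure WHyp (n : ℕ) where
  /-- the weights of the variables -/
  wt : Fin n → ℕ
  /-- the weighted degree -/
  deg : ℕ
  /-- the equation -/
  eqn : MvPolynomial (Fin n) ℂ
  hom : eqn.IsWeightedHomogeneous wt deg

variable {n : ℕ} (H : WHyp n)

/-- The homogeneous coordinate ring. -/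
def WHyp.Ring : Type := MvPolynomial (Fin n) ℂ ⧸ Ideal.span {H.eqn}

set_option warn.classDefReducibility false in
/-- The ring structure of the quotient. -/
noncomputable def WHyp.quotRing : CommRing H.Ring := Ideal.Quotient.commRing _

noncomputable instance WHyp.commRing : CommRing H.Ring := H.quotRing

set_option warn.classDefReducibility false in
/-- The algebra structure of the quotient. -/
noncomputable def WHyp.quotAlgebra : Algebra ℂ H.Ring := Ideal.Quotient.algebra ℂ

noncomputable instance WHyp.algebra : Algebra ℂ H.Ring := H.quotAlgebra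

/-- The class of a polynomial in the coordinate ring. -/
noncomputable def WHyp.mk' : MvPolynomial (Fin n) ℂ →ₐ[ℂ] H.Ring :=
  Ideal.Quotient.mkₐ ℂ (Ideal.span {H.eqn})

/-- The graded pieces of the coordinate ring. -/
noncomputable def WHyp.piece (d : ℕ) : Submodule ℂ H.Ring :=
  (weightedHomogeneousSubmodule ℂ H.wt d).map H.mk'.toLinearMap

theorem WHyp.comp_mem (d : ℕ) {p : MvPolynomial (Fin n) ℂ} (hp : H.mk' p = 0) :
    H.mk' (weightedHomogeneousComponent H.wt d p) = 0 := by
  let _ := weightedGradedAlgebra ℂ H.wt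
  have hI : (Ideal.span {H.eqn}).IsHomogeneous (weightedHomogeneousSubmodule ℂ H.wt) :=
    Ideal.homogeneous_span _ _ (by rintro _ rfl; exact ⟨H.deg, H.hom⟩)
  have h := hI d (Ideal.Quotient.eq_zero_iff_mem.mp hp)
  rw [show ((DirectSum.decompose (weightedHomogeneousSubmodule ℂ H.wt) p d :
    MvPolynomial (Fin n) ℂ)) = _ from decompose'_apply ℂ H.wt p d] at h
  exact Ideal.Quotient.eq_zero_iff_mem.mpr h

theorem WHyp.isInternal : DirectSum.IsInternal H.piece := by
  classical
  rw [DirectSum.isInternal_submodule_iff_iSupIndep_and_iSup_eq_top]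
  constructor
  · intro d
    rw [Submodule.disjoint_def]
    rintro _ ⟨p, hp, rfl⟩ h
    have key : ∀ r ∈ ⨆ (j : ℕ) (_ : j ≠ d), H.piece j,
        ∃ q, H.mk' q = r ∧ weightedHomogeneousComponent H.wt d q = 0 := by
      intro r hr
      induction hr using Submodule.iSup_induction' with
      | mem j r hr =>
        by_cases hj : j = d
        · simp only [hj, ne_eq, not_true_eq_false, iSup_neg, not_false_eq_true,
            Submodule.mem_bot] at hr
          exact ⟨0, by simp [hr], by simp⟩
        · rw [iSup_pos hj] at hr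
          obtain ⟨q, hq, rfl⟩ := hr
          exact ⟨q, rfl, by rw [weightedHomogeneousComponent_of_mem hq, if_neg (Ne.symm hj)]⟩
      | zero => exact ⟨0, by simp, by simp⟩
      | add a b _ _ ha hb =>
        obtain ⟨a, rfl, ha⟩ := ha
        obtain ⟨b, rfl, hb⟩ := hb
        exact ⟨a + b, by simp, by simp [ha, hb]⟩
    obtain ⟨q, hq, hq0⟩ := key _ h
    have h1 := H.comp_mem d (p := p - q) (by rw [map_sub, hq]; exact sub_self _)
    rwa [map_sub, hq0, sub_zero, weightedHomogeneousComponent_of_mem hp, if_pos rfl] at h1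
  · rw [eq_top_iff]
    rintro r -
    obtain ⟨p, rfl⟩ := Ideal.Quotient.mkₐ_surjective ℂ (Ideal.span {H.eqn}) r
    change H.mk' p ∈ _
    rw [← p.as_sum.symm, map_sum]
    exact Submodule.sum_mem _ fun m _ => Submodule.mem_iSup_of_mem (Finsupp.weight H.wt m)
      ⟨_, isWeightedHomogeneous_monomial _ _ _ rfl, rfl⟩

theorem WHyp.gradedMonoid : SetLike.GradedMonoid H.piece where
  one_mem := ⟨1, isWeightedHomogeneous_one ℂ H.wt, map_one H.mk'⟩
  mul_mem := by
    rintro i j _ _ ⟨p, hp, rfl⟩ ⟨q, hq, rfl⟩
    exact ⟨p * q, IsWeightedHomogeneous.mul hp hq, map_mul H.mk' p q⟩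

noncomputable instance WHyp.graded : GradedAlgebra H.piece :=
  { H.isInternal.chooseDecomposition, H.gradedMonoid with }

/-- The hypersurface in weighted projective space, as a complex scheme. -/
noncomputable def WHyp.scheme : CScheme :=
  Over.mk (Proj.toSpecZero H.piece ≫ Spec.map (CommRingCat.ofHom (algebraMap ℂ (H.piece 0))))

end Hypersurface

theorem hom_rename {m n : ℕ} {wt : Fin n → ℕ} (i : Fin m → Fin n) (hi : ∀ j, wt (i j) = 1)
    {p : MvPolynomial (Fin m) ℂ} {d : ℕ} (hp : p.IsHomogeneous d) :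
    (rename i p).IsWeightedHomogeneous wt d := by
  rw [p.as_sum, map_sum]
  refine IsWeightedHomogeneous.sum _ _ _ fun a ha => ?_
  rw [rename_monomial]
  refine isWeightedHomogeneous_monomial _ _ _ ?_
  rw [← hp (mem_support_iff.mp ha), Finsupp.weight_apply, Finsupp.weight_apply,
    Finsupp.sum_mapDomain_index (by simp) (by simp [add_mul])]
  simp [hi]

theorem hom_X_pow {n : ℕ} (wt : Fin n → ℕ) (i : Fin n) (k : ℕ) :
    ((X i : MvPolynomial (Fin n) ℂ) ^ k).IsWeightedHomogeneous wt (k * wt i) :=
  (isWeightedHomogeneous_X ℂ wt i).pow k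

theorem hom_delPezzo {f : MvPolynomial (Fin 3) ℂ} (hf : f.IsHomogeneous 4) :
    (X 0 ^ 2 - rename Fin.succ f).IsWeightedHomogeneous ![2, 1, 1, 1] 4 :=
  (weightedHomogeneousSubmodule ℂ _ 4).sub_mem (hom_X_pow _ 0 2)
    (hom_rename _ (fun j => by fin_cases j <;> rfl) hf)

/-- The surface `u ^ 2 = f` in `P(2,1,1,1)`. -/
noncomputable def delPezzo {f : MvPolynomial (Fin 3) ℂ} (hf : f.IsHomogeneous 4) : CScheme :=
  WHyp.scheme ⟨![2, 1, 1, 1], 4, X 0 ^ 2 - rename Fin.succ f, hom_delPezzo hf⟩

/-- The polynomial `c t ^ 3 + q t ^ 2 + r t + s` in the variables `w, t, a0, a1, a2`. -/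
noncomputable def branch (c : ℂ) (q r s : MvPolynomial (Fin 3) ℂ) : MvPolynomial (Fin 5) ℂ :=
  C c * X 1 ^ 3 + rename (Fin.natAdd 2) q * X 1 ^ 2 + rename (Fin.natAdd 2) r * X 1 +
    rename (Fin.natAdd 2) s

theorem hom_cone (c : ℂ) {q r s : MvPolynomial (Fin 3) ℂ} (hq : q.IsHomogeneous 2)
    (hr : r.IsHomogeneous 4) (hs : s.IsHomogeneous 6) :
    (X 0 ^ 2 - branch c q r s).IsWeightedHomogeneous ![3, 2, 1, 1, 1] 6 := by
  have h : ∀ j : Fin 3, (![3, 2, 1, 1, 1] : Fin 5 → ℕ) (Fin.natAdd 2 j) = 1 := fun j => by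
    fin_cases j <;> rfl
  refine (weightedHomogeneousSubmodule ℂ _ 6).sub_mem (hom_X_pow _ 0 2) ?_
  refine add_mem (add_mem (add_mem ?_ ?_) ?_) (hom_rename _ h hs)
  · exact (isWeightedHomogeneous_C _ c).mul (hom_X_pow _ 1 3)
  · exact (hom_rename _ h hq).mul (hom_X_pow _ 1 2)
  · exact (hom_rename _ h hr).mul (isWeightedHomogeneous_X ℂ _ 1)

/-- The threefold `w ^ 2 = c t ^ 3 + q t ^ 2 + r t + s` in `P(3,2,1,1,1)`. -/
noncomputable def cone (c : ℂ) {q r s : MvPolynomial (Fin 3) ℂ} (hq : q.IsHomogeneous 2)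
    (hr : r.IsHomogeneous 4) (hs : s.IsHomogeneous 6) : CScheme :=
  WHyp.scheme ⟨![3, 2, 1, 1, 1], 6, X 0 ^ 2 - branch c q r s, hom_cone c hq hr hs⟩

/-- The plane curve `f = 0` has no singular point. -/
def IsSmoothForm (f : MvPolynomial (Fin 3) ℂ) : Prop :=
  ∀ x : Fin 3 → ℂ, x ≠ 0 → ∃ i, eval x (pderiv i f) ≠ 0

/-- The line with coefficients `a` is tangent to the plane curve `f = 0`. -/
def IsTangentLine (f : MvPolynomial (Fin 3) ℂ) (a : Fin 3 → ℂ) : Prop :=
  ∃ x : Fin 3 → ℂ, x ≠ 0 ∧ eval x f = 0 ∧ ∃ l : ℂ, ∀ i, eval x (pderiv i f) = l * a i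

/-- The discriminant curve of the fibration `w ^ 2 = c t ^ 3 + q t ^ 2 + r t + s` is the dual curve
of `f = 0`. -/
def DiscIsDual (f : MvPolynomial (Fin 3) ℂ) (c : ℂ) (q r s : MvPolynomial (Fin 3) ℂ) : Prop :=
  ∀ a : Fin 3 → ℂ, a ≠ 0 →
    ((Cubic.mk c (eval a q) (eval a r) (eval a s)).discr = 0 ↔ IsTangentLine f a)

end Pool.Agent.Work.MP_475c1a_ag
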