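import Pool.Agent.Work.MP_475c1a_ag.Defs

/-! Locally principal Weil divisors. -/

namespace Pool.Agent.Work.MP_475c1a_ag

/-- Every Weil divisor is locally principal, that is, a Cartier divisor. -/
def WeilIsCartier (W : CScheme) : Prop :=
  ∀ (D : PrimeDiv (under.obj W) →₀ ℤ) (x : under.obj W), ∃ U : Set (under.obj W), IsOpen U ∧ x ∈ U ∧
    ∃ E ∈ principal (under.obj W), ∀ y : PrimeDiv (under.obj W), y.1 ∈ U → D y = E y

end Pool.Agent.Work.MP_475c1a_ag
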