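import Mathlib
import Pool.Agent.Work.MP_475c1a_ag.Defs
import Pool.Agent.Work.MP_475c1a_ag.QFrame
import Pool.Agent.Work.MP_475c1a_ag.Defs2

-- merged part: Pool.Agent.Work.MP_475c1a_ag.Div
section
-- merged part: Pool.Agent.Work.MP_475c1a_ag.DV
section
/-! Integer valued valuations on a field. -/

namespace Pool.Agent.Work.MP_475c1a_ag

open Polynomial

/-- An additive integer valued valuation, with the junk value `0` at `0`. -/
@[ext]
structure DV (L : Type*) [Field L] where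
  /-- the order function -/
  v : L → ℤ
  v_zero : v 0 = 0
  v_mul : ∀ {x y : L}, x ≠ 0 → y ≠ 0 → v (x * y) = v x + v y
  v_add : ∀ {x y : L}, x ≠ 0 → y ≠ 0 → x + y ≠ 0 → min (v x) (v y) ≤ v (x + y)

namespace DV

variable {L M : Type*} [Field L] [Field M] (w : DV L)

/-- The order of `x` is at least `n`. -/
def Ge (n : ℤ) (x : L) : Prop := x = 0 ∨ n ≤ w.v x

/-- The valuation takes the value one. -/
def Norm : Prop := ∃ p : L, p ≠ 0 ∧ w.v p = 1

@[simp] theorem v_one : w.v 1 = 0 := by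
  have := w.v_mul (x := 1) (y := 1) one_ne_zero one_ne_zero
  rw [mul_one] at this; omega

@[simp] theorem v_zero' : w.v 0 = 0 := w.v_zero

@[simp] theorem v_inv (x : L) : w.v x⁻¹ = -w.v x := by
  by_cases hx : x = 0
  · simp [hx]
  have := w.v_mul hx (inv_ne_zero hx)
  rw [mul_inv_cancel₀ hx, v_one] at this; omega

@[simp] theorem v_neg (x : L) : w.v (-x) = w.v x := by
  by_cases hx : x = 0
  · simp [hx]
  have h1 : w.v (-1) = 0 := by
    have := w.v_mul (x := -1) (y := -1) (by simp) (by simp)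
    rw [neg_mul_neg, mul_one, v_one] at this; omega
  have := w.v_mul (x := -1) (by simp) hx
  rw [neg_one_mul] at this; omega

theorem v_div {x y : L} (hx : x ≠ 0) (hy : y ≠ 0) : w.v (x / y) = w.v x - w.v y := by
  rw [div_eq_mul_inv, w.v_mul hx (inv_ne_zero hy), v_inv]; ring

@[simp] theorem v_pow (x : L) (n : ℕ) : w.v (x ^ n) = n * w.v x := by
  by_cases hx : x = 0
  · rcases n with _ | n <;> simp [hx]
  induction n with
  | zero => simp
  | succ n ih => rw [pow_succ, w.v_mul (pow_ne_zero _ hx) hx, ih]; push_cast; ring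

@[simp] theorem v_zpow (x : L) (n : ℤ) : w.v (x ^ n) = n * w.v x := by
  rcases n with n | n
  · simp
  · rw [zpow_negSucc, v_inv, v_pow, Int.negSucc_eq]; push_cast; ring

theorem v_prod {ι : Type*} (s : Finset ι) {f : ι → L} (h : ∀ i ∈ s, f i ≠ 0) :
    w.v (∏ i ∈ s, f i) = ∑ i ∈ s, w.v (f i) := by
  classical
  induction s using Finset.induction_on with
  | empty => simp
  | insert a s ha ih =>
    rw [Finset.prod_insert ha, Finset.sum_insert ha, w.v_mul (h a (by simp))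
      (Finset.prod_ne_zero_iff.mpr fun i hi => h i (by simp [hi])), ih fun i hi => h i (by simp [hi])]

variable {w}

theorem ge_zero (n : ℤ) : w.Ge n 0 := Or.inl rfl

theorem ge_self (x : L) : w.Ge (w.v x) x := Or.inr le_rfl

theorem ge_of_le {n : ℤ} {x : L} (h : n ≤ w.v x) : w.Ge n x := Or.inr h

theorem Ge.le {n : ℤ} {x : L} (h : w.Ge n x) (hx : x ≠ 0) : n ≤ w.v x := h.resolve_left hx

theorem Ge.nonneg {x : L} (h : w.Ge 0 x) : 0 ≤ w.v x := by
  rcases h with rfl | h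
  · simp
  · exact h

theorem ge_iff {n : ℤ} {x : L} (hx : x ≠ 0) : w.Ge n x ↔ n ≤ w.v x := ⟨fun h => h.le hx, Or.inr⟩

theorem ge_zero_iff {x : L} : w.Ge 0 x ↔ 0 ≤ w.v x := ⟨Ge.nonneg, Or.inr⟩

theorem Ge.mono {m n : ℤ} {x : L} (h : w.Ge n x) (hm : m ≤ n) : w.Ge m x :=
  h.imp id hm.trans

theorem Ge.add {n : ℤ} {x y : L} (hx : w.Ge n x) (hy : w.Ge n y) : w.Ge n (x + y) := by
  by_cases h0 : x = 0
  · simpa [h0] using hy
  by_cases h1 : y = 0
  · simpa [h1] using hx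
  by_cases h2 : x + y = 0
  · exact Or.inl h2
  exact Or.inr ((le_min (hx.le h0) (hy.le h1)).trans (w.v_add h0 h1 h2))

theorem Ge.neg {n : ℤ} {x : L} (hx : w.Ge n x) : w.Ge n (-x) :=
  hx.imp (by simp) (by simp)

theorem Ge.sub {n : ℤ} {x y : L} (hx : w.Ge n x) (hy : w.Ge n y) : w.Ge n (x - y) := by
  rw [sub_eq_add_neg]; exact hx.add hy.neg

theorem Ge.mul {m n k : ℤ} {x y : L} (hx : w.Ge m x) (hy : w.Ge n y) (h : k ≤ m + n) :
    w.Ge k (x * y) := by
  by_cases h0 : x = 0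
  · exact Or.inl (by simp [h0])
  by_cases h1 : y = 0
  · exact Or.inl (by simp [h1])
  have := hx.le h0; have := hy.le h1
  exact Or.inr (by rw [w.v_mul h0 h1]; omega)

theorem Ge.mul0 {x y : L} (hx : w.Ge 0 x) (hy : w.Ge 0 y) : w.Ge 0 (x * y) := hx.mul hy le_rfl

theorem Ge.mul_left {n : ℤ} {x y : L} (hx : w.Ge 0 x) (hy : w.Ge n y) : w.Ge n (x * y) :=
  hx.mul hy (by omega)

theorem Ge.mul_right {n : ℤ} {x y : L} (hx : w.Ge n x) (hy : w.Ge 0 y) : w.Ge n (x * y) :=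
  hx.mul hy (by omega)

theorem ge_one : w.Ge 0 1 := Or.inr (by simp)

theorem Ge.pow {n : ℤ} {x : L} (hx : w.Ge n x) (k : ℕ) : w.Ge (k * n) (x ^ k) := by
  induction k with
  | zero => simpa using ge_one
  | succ k ih => rw [pow_succ]; exact ih.mul hx (by push_cast; ring_nf; rfl)

theorem Ge.pow0 {x : L} (hx : w.Ge 0 x) (k : ℕ) : w.Ge 0 (x ^ k) := by simpa using hx.pow k

theorem ge_sum {ι : Type*} {n : ℤ} (s : Finset ι) {f : ι → L} (h : ∀ i ∈ s, w.Ge n (f i)) :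
    w.Ge n (∑ i ∈ s, f i) :=
  Finset.sum_induction f (w.Ge n) (fun _ _ => Ge.add) (ge_zero n) h

theorem Ge.div {m n k : ℤ} {x y : L} (hx : w.Ge m x) (hy : w.v y = n) (h : k ≤ m - n) :
    w.Ge k (x / y) := by
  rw [div_eq_mul_inv]
  exact hx.mul (ge_self y⁻¹) (by rw [v_inv]; omega)

theorem ge_natCast (n : ℕ) : w.Ge 0 (n : L) := by
  induction n with
  | zero => simpa using ge_zero 0
  | succ n ih => push_cast; exact ih.add ge_one

theorem ge_ofNat (n : ℕ) [n.AtLeastTwo] : w.Ge 0 (OfNat.ofNat n : L) := ge_natCast n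

theorem Ge.of_mul {n : ℤ} {x y : L} (h : w.Ge n (x * y)) (hx : x ≠ 0) (h0 : w.v x = 0) :
    w.Ge n y := by
  have : y = x * y / x := by field_simp
  rw [this]; exact h.div h0 (by omega)

theorem add_of_lt {x y : L} (hx : x ≠ 0) (hy : w.Ge (w.v x + 1) y) :
    x + y ≠ 0 ∧ w.v (x + y) = w.v x := by
  have h0 : ¬ w.Ge (w.v x + 1) (x + y) := fun h => by
    have := (h.sub hy).le (by simpa using hx)
    rw [add_sub_cancel_right] at this; omega
  have h1 : x + y ≠ 0 := fun h => h0 (Or.inl h)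
  refine ⟨h1, ?_⟩
  have h2 := ((ge_self x).add (hy.mono (by omega))).le h1
  rw [ge_iff h1] at h0; omega

theorem prime_ge {x y : L} (hx : w.Ge 0 x) (hy : w.Ge 0 y) (h : w.Ge 1 (x * y)) :
    w.Ge 1 x ∨ w.Ge 1 y := by
  by_cases h0 : x = 0
  · exact Or.inl (Or.inl h0)
  by_cases h1 : y = 0
  · exact Or.inr (Or.inl h1)
  have := hx.le h0; have := hy.le h1
  have := h.le (mul_ne_zero h0 h1)
  rw [w.v_mul h0 h1] at this
  rw [ge_iff h0, ge_iff h1]; omega

theorem not_ge_one : ¬ w.Ge 1 1 := by simp [Ge]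

theorem v_eq_zero {x : L} (h : w.Ge 0 x) (h1 : ¬ w.Ge 1 x) : x ≠ 0 ∧ w.v x = 0 := by
  have h0 : x ≠ 0 := fun h0 => h1 (Or.inl h0)
  have := h.le h0
  rw [ge_iff h0] at h1
  exact ⟨h0, by omega⟩

variable (w) in
/-- The valuation ring. -/
def O : Subring L where
  carrier := {x | w.Ge 0 x}
  mul_mem' := Ge.mul0
  one_mem' := ge_one
  add_mem' := Ge.add
  zero_mem' := ge_zero 0
  neg_mem' := Ge.neg

theorem mem_O {x : L} : x ∈ w.O ↔ w.Ge 0 x := Iff.rfl

/-- The centre on a ring mapping into the valuation ring. -/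
def cen (w : DV L) {A : Type*} [CommRing A] (j : A →+* L) (h : ∀ a, w.Ge 0 (j a)) : Ideal A where
  carrier := {a | w.Ge 1 (j a)}
  add_mem' := fun ha hb => by simpa using Ge.add ha hb
  zero_mem' := by simpa using ge_zero 1
  smul_mem' := fun c a ha => by simpa using (h c).mul_left ha

theorem mem_cen {A : Type*} [CommRing A] {j : A →+* L} {h : ∀ a, w.Ge 0 (j a)} {a : A} :
    a ∈ w.cen j h ↔ w.Ge 1 (j a) := Iff.rfl

instance cen_isPrime {A : Type*} [CommRing A] (j : A →+* L) (h : ∀ a, w.Ge 0 (j a)) :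
    (w.cen j h).IsPrime where
  ne_top' := fun e => not_ge_one (w := w) (by
    have : (1 : A) ∈ w.cen j h := by rw [e]; trivial
    simpa [mem_cen] using this)
  mem_or_mem' := fun {a b} hab => prime_ge (h a) (h b) (by simpa [mem_cen] using hab)

/-- Restriction along a field embedding. -/
def comap (w : DV M) (j : L →+* M) : DV L where
  v x := w.v (j x)
  v_zero := by simp
  v_mul hx hy := by rw [map_mul, w.v_mul (by simpa) (by simpa)]
  v_add hx hy h := by
    rw [map_add]; exact w.v_add (by simpa) (by simpa) (by rw [← map_add]; exact (_root_.map_ne_zero j).mpr h)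

@[simp] theorem comap_v (w : DV M) (j : L →+* M) (x : L) : (w.comap j).v x = w.v (j x) := rfl

theorem comap_ge {w : DV M} {j : L →+* M} {n : ℤ} {x : L} :
    (w.comap j).Ge n x ↔ w.Ge n (j x) := by simp [Ge]

theorem Norm.comap {w : DV M} (h : w.Norm) (e : L ≃+* M) : (w.comap (e : L →+* M)).Norm := by
  obtain ⟨p, hp, h1⟩ := h
  exact ⟨e.symm p, by simpa, by simpa⟩

/-- A valuation ring containing a discrete valuation ring. -/
theorem dom {u w : DV L} (hu : u.Norm) (h : ∀ x, u.Ge 0 x → w.Ge 0 x) :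
    ∃ e : ℤ, 0 ≤ e ∧ ∀ x, w.v x = e * u.v x := by
  obtain ⟨p, hp, h1⟩ := hu
  refine ⟨w.v p, (h p (Or.inr (by omega))).nonneg, fun x => ?_⟩
  by_cases hx : x = 0
  · simp [hx]
  have hz : p ^ u.v x ≠ 0 := zpow_ne_zero _ hp
  have h2 : u.v (x / p ^ u.v x) = 0 := by rw [u.v_div hx hz, v_zpow, h1]; ring
  have h3 := (h _ (Or.inr h2.ge)).nonneg
  have h4 := (h (x / p ^ u.v x)⁻¹ (Or.inr (by rw [v_inv, h2]; rfl))).nonneg
  rw [v_inv] at h4
  rw [w.v_div hx hz, v_zpow] at h3 h4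
  rw [mul_comm]; omega

theorem eq_of_mul {u w : DV L} (hu : u.Norm) (hw : w.Norm) {a b : ℤ} (ha : 0 < a) (hb : 0 < b)
    (h : ∀ x, a * u.v x = b * w.v x) : u = w := by
  obtain ⟨p, -, h1⟩ := hu
  obtain ⟨q, -, h2⟩ := hw
  have h3 := h p
  have h4 := h q
  rw [h1, mul_one] at h3
  rw [h2, mul_one] at h4
  have h5 : a = b := Int.dvd_antisymm ha.le hb.le ⟨_, h4.symm⟩ ⟨_, h3⟩
  subst h5
  ext x
  exact mul_left_cancel₀ ha.ne' (h x)

theorem ge_aeval {A : Type*} [CommRing A] {j : A →+* L} (h : ∀ a, w.Ge 0 (j a)) {x : L}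
    (hx : w.Ge 0 x) (p : A[X]) : w.Ge 0 (p.eval₂ j x) := by
  rw [eval₂_eq_sum_range]
  exact ge_sum _ fun i _ => (h _).mul0 (hx.pow0 i)

/-- Valuation rings are integrally closed. -/
theorem ge_of_monic {A : Type*} [CommRing A] {j : A →+* L} (h : ∀ a, w.Ge 0 (j a)) {x : L}
    {p : A[X]} (hp : p.Monic) (hx : p.eval₂ j x = 0) : w.Ge 0 x := by
  by_contra hn
  have h0 : x ≠ 0 := fun h0 => hn (Or.inl h0)
  rw [ge_iff h0] at hn
  rw [hp.as_sum, eval₂_add, eval₂_X_pow, eval₂_finsetSum] at hx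
  refine (add_of_lt (w := w) (pow_ne_zero p.natDegree h0) (ge_sum _ fun i hi => ?_)).1 hx
  rw [eval₂_mul, eval₂_C, eval₂_X_pow]
  refine (h _).mul ((ge_self x).pow i) ?_
  have := Finset.mem_range.mp hi
  rw [v_pow]
  have : (i : ℤ) + 1 ≤ p.natDegree := by exact_mod_cast this
  nlinarith

theorem trivial_of_algebraic [Algebra L M] (w : DV M) (h : ∀ a, w.v (algebraMap L M a) = 0)
    {x : M} (hx : IsAlgebraic L x) : w.v x = 0 := by
  have key : ∀ y : M, IsAlgebraic L y → 0 ≤ w.v y := fun y hy => by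
    obtain ⟨p, hp, h1⟩ := hy.isIntegral
    exact (ge_of_monic (fun a => Or.inr (h a).ge) hp h1).nonneg
  have h1 := key x hx
  have h2 := key x⁻¹ hx.inv
  rw [v_inv] at h2; omega

end DV

end Pool.Agent.Work.MP_475c1a_ag
end

-- merged part: Pool.Agent.Work.MP_475c1a_ag.DV2
section
/-! Constructions of valuations and the norm formula. -/

namespace Pool.Agent.Work.MP_475c1a_ag

open Polynomial WithZero

namespace DV

variable {L M : Type*} [Field L] [Field M]

theorem exists_ofPrime {B : Type*} [CommRing B] [IsDomain B] [WfDvdMonoid B] (j : B →+* L)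
    (hj : Function.Injective j) (hs : ∀ x, ∃ a b, b ≠ 0 ∧ x = j a / j b) {p : B} (hp : Prime p) :
    ∃ w : DV L, w.v (j p) = 1 ∧ (∀ a, w.Ge 0 (j a)) ∧ ∀ a, w.Ge 1 (j a) ↔ p ∣ a := by
  classical
  have hj0 : ∀ {a}, a ≠ 0 → j a ≠ 0 := fun h => (map_ne_zero_iff j hj).mpr h
  have hfin : ∀ {a}, a ≠ 0 → FiniteMultiplicity p a := fun h => .of_prime_left hp h
  have hm : ∀ {a b}, a ≠ 0 → b ≠ 0 →
      (multiplicity p (a * b) : ℤ) = multiplicity p a + multiplicity p b := fun ha hb => by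
    rw [multiplicity_mul hp (hfin (mul_ne_zero ha hb))]; push_cast; rfl
  choose n d hd hx using hs
  let v : L → ℤ := fun x => if x = 0 then 0 else (multiplicity p (n x) : ℤ) - multiplicity p (d x)
  have hv : ∀ {a b}, a ≠ 0 → b ≠ 0 →
      v (j a / j b) = (multiplicity p a : ℤ) - multiplicity p b := by
    intro a b ha hb
    have h0 : j a / j b ≠ 0 := div_ne_zero (hj0 ha) (hj0 hb)
    have h1 := hx (j a / j b)
    have hn : n (j a / j b) ≠ 0 := fun h => h0 (by rw [h1, h]; simp)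
    rw [div_eq_div_iff (hj0 hb) (hj0 (hd _)), ← map_mul, ← map_mul] at h1
    have h2 := congrArg (fun z => (multiplicity p z : ℤ)) (hj h1)
    simp only [hm ha (hd _), hm hn hb] at h2
    simp only [v, if_neg h0]; omega
  have hn : ∀ {x}, x ≠ 0 → n x ≠ 0 := fun {x} h h1 => h (by rw [hx x, h1]; simp)
  have hv1 : ∀ {a}, a ≠ 0 → v (j a) = multiplicity p a := fun {a} ha => by
    have := hv ha (one_ne_zero (α := B))
    rwa [map_one, div_one, multiplicity_eq_zero.mpr hp.not_dvd_one, Nat.cast_zero,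
      sub_zero] at this
  refine ⟨⟨v, by simp [v], ?_, ?_⟩, ?_, ?_, ?_⟩
  · intro x y h1 h2
    rw [hx x, hx y, div_mul_div_comm, ← map_mul, ← map_mul, hv (hn h1) (hd _), hv (hn h2) (hd _),
      hv (mul_ne_zero (hn h1) (hn h2)) (mul_ne_zero (hd _) (hd _)), hm (hn h1) (hn h2),
      hm (hd _) (hd _)]
    ring
  · intro x y h1 h2 h3
    have e : x + y = j (n x * d y + n y * d x) / j (d x * d y) := by
      conv_lhs => rw [hx x, hx y]
      have := hj0 (hd x); have := hj0 (hd y)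
      simp only [map_add, map_mul]; field_simp
    have h4 : n x * d y + n y * d x ≠ 0 := fun h => h3 (by rw [e, h]; simp)
    have a1 := mul_ne_zero (hn h1) (hd y)
    have a2 := mul_ne_zero (hn h2) (hd x)
    have h5 := min_le_emultiplicity_add (p := p) (a := n x * d y) (b := n y * d x)
    rw [(hfin a1).emultiplicity_eq_multiplicity, (hfin a2).emultiplicity_eq_multiplicity,
      (hfin h4).emultiplicity_eq_multiplicity, min_le_iff, Nat.cast_le, Nat.cast_le] at h5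
    have b1 := hm (hn h1) (hd y)
    have b2 := hm (hn h2) (hd x)
    rw [e, hv h4 (mul_ne_zero (hd _) (hd _)), hm (hd _) (hd _)]
    simp only [v, if_neg h1, if_neg h2]
    omega
  · simp [hv1 hp.ne_zero]
  · intro a
    by_cases ha : a = 0
    · exact Or.inl (by simp [ha])
    · exact Or.inr (by simp [hv1 ha])
  · intro a
    by_cases ha : a = 0
    · simp [ha, ge_zero]
    · rw [ge_iff (hj0 ha)]
      change 1 ≤ v (j a) ↔ _
      rw [hv1 ha, ← multiplicity_ne_zero]; omega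

/-- The additive valuation attached to a multiplicative one. -/
noncomputable def ofVal (u : Valuation L ℤᵐ⁰) : DV L where
  v x := -log (u x)
  v_zero := by simp
  v_mul hx hy := by rw [map_mul, log_mul (by simpa) (by simpa)]; ring
  v_add {x y} hx hy h := by
    have h1 := u.map_add x y
    have a : u x ≠ 0 := by simpa
    have b : u y ≠ 0 := by simpa
    have c : u (x + y) ≠ 0 := by simpa
    rw [le_max_iff, ← log_le_log c a, ← log_le_log c b] at h1
    omega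

theorem ofVal_ge {u : Valuation L ℤᵐ⁰} {x : L} : (ofVal u).Ge 0 x ↔ u x ≤ 1 := by
  by_cases hx : x = 0
  · simp [hx, ge_zero]
  rw [ge_iff hx, ← log_le_log (by simpa) one_ne_zero]
  simp [ofVal]

theorem isUnit_O {w : DV L} {x : w.O} : IsUnit x ↔ (x : L) ≠ 0 ∧ w.v x = 0 := by
  constructor
  · rintro ⟨u, rfl⟩
    have h : ((u : w.O) : L) * ((u⁻¹ : w.Oˣ) : w.O) = 1 := by
      rw [← Subring.coe_mul, u.mul_inv]; rfl
    have h0 := left_ne_zero_of_mul_eq_one h
    have h1 := w.v_mul h0 (right_ne_zero_of_mul_eq_one h)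
    rw [h, v_one] at h1
    have := Ge.nonneg (u : w.O).2
    have := Ge.nonneg ((u⁻¹ : w.Oˣ) : w.O).2
    exact ⟨h0, by omega⟩
  · rintro ⟨h0, h⟩
    exact IsUnit.of_mul_eq_one ⟨(x : L)⁻¹, Or.inr (by simp [h])⟩
      (Subtype.ext (mul_inv_cancel₀ h0))

theorem Norm.isDVR {w : DV L} (hw : w.Norm) : IsDiscreteValuationRing w.O := by
  obtain ⟨p, hp, h1⟩ := hw
  let q : w.O := ⟨p, Or.inr (by omega)⟩
  refine IsDiscreteValuationRing.ofHasUnitMulPowIrreducibleFactorization ⟨q, ⟨?_, ?_⟩, ?_⟩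
  · rw [isUnit_O]; simp [q, h1]
  · intro a b hab
    have h2 : p = (a : L) * b := congrArg Subtype.val hab
    have ha : (a : L) ≠ 0 := fun h => hp (by simp [h2, h])
    have hb : (b : L) ≠ 0 := fun h => hp (by simp [h2, h])
    rw [h2, w.v_mul ha hb] at h1
    have := Ge.nonneg a.2
    have := Ge.nonneg b.2
    rw [isUnit_O, isUnit_O]
    by_cases h : w.v a = 0
    · exact Or.inl ⟨ha, h⟩
    · exact Or.inr ⟨hb, by omega⟩
  · intro x hx
    have h0 : (x : L) ≠ 0 := fun h => hx (Subtype.ext h)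
    obtain ⟨n, hn⟩ := Int.eq_ofNat_of_zero_le (Ge.nonneg x.2)
    have h2 : w.v ((x : L) / p ^ n) = 0 := by
      rw [w.v_div h0 (pow_ne_zero _ hp), v_pow, h1, hn]; ring
    have h3 : IsUnit (⟨(x : L) / p ^ n, Or.inr h2.ge⟩ : w.O) :=
      isUnit_O.mpr ⟨div_ne_zero h0 (pow_ne_zero _ hp), h2⟩
    refine ⟨n, h3.unit, Subtype.ext ?_⟩
    simp only [IsUnit.unit_spec, Subring.coe_mul, Subring.coe_pow, q]
    field_simp

instance isFractionRing_O (w : DV L) : IsFractionRing w.O L := by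
  refine IsFractionRing.of_field _ _ fun z => ?_
  by_cases h : 0 ≤ w.v z
  · exact ⟨⟨z, Or.inr h⟩, 1, by rw [map_one, div_one]; rfl⟩
  · have h0 : z ≠ 0 := fun h0 => h (by simp [h0])
    exact ⟨1, ⟨z⁻¹, Or.inr (by rw [v_inv]; omega)⟩, by
      rw [map_one, one_div]; exact (inv_inv z).symm⟩

/-- `w` restricts to a positive multiple of `u`. -/
def Over (w : DV M) (j : L →+* M) (u : DV L) (e : ℤ) : Prop :=
  0 < e ∧ ∀ x, w.v (j x) = e * u.v x

theorem over_of_ge {w : DV M} {j : L →+* M} {u : DV L} (hu : u.Norm)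
    (h : ∀ x, u.Ge 0 x → w.Ge 0 (j x)) (h1 : ∃ x, w.v (j x) ≠ 0) : ∃ e, w.Over j u e := by
  obtain ⟨e, he, h2⟩ := dom (w := w.comap j) hu fun x hx => comap_ge.mpr (h x hx)
  obtain ⟨x, hx⟩ := h1
  refine ⟨e, lt_of_le_of_ne he ?_, h2⟩
  rintro rfl
  exact hx (by simpa using h2 x)

theorem Over.ge {w : DV M} {j : L →+* M} {u : DV L} {e : ℤ} (h : w.Over j u e) {x : L} :
    w.Ge 0 (j x) ↔ u.Ge 0 x := by
  rw [ge_zero_iff, ge_zero_iff, h.2, mul_nonneg_iff_of_pos_left h.1]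

theorem Over.ge_one {w : DV M} {j : L →+* M} {u : DV L} {e : ℤ} (h : w.Over j u e) {x : L} :
    w.Ge 1 (j x) ↔ u.Ge 1 x := by
  by_cases hx : x = 0
  · simp [hx, ge_zero]
  rw [ge_iff hx, ge_iff (by simpa), h.2]
  have := h.1
  constructor <;> intro h <;> nlinarith

theorem Over.unique {w : DV M} {j : L →+* M} {u u' : DV L} {e e' : ℤ} (h : w.Over j u e)
    (h' : w.Over j u' e') (hu : u.Norm) (hu' : u'.Norm) : u = u' :=
  eq_of_mul hu hu' h.1 h'.1 fun x => by rw [← h.2, ← h'.2]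

theorem isIntegral_of_forall [Algebra L M] [FiniteDimensional L M] [Algebra.IsSeparable L M]
    {u : DV L} (hu : u.Norm) {x : M}
    (h : ∀ (w : DV M) (e : ℤ), w.Norm → w.Over (algebraMap L M) u e → w.Ge 0 x) :
    IsIntegral u.O x := by
  have := hu.isDVR
  let A := integralClosure u.O M
  have : IsDedekindDomain A := integralClosure.isDedekindDomain u.O L M
  have : IsFractionRing A M := integralClosure.isFractionRing_of_finite_extension L M
  obtain ⟨a, rfl⟩ := IsDedekindDomain.HeightOneSpectrum.mem_integers_of_valuation_le_one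
    (R := A) M x fun P => by
      have hN : (ofVal (P.valuation M)).Norm := by
        obtain ⟨p, hp⟩ := P.valuation_exists_uniformizer M
        exact ⟨p, fun h0 => by rw [h0, map_zero] at hp; exact exp_ne_zero hp.symm, by simp [ofVal, hp]⟩
      obtain ⟨e, he⟩ := over_of_ge (w := ofVal (P.valuation M)) (j := algebraMap L M) hu
        (fun y hy => ofVal_ge.mpr (P.valuation_le_one
          (⟨_, isIntegral_algebraMap (x := (⟨y, hy⟩ : u.O))⟩ : A))) (by
          by_contra! h0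
          obtain ⟨p, -, hp⟩ := hN
          rw [trivial_of_algebraic _ h0 (Algebra.IsAlgebraic.isAlgebraic p)] at hp
          exact zero_ne_one hp)
      exact ofVal_ge.mp (h _ e hN he)
  exact a.2

theorem v_norm [Algebra L M] [FiniteDimensional L M] [Algebra.IsSeparable L M]
    {u : DV L} (hu : u.Norm) {x : M} (hx : x ≠ 0) {n : ℤ}
    (h : ∀ (w : DV M) (e : ℤ), w.Norm → w.Over (algebraMap L M) u e → w.v x = e * n) :
    u.v (Algebra.norm L x) = Module.finrank L M * n := by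
  have key : ∀ y : M, (∀ (w : DV M) (e : ℤ), w.Norm → w.Over (algebraMap L M) u e → w.v y = 0) →
      0 ≤ u.v (Algebra.norm L y) := fun y hy => by
    obtain ⟨p, hp, h1⟩ := Algebra.isIntegral_norm L
      (isIntegral_of_forall hu fun w e h1 h2 => Or.inr (hy w e h1 h2).ge)
    exact (ge_of_monic (fun a => a.2) hp h1).nonneg
  obtain ⟨p, hp, h1⟩ := hu
  have hz : p ^ n ≠ 0 := zpow_ne_zero _ hp
  have hz' : algebraMap L M (p ^ n) ≠ 0 := (_root_.map_ne_zero _).mpr hz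
  have h2 : ∀ (w : DV M) (e : ℤ), w.Norm → w.Over (algebraMap L M) u e →
      w.v (x / algebraMap L M (p ^ n)) = 0 := fun w e a b => by
    rw [w.v_div hx hz', h w e a b, b.2, v_zpow, h1]; ring
  have h3 := key _ h2
  have h4 := key (x / algebraMap L M (p ^ n))⁻¹ fun w e a b => by rw [v_inv, h2 w e a b]; rfl
  rw [Algebra.norm_inv, v_inv] at h4
  have h5 : Algebra.norm L x = Algebra.norm L (x / algebraMap L M (p ^ n)) *
      (p ^ n) ^ Module.finrank L M := by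
    rw [← Algebra.norm_algebraMap, ← map_mul, div_mul_cancel₀ _ hz']
  rw [h5, u.v_mul (Algebra.norm_ne_zero_iff.mpr (div_ne_zero hx hz')) (pow_ne_zero _ hz), v_pow,
    v_zpow, h1, mul_one]
  omega

end DV

end Pool.Agent.Work.MP_475c1a_ag
end

-- merged part: Pool.Agent.Work.MP_475c1a_ag.ProjA
section
/-! The function field and the local rings of `Proj` of a graded domain. -/

namespace Pool.Agent.Work.MP_475c1a_ag

open AlgebraicGeometry CategoryTheory HomogeneousLocalization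

set_option backward.isDefEq.respectTransparency false
set_option linter.unusedSectionVars false
set_option maxHeartbeats 400000

variable {R : Type} [CommRing R] [IsDomain R] [Algebra ℂ R] (𝒜 : ℕ → Submodule ℂ R)
  [GradedAlgebra 𝒜]

/-- The ideal of a point. -/
abbrev pid (x : Proj 𝒜) : Ideal R := x.asHomogeneousIdeal.toIdeal

omit [IsDomain R] in
instance pid_prime (x : Proj 𝒜) : (pid 𝒜 x).IsPrime := x.isPrime

omit [IsDomain R] in
theorem pid_inj {x y : Proj 𝒜} (h : pid 𝒜 x = pid 𝒜 y) : x = y :=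
  ProjectiveSpectrum.ext (HomogeneousIdeal.ext h)

omit [IsDomain R] in
theorem le_iff_pid {x y : Proj 𝒜} : x ≤ y ↔ pid 𝒜 y ≤ pid 𝒜 x := by
  change y ⤳ x ↔ _
  rw [specializes_iff_mem_closure]
  exact (ProjectiveSpectrum.le_iff_mem_closure 𝒜 y x).symm

/-- A point given by a homogeneous prime missing an element of positive degree. -/
def mkPt (P : Ideal R) (hP : P.IsPrime) (hh : P.IsHomogeneous 𝒜) {s : R} {d : ℕ} (hd : 0 < d)
    (hs : s ∈ 𝒜 d) (h : s ∉ P) : Proj 𝒜 :=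
  (⟨⟨P, hh⟩, hP, fun h1 => h (h1 (HomogeneousIdeal.mem_irrelevant_of_mem 𝒜 hd hs))⟩ :
    ProjectiveSpectrum 𝒜)

variable {s : R} (hs : s ∈ 𝒜 1) (hs0 : s ≠ 0)

include hs hs0 in
theorem exists_pid_bot : ∃ x : Proj 𝒜, pid 𝒜 x = ⊥ :=
  ⟨mkPt 𝒜 ⊥ Ideal.isPrime_bot (Ideal.IsHomogeneous.bot 𝒜) one_pos hs (by simpa), rfl⟩

/-- The map from a homogeneous localization to the fraction field. -/
noncomputable def toFrac (P : Submonoid R) (hP : P ≤ nonZeroDivisors R) :
    HomogeneousLocalization 𝒜 P →+* FractionRing R :=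
  (IsLocalization.map (T := nonZeroDivisors R) (FractionRing R) (RingHom.id R) hP).comp
    (algebraMap _ (Localization P))

theorem toFrac_mk (P : Submonoid R) (hP : P ≤ nonZeroDivisors R) (c : NumDenSameDeg 𝒜 P) :
    toFrac 𝒜 P hP (.mk c) =
      algebraMap R (FractionRing R) c.num / algebraMap R (FractionRing R) c.den := by
  simp only [toFrac, RingHom.comp_apply, HomogeneousLocalization.algebraMap_apply, val_mk,
    Localization.mk_eq_mk',
    IsLocalization.map_mk', IsFractionRing.mk'_eq_div, RingHom.id_apply]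

theorem toFrac_injective (P : Submonoid R) (hP : P ≤ nonZeroDivisors R) :
    Function.Injective (toFrac 𝒜 P hP) := by
  rw [injective_iff_map_eq_zero]
  intro a ha
  obtain ⟨c, rfl⟩ := mk_surjective a
  rw [toFrac_mk, div_eq_zero_iff, map_eq_zero_iff _ (IsFractionRing.injective R _),
    map_eq_zero_iff _ (IsFractionRing.injective R _)] at ha
  exact mk_eq_zero_of_num _ (Subtype.ext (ha.resolve_right (nonZeroDivisors.ne_zero (hP c.den_mem))))

include hs hs0 in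
theorem isIntegral_proj : IsIntegral (Proj 𝒜) := by
  obtain ⟨x, hx⟩ := exists_pid_bot 𝒜 hs hs0
  have h1 : IsGenericPoint x (Set.univ : Set (Proj 𝒜)) := by
    rw [isGenericPoint_iff_specializes]
    intro y
    simp only [Set.mem_univ, iff_true]
    exact (le_iff_pid 𝒜 (x := y) (y := x)).mpr (by rw [hx]; exact bot_le)
  have : IrreducibleSpace (Proj 𝒜) := by
    rw [irreducibleSpace_def]
    exact h1.isIrreducible
  have : ∀ y : Proj 𝒜, _root_.IsReduced ((Proj 𝒜).presheaf.stalk y) := fun y => by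
    have := y.isPrime
    have : IsDomain (AtPrime 𝒜 (pid 𝒜 y)) :=
      (toFrac_injective 𝒜 _ (Ideal.primeCompl_le_nonZeroDivisors _)).isDomain _
    have : IsDomain ((Proj 𝒜).presheaf.stalk y) :=
      (Proj.stalkIso 𝒜 y).commRingCatIsoToRingEquiv.toMulEquiv.isDomain _
    infer_instance
  have := isReduced_of_isReduced_stalk (Proj 𝒜)
  exact isIntegral_of_irreducibleSpace_of_isReduced _

omit [IsDomain R] in
theorem isLocallyNoetherian_proj [Algebra.FiniteType ℂ R]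
    (h0 : Function.Surjective (algebraMap ℂ (𝒜 0))) : IsLocallyNoetherian (Proj 𝒜) := by
  have : IsScalarTower ℂ (𝒜 0) R := ⟨fun c a r => smul_assoc c (a : R) r⟩
  have : Algebra.FiniteType (𝒜 0) R := Algebra.FiniteType.of_restrictScalars_finiteType ℂ _ _
  have : IsNoetherianRing (𝒜 0) := isNoetherianRing_of_surjective ℂ _ _ h0
  exact LocallyOfFiniteType.isLocallyNoetherian (Proj.toSpecZero 𝒜)

/-- The embedding of the homogeneous localization at a point. -/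
noncomputable def ptFrac (x : Proj 𝒜) : AtPrime 𝒜 (pid 𝒜 x) →+* FractionRing R :=
  toFrac 𝒜 _ (Ideal.primeCompl_le_nonZeroDivisors (pid 𝒜 x))

theorem ptFrac_mk (x : Proj 𝒜) (c : NumDenSameDeg 𝒜 (pid 𝒜 x).primeCompl) :
    ptFrac 𝒜 x (.mk c) =
      algebraMap R (FractionRing R) c.num / algebraMap R (FractionRing R) c.den :=
  toFrac_mk 𝒜 _ _ c

/-- The stalk is the homogeneous localization. -/
noncomputable def sIso (x : Proj 𝒜) : (Proj 𝒜).presheaf.stalk x ≃+* AtPrime 𝒜 (pid 𝒜 x) :=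
  Proj.stalkIso' 𝒜 x

theorem sIso_germ (U : (Proj 𝒜).Opens) (x : Proj 𝒜) (hx : x ∈ U) (t : Γ(Proj 𝒜, U)) :
    sIso 𝒜 x ((Proj 𝒜).presheaf.germ U x hx t) = t.1 ⟨x, hx⟩ :=
  Proj.stalkIso'_germ 𝒜 U x hx t

theorem sIso_symm_mk (x : Proj 𝒜) (c : NumDenSameDeg 𝒜 (pid 𝒜 x).primeCompl) :
    (sIso 𝒜 x).symm (.mk c) = (Proj 𝒜).presheaf.germ (Proj.basicOpen 𝒜 c.den) x c.den_mem
      (sectionInBasicOpen 𝒜 x c) := rfl

/-- The embedding of a local ring into the fraction field of the graded ring. -/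
noncomputable def stalkFrac (x : Proj 𝒜) : (Proj 𝒜).presheaf.stalk x →+* FractionRing R :=
  (ptFrac 𝒜 x).comp (sIso 𝒜 x).toRingHom

theorem stalkFrac_apply (x : Proj 𝒜) (a : (Proj 𝒜).presheaf.stalk x) :
    stalkFrac 𝒜 x a = ptFrac 𝒜 x (sIso 𝒜 x a) := rfl

theorem stalkFrac_injective (x : Proj 𝒜) : Function.Injective (stalkFrac 𝒜 x) := fun _ _ h =>
  (sIso 𝒜 x).injective
    (toFrac_injective 𝒜 _ (Ideal.primeCompl_le_nonZeroDivisors (pid 𝒜 x)) h)

theorem mem_range_stalkFrac (x : Proj 𝒜) (z : FractionRing R) :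
    (∃ a, stalkFrac 𝒜 x a = z) ↔ ∃ d p q, p ∈ 𝒜 d ∧ q ∈ 𝒜 d ∧ q ∉ pid 𝒜 x ∧
      z = algebraMap R _ p / algebraMap R _ q := by
  constructor
  · rintro ⟨a, rfl⟩
    obtain ⟨b, rfl⟩ := (sIso 𝒜 x).symm.surjective a
    obtain ⟨c, rfl⟩ := mk_surjective b
    refine ⟨c.deg, c.num, c.den, c.num.2, c.den.2, c.den_mem, ?_⟩
    rw [stalkFrac_apply, RingEquiv.apply_symm_apply, ptFrac_mk]
  · rintro ⟨d, p, q, hp, hq, h, rfl⟩
    refine ⟨(sIso 𝒜 x).symm (.mk ⟨d, ⟨p, hp⟩, ⟨q, hq⟩, h⟩), ?_⟩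
    rw [stalkFrac_apply, RingEquiv.apply_symm_apply, ptFrac_mk]

variable [IsIntegral (Proj 𝒜)]

/-- The embedding of the function field. -/
noncomputable def Phi : (Proj 𝒜).functionField →+* FractionRing R :=
  stalkFrac 𝒜 (genericPoint (Proj 𝒜))

theorem Phi_algebraMap (x : Proj 𝒜) (a : (Proj 𝒜).presheaf.stalk x) :
    Phi 𝒜 (algebraMap _ (Proj 𝒜).functionField a) = stalkFrac 𝒜 x a := by
  obtain ⟨b, rfl⟩ := (sIso 𝒜 x).symm.surjective a
  obtain ⟨c, rfl⟩ := mk_surjective b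
  rw [stalkFrac_apply, RingEquiv.apply_symm_apply, sIso_symm_mk]
  have : Nonempty (Proj.basicOpen 𝒜 c.den) := ⟨⟨x, c.den_mem⟩⟩
  rw [Scheme.algebraMap_germ_eq_germToFunctionField, Phi, stalkFrac_apply, sIso_germ, ptFrac_mk]
  exact ptFrac_mk 𝒜 _ _

include hs hs0 in
theorem pid_generic : pid 𝒜 (genericPoint (Proj 𝒜)) = ⊥ := by
  obtain ⟨x, hx⟩ := exists_pid_bot 𝒜 hs hs0
  rw [eq_bot_iff, ← hx, ← le_iff_pid]
  exact genericPoint_specializes x

include hs0 in
theorem generic_mem {t : R} (hs : s ∈ 𝒜 1) (ht0 : t ≠ 0) :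
    genericPoint (Proj 𝒜) ∈ Proj.basicOpen 𝒜 t := by
  change t ∉ pid 𝒜 _
  rw [pid_generic 𝒜 hs hs0]
  simpa

/-- The map from the coordinate ring of a standard chart to the function field. -/
noncomputable def chart (t : R) (h : genericPoint (Proj 𝒜) ∈ Proj.basicOpen 𝒜 t) :
    CommRingCat.of (Away 𝒜 t) ⟶ (Proj 𝒜).functionField :=
  Proj.awayToSection 𝒜 t ≫ (Proj 𝒜).presheaf.germ _ _ h

theorem Phi_chart {t : R} {d : ℕ} (ht : t ∈ 𝒜 d)
    (h : genericPoint (Proj 𝒜) ∈ Proj.basicOpen 𝒜 t) (n : ℕ) (r : R) (hr : r ∈ 𝒜 (n • d)) :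
    Phi 𝒜 (chart 𝒜 t h (Away.mk 𝒜 ht n r hr)) =
      algebraMap R (FractionRing R) r / algebraMap R (FractionRing R) t ^ n := by
  change stalkFrac 𝒜 _ ((Proj 𝒜).presheaf.germ _ _ h
    (Proj.awayToSection 𝒜 t (Away.mk 𝒜 ht n r hr))) = _
  rw [stalkFrac_apply, sIso_germ, ← map_pow]
  exact ptFrac_mk 𝒜 _ _

theorem chart_awayι {t : R} {d : ℕ} (ht : t ∈ 𝒜 d) (hd : 0 < d)
    (h : genericPoint (Proj 𝒜) ∈ Proj.basicOpen 𝒜 t) :
    Spec.map (chart 𝒜 t h) ≫ Proj.awayι 𝒜 t ht hd = gen (Proj 𝒜) := by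
  have hU := Proj.isAffineOpen_basicOpen 𝒜 t ht hd
  have h1 : Spec.map (Proj.awayToSection 𝒜 t) ≫ Proj.awayι 𝒜 t ht hd = hU.fromSpec := by
    rw [← cancel_epi hU.isoSpec.hom, IsAffineOpen.isoSpec_hom, IsAffineOpen.toSpecΓ_fromSpec,
      ← Category.assoc, ← Proj.basicOpenToSpec, Proj.awayι, ← Proj.basicOpenIsoSpec_hom 𝒜 t ht hd,
      Iso.hom_inv_id_assoc]
  rw [chart, Spec.map_comp, Category.assoc, h1, gen, ← hU.fromSpecStalk_eq_fromSpecStalk h]
  rfl

end Pool.Agent.Work.MP_475c1a_ag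
end

-- merged part: Pool.Agent.Work.MP_475c1a_ag.ProjB
section
/-! Dehomogenization and the valuations of the prime divisors of `Proj`. -/

namespace Pool.Agent.Work.MP_475c1a_ag

open AlgebraicGeometry CategoryTheory HomogeneousLocalization DirectSum

set_option backward.isDefEq.respectTransparency false
set_option linter.unusedSectionVars false
set_option maxHeartbeats 400000

variable {R : Type} [CommRing R] [IsDomain R] [Algebra ℂ R] (𝒜 : ℕ → Submodule ℂ R)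
  [GradedAlgebra 𝒜] [IsIntegral (Proj 𝒜)] {s : R} (hs : s ∈ 𝒜 1) (hs0 : s ≠ 0)

omit [IsIntegral (Proj 𝒜)] [IsDomain R] in
theorem exists_comp_notMem {P : Ideal R} {r : R} (h : r ∉ P) :
    ∃ d, (decompose 𝒜 r d : R) ∉ P := by
  classical
  by_contra! h1
  exact h (by rw [← sum_support_decompose 𝒜 r]; exact Ideal.sum_mem _ fun d _ => h1 d)

theorem frac_ne {r : R} (h : r ≠ 0) : algebraMap R (FractionRing R) r ≠ 0 :=
  (map_ne_zero_iff _ (IsFractionRing.injective R _)).mpr h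

include hs hs0 in
theorem exists_theta : ∃ θ : R →+* (Proj 𝒜).functionField, ∀ d r, r ∈ 𝒜 d →
    Phi 𝒜 (θ r) = algebraMap R (FractionRing R) r / algebraMap R (FractionRing R) s ^ d := by
  let f : ∀ d, 𝒜 d →+ FractionRing R := fun d =>
    { toFun r := algebraMap R _ r / algebraMap R _ s ^ d
      map_zero' := by simp
      map_add' a b := by simp [add_div] }
  let θ : R →+* FractionRing R := (toSemiring f (by simp [f]) (fun {i j} a b => by
    simp only [f, AddMonoidHom.coe_mk, ZeroHom.coe_mk, SetLike.coe_gMul, map_mul, pow_add]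
    exact (div_mul_div_comm _ _ _ _).symm)).comp (decomposeRingEquiv 𝒜).toRingHom
  have hθ : ∀ d r, r ∈ 𝒜 d → θ r = algebraMap R _ r / algebraMap R _ s ^ d := fun d r hr => by
    have h : (decomposeRingEquiv 𝒜).toRingHom r = of (fun i => 𝒜 i) d ⟨r, hr⟩ :=
      decompose_of_mem 𝒜 hr
    rw [RingHom.comp_apply, h, toSemiring_of]; rfl
  have hr : ∀ r, ∃ g, Phi 𝒜 g = θ r := fun r => by
    induction r using Decomposition.inductionOn 𝒜 with
    | zero => exact ⟨0, by simp⟩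
    | @homogeneous d r =>
      exact ⟨_, (Phi_chart 𝒜 hs (generic_mem 𝒜 hs0 hs hs0) d r (by simp)).trans (hθ d r r.2).symm⟩
    | add a b ha hb =>
      obtain ⟨a, ha⟩ := ha
      obtain ⟨b, hb⟩ := hb
      exact ⟨a + b, by simp [ha, hb]⟩
  choose g hg using hr
  have hi := (Phi 𝒜).injective
  exact ⟨⟨⟨⟨g, hi (by simp [hg])⟩, fun a b => hi (by simp [hg])⟩, hi (by simp [hg]),
    fun a b => hi (by simp [hg])⟩, fun d r h => (hg r).trans (hθ d r h)⟩

/-- Dehomogenization with respect to `s`. -/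
noncomputable def theta : R →+* (Proj 𝒜).functionField := (exists_theta 𝒜 hs hs0).choose

variable {𝒜}

theorem Phi_theta {d : ℕ} {r : R} (hr : r ∈ 𝒜 d) : Phi 𝒜 (theta 𝒜 hs hs0 r) =
    algebraMap R (FractionRing R) r / algebraMap R (FractionRing R) s ^ d :=
  (exists_theta 𝒜 hs hs0).choose_spec d r hr

theorem theta_self : theta 𝒜 hs hs0 s = 1 :=
  (Phi 𝒜).injective (by rw [Phi_theta hs hs0 hs, pow_one, div_self (frac_ne hs0), map_one])

theorem theta_inj {d : ℕ} {p q : R} (hp : p ∈ 𝒜 d) (hq : q ∈ 𝒜 d)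
    (h : theta 𝒜 hs hs0 p = theta 𝒜 hs hs0 q) : p = q := by
  have h1 := congrArg (Phi 𝒜) h
  rw [Phi_theta hs hs0 hp, Phi_theta hs hs0 hq,
    div_left_inj' (pow_ne_zero _ (frac_ne hs0))] at h1
  exact IsFractionRing.injective R _ h1

theorem theta_ne {d : ℕ} {p : R} (hp : p ∈ 𝒜 d) (h : p ≠ 0) : theta 𝒜 hs hs0 p ≠ 0 := fun h1 =>
  h (theta_inj hs hs0 hp (zero_mem _) (by rw [h1, map_zero]))

theorem Phi_theta_div {d : ℕ} {p q : R} (hp : p ∈ 𝒜 d) (hq : q ∈ 𝒜 d) :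
    Phi 𝒜 (theta 𝒜 hs hs0 p / theta 𝒜 hs hs0 q) =
      algebraMap R (FractionRing R) p / algebraMap R (FractionRing R) q := by
  rw [map_div₀, Phi_theta hs hs0 hp, Phi_theta hs hs0 hq,
    div_div_div_cancel_right₀ (pow_ne_zero _ (frac_ne hs0))]

include hs in
theorem exists_theta_hom (r : R) : ∃ d, ∃ p ∈ 𝒜 d, p - r ∈ Ideal.span {s - 1} := by
  have h : ∀ k : ℕ, ∀ a : R, a * s ^ k - a ∈ Ideal.span {s - 1} := fun k a => by
    rw [Ideal.mem_span_singleton, ← mul_sub_one]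
    exact (by simpa using sub_dvd_pow_sub_pow s 1 k : s - 1 ∣ s ^ k - 1).mul_left a
  induction r using Decomposition.inductionOn 𝒜 with
  | zero => exact ⟨0, 0, zero_mem _, by simp⟩
  | @homogeneous d r => exact ⟨d, r, r.2, by simp⟩
  | add a b ha hb =>
    obtain ⟨i, p, hp, h1⟩ := ha
    obtain ⟨j, q, hq, h2⟩ := hb
    refine ⟨i + j, p * s ^ j + q * s ^ i, add_mem ?_ ?_, ?_⟩
    · simpa using SetLike.mul_mem_graded hp (SetLike.pow_mem_graded j hs)
    · simpa [add_comm] using SetLike.mul_mem_graded hq (SetLike.pow_mem_graded i hs)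
    · convert add_mem (add_mem (h j p) (h i q)) (add_mem h1 h2) using 1
      ring

theorem theta_eq_of_sub {p r : R} (h : p - r ∈ Ideal.span {s - 1}) :
    theta 𝒜 hs hs0 p = theta 𝒜 hs hs0 r := by
  obtain ⟨a, ha⟩ := Ideal.mem_span_singleton.mp h
  rw [← sub_eq_zero, ← map_sub, ha, map_mul, map_sub, theta_self, map_one, sub_self, zero_mul]

theorem exists_theta_hom_theta (r : R) : ∃ d, ∃ p ∈ 𝒜 d, theta 𝒜 hs hs0 p = theta 𝒜 hs hs0 r := by
  obtain ⟨d, p, hp, h⟩ := exists_theta_hom hs r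
  exact ⟨d, p, hp, theta_eq_of_sub hs hs0 h⟩

theorem ker_theta {r : R} (h : theta 𝒜 hs hs0 r = 0) : s - 1 ∣ r := by
  obtain ⟨d, p, hp, h1⟩ := exists_theta_hom hs r
  have h2 : p = 0 := theta_inj hs hs0 hp (zero_mem _) (by
    rw [theta_eq_of_sub hs hs0 h1, h, map_zero])
  rw [h2, zero_sub, neg_mem_iff] at h1
  exact Ideal.mem_span_singleton.mp h1

theorem mem_stalk_iff (x : Proj 𝒜) (g : (Proj 𝒜).functionField) :
    (∃ a : (Proj 𝒜).presheaf.stalk x, algebraMap _ _ a = g) ↔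
      ∃ d p q, p ∈ 𝒜 d ∧ q ∈ 𝒜 d ∧ q ∉ pid 𝒜 x ∧ g = theta 𝒜 hs hs0 p / theta 𝒜 hs hs0 q := by
  have h := mem_range_stalkFrac 𝒜 x (Phi 𝒜 g)
  simp only [← Phi_algebraMap, (Phi 𝒜).injective.eq_iff] at h
  rw [h]
  refine exists_congr fun d => exists_congr fun p => exists_congr fun q =>
    and_congr_right fun hp => and_congr_right fun hq => and_congr_right fun _ => ?_
  rw [← Phi_theta_div hs hs0 hp hq, (Phi 𝒜).injective.eq_iff]

theorem exists_theta_div (g : (Proj 𝒜).functionField) :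
    ∃ d p q, p ∈ 𝒜 d ∧ q ∈ 𝒜 d ∧ q ≠ 0 ∧ g = theta 𝒜 hs hs0 p / theta 𝒜 hs hs0 q := by
  obtain ⟨d, p, q, hp, hq, h, e⟩ := (mem_range_stalkFrac 𝒜 _ (Phi 𝒜 g)).mp ⟨g, rfl⟩
  refine ⟨d, p, q, hp, hq, fun h0 => h (h0 ▸ zero_mem _), (Phi 𝒜).injective ?_⟩
  rw [Phi_theta_div hs hs0 hp hq, e]

include hs hs0 in
theorem coheight_eq_one_iff (x : Proj 𝒜) : Order.coheight x = 1 ↔
    pid 𝒜 x ≠ ⊥ ∧ ∀ y, pid 𝒜 y ≤ pid 𝒜 x → pid 𝒜 y = ⊥ ∨ y = x := by
  have hg := pid_generic 𝒜 hs hs0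
  have hm : ∀ y : Proj 𝒜, IsMax y ↔ pid 𝒜 y = ⊥ := fun y =>
    ⟨fun h => by
      have := (le_iff_pid 𝒜).mp (h (b := genericPoint _) (genericPoint_specializes y))
      rwa [hg, le_bot_iff] at this,
    fun h z _ => (le_iff_pid 𝒜).mpr (by rw [h]; exact bot_le)⟩
  have h1 : Order.coheight x ≤ 1 ↔ ∀ y > x, pid 𝒜 y = ⊥ := by
    have := Order.coheight_le_coe_iff (x := x) (n := 1)
    simpa [Order.lt_one_iff, hm] using this
  rw [le_antisymm_iff, h1, Order.one_le_iff_ne_zero, Order.coheight_ne_zero, hm, and_comm]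
  refine and_congr_right fun _ => forall_congr' fun y => ?_
  rw [gt_iff_lt, lt_iff_le_not_ge, le_iff_pid, le_iff_pid]
  constructor
  · intro h h2
    by_cases h3 : pid 𝒜 x ≤ pid 𝒜 y
    · exact Or.inr (pid_inj 𝒜 (le_antisymm h2 h3))
    · exact Or.inl (h ⟨h2, h3⟩)
  · rintro h ⟨h2, h3⟩
    exact (h h2).resolve_right (by rintro rfl; exact h3 le_rfl)

include hs hs0 in
theorem isIntegrallyClosed_stalk [IsIntegrallyClosed R] (x : Proj 𝒜) :
    IsIntegrallyClosed ((Proj 𝒜).presheaf.stalk x) := by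
  rw [isIntegrallyClosed_iff (Proj 𝒜).functionField]
  rintro g ⟨P, hP, h⟩
  let S := Localization.subalgebra.ofField (FractionRing R) _
    (Ideal.primeCompl_le_nonZeroDivisors (pid 𝒜 x))
  have : IsIntegrallyClosed S := isIntegrallyClosed_of_isLocalization S _
    (Ideal.primeCompl_le_nonZeroDivisors (pid 𝒜 x))
  let j : (Proj 𝒜).presheaf.stalk x →+* S := (stalkFrac 𝒜 x).codRestrict S fun a => by
    obtain ⟨d, p, q, -, -, hq, e⟩ := (mem_range_stalkFrac 𝒜 x _).mp ⟨a, rfl⟩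
    exact ⟨p, q, hq, by rw [e, div_eq_mul_inv]⟩
  have h1 : IsIntegral S (Phi 𝒜 g) := by
    refine ⟨P.map j, hP.map _, ?_⟩
    have := congrArg (Phi 𝒜) h
    rw [Polynomial.hom_eval₂, map_zero] at this
    have e : (algebraMap S (FractionRing R)).comp j =
        (Phi 𝒜).comp (algebraMap _ (Proj 𝒜).functionField) :=
      RingHom.ext fun a => (Phi_algebraMap 𝒜 x a).symm
    rw [Polynomial.eval₂_map, e, this]
  obtain ⟨⟨_, r, t, ht, rfl⟩, h2⟩ := IsIntegrallyClosed.isIntegral_iff.mp h1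
  obtain ⟨d, p, q, hp, hq, hq0, rfl⟩ := exists_theta_div hs hs0 g
  obtain ⟨k, hk⟩ := exists_comp_notMem 𝒜 (P := pid 𝒜 x) ht
  have ht0 : t ≠ 0 := fun h0 => ht (h0 ▸ zero_mem _)
  have hk0 : (decompose 𝒜 t k : R) ≠ 0 := fun h0 => hk (h0 ▸ zero_mem _)
  rw [Phi_theta_div hs hs0 hp hq] at h2
  replace h2 : algebraMap R (FractionRing R) r * (algebraMap R _ t)⁻¹ = _ := h2
  rw [← div_eq_mul_inv, div_eq_div_iff (frac_ne ht0) (frac_ne hq0), ← map_mul, ← map_mul] at h2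
  have h3 := congrArg (fun z => (decompose 𝒜 z (d + k) : R)) (IsFractionRing.injective R _ h2)
  simp only [coe_decompose_mul_add_of_left_mem 𝒜 hp] at h3
  rw [add_comm, coe_decompose_mul_add_of_right_mem 𝒜 hq] at h3
  refine (mem_stalk_iff hs hs0 x _).mpr ⟨k, _, _, (decompose 𝒜 r k).2, (decompose 𝒜 t k).2, hk, ?_⟩
  rw [div_eq_div_iff (theta_ne hs hs0 hq hq0) (theta_ne hs hs0 (decompose 𝒜 t k).2 hk0),
    ← map_mul, ← map_mul, h3]

end Pool.Agent.Work.MP_475c1a_ag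
end

-- merged part: Pool.Agent.Work.MP_475c1a_ag.ProjC
section
/-! The prime divisors of `Proj` of a normal graded domain, and the action of automorphisms. -/

namespace Pool.Agent.Work.MP_475c1a_ag

open AlgebraicGeometry CategoryTheory HomogeneousLocalization DirectSum

set_option backward.isDefEq.respectTransparency false
set_option linter.unusedSectionVars false
set_option maxHeartbeats 400000

theorem exists_dv {X : Scheme.{0}} [IsIntegral X] [IsLocallyNoetherian X] (x : PrimeDiv X)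
    [IsIntegrallyClosed (X.presheaf.stalk x.1)] :
    ∃ w : DV X.functionField, w.Norm ∧ (∀ g, w.v g = X.ord g x.1) ∧
      ∀ g, w.Ge 0 g ↔ ∃ a : X.presheaf.stalk x.1, algebraMap _ _ a = g := by
  have h1 := krullDimLE_of_coheight_le x.2.le
  have hF : ¬ IsField (X.presheaf.stalk x.1) := fun h => by
    have h2 := ringKrullDim_eq_zero_of_isField h
    rw [ringKrullDim_stalk_eq_coheight, x.2] at h2
    exact one_ne_zero h2
  have h3 : IsDedekindDomain (X.presheaf.stalk x.1) :=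
    { maximalOfPrime := fun h hp => Ring.krullDimLE_one_iff_of_noZeroDivisors.mp h1 _ h hp }
  have : IsDiscreteValuationRing (X.presheaf.stalk x.1) :=
    ((IsDiscreteValuationRing.TFAE _ hF).out 2 0).mp h3
  let u := (IsDiscreteValuationRing.maximalIdeal (X.presheaf.stalk x.1)).valuation X.functionField
  refine ⟨DV.ofVal u, ?_, fun g => ?_, fun g => ?_⟩
  · obtain ⟨p, hp⟩ := (IsDiscreteValuationRing.maximalIdeal
      (X.presheaf.stalk x.1)).valuation_exists_uniformizer X.functionField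
    exact ⟨p, fun h0 => by rw [h0, map_zero] at hp; exact WithZero.exp_ne_zero hp.symm,
      by simp [DV.ofVal, u, hp]⟩
  · by_cases hg : g = 0
    · simp [hg]
    · symm
      rw [Scheme.ord_eq_iff x.2 hg, Scheme.ordHom, Ring.ordFrac_eq_valuation_inv]
      change (u g)⁻¹ = WithZero.exp (-WithZero.log (u g))
      rw [WithZero.exp_neg, WithZero.exp_log (by simpa using hg)]
  · rw [DV.ofVal_ge]
    exact ⟨IsDiscreteValuationRing.exists_lift_of_le_one,
      by rintro ⟨a, rfl⟩; exact IsDedekindDomain.HeightOneSpectrum.valuation_le_one _ a⟩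

/-- The facts about the prime divisors of a normal projective variety, in homogeneous terms. -/
structure HModel {R L ι : Type} [CommRing R] [Algebra ℂ R] [Field L] (𝒜 : ℕ → Submodule ℂ R)
    [GradedAlgebra 𝒜] (θ : R →+* L) (s : R) (P : ι → Ideal R) (v : ι → DV L) : Prop where
  hs : s ∈ 𝒜 1
  theta_s : θ s = 1
  inj : ∀ {d p q}, p ∈ 𝒜 d → q ∈ 𝒜 d → θ p = θ q → p = q
  ker : ∀ {r}, θ r = 0 → s - 1 ∣ r
  hom : ∀ r, ∃ d, ∃ p ∈ 𝒜 d, θ p = θ r
  frac : ∀ g, ∃ d p q, p ∈ 𝒜 d ∧ q ∈ 𝒜 d ∧ q ≠ 0 ∧ g = θ p / θ q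
  norm : ∀ i, (v i).Norm
  prime : ∀ i, (P i).IsPrime
  homog : ∀ i, (P i).IsHomogeneous 𝒜
  ne_bot : ∀ i, P i ≠ ⊥
  pos : ∀ i, ∃ d t, 0 < d ∧ t ∈ 𝒜 d ∧ t ∉ P i
  ge_iff : ∀ i g, (v i).Ge 0 g ↔ ∃ d p q, p ∈ 𝒜 d ∧ q ∈ 𝒜 d ∧ q ∉ P i ∧ g = θ p / θ q
  min : ∀ i (Q : Ideal R), Q.IsPrime → Q.IsHomogeneous 𝒜 → Q ≤ P i → Q = ⊥ ∨ Q = P i
  ex : ∀ Q : Ideal R, Q.IsPrime → Q.IsHomogeneous 𝒜 → Q ≠ ⊥ →
    (∃ d t, 0 < d ∧ t ∈ 𝒜 d ∧ t ∉ Q) → ∃ i, P i ≤ Q
  P_inj : Function.Injective P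
  fin : ∀ {d r}, r ∈ 𝒜 d → r ≠ 0 → {i | r ∈ P i}.Finite

variable {R : Type} [CommRing R] [IsDomain R] [Algebra ℂ R] (𝒜 : ℕ → Submodule ℂ R)
  [GradedAlgebra 𝒜] [IsIntegral (Proj 𝒜)] {s : R} (hs : s ∈ 𝒜 1) (hs0 : s ≠ 0)

theorem exists_pos_notMem (x : Proj 𝒜) : ∃ d t, 0 < d ∧ t ∈ 𝒜 d ∧ t ∉ pid 𝒜 x := by
  by_contra! h
  exact x.not_irrelevant_le ((HomogeneousIdeal.irrelevant_le 𝒜).mpr fun d hd t ht => h d t hd ht)

theorem exists_hmodel [IsLocallyNoetherian (Proj 𝒜)] [IsIntegrallyClosed R] [IsNoetherianRing R] :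
    ∃ v : PrimeDiv (Proj 𝒜) → DV (Proj 𝒜).functionField,
      (∀ i g, (v i).v g = (Proj 𝒜).ord g i.1) ∧
      HModel 𝒜 (theta 𝒜 hs hs0) s (fun i => pid 𝒜 i.1) v := by
  have h := fun x : PrimeDiv (Proj 𝒜) =>
    haveI := isIntegrallyClosed_stalk hs hs0 x.1; exists_dv x
  choose v h1 h2 h3 using h
  have hmin : ∀ (i : PrimeDiv (Proj 𝒜)) (Q : Ideal R), Q.IsPrime → Q.IsHomogeneous 𝒜 →
      Q ≤ pid 𝒜 i.1 → Q = ⊥ ∨ Q = pid 𝒜 i.1 := fun i Q hQ hh hle => by
    obtain ⟨d, t, hd, ht, hn⟩ := exists_pos_notMem 𝒜 i.1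
    exact (((coheight_eq_one_iff hs hs0 i.1).mp i.2).2
      (mkPt 𝒜 Q hQ hh hd ht fun h => hn (hle h)) hle).imp id fun e => congrArg (pid 𝒜) e
  refine ⟨v, h2, hs, theta_self hs hs0, theta_inj hs hs0, ker_theta hs hs0,
    exists_theta_hom_theta hs hs0, exists_theta_div hs hs0, h1, fun i => pid_prime 𝒜 i.1,
    fun i => i.1.asHomogeneousIdeal.isHomogeneous,
    fun i => ((coheight_eq_one_iff hs hs0 i.1).mp i.2).1, fun i => exists_pos_notMem 𝒜 i.1,
    fun i g => (h3 i g).trans (mem_stalk_iff hs hs0 i.1 g), hmin, ?_,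
    fun i j e => Subtype.ext (pid_inj 𝒜 e), ?_⟩
  · rintro Q hQ hh h0 ⟨d, t, hd, ht, hn⟩
    obtain ⟨r, hr, hr0⟩ := Submodule.exists_mem_ne_zero_of_ne_bot h0
    obtain ⟨k, hk⟩ := exists_comp_notMem 𝒜 (P := ⊥) (r := r) (by simpa using hr0)
    obtain ⟨Q1, hQ1, hle⟩ := Ideal.exists_minimalPrimes_le
      ((Ideal.span_singleton_le_iff_mem Q).mpr (hh k hr))
    have hp := hQ1.1.1
    have hmem : (decompose 𝒜 r k : R) ∈ Q1 := (Ideal.span_singleton_le_iff_mem _).mp hQ1.1.2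
    have hc : Q1.IsHomogeneous 𝒜 := (Ideal.IsHomogeneous.iff_eq 𝒜 Q1).mpr (le_antisymm
      (Ideal.toIdeal_homogeneousCore_le 𝒜 Q1) (hQ1.2 ⟨Ideal.IsPrime.homogeneousCore hp,
        (Ideal.span_singleton_le_iff_mem _).mpr (Ideal.mem_homogeneousCore_of_homogeneous_of_mem
          ⟨k, (decompose 𝒜 r k).2⟩ hmem)⟩ (Ideal.toIdeal_homogeneousCore_le 𝒜 Q1)))
    have hne : Q1 ≠ ⊥ := fun e => hk (e ▸ hmem)
    have hht := Ideal.height_le_one_of_isPrincipal_of_mem_minimalPrimes _ _ hQ1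
    refine ⟨⟨mkPt 𝒜 Q1 hp hc hd ht fun h => hn (hle h),
      (coheight_eq_one_iff hs hs0 _).mpr ⟨hne, fun y hy => ?_⟩⟩, hle⟩
    by_contra! hc
    have hlt : pid 𝒜 y < Q1 := lt_of_le_of_ne hy fun e => hc.2 (pid_inj 𝒜 e)
    have a1 := Ideal.height_add_one_le_of_lt_of_isPrime hlt
    have a2 := Ideal.height_add_one_le_of_lt_of_isPrime (bot_lt_iff_ne_bot.mpr hc.1)
    have a3 : (1 : ℕ∞) + 1 ≤ 1 :=
      le_trans (by gcongr; exact le_trans le_add_self a2) (a1.trans hht)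
    exact absurd a3 (by decide)
  · intro d r hr hr0
    refine Set.Finite.of_finite_image (f := fun i => pid 𝒜 i.1)
      ((Ideal.finite_minimalPrimes_of_isNoetherianRing R (Ideal.span {r})).subset ?_)
      fun i _ j _ e => Subtype.ext (pid_inj 𝒜 e)
    rintro _ ⟨i, hi, rfl⟩
    refine ⟨⟨pid_prime 𝒜 i.1, (Ideal.span_singleton_le_iff_mem _).mpr hi⟩, fun Q hQ hle => ?_⟩
    have hm := Ideal.mem_homogeneousCore_of_homogeneous_of_mem (𝒜 := 𝒜) ⟨d, hr⟩
      ((Ideal.span_singleton_le_iff_mem _).mp hQ.2)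
    rcases hmin i _ (Ideal.IsPrime.homogeneousCore hQ.1) (Q.homogeneousCore 𝒜).isHomogeneous
      ((Ideal.toIdeal_homogeneousCore_le 𝒜 Q).trans hle) with e | e
    · exact absurd (by simpa [← HomogeneousIdeal.mem_iff, e] using hm) hr0
    · exact e.ge.trans (Ideal.toIdeal_homogeneousCore_le 𝒜 Q)

theorem chart_mk {t : R} (ht : t ∈ 𝒜 1) (ht0 : t ≠ 0) {d : ℕ} {r : R} (hr : r ∈ 𝒜 (d • 1)) :
    chart 𝒜 t (generic_mem 𝒜 hs0 hs ht0) (Away.mk 𝒜 ht d r hr) =
      theta 𝒜 hs hs0 r / theta 𝒜 hs hs0 t ^ d := by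
  apply (Phi 𝒜).injective
  rw [Phi_chart, ← map_pow, ← map_pow, Phi_theta_div hs hs0 hr (SetLike.pow_mem_graded d ht)]

/-- The structure morphism. -/
noncomputable def strMap (𝒜 : ℕ → Submodule ℂ R) [GradedAlgebra 𝒜] :
    Proj 𝒜 ⟶ Spec (CommRingCat.of ℂ) :=
  Proj.toSpecZero 𝒜 ≫ Spec.map (CommRingCat.ofHom (algebraMap ℂ (𝒜 0)))

/-- `Proj` as a complex scheme. -/
noncomputable def projStr (𝒜 : ℕ → Submodule ℂ R) [GradedAlgebra 𝒜] : CScheme :=
  Over.mk (strMap 𝒜)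

theorem gen_str : gen (Proj 𝒜) ≫ strMap 𝒜 =
    Spec.map (CommRingCat.ofHom ((theta 𝒜 hs hs0).comp (algebraMap ℂ R))) := by
  rw [← chart_awayι 𝒜 hs one_pos (generic_mem 𝒜 hs0 hs hs0), Category.assoc, strMap,
    Proj.awayι_toSpecZero_assoc, ← Spec.map_comp, ← Spec.map_comp]
  congr 1
  ext c
  have h := chart_mk 𝒜 hs hs0 hs hs0 (d := 0) (r := algebraMap ℂ R c) (algebraMap ℂ (𝒜 0) c).2
  rw [pow_zero, div_one] at h
  refine Eq.trans ?_ h
  change chart 𝒜 s _ (fromZeroRingHom 𝒜 _ (algebraMap ℂ (𝒜 0) c)) = _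
  congr 1
  apply val_injective
  simp [fromZeroRingHom, Away.val_mk]

theorem pull_const (σ : Proj 𝒜 ≅ Proj 𝒜) (h2 : σ.hom ≫ strMap 𝒜 = strMap 𝒜) (c : ℂ) :
    pull σ (theta 𝒜 hs hs0 (algebraMap ℂ R c)) = theta 𝒜 hs hs0 (algebraMap ℂ R c) := by
  have h3 := congrArg (· ≫ strMap 𝒜) (pull_gen σ)
  simp only [Category.assoc] at h3
  rw [h2, gen_str 𝒜 hs hs0, ← Spec.map_comp] at h3
  exact DFunLike.congr_fun (CommRingCat.hom_ext_iff.mp (Spec.map_injective h3)) c

section Iso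

variable {𝒜} {R' : Type} [CommRing R'] [Algebra ℂ R'] {ℬ : ℕ → Submodule ℂ R'} [GradedAlgebra ℬ]

/-- A graded algebra isomorphism as a graded ring homomorphism. -/
def grHom (e : R ≃ₐ[ℂ] R') (he : ∀ d r, r ∈ 𝒜 d → e r ∈ ℬ d) : 𝒜 →+*ᵍ ℬ where
  toRingHom := (e : R →+* R')
  map_mem := he _ _

omit [IsIntegral (Proj 𝒜)] [IsDomain R]

theorem grHom_irr (e : R ≃ₐ[ℂ] R') (he : ∀ d r, r ∈ 𝒜 d → e r ∈ ℬ d)
    (he' : ∀ d r, r ∈ ℬ d → e.symm r ∈ 𝒜 d) :
    HomogeneousIdeal.irrelevant ℬ ≤ (HomogeneousIdeal.irrelevant 𝒜).map (grHom e he) := by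
  refine (HomogeneousIdeal.irrelevant_le ℬ).mpr fun d hd r hr => ?_
  have h := Ideal.mem_map_of_mem (grHom e he)
    (HomogeneousIdeal.mem_irrelevant_of_mem 𝒜 hd (he' d r hr))
  rwa [show grHom e he (e.symm r) = r from e.apply_symm_apply r] at h

theorem map_congr {f g : 𝒜 →+*ᵍ ℬ} (h : f = g) (hf) (hg) : Proj.map f hf = Proj.map g hg := by
  subst h; rfl

/-- The isomorphism of `Proj` induced by a graded isomorphism. -/
noncomputable def grIso (e : R ≃ₐ[ℂ] R') (he : ∀ d r, r ∈ 𝒜 d → e r ∈ ℬ d)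
    (he' : ∀ d r, r ∈ ℬ d → e.symm r ∈ 𝒜 d) : Proj ℬ ≅ Proj 𝒜 where
  hom := Proj.map (grHom e he) (grHom_irr e he he')
  inv := Proj.map (grHom e.symm he') (grHom_irr e.symm he' he)
  hom_inv_id := by
    rw [← Proj.map_comp, ← Proj.map_id]
    exact map_congr (GradedRingHom.ext e.apply_symm_apply) _ _
  inv_hom_id := by
    rw [← Proj.map_comp, ← Proj.map_id]
    exact map_congr (GradedRingHom.ext e.symm_apply_apply) _ _

theorem grIso_str (e : R ≃ₐ[ℂ] R') (he : ∀ d r, r ∈ 𝒜 d → e r ∈ ℬ d)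
    (he' : ∀ d r, r ∈ ℬ d → e.symm r ∈ 𝒜 d) : (grIso e he he').hom ≫ strMap 𝒜 = strMap ℬ := by
  refine (Proj.mapAffineOpenCover _ (grHom_irr e he he')).openCover.hom_ext _ _ fun t => ?_
  simp only [Scheme.AffineOpenCover.openCover_f, Proj.mapAffineOpenCover_f, grIso, strMap]
  rw [Proj.awayι_comp_map_assoc _ _ t.1.2 _ t.2.2, Proj.awayι_toSpecZero_assoc,
    Proj.awayι_toSpecZero_assoc, ← Spec.map_comp, ← Spec.map_comp, ← Spec.map_comp]
  congr 1
  ext c
  change (Away.map (grHom e he) _ (fromZeroRingHom 𝒜 _ (algebraMap ℂ (𝒜 0) c))).val =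
    (fromZeroRingHom ℬ _ (algebraMap ℂ (ℬ 0) c)).val
  simp [fromZeroRingHom, Away.map, map_mk, grHom]

/-- The isomorphism of complex schemes induced by a graded isomorphism. -/
noncomputable def grIsoC (e : R ≃ₐ[ℂ] R') (he : ∀ d r, r ∈ 𝒜 d → e r ∈ ℬ d)
    (he' : ∀ d r, r ∈ ℬ d → e.symm r ∈ 𝒜 d) : projStr ℬ ≅ projStr 𝒜 :=
  Over.isoMk (grIso e he he') (grIso_str e he he')

end Iso

theorem pull_grIso (e : R ≃ₐ[ℂ] R) (he : ∀ d r, r ∈ 𝒜 d → e r ∈ 𝒜 d)
    (he' : ∀ d r, r ∈ 𝒜 d → e.symm r ∈ 𝒜 d) {d : ℕ} {r : R} (hr : r ∈ 𝒜 d) :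
    pull (grIso e he he') (theta 𝒜 hs hs0 r) =
      theta 𝒜 hs hs0 (e r) / theta 𝒜 hs hs0 (e s) ^ d := by
  have h0 : e s ≠ 0 := by simpa using hs0
  have h1 := pull_gen (grIso e he he')
  have h2 := Proj.awayι_comp_map (grHom e he) (grHom_irr e he he') one_pos s hs
  conv_lhs at h1 => rw [← chart_awayι 𝒜 hs one_pos (generic_mem 𝒜 hs0 hs hs0)]
  conv_rhs at h1 => rw [← chart_awayι 𝒜 (he _ _ hs) one_pos (generic_mem 𝒜 hs0 hs h0)]
  rw [Category.assoc] at h1
  erw [h2] at h1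
  rw [← Category.assoc, ← Category.assoc, cancel_mono, ← Spec.map_comp, ← Spec.map_comp] at h1
  have h3 := DFunLike.congr_fun (CommRingCat.hom_ext_iff.mp (Spec.map_injective h1))
    (Away.mk 𝒜 hs d r (by simpa using hr))
  have h4 := chart_mk 𝒜 hs hs0 hs hs0 (d := d) (r := r) (by simpa using hr)
  rw [theta_self, one_pow, div_one] at h4
  rw [← h4, ← chart_mk 𝒜 hs hs0 (he _ _ hs) h0 (by simpa using he _ _ hr)]
  refine h3.trans ?_
  change chart 𝒜 (e s) _ (Away.map (grHom e he) s (Away.mk 𝒜 hs d r _)) = _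
  rw [Away.map_mk]
  rfl

end Pool.Agent.Work.MP_475c1a_ag
end

-- merged part: Pool.Agent.Work.MP_475c1a_ag.Model
section
/-! The affine chart of a normal projective variety with an irreducible divisor at infinity. -/

namespace Pool.Agent.Work.MP_475c1a_ag

open DirectSum

set_option linter.unusedSectionVars false
set_option maxHeartbeats 400000

/-- The facts about prime divisors in terms of an affine chart with irreducible complement. -/
structure AModel {A L ι : Type} [CommRing A] [Field L] (j : A →+* L) (v : ι → DV L) (inf : ι) :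
    Prop where
  inj : Function.Injective j
  frac : ∀ g, ∃ a b, b ≠ 0 ∧ g = j a / j b
  norm : ∀ i, (v i).Norm
  v_inj : Function.Injective v
  reg : ∀ i ≠ inf, ∀ a, (v i).Ge 0 (j a)
  loc : ∀ i ≠ inf, ∀ g, (v i).Ge 0 g → ∃ a b, ¬ (v i).Ge 1 (j b) ∧ g = j a / j b
  min : ∀ i ≠ inf, ∀ Q : Ideal A, Q.IsPrime → Q ≠ ⊥ → (∀ a ∈ Q, (v i).Ge 1 (j a)) →
    ∀ a, (v i).Ge 1 (j a) → a ∈ Q
  ex : ∀ Q : Ideal A, Q.IsPrime → Q ≠ ⊥ → ∃ i ≠ inf, ∀ a, (v i).Ge 1 (j a) → a ∈ Q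
  fin : ∀ g, g ≠ 0 → {i | (v i).v g ≠ 0}.Finite

namespace HModel

variable {R L ι : Type} [CommRing R] [IsDomain R] [Algebra ℂ R] [Field L] {𝒜 : ℕ → Submodule ℂ R}
  [GradedAlgebra 𝒜] {θ : R →+* L} {s : R} {P : ι → Ideal R} {v : ι → DV L}
  (H : HModel 𝒜 θ s P v)

include H

theorem ne {d : ℕ} {p : R} (hp : p ∈ 𝒜 d) (h : p ≠ 0) : θ p ≠ 0 := fun h1 =>
  h (H.inj hp (zero_mem _) (by rw [h1, map_zero]))

theorem s_ne : s ≠ 0 := fun h => by
  have := H.theta_s
  rw [h, map_zero] at this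
  exact zero_ne_one this

theorem pow_mem (d : ℕ) : s ^ d ∈ 𝒜 d := by simpa using SetLike.pow_mem_graded d H.hs

theorem ge_div (i : ι) {d : ℕ} {p q : R} (hp : p ∈ 𝒜 d) (hq : q ∈ 𝒜 d) (h : q ∉ P i) :
    (v i).Ge 0 (θ p / θ q) := (H.ge_iff i _).mpr ⟨d, p, q, hp, hq, h, rfl⟩

theorem ge_one_iff (i : ι) {d : ℕ} {p q : R} (hp : p ∈ 𝒜 d) (hq : q ∈ 𝒜 d) (h : q ∉ P i) :
    (v i).Ge 1 (θ p / θ q) ↔ p ∈ P i := by
  by_cases hp0 : p = 0
  · simp [hp0, DV.ge_zero]
  have hq0 : q ≠ 0 := fun e => h (e ▸ zero_mem _)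
  have a := H.ne hp hp0
  have b := H.ne hq hq0
  have h1 := (H.ge_div i hp hq h).nonneg
  rw [DV.ge_iff (div_ne_zero a b)]
  constructor
  · intro h2
    by_contra h3
    have h4 := (H.ge_div i hq hp h3).nonneg
    rw [← inv_div, DV.v_inv] at h4
    omega
  · intro h2
    by_contra h3
    obtain ⟨e, p', q', hp', hq', h5, h6⟩ := (H.ge_iff i (θ p / θ q)⁻¹).mp
      (Or.inr (by rw [DV.v_inv]; omega))
    rw [inv_div, div_eq_div_iff a (H.ne hq' fun e => h5 (e ▸ zero_mem _)), ← map_mul,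
      ← map_mul] at h6
    have h7 := H.inj (SetLike.mul_mem_graded hq hq')
      (by rw [add_comm]; exact SetLike.mul_mem_graded hp' hp) h6
    exact ((H.prime i).mem_or_mem (h7 ▸ Ideal.mul_mem_left _ _ h2)).elim h h5

theorem ge_one_iff' {i : ι} (hi : s ∉ P i) {d : ℕ} {p : R} (hp : p ∈ 𝒜 d) :
    (v i).Ge 1 (θ p) ↔ p ∈ P i := by
  have := H.ge_one_iff i hp (H.pow_mem d) fun h => hi ((H.prime i).mem_of_pow_mem d h)
  rwa [map_pow, H.theta_s, one_pow, div_one] at this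

theorem ge_theta {i : ι} (hi : s ∉ P i) (r : R) : (v i).Ge 0 (θ r) := by
  obtain ⟨d, p, hp, e⟩ := H.hom r
  have := H.ge_div i hp (H.pow_mem d) fun h => hi ((H.prime i).mem_of_pow_mem d h)
  rwa [map_pow, H.theta_s, one_pow, div_one, e] at this

theorem le_of_v_eq {i k : ι} (h : v i = v k) : P i ≤ P k := by
  intro r hr
  by_contra hn
  obtain ⟨d, hd⟩ := exists_comp_notMem 𝒜 hn
  obtain ⟨e, t, he, ht, h1⟩ := H.pos i
  have a1 : (decompose 𝒜 r d : R) ^ e ∈ 𝒜 (e * d) := SetLike.pow_mem_graded e (decompose 𝒜 r d).2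
  have a2 : t ^ d ∈ 𝒜 (e * d) := by rw [mul_comm]; exact SetLike.pow_mem_graded d ht
  have b1 : t ^ d ∉ P i := fun h => h1 ((H.prime i).mem_of_pow_mem d h)
  have b2 : (decompose 𝒜 r d : R) ^ e ∉ P k := fun h => hd ((H.prime k).mem_of_pow_mem e h)
  have c1 := ((H.ge_one_iff i a1 a2 b1).mpr (Ideal.pow_mem_of_mem _ (H.homog i d hr) e he)).le
    (div_ne_zero (H.ne a1 fun e => b2 (e ▸ zero_mem _)) (H.ne a2 fun e => b1 (e ▸ zero_mem _)))
  have c2 := (H.ge_div k a2 a1 b2).nonneg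
  rw [← inv_div, DV.v_inv, ← h] at c2
  omega

theorem v_inj : Function.Injective v := fun _ _ h =>
  H.P_inj (le_antisymm (H.le_of_v_eq h) (H.le_of_v_eq h.symm))

theorem fin_v (g : L) (hg : g ≠ 0) : {i | (v i).v g ≠ 0}.Finite := by
  obtain ⟨d, p, q, hp, hq, hq0, rfl⟩ := H.frac g
  have hp0 : p ≠ 0 := fun h => hg (by simp [h])
  refine ((H.fin hp hp0).union (H.fin hq hq0)).subset fun i hi => ?_
  by_contra hn
  simp only [Set.mem_union, Set.mem_ofPred_eq, not_or] at hn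
  exact hi (DV.v_eq_zero (H.ge_div i hp hq hn.2) (mt (H.ge_one_iff i hp hq hn.2).mp hn.1)).2

variable (hP : (Ideal.span {s}).IsPrime) {t : R} (ht : t ∈ 𝒜 1) (hts : ¬ s ∣ t)

include hP ht hts in
theorem exists_inf : ∃ i, P i = Ideal.span {s} ∧ ∀ k ≠ i, s ∉ P k := by
  have hh : (Ideal.span {s}).IsHomogeneous 𝒜 :=
    Ideal.homogeneous_span _ _ (by rintro _ rfl; exact ⟨1, H.hs⟩)
  have key : ∀ k, s ∈ P k → P k = Ideal.span {s} := fun k hk =>
    ((H.min k _ hP hh ((Ideal.span_singleton_le_iff_mem _).mpr hk)).resolve_left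
      (by simpa using H.s_ne)).symm
  obtain ⟨i, hi⟩ := H.ex _ hP hh (by simpa using H.s_ne)
    ⟨1, t, one_pos, ht, by rwa [Ideal.mem_span_singleton]⟩
  have hs : s ∈ P i := by
    by_contra hn
    obtain ⟨r, hr, hr0⟩ := Submodule.exists_mem_ne_zero_of_ne_bot (H.ne_bot i)
    obtain ⟨d, hd⟩ := exists_comp_notMem 𝒜 (P := ⊥) (r := r) (by simpa using hr0)
    have key2 : ∀ d, ∀ p ∈ 𝒜 d, p ∈ P i → p = 0 := by
      intro d
      induction d using Nat.strong_induction_on with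
      | _ d ih =>
        intro p hp h
        obtain ⟨a, rfl⟩ := Ideal.mem_span_singleton.mp (hi h)
        have h1 := coe_decompose_mul_of_left_mem 𝒜 (b := a) d H.hs
        rw [decompose_of_mem_same 𝒜 hp] at h1
        split_ifs at h1 with h2
        · have h3 := mul_left_cancel₀ H.s_ne h1
          rw [ih (d - 1) (by omega) a (h3 ▸ (decompose 𝒜 a (d - 1)).2)
            (((H.prime i).mem_or_mem h).resolve_left hn), mul_zero]
        · exact h1
    exact hd (key2 d _ (decompose 𝒜 r d).2 (H.homog i d hr))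
  exact ⟨i, key i hs, fun k hk h => hk (H.P_inj ((key k h).trans (key i hs).symm))⟩

theorem div_s {d : ℕ} {p : R} (hp : p ∈ 𝒜 d) (hp0 : p ≠ 0) (h : s ∣ p) :
    ∃ e, d = e + 1 ∧ ∃ a ∈ 𝒜 e, p = s * a := by
  obtain ⟨a, rfl⟩ := h
  have h1 := coe_decompose_mul_of_left_mem 𝒜 (b := a) d H.hs
  rw [decompose_of_mem_same 𝒜 hp] at h1
  split_ifs at h1 with h2
  · exact ⟨d - 1, by omega, _, (decompose 𝒜 a (d - 1)).2, h1⟩
  · exact absurd h1 hp0

variable {i : ι} (hi : P i = Ideal.span {s})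

include hP ht hts hi in
theorem v_inf {d : ℕ} {r : R} (hr : r ∈ 𝒜 d) (h : ¬ s ∣ r) : (v i).v (θ r) = -d := by
  have ht' : t ∉ P i := by rwa [hi, Ideal.mem_span_singleton]
  have ht0 : θ t ≠ 0 := H.ne ht fun e => hts (e ▸ dvd_zero s)
  have key : ∀ {d r}, r ∈ 𝒜 d → ¬ s ∣ r → (v i).v (θ r) = d * (v i).v (θ t) := by
    intro d r hr h
    have h1 : t ^ d ∈ 𝒜 d := by simpa using SetLike.pow_mem_graded d ht
    have h2 : t ^ d ∉ P i := fun h => ht' ((H.prime i).mem_of_pow_mem d h)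
    have h3 := (DV.v_eq_zero (H.ge_div i hr h1 h2) (mt (H.ge_one_iff i hr h1 h2).mp
      (by rwa [hi, Ideal.mem_span_singleton]))).2
    rw [map_pow, DV.v_div _ (H.ne hr fun e => h (e ▸ dvd_zero s)) (pow_ne_zero _ ht0),
      DV.v_pow] at h3
    omega
  have h1 := ((H.ge_one_iff i H.hs ht ht').mpr (hi ▸ Ideal.mem_span_singleton_self s)).le
    (div_ne_zero (H.ne H.hs H.s_ne) ht0)
  rw [H.theta_s, one_div, DV.v_inv] at h1
  obtain ⟨g, hg0, hg⟩ := H.norm i
  obtain ⟨e, p, q, hp, hq, hq', rfl⟩ := (H.ge_iff i g).mp (Or.inr (by omega))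
  have hp0 : p ≠ 0 := fun e => hg0 (by simp [e])
  obtain ⟨e, rfl, a, ha, rfl⟩ := H.div_s hp hp0 (by
    rw [← Ideal.mem_span_singleton, ← hi, ← H.ge_one_iff i hp hq hq']; exact Or.inr hg.ge)
  have h2 := (H.ge_div i (SetLike.mul_mem_graded ha ht) hq hq').nonneg
  have ha0 := H.ne ha (right_ne_zero_of_mul hp0)
  have hq0 := H.ne hq fun e => hq' (e ▸ zero_mem _)
  rw [map_mul, DV.v_div _ (mul_ne_zero ha0 ht0) hq0, DV.v_mul _ ha0 ht0] at h2
  rw [map_mul, H.theta_s, one_mul, DV.v_div _ ha0 hq0] at hg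
  rw [key hr h, show (v i).v (θ t) = -1 by omega]
  ring

include hP ht hts hi in
theorem exists_of_ge_inf {n : ℕ} {r : R} (h : (v i).Ge (-n) (θ r)) : ∃ p ∈ 𝒜 n, θ p = θ r := by
  obtain ⟨d, p, hp, e⟩ := H.hom r
  rw [← e] at h ⊢
  clear e
  induction d generalizing p with
  | zero => exact ⟨p * s ^ n, by simpa using SetLike.mul_mem_graded hp (H.pow_mem n),
      by simp [H.theta_s]⟩
  | succ d ih =>
    by_cases hp0 : p = 0
    · exact ⟨0, zero_mem _, by rw [hp0]⟩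
    by_cases hd : s ∣ p
    · obtain ⟨e, he, a, ha, rfl⟩ := H.div_s hp hp0 hd
      obtain rfl : e = d := by omega
      rw [map_mul, H.theta_s, one_mul] at h ⊢
      exact ih a h (by simpa using ha)
    · have h1 := h.le (H.ne hp hp0)
      rw [H.v_inf hP ht hts hi hp hd] at h1
      obtain ⟨k, rfl⟩ : ∃ k, n = d + 1 + k := ⟨n - (d + 1), by omega⟩
      exact ⟨p * s ^ k, SetLike.mul_mem_graded hp (H.pow_mem k), by simp [H.theta_s]⟩

include hP ht hts hi in
theorem ge_inf {d : ℕ} {r : R} (hr : r ∈ 𝒜 d) : (v i).Ge (-d) (θ r) := by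
  have ht' : t ∉ P i := by rwa [hi, Ideal.mem_span_singleton]
  have h1 : t ^ d ∈ 𝒜 d := by simpa using SetLike.pow_mem_graded d ht
  have h2 := H.ge_div i hr h1 fun h => ht' ((H.prime i).mem_of_pow_mem d h)
  have ht0 : θ t ≠ 0 := H.ne ht fun e => hts (e ▸ dvd_zero s)
  have h3 := h2.mul (DV.ge_self (θ t ^ d)) (k := -d) (by
    rw [DV.v_pow, H.v_inf hP ht hts hi ht hts]; simp)
  rwa [map_pow, div_mul_cancel₀ _ (pow_ne_zero _ ht0)] at h3

theorem amodel {A : Type} [CommRing A] {j : A →+* L} (hj : Function.Injective j) (ρ : R →+* A)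
    (hρ : Function.Surjective ρ) (e : ∀ r, j (ρ r) = θ r) {i : ι} (hi : ∀ k ≠ i, s ∉ P k)
    (hi' : s ∈ P i) :
    AModel j v i := by
  have hs : ρ s = 1 := hj (by rw [e, H.theta_s, map_one])
  have hh : ∀ a, ∃ d, ∃ p ∈ 𝒜 d, ρ p = a := fun a => by
    obtain ⟨r, rfl⟩ := hρ a
    obtain ⟨d, p, hp, h⟩ := H.hom r
    exact ⟨d, p, hp, hj (by rw [e, e, h])⟩
  have core : ∀ Q : Ideal A, Q.IsPrime → Q ≠ ⊥ → ∃ Q' : Ideal R, Q'.IsPrime ∧ Q'.IsHomogeneous 𝒜 ∧
      Q' ≠ ⊥ ∧ s ∉ Q' ∧ (∀ r ∈ Q', ρ r ∈ Q) ∧ ∀ d, ∀ p ∈ 𝒜 d, ρ p ∈ Q → p ∈ Q' := by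
    intro Q hQ h0
    have h1 : ∀ d, ∀ p ∈ 𝒜 d, ρ p ∈ Q → p ∈ ((Q.comap ρ).homogeneousCore 𝒜).toIdeal :=
      fun d p hp h => Ideal.mem_homogeneousCore_of_homogeneous_of_mem ⟨d, hp⟩ h
    have h2 := Ideal.toIdeal_homogeneousCore_le 𝒜 (Q.comap ρ)
    refine ⟨_, Ideal.IsPrime.homogeneousCore (Ideal.comap_isPrime ρ Q),
      HomogeneousIdeal.isHomogeneous _, fun h => h0 ?_, fun h => ?_, fun r hr => h2 hr, h1⟩
    · rw [eq_bot_iff]
      intro a ha
      obtain ⟨d, p, hp, rfl⟩ := hh a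
      have := h1 d p hp ha
      rw [h, Ideal.mem_bot] at this
      simp [this]
    · have := h2 h
      rw [Ideal.mem_comap, hs] at this
      exact hQ.ne_top ((Ideal.eq_top_iff_one _).mpr this)
  refine ⟨hj, fun g => ?_, H.norm, H.v_inj, fun k hk a => ?_, fun k hk g hg => ?_,
    fun k hk Q hQ h0 h1 a ha => ?_, fun Q hQ h0 => ?_, H.fin_v⟩
  · obtain ⟨d, p, q, -, hq, hq0, rfl⟩ := H.frac g
    exact ⟨ρ p, ρ q, fun h => H.ne hq hq0 (by rw [← e, h, map_zero]), by rw [e, e]⟩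
  · obtain ⟨r, rfl⟩ := hρ a
    rw [e]; exact H.ge_theta (hi k hk) r
  · obtain ⟨d, p, q, -, hq, hq0, rfl⟩ := (H.ge_iff k g).mp hg
    exact ⟨ρ p, ρ q, by rwa [e, H.ge_one_iff' (hi k hk) hq], by rw [e, e]⟩
  · obtain ⟨Q', a1, a2, a3, -, a5, -⟩ := core Q hQ h0
    have h2 : Q' ≤ P k := fun r hr => (Ideal.IsHomogeneous.mem_iff 𝒜 (H.homog k)).mpr fun d => by
      rw [← H.ge_one_iff' (hi k hk) (decompose 𝒜 r d).2, ← e]
      exact h1 _ (a5 _ (a2 d hr))
    obtain ⟨d, p, hp, rfl⟩ := hh a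
    rw [e, H.ge_one_iff' (hi k hk) hp, ← (H.min k Q' a1 a2 h2).resolve_left a3] at ha
    exact a5 p ha
  · obtain ⟨Q', a1, a2, a3, a4, a5, -⟩ := core Q hQ h0
    obtain ⟨k, hk⟩ := H.ex Q' a1 a2 a3 ⟨1, s, one_pos, H.hs, a4⟩
    have hki : k ≠ i := fun h => a4 (hk (h ▸ hi'))
    refine ⟨k, hki, fun a ha => ?_⟩
    obtain ⟨d, p, hp, rfl⟩ := hh a
    rw [e, H.ge_one_iff' (hi k hki) hp] at ha
    exact a5 p (hk ha)

end HModel

end Pool.Agent.Work.MP_475c1a_ag
end

-- merged part: Pool.Agent.Work.MP_475c1a_ag.Quad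
section
/-! Quadratic extensions of rings given by a square root. -/

namespace Pool.Agent.Work.MP_475c1a_ag

open Polynomial

set_option linter.unusedSectionVars false
set_option maxHeartbeats 400000

/-- `A` is obtained from `B` by adjoining a square root `u` of `F`. -/
structure Quad {B A : Type} [CommRing B] [CommRing A] (ι : B →+* A) (u : A) (F : B) : Prop where
  sq : u ^ 2 = ι F
  indep : ∀ {x y}, ι x + ι y * u = 0 → x = 0 ∧ y = 0
  surj : ∀ a, ∃ x y, a = ι x + ι y * u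

namespace Quad

variable {B A : Type} [CommRing B] [CommRing A] {ι : B →+* A} {u : A} {F : B} (h : Quad ι u F)

include h

theorem inj : Function.Injective ι :=
  (injective_iff_map_eq_zero ι).mpr fun x hx => (h.indep (x := x) (y := 0) (by simp [hx])).1

theorem ext {x y x' y' : B} (e : ι x + ι y * u = ι x' + ι y' * u) : x = x' ∧ y = y' := by
  have := h.indep (x := x - x') (y := y - y') (by rw [map_sub, map_sub]; linear_combination e)
  exact ⟨sub_eq_zero.mp this.1, sub_eq_zero.mp this.2⟩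

theorem mul (x y x' y' : B) : (ι x + ι y * u) * (ι x' + ι y' * u) =
    ι (x * x' + y * y' * F) + ι (x * y' + y * x') * u := by
  simp only [map_add, map_mul, ← h.sq]; ring

theorem norm (x y : B) : (ι x + ι y * u) * (ι x + ι (-y) * u) = ι (x ^ 2 - y ^ 2 * F) := by
  simp only [map_sub, map_mul, map_pow, map_neg, ← h.sq]; ring

theorem lift {C : Type} [CommRing C] (ψ : B →+* C) {c : C} (hc : c ^ 2 = ψ F) :
    ∃ χ : A →+* C, (∀ x, χ (ι x) = ψ x) ∧ χ u = c := by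
  choose p q e using h.surj
  have key : ∀ x y, ψ (p (ι x + ι y * u)) + ψ (q (ι x + ι y * u)) * c = ψ x + ψ y * c :=
    fun x y => by obtain ⟨h1, h2⟩ := h.ext (e (ι x + ι y * u)); rw [← h1, ← h2]
  refine ⟨{ toFun a := ψ (p a) + ψ (q a) * c
            map_one' := by simpa using key 1 0
            map_zero' := by simpa using key 0 0
            map_mul' a b := ?_
            map_add' a b := ?_ }, fun x => by simpa using key x 0, by simpa using key 0 1⟩
  · conv_lhs => rw [e a, e b, h.mul, key]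
    simp only [map_add, map_mul, ← hc]; ring
  · conv_lhs => rw [e a, e b, show ι (p a) + ι (q a) * u + (ι (p b) + ι (q b) * u) =
      ι (p a + p b) + ι (q a + q b) * u by simp only [map_add]; ring, key]
    simp only [map_add]; ring

theorem dvd_iff {p x y : B} : ι p ∣ ι x + ι y * u ↔ p ∣ x ∧ p ∣ y := by
  constructor
  · rintro ⟨a, ha⟩
    obtain ⟨x', y', rfl⟩ := h.surj a
    obtain ⟨h1, h2⟩ := h.ext (x := x) (y := y) (x' := p * x') (y' := p * y')
      (by rw [ha, map_mul, map_mul]; ring)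
    exact ⟨⟨x', h1⟩, ⟨y', h2⟩⟩
  · rintro ⟨⟨x', rfl⟩, ⟨y', rfl⟩⟩
    exact ⟨ι x' + ι y' * u, by rw [map_mul, map_mul]; ring⟩

theorem dvd_iff' {p x : B} : ι p ∣ ι x ↔ p ∣ x := by simpa using h.dvd_iff (x := x) (y := 0)

theorem isPrime {p : B} (hp : (Ideal.span {p}).IsPrime)
    (hF : ∀ x y, p ∣ x ^ 2 - y ^ 2 * F → p ∣ y) : (Ideal.span {ι p}).IsPrime := by
  have hp' : ∀ {x y}, p ∣ x * y → p ∣ x ∨ p ∣ y := fun {x y} e => by
    simpa only [Ideal.mem_span_singleton] using hp.mem_or_mem (Ideal.mem_span_singleton.mpr e)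
  refine ⟨fun e => hp.ne_top ?_, fun {a b} hab => ?_⟩
  · rw [Ideal.eq_top_iff_one, Ideal.mem_span_singleton] at e ⊢
    rwa [← map_one ι, h.dvd_iff'] at e
  simp only [Ideal.mem_span_singleton] at hab ⊢
  obtain ⟨x, y, rfl⟩ := h.surj a
  obtain ⟨x', y', rfl⟩ := h.surj b
  have h1 : ι p ∣ ι ((x ^ 2 - y ^ 2 * F) * x') + ι ((x ^ 2 - y ^ 2 * F) * y') * u := by
    have := hab.mul_right (ι x + ι (-y) * u)
    rw [mul_right_comm, h.norm] at this
    convert this using 1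
    simp only [map_mul]; ring
  rw [h.dvd_iff] at h1 ⊢
  rw [h.dvd_iff]
  by_cases h2 : p ∣ x ^ 2 - y ^ 2 * F
  · have h3 := hF x y h2
    have h4 : p ∣ x * x := by
      have := h2.add ((h3.mul_left y).mul_right F)
      convert this using 1; ring
    exact Or.inl ⟨(hp' h4).elim id id, h3⟩
  · exact Or.inr ⟨(hp' h1.1).resolve_left h2, (hp' h1.2).resolve_left h2⟩

theorem isDomain [IsDomain B] (hF : ∀ x y, x ^ 2 = y ^ 2 * F → y = 0) : IsDomain A := by
  have h1 := h.isPrime (p := 0) (by simpa using Ideal.isPrime_bot)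
    (fun x y e => by simpa using hF x y (by simpa [sub_eq_zero] using e))
  rw [map_zero, Ideal.span_singleton_zero] at h1
  exact IsDomain.of_bot_isPrime A

theorem isPrime_root (hF : Prime F) : (Ideal.span {u}).IsPrime := by
  obtain ⟨χ, h1, h2⟩ := h.lift (Ideal.Quotient.mk (Ideal.span {F})) (c := 0)
    (by simp [Ideal.Quotient.eq_zero_iff_mem.mpr (Ideal.mem_span_singleton_self F)])
  have := (Ideal.span_singleton_prime hF.ne_zero).mpr hF
  convert RingHom.ker_isPrime χ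
  ext a
  obtain ⟨x, y, rfl⟩ := h.surj a
  rw [RingHom.mem_ker, map_add, map_mul, h1, h2, mul_zero, add_zero,
    Ideal.Quotient.eq_zero_iff_mem, Ideal.mem_span_singleton, Ideal.mem_span_singleton,
    dvd_add_left (dvd_mul_left u _)]
  constructor
  · rintro ⟨a, ha⟩
    obtain ⟨x', y', rfl⟩ := h.surj a
    exact ⟨y', (h.ext (x := x) (y := 0) (x' := F * y') (y' := x')
      (by rw [ha, map_mul, ← h.sq, map_zero]; ring)).1⟩
  · rintro ⟨z, rfl⟩
    exact ⟨u * ι z, by rw [map_mul, ← h.sq]; ring⟩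

theorem isIntegral : ι.IsIntegral := fun a => by
  obtain ⟨x, y, rfl⟩ := h.surj a
  refine ⟨X ^ 2 + (C (-2 * x) * X + C (x ^ 2 - y ^ 2 * F)), monic_X_pow_add ?_, ?_⟩
  · exact degree_linear_lt
  · simp only [eval₂_add, eval₂_mul, eval₂_pow, eval₂_X, eval₂_C]
    simp only [map_sub, map_mul, map_pow, map_neg, map_ofNat, ← h.sq]; ring

theorem isNoetherianRing [IsNoetherianRing B] : IsNoetherianRing A :=
  isNoetherianRing_of_surjective B[X] A (eval₂RingHom ι u) fun a => by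
    obtain ⟨x, y, rfl⟩ := h.surj a
    exact ⟨C x + C y * X, by simp⟩

theorem comap_ne_bot [IsDomain A] {Q : Ideal A} (hQ : Q ≠ ⊥) : ∃ x ≠ 0, ι x ∈ Q := by
  obtain ⟨a, ha, h0⟩ := Submodule.exists_mem_ne_zero_of_ne_bot hQ
  obtain ⟨x, y, rfl⟩ := h.surj a
  refine ⟨x ^ 2 - y ^ 2 * F, fun e => ?_, h.norm x y ▸ Q.mul_mem_right _ ha⟩
  have h1 := h.norm x y
  rw [e, map_zero] at h1
  obtain ⟨rfl, h2⟩ := h.indep ((mul_eq_zero.mp h1).resolve_left h0)
  exact h0 (by simp [neg_eq_zero.mp h2])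

end Quad

theorem dvd_of_integral {B L : Type} [CommRing B] [IsDomain B] [IsIntegrallyClosed B] [Field L]
    [Algebra B L] (hi : Function.Injective (algebraMap B L)) {x z : B} (hz : z ≠ 0)
    (h : IsIntegral B (algebraMap B L x / algebraMap B L z)) : z ∣ x := by
  let φ : FractionRing B →ₐ[B] L := IsFractionRing.liftAlgHom (g := Algebra.ofId B L) hi
  have h1 : φ (algebraMap _ _ x / algebraMap _ _ z) = algebraMap B L x / algebraMap B L z := by
    rw [map_div₀, φ.commutes, φ.commutes]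
  rw [← h1, isIntegral_algHom_iff φ φ.toRingHom.injective,
    IsIntegrallyClosed.isIntegral_iff] at h
  obtain ⟨b, hb⟩ := h
  rw [eq_div_iff (by simpa using hz), ← map_mul] at hb
  exact ⟨b, by rw [← IsFractionRing.injective B _ hb, mul_comm]⟩

theorem dvd_of_sq_dvd {B : Type} [CommRing B] [IsDomain B] [UniqueFactorizationMonoid B] {F y z : B}
    (hF : Squarefree F) (hz : z ≠ 0) (h : z ^ 2 ∣ y ^ 2 * F) : z ∣ y := by
  obtain ⟨z', y', c, h1, rfl, rfl⟩ := UniqueFactorizationMonoid.exists_reduced_factors z hz y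
  rw [mul_pow, mul_pow, mul_assoc,
    mul_dvd_mul_iff_left (pow_ne_zero 2 (left_ne_zero_of_mul hz))] at h
  have h2 := hF z' (by rw [← pow_two]; exact (h1.pow (m := 2) (n := 2)).dvd_of_dvd_mul_left h)
  exact mul_dvd_mul_left c h2.dvd

theorem Quad.isIntegrallyClosed {B A : Type} [CommRing B] [CommRing A] {ι : B →+* A} {u : A} {F : B}
    (h : Quad ι u F) [IsDomain B] [UniqueFactorizationMonoid B] [IsDomain A] (h2 : IsUnit (2 : B))
    (hF : Squarefree F) : IsIntegrallyClosed A := by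
  let L := FractionRing A
  let _ := ι.toAlgebra
  have : Algebra.IsIntegral B A := ⟨h.isIntegral⟩
  have hj := IsFractionRing.injective A L
  have hi : Function.Injective (algebraMap B L) := hj.comp h.inj
  have hj' : ∀ x, algebraMap A L (ι x) = algebraMap B L x := fun _ => rfl
  obtain ⟨χ, c1, c2⟩ := h.lift ι (c := -u) (by rw [neg_sq, h.sq])
  have hχ : Function.Injective ((algebraMap A L).comp χ) := hj.comp <|
    (injective_iff_map_eq_zero χ).mpr fun a ha => by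
      obtain ⟨x, y, rfl⟩ := h.surj a
      rw [map_add, map_mul, c1, c1, c2] at ha
      obtain ⟨rfl, h3⟩ := h.indep (x := x) (y := -y) (by rw [← ha, map_neg]; ring)
      simp [neg_eq_zero.mp h3]
  let c : L →ₐ[B] L := ⟨IsFractionRing.lift hχ, fun x => by
    change IsFractionRing.lift hχ (algebraMap A L (ι x)) = _
    rw [IsFractionRing.lift_algebraMap, RingHom.comp_apply, c1, hj']⟩
  have hc : c (algebraMap A L u) = -algebraMap A L u := by
    change IsFractionRing.lift hχ _ = _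
    rw [IsFractionRing.lift_algebraMap, RingHom.comp_apply, c2, map_neg]
  refine (isIntegrallyClosed_iff L).mpr fun {g} hg => ?_
  replace hg : IsIntegral B g := isIntegral_trans g hg
  obtain ⟨a, b, hb, rfl⟩ := IsFractionRing.div_surjective (A := A) g
  obtain ⟨z, hz, c', hc'⟩ := h.comap_ne_bot (Q := Ideal.span {b})
    (by simpa using nonZeroDivisors.ne_zero hb) |>.imp fun _ h => h.imp id
      Ideal.mem_span_singleton.mp
  obtain ⟨x, y, e⟩ := h.surj (a * c')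
  have hz' : algebraMap B L z ≠ 0 := (map_ne_zero_iff _ hi).mpr hz
  have e1 : algebraMap A L a / algebraMap A L b =
      (algebraMap B L x + algebraMap B L y * algebraMap A L u) / algebraMap B L z := by
    rw [div_eq_div_iff (by simpa using nonZeroDivisors.ne_zero hb) hz', ← hj', ← hj', ← hj',
      ← map_mul, ← map_mul, ← map_add, ← map_mul, ← e, hc']
    congr 1; ring
  rw [e1] at hg ⊢
  have h3 := hg.add (hg.map c)
  rw [map_div₀, map_add, map_mul, c.commutes, c.commutes, c.commutes, hc, ← add_div,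
    show algebraMap B L x + algebraMap B L y * algebraMap A L u + (algebraMap B L x +
      algebraMap B L y * -algebraMap A L u) = algebraMap B L (2 * x) by
      rw [map_mul, map_ofNat]; ring] at h3
  obtain ⟨x, rfl⟩ := h2.dvd_mul_left.mp (dvd_of_integral hi hz h3)
  have h4 := (hg.sub (isIntegral_algebraMap (x := x))).pow 2
  rw [show ((algebraMap B L (z * x) + algebraMap B L y * algebraMap A L u) / algebraMap B L z -
      algebraMap B L x) ^ 2 = algebraMap B L (y ^ 2 * F) / algebraMap B L (z ^ 2) by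
    rw [map_mul, map_mul, map_pow, map_pow, ← hj' F, ← h.sq, map_pow, div_sub' hz', div_pow]
    congr 1; ring] at h4
  obtain ⟨y, rfl⟩ := dvd_of_sq_dvd hF hz (dvd_of_integral hi (pow_ne_zero 2 hz) h4)
  refine ⟨ι x + ι y * u, ?_⟩
  rw [map_add, map_mul, hj', hj', map_mul, map_mul, eq_div_iff hz']
  ring

/-- Nonzero primes of a curve over the fraction field of `P` are incomparable. -/
theorem Quad.dim_one {P A : Type} [CommRing P] [IsDomain P] [CommRing A] [IsDomain A]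
    {ι : P[X] →+* A} {u : A} {F : P[X]} (h : Quad ι u F) {Q₀ Q : Ideal A} (h0 : Q₀.IsPrime)
    (h1 : Q₀ ≠ ⊥) (hle : Q₀ ≤ Q) (hQ : ∀ c, ι (C c) ∈ Q → c = 0) : Q₀ = Q := by
  let _ : Algebra P[X] (A ⧸ Q₀) := ((Ideal.Quotient.mk Q₀).comp ι).toAlgebra
  let _ : Algebra P (A ⧸ Q₀) := (((Ideal.Quotient.mk Q₀).comp ι).comp C).toAlgebra
  have e1 : ∀ p : P[X], aeval (Ideal.Quotient.mk Q₀ (ι X)) p = Ideal.Quotient.mk Q₀ (ι p) :=
    fun p => by
      have := hom_eval₂ p C ((Ideal.Quotient.mk Q₀).comp ι) X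
      rw [eval₂_C_X] at this
      exact this.symm
  have hinj : Function.Injective (algebraMap P (A ⧸ Q₀)) :=
    (injective_iff_map_eq_zero _).mpr fun c hc => hQ c (hle (Ideal.Quotient.eq_zero_iff_mem.mp hc))
  obtain ⟨p, hp0, hp⟩ := h.comap_ne_bot h1
  have a1 : IsAlgebraic P (Ideal.Quotient.mk Q₀ (ι X)) :=
    ⟨p, hp0, by rw [e1, Ideal.Quotient.eq_zero_iff_mem]; exact hp⟩
  have a2 : ∀ x, IsAlgebraic P (Ideal.Quotient.mk Q₀ (ι x)) := fun x => by
    induction x using Polynomial.induction_on with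
    | C c => exact isAlgebraic_algebraMap c
    | add p q hp hq => rw [map_add, map_add]; exact hp.add hq
    | monomial n c hc => rw [pow_succ, ← mul_assoc, map_mul, map_mul]; exact hc.mul a1
  have a3 : IsAlgebraic P (Ideal.Quotient.mk Q₀ u) :=
    IsAlgebraic.of_pow two_pos (by rw [← map_pow, h.sq]; exact a2 F)
  refine le_antisymm hle fun a ha => ?_
  by_contra hn
  have a4 : IsAlgebraic P (Ideal.Quotient.mk Q₀ a) := by
    obtain ⟨x, y, rfl⟩ := h.surj a
    rw [map_add, map_mul]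
    exact (a2 x).add ((a2 y).mul a3)
  obtain ⟨c, hc0, b, hb⟩ := a4.exists_nonzero_dvd
    (mem_nonZeroDivisors_of_ne_zero (mt Ideal.Quotient.eq_zero_iff_mem.mp hn))
  obtain ⟨b, rfl⟩ := Ideal.Quotient.mk_surjective b
  have h3 : ι (C c) - a * b ∈ Q₀ := Ideal.Quotient.eq.mp hb
  exact hc0 (hQ c (by simpa using Q.add_mem (hle h3) (Q.mul_mem_right b ha)))

end Pool.Agent.Work.MP_475c1a_ag
end

-- merged part: Pool.Agent.Work.MP_475c1a_ag.Aff
section
/-! Consequences of the affine description of prime divisors. -/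

namespace Pool.Agent.Work.MP_475c1a_ag

set_option linter.unusedSectionVars false
set_option maxHeartbeats 400000

namespace AModel

variable {A L M ι : Type} [CommRing A] [Field L] [Field M] {j : A →+* L} {v : ι → DV L} {inf : ι}
  (H : AModel j v inf)

include H

theorem ne0 {a : A} (ha : a ≠ 0) : j a ≠ 0 := (map_ne_zero_iff j H.inj).mpr ha

theorem cen_ne {i : ι} (hi : i ≠ inf) : ∃ a ≠ 0, (v i).Ge 1 (j a) := by
  obtain ⟨g, hg, h1⟩ := H.norm i
  obtain ⟨a, b, hb, rfl⟩ := H.loc i hi g (Or.inr (by omega))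
  obtain ⟨h2, h3⟩ := DV.v_eq_zero (H.reg i hi b) hb
  have h4 : j a ≠ 0 := fun h => hg (by simp [h])
  rw [DV.v_div _ h4 h2] at h1
  exact ⟨a, fun h => h4 (by simp [h]), Or.inr (by omega)⟩

theorem cen_ne_bot {i : ι} (hi : i ≠ inf) : (v i).cen j (H.reg i hi) ≠ ⊥ := fun h => by
  obtain ⟨a, ha, h1⟩ := H.cen_ne hi
  exact ha (by simpa [h] using (DV.mem_cen (h := H.reg i hi)).mpr h1)

theorem over_of_cen {w : DV M} {k : L →+* M} {i : ι} (hi : i ≠ inf) (h0 : ∀ a, w.Ge 0 (k (j a)))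
    (h1 : ∀ a, w.Ge 1 (k (j a)) ↔ (v i).Ge 1 (j a)) : ∃ e, w.Over k (v i) e := by
  refine DV.over_of_ge (H.norm i) (fun g hg => ?_) ?_
  · obtain ⟨a, b, hb, rfl⟩ := H.loc i hi g hg
    rw [map_div₀]
    exact (h0 a).div (DV.v_eq_zero (h0 b) (mt (h1 b).mp hb)).2 le_rfl
  · obtain ⟨a, ha, h2⟩ := H.cen_ne hi
    have := ((h1 a).mpr h2).le (by simpa using H.ne0 ha)
    exact ⟨j a, by omega⟩

theorem eq_of_cen {i k : ι} (hi : i ≠ inf) (hk : k ≠ inf)
    (h : ∀ a, (v i).Ge 1 (j a) → (v k).Ge 1 (j a)) : i = k := by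
  obtain ⟨e, he⟩ := H.over_of_cen (w := v i) (k := RingHom.id L) hk (H.reg i hi) fun a =>
    ⟨h a, H.min k hk _ (DV.cen_isPrime j (H.reg i hi)) (H.cen_ne_bot hi) h a⟩
  exact H.v_inj (DV.eq_of_mul (H.norm i) (H.norm k) one_pos he.1 fun x => by simpa using he.2 x)

theorem exists_over {w : DV M} {k : L →+* M} (h0 : ∀ a, w.Ge 0 (k (j a)))
    (h1 : ∃ g, w.v (k g) ≠ 0) (hd : ∀ i ≠ inf, (∀ a, (v i).Ge 1 (j a) → w.Ge 1 (k (j a))) →
      ∀ a, w.Ge 1 (k (j a)) → (v i).Ge 1 (j a)) : ∃ i ≠ inf, ∃ e, w.Over k (v i) e := by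
  obtain ⟨i, hi, h2⟩ := H.ex (w.cen (k.comp j) h0) inferInstance fun h => by
    have key : ∀ a, w.v (k (j a)) = 0 := fun a => by
      by_cases ha : a = 0
      · simp [ha]
      · exact (DV.v_eq_zero (h0 a) fun h3 => ha (by
          simpa [h] using (DV.mem_cen (j := k.comp j) (h := h0)).mpr h3)).2
    obtain ⟨g, hg⟩ := h1
    obtain ⟨a, b, hb, rfl⟩ := H.frac g
    by_cases ha : a = 0
    · simp [ha] at hg
    rw [map_div₀, DV.v_div _ (by simpa using H.ne0 ha) (by simpa using H.ne0 hb), key, key] at hg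
    exact hg rfl
  exact ⟨i, hi, H.over_of_cen hi h0 fun a => ⟨hd i hi h2 a, h2 a⟩⟩

theorem krull [IsDomain A] [IsNoetherianRing A] [IsIntegrallyClosed A] {g : L}
    (hg : ∀ i ≠ inf, (v i).Ge 0 g) : ∃ a, j a = g := by
  let _ := j.toAlgebra
  have : IsFractionRing A L := by
    have : FaithfulSMul A L := (faithfulSMul_iff_algebraMap_injective A L).mpr H.inj
    exact IsFractionRing.of_field A L fun z => by
      obtain ⟨a, b, -, h⟩ := H.frac z
      exact ⟨a, b, h⟩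
  obtain ⟨a, b, hb, rfl⟩ := H.frac g
  by_contra hn
  have hb' := H.ne0 hb
  have h1 : Ideal.Quotient.mk (Ideal.span {b}) a ≠ 0 := fun h => by
    obtain ⟨c, rfl⟩ := Ideal.mem_span_singleton.mp (Ideal.Quotient.eq_zero_iff_mem.mp h)
    exact hn ⟨c, by rw [map_mul]; field_simp⟩
  obtain ⟨P, hP, hle⟩ := exists_le_isAssociatedPrime_of_isNoetherianRing A _ h1
  obtain ⟨hP, y, hy⟩ := isAssociatedPrime_iff.mp hP
  obtain ⟨c, rfl⟩ := Ideal.Quotient.mk_surjective y
  have hm : ∀ {a n : A}, n ∈ (⊥ : Submodule A (A ⧸ Ideal.span {b})).colon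
      {Ideal.Quotient.mk (Ideal.span {b}) a} ↔ b ∣ n * a := fun {a n} => by
    rw [Submodule.mem_colon_singleton, Submodule.mem_bot, ← Ideal.mem_span_singleton,
      ← Ideal.Quotient.eq_zero_iff_mem]
    rfl
  have hP' : ∀ {n}, n ∈ P ↔ b ∣ n * c := by rw [hy]; exact hm
  have key : ∀ Q : Ideal A, Q ≠ ⊥ → Q ≤ P → ∃ q ∈ Q, ∃ d ∉ Q, q * c = b * d := fun Q h0 hQ => by
    by_contra! h
    have h2 : IsIntegral A (j c / j b) :=
      isIntegral_of_smul_mem_submodule (M := L) (Submodule.map (Algebra.linearMap A L) Q) (by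
        obtain ⟨q, hq, hq0⟩ := Submodule.exists_mem_ne_zero_of_ne_bot h0
        exact (Submodule.ne_bot_iff _).mpr ⟨_, Submodule.mem_map_of_mem hq, H.ne0 hq0⟩)
        ((IsNoetherian.noetherian Q).map _) _ (by
          rintro _ ⟨q, hq, rfl⟩
          obtain ⟨d, hd⟩ := hP'.mp (hQ hq)
          refine ⟨d, by_contra fun h3 => h q hq d h3 hd, ?_⟩
          change j d = j c / j b * j q
          rw [div_mul_eq_mul_div, eq_div_iff hb', ← map_mul, ← map_mul, mul_comm c, hd, mul_comm])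
    obtain ⟨d, hd⟩ := IsIntegrallyClosed.isIntegral_iff.mp h2
    refine hP.ne_top ((Ideal.eq_top_iff_one _).mpr (hP'.mpr ⟨d, H.inj ?_⟩))
    rw [one_mul, map_mul, show j d = _ from hd]; field_simp
  have hP0 : P ≠ ⊥ := fun h => hb (by simpa [h] using hP'.mpr (dvd_mul_right b c))
  obtain ⟨i, hi, h2⟩ := H.ex P hP hP0
  obtain ⟨p, hp, d, hd, e⟩ := key P hP0 le_rfl
  have h3 : ∀ q ∈ P, ∃ d', q * c = b * d' ∧ q * d = p * d' := fun q hq => by
    obtain ⟨d', h⟩ := hP'.mp hq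
    exact ⟨d', h, mul_left_cancel₀ hb (by linear_combination p * h - q * e)⟩
  have hQ := DV.cen_isPrime j (H.reg i hi)
  have h4 : p ∈ (v i).cen j (H.reg i hi) := by
    by_contra h4
    obtain ⟨q, hq, d', hd', e'⟩ := key _ (H.cen_ne_bot hi) h2
    obtain ⟨d'', e1, e2⟩ := h3 q (h2 q hq)
    obtain rfl := mul_left_cancel₀ hb (e1.symm.trans e')
    exact (hQ.mem_or_mem (e2 ▸ Ideal.mul_mem_right d _ hq)).elim h4 hd'
  obtain ⟨m, n, hn', e'⟩ := H.loc i hi _ (hg i hi)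
  rw [div_eq_div_iff hb' fun h => hn' (Or.inl h), ← map_mul, ← map_mul] at e'
  obtain ⟨d', -, e2⟩ := h3 n (hle (hm.mpr ⟨m, by rw [mul_comm, H.inj e', mul_comm]⟩))
  exact (hQ.mem_or_mem (e2 ▸ Ideal.mul_mem_right d' _ h4)).elim hn' fun h => hd (h2 d h)

theorem ge_one_iff_dvd {i : ι} (hi : i ≠ inf) {p : A} (hp : (Ideal.span {p}).IsPrime) (h0 : p ≠ 0)
    (h : (v i).Ge 1 (j p)) (a : A) : (v i).Ge 1 (j a) ↔ p ∣ a := by
  have h1 : ∀ a, p ∣ a → (v i).Ge 1 (j a) := by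
    rintro _ ⟨a, rfl⟩
    rw [map_mul]; exact h.mul_right (H.reg i hi a)
  exact ⟨fun h2 => Ideal.mem_span_singleton.mp (H.min i hi _ hp (by simpa using h0)
    (fun a ha => h1 a (Ideal.mem_span_singleton.mp ha)) a h2), h1 a⟩

theorem v_prime {i : ι} (hi : i ≠ inf) {p : A} (hp : (Ideal.span {p}).IsPrime) (h0 : p ≠ 0)
    (h : (v i).Ge 1 (j p)) : (v i).v (j p) = 1 ∧ ∀ k ≠ inf, k ≠ i → (v k).v (j p) = 0 := by
  refine ⟨?_, fun k hk hki => (DV.v_eq_zero (H.reg k hk p) fun h1 => hki (H.eq_of_cen hk hi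
    fun a ha => (H.ge_one_iff_dvd hi hp h0 h a).mpr ((H.ge_one_iff_dvd hk hp h0 h1 a).mp ha))).2⟩
  obtain ⟨g, hg, h1⟩ := H.norm i
  obtain ⟨a, b, hb, rfl⟩ := H.loc i hi g (Or.inr (by omega))
  obtain ⟨h2, h3⟩ := DV.v_eq_zero (H.reg i hi b) hb
  have h4 : j a ≠ 0 := fun h => hg (by simp [h])
  rw [DV.v_div _ h4 h2] at h1
  obtain ⟨c, rfl⟩ := (H.ge_one_iff_dvd hi hp h0 h a).mp (Or.inr (by omega))
  rw [map_mul] at h1 h4
  rw [DV.v_mul _ (left_ne_zero_of_mul h4) (right_ne_zero_of_mul h4)] at h1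
  have h5 := (H.reg i hi c).nonneg
  have h6 := h.le (left_ne_zero_of_mul h4)
  omega

theorem dvd_of_cen {B : Type} [CommRing B] {f : B →+* A} {u : A} {F : B} (hq : Quad f u F) {i : ι}
    (hi : i ≠ inf) {p q : B} (hp : Prime p) (h1 : (v i).Ge 1 (j (f p)))
    (h2 : (v i).Ge 1 (j (f q))) : p ∣ q := by
  by_contra hn
  have h3 := (H.reg i hi (f p)).nonneg
  obtain ⟨k, hk⟩ := Int.eq_ofNat_of_zero_le h3
  obtain ⟨a, b, hb, e⟩ := H.loc i hi (j (f q) ^ k / j (f p)) ((h2.pow k).div hk (by omega))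
  have h4 : j (f p) ≠ 0 := H.ne0 ((map_ne_zero_iff f hq.inj).mpr hp.ne_zero)
  rw [div_eq_div_iff h4 fun h => hb (Or.inl h), ← map_pow, ← map_mul, ← map_mul] at e
  obtain ⟨x, y, rfl⟩ := hq.surj b
  have h5 : f p ∣ f (q ^ k * x) + f (q ^ k * y) * u :=
    ⟨a, by rw [mul_comm (f p), ← H.inj e, map_mul, map_mul, map_pow]; ring⟩
  rw [hq.dvd_iff] at h5
  have h6 : ∀ x, p ∣ q ^ k * x → p ∣ x := fun x h =>
    (hp.dvd_or_dvd h).resolve_left fun h => hn (hp.dvd_of_dvd_pow h)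
  obtain ⟨c, hc⟩ := hq.dvd_iff.mpr ⟨h6 x h5.1, h6 y h5.2⟩
  rw [hc, map_mul] at hb
  exact hb (h1.mul_right (H.reg i hi c))

end AModel

end Pool.Agent.Work.MP_475c1a_ag
end

-- merged part: Pool.Agent.Work.MP_475c1a_ag.Div
section
/-! Divisors for a family of valuations, pullback, and the linear algebra of the comparison. -/

namespace Pool.Agent.Work.MP_475c1a_ag

open TensorProduct

set_option linter.unusedSectionVars false
set_option maxHeartbeats 400000

section Sat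

variable {L M ι κ : Type} [Field L] [Field M] (v : ι → DV L)

/-- Divisors with a multiple that is principal on `s`. -/
def SatOn (s : Set ι) : AddSubgroup (ι →₀ ℤ) where
  carrier := {D | ∃ N : ℤ, 0 < N ∧ ∃ g ≠ 0, ∀ i ∈ s, N * D i = (v i).v g}
  zero_mem' := ⟨1, one_pos, 1, one_ne_zero, by simp⟩
  add_mem' := by
    rintro D E ⟨N, hN, g, hg, h⟩ ⟨N', hN', g', hg', h'⟩
    refine ⟨N * N', mul_pos hN hN', g ^ N' * g' ^ N,
      mul_ne_zero (zpow_ne_zero _ hg) (zpow_ne_zero _ hg'), fun i hi => ?_⟩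
    rw [DV.v_mul _ (zpow_ne_zero _ hg) (zpow_ne_zero _ hg'), DV.v_zpow, DV.v_zpow, ← h i hi,
      ← h' i hi, Finsupp.add_apply]
    ring
  neg_mem' := by
    rintro D ⟨N, hN, g, hg, h⟩
    exact ⟨N, hN, g⁻¹, inv_ne_zero hg, fun i hi => by simp [← h i hi]⟩

variable {v} {s t : Set ι} {D : ι →₀ ℤ}

theorem satOn_of_eq {g : L} (hg : g ≠ 0) (h : ∀ i ∈ s, D i = (v i).v g) : D ∈ SatOn v s :=
  ⟨1, one_pos, g, hg, by simpa using h⟩

theorem satOn_of_smul {N : ℤ} (hN : 0 < N) (h : N • D ∈ SatOn v s) : D ∈ SatOn v s := by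
  obtain ⟨N', hN', g, hg, h⟩ := h
  exact ⟨N' * N, mul_pos hN' hN, g, hg, fun i hi => by simpa [mul_assoc] using h i hi⟩

theorem mem_of_single {S : AddSubgroup (ι →₀ ℤ)} (h : ∀ i, D i ≠ 0 → Finsupp.single i 1 ∈ S) :
    D ∈ S := by
  rw [← D.sum_single]
  refine sum_mem fun i hi => ?_
  simpa using S.zsmul_mem (h i (Finsupp.mem_support_iff.mp hi)) (D i)

theorem exists_div (hfin : ∀ g, g ≠ 0 → {i | (v i).v g ≠ 0}.Finite) {g : L} (hg : g ≠ 0) :
    ∃ E : ι →₀ ℤ, ∀ i, E i = (v i).v g := ⟨.ofSupportFinite _ (hfin g hg), fun _ => rfl⟩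

theorem satOn_extend (hfin : ∀ g, g ≠ 0 → {i | (v i).v g ≠ 0}.Finite) (hD : D ∈ SatOn v s)
    (ht : ∀ i ∈ t, i ∉ s → Finsupp.single i 1 ∈ SatOn v t) : D ∈ SatOn v t := by
  obtain ⟨N, hN, g, hg, h⟩ := hD
  obtain ⟨E, hE⟩ := exists_div hfin hg
  refine satOn_of_smul hN ?_
  rw [← sub_add_cancel (N • D) E]
  refine add_mem (mem_of_single fun i hi => ?_) (satOn_of_eq hg fun i _ => hE i)
  by_cases h1 : i ∈ t
  · exact ht i h1 fun h2 => hi (by simp [h i h2, hE])
  · exact satOn_of_eq one_ne_zero fun k hk => by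
      rw [Finsupp.single_eq_of_ne (by rintro rfl; exact h1 hk), DV.v_one]

theorem single_mem_satOn {i : ι} {g : L} (hg : g ≠ 0) (h1 : (v i).v g ≠ 0)
    (h : ∀ k ∈ s, k ≠ i → (v k).v g = 0) : Finsupp.single i 1 ∈ SatOn v s := by
  refine ⟨(v i).v g ^ 2, by positivity, g ^ (v i).v g, zpow_ne_zero _ hg, fun k hk => ?_⟩
  by_cases h2 : k = i
  · simp [h2, sq]
  · simp [Finsupp.single_eq_of_ne h2, h k hk h2]

variable (v) in
/-- `pb` is the pullback of divisors along a field extension. -/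
structure IsPb (w : κ → DV M) (j : L →+* M) (pb : (ι →₀ ℤ) →+ (κ →₀ ℤ)) : Prop where
  of_over : ∀ {k i e} D, (w k).Over j (v i) e → pb D k = e * D i
  not_over : ∀ {k} D, (∀ i e, ¬ (w k).Over j (v i) e) → pb D k = 0

variable {w : κ → DV M} {j : L →+* M}

theorem exists_pb (hn : ∀ i, (v i).Norm) (hi : Function.Injective v)
    (hfin : ∀ g, g ≠ 0 → {k | (w k).v g ≠ 0}.Finite) : ∃ pb, IsPb v w j pb := by
  classical
  choose p hp0 hp using hn
  let f : ι → κ → ℤ := fun i k => if ∃ e, (w k).Over j (v i) e then (w k).v (j (p i)) else 0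
  have hf : ∀ i, (Function.support (f i)).Finite := fun i =>
    (hfin (j (p i)) (by simpa using hp0 i)).subset fun k hk h => hk (by simp [f, h])
  let pb : (ι →₀ ℤ) →+ (κ →₀ ℤ) := Finsupp.liftAddHom fun i =>
    zmultiplesHom _ (Finsupp.ofSupportFinite (f i) (hf i))
  have h1 : ∀ D k, pb D k = D.sum fun i n => n * f i k := fun D k => by
    simp only [pb, Finsupp.liftAddHom_apply, Finsupp.sum_apply]
    rfl
  refine ⟨pb, fun {k i e} D h => ?_, fun {k} D h => ?_⟩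
  · rw [h1, Finsupp.sum_eq_single i (fun i' _ h2 => ?_) (by simp)]
    · simp only [f, if_pos (⟨e, h⟩ : ∃ e, (w k).Over j (v i) e), h.2, hp]; ring
    · simp only [f]
      rw [if_neg, mul_zero]
      rintro ⟨e', h'⟩
      exact h2 (hi (h'.unique h ⟨_, hp0 _, hp _⟩ ⟨_, hp0 _, hp _⟩))
  · rw [h1]
    exact Finset.sum_eq_zero fun i _ => by
      simp only [f]; rw [if_neg (fun ⟨e, h'⟩ => h i e h'), mul_zero]

theorem IsPb.mapDomain {pb : (ι →₀ ℤ) →+ (κ →₀ ℤ)} (h : IsPb v w j pb) {τ : ι → ι}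
    (hτ : Function.Bijective τ) {ρ : κ → κ} (hρ : Function.Bijective ρ) (a : L ≃+* L)
    (σ : M ≃+* M) (h1 : ∀ i g, (v i).v (a g) = (v (τ i)).v g) (h2 : ∀ g, σ (j g) = j (a g))
    (h3 : ∀ k g, (w k).v (σ g) = (w (ρ k)).v g) (D : ι →₀ ℤ) :
    pb (D.mapDomain τ) = (pb D).mapDomain ρ := by
  ext k
  obtain ⟨k, rfl⟩ := hρ.2 k
  rw [Finsupp.mapDomain_apply hρ.1]
  by_cases hk : ∃ i e, (w k).Over j (v i) e
  · obtain ⟨i, e, hk⟩ := hk
    rw [h.of_over D hk, h.of_over (i := τ i) (e := e) _ ⟨hk.1, fun g => by rw [← h3, h2, hk.2, h1]⟩,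
      Finsupp.mapDomain_apply hτ.1]
  · rw [h.not_over D fun i e h4 => hk ⟨i, e, h4⟩, h.not_over]
    intro i e h4
    obtain ⟨i, rfl⟩ := hτ.2 i
    refine hk ⟨i, e, h4.1, fun g => ?_⟩
    obtain ⟨g, rfl⟩ := a.surjective g
    rw [← h2, h3, h4.2, h1]

theorem satOn_mapDomain {ρ : κ → κ} (hρ : Function.Bijective ρ) (σ : M ≃+* M)
    (h3 : ∀ k g, (w k).v (σ g) = (w (ρ k)).v g) {D : κ →₀ ℤ} (hD : D ∈ SatOn w Set.univ) :
    D.mapDomain ρ ∈ SatOn w Set.univ := by
  obtain ⟨N, hN, g, hg, h⟩ := hD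
  refine ⟨N, hN, σ.symm g, by simpa using hg, fun k _ => ?_⟩
  obtain ⟨k, rfl⟩ := hρ.2 k
  rw [Finsupp.mapDomain_apply hρ.1, h k trivial, ← h3, σ.apply_symm_apply]

end Sat

section Tensor

variable {A C : Type} [AddCommGroup A] [AddCommGroup C]

theorem flat_complex : Module.Flat ℤ ℂ :=
  have : Module.Flat ℤ ℚ := IsLocalization.flat ℚ (nonZeroDivisors ℤ)
  Module.Flat.trans ℤ ℚ ℂ

theorem tmul_eq (c : ℂ) {N : ℤ} (hN : 0 < N) (a : A) :
    c ⊗ₜ[ℤ] a = (c / N) • (1 : ℂ) ⊗ₜ[ℤ] (N • a) := by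
  rw [tmul_smul, smul_tmul', smul_tmul', smul_eq_mul, zsmul_eq_mul, mul_one,
    div_mul_cancel₀ _ (by exact_mod_cast hN.ne')]

theorem baseChange_surj (α : A →+ C) (h : ∀ c, ∃ N : ℤ, 0 < N ∧ ∃ a, α a = N • c) :
    Function.Surjective (α.toIntLinearMap.baseChange ℂ) := by
  rw [← LinearMap.range_eq_top, eq_top_iff]
  rintro x -
  induction x with
  | zero => exact zero_mem _
  | add x y hx hy => exact add_mem hx hy
  | tmul c y =>
    obtain ⟨N, hN, a, ha⟩ := h y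
    rw [tmul_eq c hN, ← ha]
    exact Submodule.smul_mem _ _ ⟨1 ⊗ₜ a, rfl⟩

theorem baseChange_ker (α : A →+ C) (H : A)
    (h : ∀ a, α a = 0 → ∃ N : ℤ, 0 < N ∧ ∃ m : ℤ, N • a = m • H) (x : ℂ ⊗[ℤ] A)
    (hx : α.toIntLinearMap.baseChange ℂ x = 0) : ∃ c : ℂ, x = c • (1 : ℂ) ⊗ₜ[ℤ] H := by
  have := flat_complex
  obtain ⟨y, rfl⟩ := ((Module.Flat.lTensor_exact ℂ
    (LinearMap.exact_subtype_ker_map α.toIntLinearMap)) x).mp hx
  clear hx
  induction y with
  | zero => exact ⟨0, by rw [map_zero, zero_smul]⟩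
  | add x y hx hy =>
    obtain ⟨c, hc⟩ := hx
    obtain ⟨d, hd⟩ := hy
    exact ⟨c + d, by rw [map_add, hc, hd, add_smul]⟩
  | tmul c y =>
    obtain ⟨N, hN, m, e⟩ := h y y.2
    refine ⟨c / N * m, ?_⟩
    rw [LinearMap.lTensor_tmul, Submodule.subtype_apply, tmul_eq c hN, e, tmul_smul, mul_smul,
      Int.cast_smul_eq_zsmul]

theorem tmul_ne_zero (H : A) (h : ∀ m : ℤ, m • H = 0 → m = 0) : (1 : ℂ) ⊗ₜ[ℤ] H ≠ 0 := by
  have := flat_complex
  have h1 := Module.Flat.lTensor_preserves_injective_linearMap (M := ℂ)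
    (LinearMap.toSpanSingleton ℤ A H) ((injective_iff_map_eq_zero _).mpr h)
  intro h2
  have h3 := h1 (a₁ := 1 ⊗ₜ 1) (a₂ := 0) (by simpa using h2)
  simpa using congrArg (TensorProduct.rid ℤ ℂ) h3

end Tensor

section Rep

variable {W W' U : Type} [AddCommGroup W] [Module ℂ W] [AddCommGroup W'] [Module ℂ W']
  [AddCommGroup U] [Module ℂ U]

theorem exists_split (α : W →ₗ[ℂ] U) (hs : Function.Surjective α) {H : W} (h0 : H ≠ 0)
    (hH : α H = 0) (hk : ∀ x, α x = 0 → ∃ c : ℂ, x = c • H) (i : W →ₗ[ℂ] W) (hi : i H = H)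
    (hi' : ∀ x, α (i x) = -α x) : ∃ e : W ≃ₗ[ℂ] ℂ × U, (∀ x, (e x).2 = α x) ∧
      ∀ g : W →ₗ[ℂ] W, g H = H → (∀ x, g (i x) = i (g x)) → ∀ x, (e (g x)).1 = (e x).1 := by
  choose l hl using fun x => hk (x + i x) (by rw [map_add, hi', add_neg_cancel])
  have hinj := smul_left_injective ℂ h0
  let l' : W →ₗ[ℂ] ℂ :=
    { toFun := l
      map_add' x y := hinj (by simp only [add_smul, ← hl, map_add]; abel)
      map_smul' c x := hinj (by simp only [mul_smul, smul_eq_mul, ← hl, map_smul, smul_add]; rfl) }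
  have h2 : l H = 2 := hinj (by simp only [← hl, hi, two_smul])
  refine ⟨.ofBijective (l'.prod α) ⟨(injective_iff_map_eq_zero _).mpr fun x hx => ?_,
    fun ⟨c, y⟩ => ?_⟩, fun _ => rfl, fun g h3 h4 x => hinj ?_⟩
  · obtain ⟨c, rfl⟩ := hk x (congrArg Prod.snd hx)
    have h3 : l' (c • H) = 0 := congrArg Prod.fst hx
    rw [map_smul, show l' H = 2 from h2] at h3
    simp [show c = 0 by simpa using h3]
  · obtain ⟨x, rfl⟩ := hs y
    refine ⟨x + ((c - l' x) / 2) • H, Prod.ext ?_ ?_⟩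
    · change l' _ = c
      rw [map_add, map_smul, show l' H = 2 from h2, smul_eq_mul]; ring
    · change α _ = α x
      rw [map_add, map_smul, hH, smul_zero, add_zero]
  · change l (g x) • H = l x • H
    rw [← hl, ← h4, ← map_add, hl, map_smul, h3]

end Rep

end Pool.Agent.Work.MP_475c1a_ag
end
end

-- merged part: Pool.Agent.Work.MP_475c1a_ag.LocFact
section
-- merged part: Pool.Agent.Work.MP_475c1a_ag.Geo
section
/-! A summary of the geometry of `Proj` in terms of an abstract field. -/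

namespace Pool.Agent.Work.MP_475c1a_ag

open AlgebraicGeometry CategoryTheory

set_option backward.isDefEq.respectTransparency false
set_option linter.unusedSectionVars false
set_option maxHeartbeats 400000

/-- The function field, the valuations of prime divisors and the action of automorphisms. -/
structure Geo (W : CScheme) {R L : Type} [CommRing R] [Algebra ℂ R] [Field L]
    (𝒜 : ℕ → Submodule ℂ R) [GradedAlgebra 𝒜] (θ : R →+* L) (s : R)
    (P : PrimeDiv (under.obj W) → Ideal R) (v : PrimeDiv (under.obj W) → DV L)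
    (pl : Aut W → L ≃+* L) : Prop where
  variety : IsVariety W
  hm : HModel 𝒜 θ s P v
  prin : ∀ D, D ∈ principal (under.obj W) ↔ ∃ g ≠ 0, ∀ i, D i = (v i).v g
  pl_one : ∀ g, pl 1 g = g
  pl_mul : ∀ σ τ g, pl (σ * τ) g = pl τ (pl σ g)
  pl_inj : ∀ σ τ, (∀ g, pl σ g = pl τ g) → σ = τ
  v_pl : ∀ σ i g, (v i).v (pl σ g) = (v (primeMap (under.mapIso σ) i)).v g
  pl_const : ∀ σ c, pl σ (θ (algebraMap ℂ R c)) = θ (algebraMap ℂ R c)
  real : ∀ e : R ≃ₐ[ℂ] R, (∀ d r, r ∈ 𝒜 d → e r ∈ 𝒜 d) → (∀ d r, r ∈ 𝒜 d → e.symm r ∈ 𝒜 d) →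
    ∃ σ, ∀ d r, r ∈ 𝒜 d → pl σ (θ r) = θ (e r) / θ (e s) ^ d

theorem mem_principal {X : Scheme.{0}} [IsIntegral X] [IsLocallyNoetherian X]
    {v : PrimeDiv X → DV X.functionField} (h : ∀ i g, (v i).v g = X.ord g i.1)
    (D : PrimeDiv X →₀ ℤ) : D ∈ principal X ↔ ∃ g ≠ 0, ∀ i, D i = (v i).v g := by
  refine ⟨fun hD => ?_, fun ⟨g, hg, h1⟩ =>
    AddSubgroup.subset_closure ⟨‹_›, ‹_›, g, hg, fun i => (h1 i).trans (h i g)⟩⟩
  induction hD using AddSubgroup.closure_induction with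
  | mem D hD =>
    obtain ⟨_, _, g, hg, h1⟩ := hD
    exact ⟨g, hg, fun i => (h1 i).trans (h i g).symm⟩
  | zero => exact ⟨1, one_ne_zero, by simp⟩
  | add D E _ _ h1 h2 =>
    obtain ⟨g, hg, h1⟩ := h1
    obtain ⟨g', hg', h2⟩ := h2
    exact ⟨g * g', mul_ne_zero hg hg', fun i => by
      rw [DV.v_mul _ hg hg', Finsupp.add_apply, h1, h2]⟩
  | neg D _ h1 =>
    obtain ⟨g, hg, h1⟩ := h1
    exact ⟨g⁻¹, inv_ne_zero hg, fun i => by simp [h1]⟩

theorem exists_geo {R : Type} [CommRing R] [IsDomain R] [Algebra ℂ R] (𝒜 : ℕ → Submodule ℂ R)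
    [GradedAlgebra 𝒜] [Algebra.FiniteType ℂ R] [IsIntegrallyClosed R]
    (h0 : Function.Surjective (algebraMap ℂ (𝒜 0))) {s : R} (hs : s ∈ 𝒜 1) (hs0 : s ≠ 0) :
    ∃ (L : Type) (_ : Field L) (θ : R →+* L) (P : _) (v : _) (pl : _),
      Geo (projStr 𝒜) 𝒜 θ s P v pl := by
  have h1 := isIntegral_proj 𝒜 hs hs0
  have h2 := isLocallyNoetherian_proj 𝒜 h0
  have h3 : IsNoetherianRing R := Algebra.FiniteType.isNoetherianRing ℂ R
  obtain ⟨v, h4, h5⟩ := exists_hmodel 𝒜 hs hs0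
  let m : Aut (projStr 𝒜) → (Proj 𝒜 ≅ Proj 𝒜) := fun σ => under.mapIso σ
  refine ⟨(Proj 𝒜).functionField, inferInstance, theta 𝒜 hs hs0, _, v, fun σ => pull (m σ),
    ⟨h1, h2⟩, h5, mem_principal (X := Proj 𝒜) h4, fun g => ?_, fun σ τ g => ?_, fun σ τ h => ?_,
    fun σ i g => ?_, fun σ c => pull_const 𝒜 hs hs0 (m σ) (Over.w σ.hom) c,
    fun e he he' => ⟨grIsoC e he he', fun d r hr => pull_grIso 𝒜 hs hs0 e he he' hr⟩⟩
  · rw [show m 1 = Iso.refl _ from under.mapIso_refl _, pull_refl]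
  · rw [show m (σ * τ) = m τ ≪≫ m σ from under.mapIso_trans τ σ, pull_trans]
  · exact Iso.ext (Over.OverMorphism.ext (congrArg Iso.hom (eq_of_pull h)))
  · rw [h4, h4, ord_pull]; rfl

end Pool.Agent.Work.MP_475c1a_ag
end

-- merged part: Pool.Agent.Work.MP_475c1a_ag.Place
section
/-! Places of a double cover of the projective line. -/

namespace Pool.Agent.Work.MP_475c1a_ag

open Polynomial

set_option linter.unusedSectionVars false
set_option maxHeartbeats 400000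

/-- `L` is the field of fractions of `B` with a square root `u` of `F` adjoined. -/
structure QuadF {B L : Type} [CommRing B] [Field L] (ι : B →+* L) (u : L) (F : B) : Prop where
  sq : u ^ 2 = ι F
  indep : ∀ {x y}, ι x + ι y * u = 0 → x = 0 ∧ y = 0
  frac : ∀ g, ∃ x y z, z ≠ 0 ∧ g = (ι x + ι y * u) / ι z

theorem DV.prop_of_prime {B M : Type} [CommRing B] [IsDomain B] [WfDvdMonoid B] [Field M]
    {j : B →+* M} (hj : Function.Injective j) {p : B} (hp : Prime p) {w w' : DV M}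
    (h : ∀ a, ¬ p ∣ a → w.v (j a) = 0) (h' : ∀ a, ¬ p ∣ a → w'.v (j a) = 0) (a : B) :
    w'.v (j p) * w.v (j a) = w.v (j p) * w'.v (j a) := by
  by_cases ha : a = 0
  · simp [ha]
  obtain ⟨n, b, hb, rfl⟩ := WfDvdMonoid.max_power_factor' ha hp.not_isUnit
  have h1 : j p ^ n ≠ 0 := pow_ne_zero _ ((map_ne_zero_iff j hj).mpr hp.ne_zero)
  have h2 : j b ≠ 0 := (map_ne_zero_iff j hj).mpr (right_ne_zero_of_mul ha)
  rw [map_mul, map_pow, w.v_mul h1 h2, w'.v_mul h1 h2, h b hb, h' b hb, w.v_pow, w'.v_pow]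
  ring

section Unique

variable {M : Type} [Field M] {S : Subfield M} {u : M} {w w' : DV M}

theorem DV.v_conj (h2 : w.v 2 = 0) (h2' : (2 : M) ≠ 0) (hu : w.v u = 0) (hu0 : u ≠ 0) {x : M}
    (hx : ¬ w.Ge 1 (x ^ 2 - u ^ 2)) : w.v (x + u) = w.v (x - u) := by
  have key : ∀ u : M, w.v u = 0 → u ≠ 0 → ¬ w.Ge 1 (x ^ 2 - u ^ 2) →
      w.v (x + u) ≤ w.v (x - u) := fun u hu hu0 hx => by
    by_contra! h
    have h0 : x - u ≠ 0 := fun e => hx (Or.inl (by rw [sq_sub_sq, e, mul_zero]))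
    have h1 : x + u ≠ 0 := fun e => hx (Or.inl (by rw [sq_sub_sq, e, zero_mul]))
    have h3 := (DV.add_of_lt (w := w) h0 (y := -(x + u)) (DV.ge_of_le (by rw [DV.v_neg]; omega))).2
    rw [show x - u + -(x + u) = -(2 * u) by ring, DV.v_neg, w.v_mul h2' hu0] at h3
    exact hx (Or.inr (by rw [sq_sub_sq, w.v_mul h1 h0]; omega))
  refine le_antisymm (key u hu hu0 hx) ?_
  simpa [sub_eq_add_neg] using key (-u) (by simpa) (by simpa) (by simpa)

variable (hS : ∀ g, ∃ x ∈ S, ∃ y ∈ S, g = x + y * u) (hn : w.Norm) (hn' : w'.Norm) {a b : ℤ}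
  (ha : 0 < a) (hb : 0 < b) (hab : ∀ x ∈ S, a * w.v x = b * w'.v x)

include hS hn hn' ha hb hab in
theorem DV.eq_of_add (h : ∀ x ∈ S, x + u ≠ 0 → a * w.v (x + u) = b * w'.v (x + u)) : w = w' := by
  refine DV.eq_of_mul hn hn' ha hb fun g => ?_
  obtain ⟨x, hx, y, hy, rfl⟩ := hS g
  by_cases h0 : y = 0
  · simpa [h0] using hab x hx
  rw [show x + y * u = y * (x / y + u) by field_simp]
  by_cases h1 : x / y + u = 0
  · simp [h1]
  rw [w.v_mul h0 h1, w'.v_mul h0 h1, mul_add, mul_add, hab y hy, h _ (div_mem hx hy) h1]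

include hS hn hn' ha hb hab in
theorem DV.eq_of_inert (hu2 : u ^ 2 ∈ S) (h2 : w.v 2 = 0) (h2' : (2 : M) ≠ 0) (hu : w.v u = 0)
    (hu0 : u ≠ 0) (hx : ∀ x ∈ S, ¬ w.Ge 1 (x ^ 2 - u ^ 2)) : w = w' := by
  refine DV.eq_of_add hS hn hn' ha hb hab fun x hxS h1 => ?_
  have hm := sub_mem (pow_mem hxS 2) hu2
  have h0 : x ^ 2 - u ^ 2 ≠ 0 := fun e => hx x hxS (Or.inl e)
  have e1 := DV.v_conj h2 h2' hu hu0 (hx x hxS)
  have e2 := DV.v_conj (w := w') (x := x) (by have := hab 2 (ofNat_mem S 2); rw [h2] at this; nlinarith) h2'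
    (by have := hab _ hu2; rw [w.v_pow, w'.v_pow, hu] at this; push_cast at this; nlinarith) hu0
    (by have := hab _ hm; have := hx x hxS; rw [DV.ge_iff h0] at this ⊢; nlinarith)
  have e3 := hab _ hm
  rw [sq_sub_sq] at e3 h0
  rw [w.v_mul h1 (right_ne_zero_of_mul h0), w'.v_mul h1 (right_ne_zero_of_mul h0), ← e1,
    ← e2] at e3
  linarith

include hS hn hn' ha hb hab in
theorem DV.eq_of_split (hu2 : u ^ 2 ∈ S) (h2 : w.v 2 = 0) (h2' : (2 : M) ≠ 0) {r : M} (hr : r ∈ S)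
    (hr0 : r ≠ 0) (h0 : w.v r = 0) (h1 : w.Ge 1 (u - r)) (h1' : w'.Ge 1 (u - r)) : w = w' := by
  refine DV.eq_of_add hS hn hn' ha hb hab fun x hx hx0 => ?_
  have key : ∀ y ∈ S, ∀ z, w.Ge 1 z → w'.Ge 1 z → ¬ w.Ge 1 y →
      y + z ≠ 0 ∧ a * w.v (y + z) = b * w'.v (y + z) := fun y hy z hz hz' h => by
    have h3 : y ≠ 0 := fun e => h (Or.inl e)
    rw [DV.ge_iff h3] at h
    have h4 := hab y hy
    obtain ⟨h5, h6⟩ := DV.add_of_lt h3 (hz.mono (by omega))
    exact ⟨h5, by rw [h6, (DV.add_of_lt h3 (hz'.mono (by nlinarith))).2, h4]⟩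
  by_cases h3 : w.Ge 1 (x + r)
  · obtain ⟨h4, h5⟩ := key (x - r) (sub_mem hx hr) _ h1.neg h1'.neg fun h4 => by
      have := (h3.sub h4).le (by rw [show x + r - (x - r) = 2 * r by ring]; exact mul_ne_zero h2' hr0)
      rw [show x + r - (x - r) = 2 * r by ring, w.v_mul h2' hr0] at this
      omega
    have h6 := hab _ (sub_mem (pow_mem hx 2) hu2)
    rw [show x - r + -(u - r) = x - u by ring] at h4 h5
    rw [sq_sub_sq, w.v_mul hx0 h4, w'.v_mul hx0 h4] at h6
    linarith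
  · simpa using (key (x + r) (add_mem hx hr) _ h1 h1' h3).2

end Unique

namespace QuadF

variable {B M : Type} [CommRing B] [Field M] {ι : B →+* M} {u : M} {F : B} (h : QuadF ι u F)

include h

theorem inj : Function.Injective ι :=
  (injective_iff_map_eq_zero ι).mpr fun x hx => (h.indep (x := x) (y := 0) (by simp [hx])).1

theorem ne0 {x : B} (hx : x ≠ 0) : ι x ≠ 0 := (map_ne_zero_iff ι h.inj).mpr hx

theorem u_ne : u ≠ 0 := fun e => by
  have := (h.indep (x := 0) (y := 1) (by simp [e])).2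
  simpa using congrArg ι this

theorem norm (x y : B) : (ι x + ι y * u) * (ι x - ι y * u) = ι (x ^ 2 - y ^ 2 * F) := by
  simp only [map_sub, map_mul, map_pow, ← h.sq]; ring

theorem conj_ne {x y : B} (h0 : ι x + ι y * u ≠ 0) : ι x - ι y * u ≠ 0 := fun e => by
  obtain ⟨rfl, h2⟩ := h.indep (x := x) (y := -y) (by rw [← e, map_neg]; ring)
  exact h0 (by simp [neg_eq_zero.mp h2])

theorem exists_subfield : ∃ S : Subfield M, (∀ g, g ∈ S ↔ ∃ x z, g = ι x / ι z) ∧
    u ^ 2 ∈ S ∧ ∀ g, ∃ x ∈ S, ∃ y ∈ S, g = x + y * u := by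
  have h1 : ∀ g, g ∈ Subfield.closure (ι.range : Set M) ↔ ∃ x z, g = ι x / ι z := fun g => by
    rw [Subfield.mem_closure_iff, Subring.closure_eq]
    exact ⟨by rintro ⟨_, ⟨x, rfl⟩, _, ⟨z, rfl⟩, rfl⟩; exact ⟨x, z, rfl⟩,
      by rintro ⟨x, z, rfl⟩; exact ⟨_, ⟨x, rfl⟩, _, ⟨z, rfl⟩, rfl⟩⟩
  refine ⟨_, h1, (h1 _).mpr ⟨F, 1, by simp [h.sq]⟩, fun g => ?_⟩
  obtain ⟨x, y, z, -, rfl⟩ := h.frac g
  exact ⟨_, (h1 _).mpr ⟨x, z, rfl⟩, _, (h1 _).mpr ⟨y, z, rfl⟩, by ring⟩

theorem prop_frac {w w' : DV M} {a b : ℤ} (hab : ∀ x, a * w.v (ι x) = b * w'.v (ι x)) (x z : B) :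
    a * w.v (ι x / ι z) = b * w'.v (ι x / ι z) := by
  by_cases hx : x = 0
  · simp [hx]
  by_cases hz : z = 0
  · simp [hz]
  rw [w.v_div (h.ne0 hx) (h.ne0 hz), w'.v_div (h.ne0 hx) (h.ne0 hz), mul_sub, mul_sub, hab, hab]

theorem ge_u {w : DV M} (h0 : ∀ x, w.Ge 0 (ι x)) : w.Ge 0 u := by
  have := (h0 F).nonneg
  rw [← h.sq, w.v_pow] at this
  exact Or.inr (by omega)

theorem exists_ge_one {w : DV M} (hn : w.Norm) (h0 : ∀ x, w.Ge 0 (ι x)) :
    ∃ x ≠ 0, w.Ge 1 (ι x) := by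
  by_contra! h1
  have h2 : ∀ x ≠ 0, w.v (ι x) = 0 := fun x hx => (DV.v_eq_zero (h0 x) (h1 x hx)).2
  obtain ⟨g, hg, h3⟩ := hn
  obtain ⟨x, y, z, hz, rfl⟩ := h.frac g
  have h4 : ι x + ι y * u ≠ 0 := fun e => hg (by simp [e])
  have h5 := w.v_mul h4 (h.conj_ne h4)
  have h6 := ((h0 x).sub ((h0 y).mul0 (h.ge_u h0))).nonneg
  rw [h.norm, h2 _ fun e => mul_ne_zero h4 (h.conj_ne h4) (by rw [h.norm, e, map_zero])] at h5
  rw [w.v_div h4 (h.ne0 hz), h2 z hz] at h3
  omega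

end QuadF

end Pool.Agent.Work.MP_475c1a_ag
end

-- merged part: Pool.Agent.Work.MP_475c1a_ag.WQuad
section
/-! Coordinate rings of weighted hypersurfaces which are double covers. -/

namespace Pool.Agent.Work.MP_475c1a_ag

open MvPolynomial

set_option linter.unusedSectionVars false
set_option maxHeartbeats 400000

theorem whom_induction {n d : ℕ} {wt : Fin n → ℕ} {P : MvPolynomial (Fin n) ℂ → Prop} (h0 : P 0)
    (h1 : ∀ p q, P p → P q → P (p + q))
    (h2 : ∀ (m : Fin n →₀ ℕ) c, ∑ i, m i * wt i = d → P (C c * ∏ i, X i ^ m i))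
    {p : MvPolynomial (Fin n) ℂ} (hp : p.IsWeightedHomogeneous wt d) : P p := by
  rw [p.as_sum]
  refine Finset.sum_induction _ P h1 h0 fun m hm => ?_
  rw [monomial_eq, Finsupp.prod_fintype _ _ (by simp)]
  refine h2 m _ ?_
  rw [← hp (mem_support_iff.mp hm), Finsupp.weight_apply, Finsupp.sum_fintype _ _ (by simp)]
  rfl

theorem whom_prod {n k : ℕ} {wt : Fin n → ℕ} {wt' : Fin k → ℕ} {g : Fin n → MvPolynomial (Fin k) ℂ}
    (hg : ∀ i, (g i).IsWeightedHomogeneous wt' (wt i)) (m : Fin n → ℕ) (c : ℂ) :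
    (C c * ∏ i, g i ^ m i).IsWeightedHomogeneous wt' (∑ i, m i * wt i) := by
  simpa using (isWeightedHomogeneous_C wt' c).mul
    (IsWeightedHomogeneous.prod Finset.univ _ _ fun i _ => (hg i).pow (m i))

theorem whom_aeval {n k d : ℕ} {wt : Fin n → ℕ} {wt' : Fin k → ℕ}
    {g : Fin n → MvPolynomial (Fin k) ℂ} (hg : ∀ i, (g i).IsWeightedHomogeneous wt' (wt i))
    {p : MvPolynomial (Fin n) ℂ} (hp : p.IsWeightedHomogeneous wt d) :
    (aeval g p).IsWeightedHomogeneous wt' d := by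
  refine whom_induction (P := fun p => (aeval g p).IsWeightedHomogeneous wt' d) ?_ ?_ ?_ hp
  · simpa using isWeightedHomogeneous_zero ℂ wt' d
  · intro p q h1 h2; rw [map_add]; exact h1.add h2
  · rintro m c rfl
    simpa using whom_prod hg m c

theorem whom_split {n d : ℕ} {wt : Fin (n + 1) → ℕ} (hd : d < 2 * wt 0)
    {p : MvPolynomial (Fin (n + 1)) ℂ} (hp : p.IsWeightedHomogeneous wt d) :
    ∃ x y, p = rename Fin.succ x + rename Fin.succ y * X 0 ∧
      x.IsWeightedHomogeneous (fun i => wt i.succ) d ∧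
      y.IsWeightedHomogeneous (fun i => wt i.succ) (d - wt 0) ∧ (d < wt 0 → y = 0) := by
  refine whom_induction (P := fun p => ∃ x y, p = rename Fin.succ x + rename Fin.succ y * X 0 ∧
      x.IsWeightedHomogeneous (fun i => wt i.succ) d ∧
      y.IsWeightedHomogeneous (fun i => wt i.succ) (d - wt 0) ∧ (d < wt 0 → y = 0)) ?_ ?_ ?_ hp
  · exact ⟨0, 0, by simp, isWeightedHomogeneous_zero _ _ _, isWeightedHomogeneous_zero _ _ _,
      fun _ => rfl⟩
  · rintro _ _ ⟨x, y, rfl, a1, a2, a3⟩ ⟨x', y', rfl, b1, b2, b3⟩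
    exact ⟨x + x', y + y', by simp only [map_add]; ring, a1.add b1, a2.add b2,
      fun h => by rw [a3 h, b3 h, add_zero]⟩
  · intro m c hm
    rw [Fin.sum_univ_succ] at hm
    have h1 := whom_prod (fun i => isWeightedHomogeneous_X ℂ (fun i : Fin n => wt i.succ) i)
      (fun i => m i.succ) c
    obtain h | h : m 0 = 0 ∨ m 0 = 1 := by
      by_contra! h
      have : 2 * wt 0 ≤ m 0 * wt 0 := Nat.mul_le_mul_right _ (by omega)
      omega
    · refine ⟨C c * ∏ i : Fin n, X i ^ m i.succ, 0, by simp [Fin.prod_univ_succ, h], by convert h1; simp [← hm, h],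
        isWeightedHomogeneous_zero _ _ _, fun _ => rfl⟩
    · refine ⟨0, C c * ∏ i : Fin n, X i ^ m i.succ, by simp [Fin.prod_univ_succ, h]; ring,
        isWeightedHomogeneous_zero _ _ _,
        by convert h1; simp [← hm, h], fun h2 => ?_⟩
      rw [h] at hm; omega

theorem whom_zero {n : ℕ} {wt : Fin n → ℕ} (hw : ∀ i, wt i ≠ 0) {p : MvPolynomial (Fin n) ℂ}
    (hp : p.IsWeightedHomogeneous wt 0) : ∃ c, p = C c := by
  refine whom_induction (P := fun p => ∃ c, p = C c) ⟨0, by simp⟩ ?_ (fun m c h => ⟨c, ?_⟩) hp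
  · rintro _ _ ⟨c, rfl⟩ ⟨d, rfl⟩
    exact ⟨c + d, by simp⟩
  · rw [Finset.prod_eq_one, mul_one]
    intro i _
    rw [(mul_eq_zero.mp (Finset.sum_eq_zero_iff.mp h i (Finset.mem_univ i))).resolve_right (hw i),
      pow_zero]

theorem finSuccEquiv_rename_succ {n : ℕ} (p : MvPolynomial (Fin n) ℂ) :
    finSuccEquiv ℂ n (rename Fin.succ p) = Polynomial.C p := by
  induction p using MvPolynomial.induction_on with
  | C c => simp [finSuccEquiv_apply]
  | add p q hp hq => rw [map_add, map_add, hp, hq, map_add]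
  | mul_X p i hp => rw [map_mul, map_mul, hp, rename_X, finSuccEquiv_X_succ, map_mul]

namespace WHyp

variable {n : ℕ} (H : WHyp n)

theorem mk_surj : Function.Surjective H.mk' := Ideal.Quotient.mkₐ_surjective ℂ _

theorem mk_eq_zero {p : MvPolynomial (Fin n) ℂ} : H.mk' p = 0 ↔ H.eqn ∣ p :=
  Ideal.Quotient.eq_zero_iff_mem.trans Ideal.mem_span_singleton

theorem finiteType : Algebra.FiniteType ℂ H.Ring := .of_surjective H.mk' H.mk_surj

theorem mk_mem {d : ℕ} {p : MvPolynomial (Fin n) ℂ} (hp : p.IsWeightedHomogeneous H.wt d) :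
    H.mk' p ∈ H.piece d := ⟨p, hp, rfl⟩

theorem X_mem (i : Fin n) : H.mk' (X i) ∈ H.piece (H.wt i) :=
  H.mk_mem (isWeightedHomogeneous_X ℂ _ i)

theorem piece_zero (hw : ∀ i, H.wt i ≠ 0) : Function.Surjective (algebraMap ℂ (H.piece 0)) := by
  rintro ⟨_, p, hp, rfl⟩
  obtain ⟨c, rfl⟩ := whom_zero hw hp
  exact ⟨c, Subtype.ext (H.mk'.commutes c).symm⟩

theorem exists_equiv (H' : WHyp n) (hw : H'.wt = H.wt) (g g' : Fin n → MvPolynomial (Fin n) ℂ)
    (hg : ∀ i, (g i).IsWeightedHomogeneous H.wt (H.wt i))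
    (hg' : ∀ i, (g' i).IsWeightedHomogeneous H.wt (H.wt i)) (h1 : ∀ i, aeval g (g' i) = X i)
    (h2 : ∀ i, aeval g' (g i) = X i) {c : ℂ} (hc : c ≠ 0) (he : aeval g H.eqn = C c * H'.eqn) :
    ∃ e : H.Ring ≃ₐ[ℂ] H'.Ring, (∀ p, e (H.mk' p) = H'.mk' (aeval g p)) ∧
      (∀ d r, r ∈ H.piece d → e r ∈ H'.piece d) ∧ ∀ d r, r ∈ H'.piece d → e.symm r ∈ H.piece d := by
  let a : MvPolynomial (Fin n) ℂ ≃ₐ[ℂ] MvPolynomial (Fin n) ℂ := .ofAlgHom (aeval g) (aeval g')
    (algHom_ext fun i => by simpa using h1 i) (algHom_ext fun i => by simpa using h2 i)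
  let e : H.Ring ≃ₐ[ℂ] H'.Ring := Ideal.quotientEquivAlg _ _ a (by
    rw [Ideal.map_span, Set.image_singleton]
    exact Ideal.span_singleton_eq_span_singleton.mpr (he ▸ associated_unit_mul_right _ _
      ((Ne.isUnit hc).map C)))
  have h3 : ∀ p, e (H.mk' p) = H'.mk' (aeval g p) := fun p => rfl
  refine ⟨e, h3, ?_, ?_⟩
  · rintro d _ ⟨p, hp, rfl⟩
    exact H'.mk_mem (hw ▸ whom_aeval hg hp)
  · rintro d _ ⟨p, hp, rfl⟩
    have h4 : e.symm (H'.mk' p) = H.mk' (aeval g' p) := by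
      rw [AlgEquiv.symm_apply_eq, h3]
      exact congrArg H'.mk' (a.apply_symm_apply p).symm
    exact h4 ▸ H.mk_mem (whom_aeval hg' (hw ▸ hp))

/-- The map from the coordinate ring of the base of a double cover. -/
noncomputable def base (H : WHyp (n + 1)) : MvPolynomial (Fin n) ℂ →+* H.Ring :=
  (H.mk'.comp (rename Fin.succ) : MvPolynomial (Fin n) ℂ →ₐ[ℂ] H.Ring)

theorem base_apply (H : WHyp (n + 1)) (x : MvPolynomial (Fin n) ℂ) :
    H.base x = H.mk' (rename Fin.succ x) := rfl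

theorem quad (H : WHyp (n + 1)) {F : MvPolynomial (Fin n) ℂ}
    (hF : H.eqn = X 0 ^ 2 - rename Fin.succ F) : Quad H.base (H.mk' (X 0)) F := by
  have h1 : H.mk' (X 0) ^ 2 = H.base F := by
    rw [← sub_eq_zero, base_apply, ← map_pow, ← map_sub, ← hF, mk_eq_zero]
  refine ⟨h1, fun {x y} h => ?_, fun a => ?_⟩
  · rw [base_apply, base_apply, ← map_mul, ← map_add, mk_eq_zero, hF] at h
    have h2 := map_dvd (finSuccEquiv ℂ n) h
    simp only [map_sub, map_add, map_mul, map_pow, finSuccEquiv_X_zero,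
      finSuccEquiv_rename_succ] at h2
    have h3 := Polynomial.eq_zero_of_dvd_of_degree_lt h2 (by
      rw [Polynomial.degree_X_pow_sub_C two_pos, add_comm]; exact Polynomial.degree_linear_lt)
    exact ⟨by simpa using congrArg (Polynomial.coeff · 0) h3,
      by simpa using congrArg (Polynomial.coeff · 1) h3⟩
  · obtain ⟨p, rfl⟩ := H.mk_surj a
    induction p using MvPolynomial.induction_on with
    | C c => exact ⟨C c, 0, by simp [base_apply]⟩
    | add p q hp hq =>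
      obtain ⟨x, y, hp⟩ := hp
      obtain ⟨x', y', hq⟩ := hq
      exact ⟨x + x', y + y', by rw [map_add, hp, hq, map_add, map_add]; ring⟩
    | mul_X p i hp =>
      obtain ⟨x, y, hp⟩ := hp
      rw [map_mul, hp]
      refine Fin.cases ⟨y * F, x, ?_⟩ (fun i => ⟨x * X i, y * X i, ?_⟩) i
      · rw [map_mul, ← h1]; ring
      · rw [map_mul, map_mul, base_apply H (X i), rename_X]; ring

end WHyp

end Pool.Agent.Work.MP_475c1a_ag
end

-- merged part: Pool.Agent.Work.MP_475c1a_ag.Chart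
section
/-! The affine chart of a double cover. -/

namespace Pool.Agent.Work.MP_475c1a_ag

open Polynomial

set_option linter.unusedSectionVars false
set_option maxHeartbeats 400000

theorem Quad.of_equiv {B B' A : Type} [CommRing B] [CommRing B'] [CommRing A] {ι : B →+* A} {u : A}
    {F : B} (h : Quad ι u F) (e : B' ≃+* B) : Quad (ι.comp (e : B' →+* B)) u (e.symm F) :=
  ⟨by simpa using h.sq, fun h1 => by simpa using h.indep h1, fun a => by
    obtain ⟨x, y, rfl⟩ := h.surj a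
    exact ⟨e.symm x, e.symm y, by simp⟩⟩

theorem nonsq {B : Type} [CommRing B] [IsDomain B] [IsIntegrallyClosed B] {F : B}
    (h : ¬ IsSquare F) (x y : B) (e : x ^ 2 = y ^ 2 * F) : y = 0 := by
  by_contra hy
  obtain ⟨r, rfl⟩ := (IsIntegrallyClosed.pow_dvd_pow_iff two_ne_zero).mp ⟨F, e⟩
  exact h ⟨r, mul_left_cancel₀ (pow_ne_zero 2 hy) (by rw [← e]; ring)⟩

variable {R L B ι : Type} [CommRing R] [IsDomain R] [Algebra ℂ R] [Field L] [CommRing B]

/-- The affine chart is a double cover of the spectrum of `B`. -/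
structure Chart (𝒜 : ℕ → Submodule ℂ R) [GradedAlgebra 𝒜] (θ : R →+* L) (s : R) (P : ι → Ideal R)
    (v : ι → DV L) (inf : ι) (b : B →+* L) (u : L) (F : B) : Prop where
  hm : HModel 𝒜 θ s P v
  am : AModel θ.range.subtype v inf
  P_inf : P inf = Ideal.span {s}
  prime : (Ideal.span {s}).IsPrime
  ex_t : ∃ t ∈ 𝒜 1, ¬ s ∣ t
  quad : ∃ b' : B →+* θ.range, ∃ u', Quad b' u' F ∧ (∀ x, (b' x : L) = b x) ∧ (u' : L) = u
  krull : ∀ g, (∀ i ≠ inf, (v i).Ge 0 g) → ∃ r, θ r = g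

variable {𝒜 : ℕ → Submodule ℂ R} [GradedAlgebra 𝒜] {θ : R →+* L} {s : R} {P : ι → Ideal R}
  {v : ι → DV L} {inf : ι} {b : B →+* L} {u : L} {F : B}

theorem HModel.chart (H : HModel 𝒜 θ s P v) {B' : Type} [CommRing B'] {a : B' →+* R} {w : R}
    {F' σ : B'} (hq : Quad a w F') (hs : s = a σ) (hP : (Ideal.span {s}).IsPrime) {t : R}
    (ht : t ∈ 𝒜 1) (hts : ¬ s ∣ t) (δ : B' →+* B) (ε : B →+* B') (h1 : δ σ = 1)
    (h2 : ∀ x, δ (ε x) = x) (h3 : ∀ x, θ (a (ε (δ x))) = θ (a x)) [IsDomain B]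
    [UniqueFactorizationMonoid B] [IsNoetherianRing B] (h4 : IsUnit (2 : B))
    (h5 : Squarefree (δ F')) :
    ∃ inf, Chart 𝒜 θ s P v inf (θ.comp (a.comp ε)) (θ w) (δ F') := by
  obtain ⟨i, hi, hi'⟩ := H.exists_inf hP ht hts
  have ham := H.amodel (j := θ.range.subtype) Subtype.val_injective θ.rangeRestrict
    θ.rangeRestrict_surjective (fun _ => rfl) hi' (hi ▸ Ideal.mem_span_singleton_self s)
  have hq' : Quad (θ.rangeRestrict.comp (a.comp ε)) (θ.rangeRestrict w) (δ F') := by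
    refine ⟨Subtype.ext ?_, fun {x y} h => ?_, fun r => ?_⟩
    · change θ w ^ 2 = θ (a (ε (δ F')))
      rw [h3, ← hq.sq, map_pow]
    · have h6 : θ (a (ε x) + a (ε y) * w) = 0 := by
        rw [map_add, map_mul]; exact congrArg Subtype.val h
      have h7 := H.ker h6
      rw [hs, ← map_one a, ← map_sub, hq.dvd_iff] at h7
      exact ⟨by simpa [h1, h2] using map_dvd δ h7.1, by simpa [h1, h2] using map_dvd δ h7.2⟩
    · obtain ⟨r, rfl⟩ := θ.rangeRestrict_surjective r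
      obtain ⟨x, y, rfl⟩ := hq.surj r
      refine ⟨δ x, δ y, Subtype.ext ?_⟩
      change θ _ = θ (a (ε (δ x))) + θ (a (ε (δ y))) * θ w
      rw [h3, h3, map_add, map_mul]
  have := hq'.isNoetherianRing
  have := hq'.isIntegrallyClosed h4 h5
  refine ⟨i, H, ham, hi, hP, ⟨t, ht, hts⟩, ⟨_, _, hq', fun _ => rfl, rfl⟩, fun g hg => ?_⟩
  obtain ⟨⟨_, r, rfl⟩, h⟩ := ham.krull hg
  exact ⟨r, h⟩

namespace Chart

variable (H : Chart 𝒜 θ s P v inf b u F)

include H

theorem surj (r : R) : ∃ x y, θ r = b x + b y * u := by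
  obtain ⟨b', u', h, h1, rfl⟩ := H.quad
  obtain ⟨x, y, e⟩ := h.surj (θ.rangeRestrict r)
  exact ⟨x, y, by rw [← h1, ← h1]; exact congrArg Subtype.val e⟩

theorem quadF : QuadF b u F := by
  obtain ⟨b', u', h, h1, rfl⟩ := H.quad
  refine ⟨by rw [← h1, ← h.sq]; rfl, fun {x y} e => h.indep (Subtype.ext (by
    rw [← h1, ← h1] at e; exact e)), fun g => ?_⟩
  obtain ⟨p, q, hq, rfl⟩ := H.am.frac g
  obtain ⟨z, hz, c, hc⟩ := h.comap_ne_bot (Q := Ideal.span {q})
    (by simpa using hq) |>.imp fun _ h => h.imp id Ideal.mem_span_singleton.mp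
  obtain ⟨x, y, e⟩ := h.surj (p * c)
  have h2 : b' z ≠ 0 := (map_ne_zero_iff _ h.inj).mpr hz
  refine ⟨x, y, z, hz, ?_⟩
  rw [← h1, ← h1, ← h1, div_eq_div_iff (by simpa using hq) (by simpa using h2)]
  change ((p * b' z : θ.range) : L) = (((b' x + b' y * u') * q : θ.range) : L)
  rw [← e, hc, mul_assoc, mul_comm c]

theorem reg {i : ι} (hi : i ≠ inf) (r : R) : (v i).Ge 0 (θ r) :=
  H.am.reg i hi (θ.rangeRestrict r)

theorem reg_b {i : ι} (hi : i ≠ inf) (x : B) : (v i).Ge 0 (b x) := by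
  obtain ⟨b', u', -, h1, -⟩ := H.quad
  rw [← h1]; exact H.am.reg i hi _

theorem v_inf {d : ℕ} {r : R} (hr : r ∈ 𝒜 d) (h : ¬ s ∣ r) : (v inf).v (θ r) = -d := by
  obtain ⟨t, ht, hts⟩ := H.ex_t
  exact H.hm.v_inf H.prime ht hts H.P_inf hr h

theorem ge_inf {d : ℕ} {r : R} (hr : r ∈ 𝒜 d) : (v inf).Ge (-d) (θ r) := by
  obtain ⟨t, ht, hts⟩ := H.ex_t
  exact H.hm.ge_inf H.prime ht hts H.P_inf hr

theorem sections {n : ℕ} {g : L} (h1 : ∀ i ≠ inf, (v i).Ge 0 g) (h2 : (v inf).Ge (-n) g) :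
    ∃ p ∈ 𝒜 n, θ p = g := by
  obtain ⟨t, ht, hts⟩ := H.ex_t
  obtain ⟨r, rfl⟩ := H.krull g h1
  exact H.hm.exists_of_ge_inf H.prime ht hts H.P_inf h2

theorem v_inf_eq_zero {g : L} (h : ∀ i ≠ inf, (v i).v g = 0) : (v inf).v g = 0 := by
  have key : ∀ g, (∀ i ≠ inf, (v i).v g = 0) → 0 ≤ (v inf).v g → (v inf).v g = 0 := fun g h h0 => by
    obtain ⟨p, hp, rfl⟩ := H.sections (n := 0) (fun i hi => Or.inr (h i hi).ge) (Or.inr h0)
    by_cases h1 : p = 0
    · simp [h1]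
    refine H.v_inf hp fun h2 => ?_
    obtain ⟨e, he, -⟩ := H.hm.div_s hp h1 h2
    omega
  rcases le_total 0 ((v inf).v g) with h0 | h0
  · exact key g h h0
  · simpa using key g⁻¹ (by simpa using h) (by simpa using h0)

theorem v_prime {i : ι} (hi : i ≠ inf) {p : B} (hp : Prime p)
    (hF : ∀ x y, p ∣ x ^ 2 - y ^ 2 * F → p ∣ y) (h : (v i).Ge 1 (b p)) :
    (v i).v (b p) = 1 ∧ ∀ k ≠ inf, k ≠ i → (v k).v (b p) = 0 := by
  obtain ⟨b', u', hq, h1, -⟩ := H.quad
  rw [← h1] at h ⊢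
  exact H.am.v_prime hi (hq.isPrime ((Ideal.span_singleton_prime hp.ne_zero).mpr hp) hF)
    ((map_ne_zero_iff _ hq.inj).mpr hp.ne_zero) h

theorem v_root {i : ι} (hi : i ≠ inf) (hF : Prime F) (h : (v i).Ge 1 u) :
    ∀ k ≠ inf, k ≠ i → (v k).v u = 0 := by
  have h0 := H.quadF.u_ne
  obtain ⟨b', u', hq, h1, rfl⟩ := H.quad
  exact (H.am.v_prime hi (hq.isPrime_root hF) (by simpa using h0) h).2

theorem dvd_of_cen {i : ι} (hi : i ≠ inf) {p q : B} (hp : Prime p) (h1 : (v i).Ge 1 (b p))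
    (h2 : (v i).Ge 1 (b q)) : p ∣ q := by
  obtain ⟨b', u', hq, h3, -⟩ := H.quad
  rw [← h3] at h1 h2
  exact H.am.dvd_of_cen hq hi hp h1 h2

theorem exists_over {M Q : Type} [Field M] [CommRing Q] [IsDomain Q] (e : Q[X] ≃+* B) {w : DV M}
    {k : L →+* M} (h0 : ∀ x, w.Ge 0 (k (b x))) (h1 : ∃ g, w.v (k g) ≠ 0)
    (h2 : ∀ c, w.Ge 1 (k (b (e (C c)))) → c = 0) : ∃ i ≠ inf, ∃ n, w.Over k (v i) n := by
  have h3 : w.Ge 0 (k u) := DV.comap_ge.mp (H.quadF.ge_u fun x => DV.comap_ge.mpr (h0 x))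
  obtain ⟨b', u', hq, h4, rfl⟩ := H.quad
  have h5 : ∀ a, w.Ge 0 (k (θ.range.subtype a)) := fun a => by
    obtain ⟨x, y, rfl⟩ := hq.surj a
    change w.Ge 0 (k (b' x + b' y * u'))
    rw [h4, h4, map_add, map_mul]
    exact (h0 x).add ((h0 y).mul0 h3)
  refine H.am.exists_over h5 h1 fun i hi h6 a ha => ?_
  have h7 := (hq.of_equiv e).dim_one (Q := w.cen (k.comp θ.range.subtype) h5)
    (DV.cen_isPrime _ (H.am.reg i hi)) (H.am.cen_ne_bot hi) h6 fun c hc => h2 c (h4 _ ▸ hc)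
  exact (DV.mem_cen (h := H.am.reg i hi)).mp (h7 ▸ ha)

theorem exists_point {K Q : Type} [CommRing K] [IsDomain K] [CommRing Q] [IsDomain Q]
    (e : Q[X] ≃+* B) (ψ : B →+* K) {c : K} (hc : c ^ 2 = ψ F) (h1 : ∃ x ≠ 0, ψ x = 0)
    (h2 : ∀ q, ψ (e (C q)) = 0 → q = 0) :
    ∃ i ≠ inf, ∀ x y, (v i).Ge 1 (b x + b y * u) ↔ ψ x + ψ y * c = 0 := by
  obtain ⟨b', u', hq, h4, rfl⟩ := H.quad
  obtain ⟨χ, c1, c2⟩ := hq.lift ψ hc
  obtain ⟨x, hx, h3⟩ := h1
  obtain ⟨i, hi, h5⟩ := H.am.ex (RingHom.ker χ) (RingHom.ker_isPrime χ) fun h =>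
    hx (hq.inj (by rw [map_zero, ← Ideal.mem_bot, ← h, RingHom.mem_ker, c1, h3]))
  have h7 := (hq.of_equiv e).dim_one (Q := RingHom.ker χ) (DV.cen_isPrime _ (H.am.reg i hi))
    (H.am.cen_ne_bot hi) h5 fun q hq => h2 q (c1 _ ▸ hq)
  refine ⟨i, hi, fun x y => ?_⟩
  rw [← c1, ← c1, ← c2, ← map_mul, ← map_add, ← RingHom.mem_ker, ← h7, ← h4, ← h4]
  rfl

theorem over_of_cen {M : Type} [Field M] {w : DV M} {k : L →+* M} {i : ι} (hi : i ≠ inf)
    (h0 : ∀ x, w.Ge 0 (k (b x)))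
    (h1 : ∀ x y, w.Ge 1 (k (b x + b y * u)) ↔ (v i).Ge 1 (b x + b y * u)) :
    ∃ n, w.Over k (v i) n := by
  have h3 : w.Ge 0 (k u) := DV.comap_ge.mp (H.quadF.ge_u fun x => DV.comap_ge.mpr (h0 x))
  refine H.am.over_of_cen hi ?_ ?_ <;> rintro ⟨_, r, rfl⟩ <;> obtain ⟨x, y, e⟩ := H.surj r
  · change w.Ge 0 (k (θ r))
    rw [e, map_add, map_mul]
    exact (h0 x).add ((h0 y).mul0 h3)
  · change w.Ge 1 (k (θ r)) ↔ (v i).Ge 1 (θ r)
    rw [e, h1]

theorem loc (i : ι) {g : L} (hg : (v i).Ge 0 g) :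
    ∃ d p q, p ∈ 𝒜 d ∧ q ∈ 𝒜 d ∧ q ∉ P i ∧ g = θ p / θ q := (H.hm.ge_iff i g).mp hg

theorem hom_ext {M : Type} [Field M] {k k' : L →+* M} (h : ∀ r, k (θ r) = k' (θ r)) (g : L) :
    k g = k' g := by
  obtain ⟨d, p, q, -, -, -, rfl⟩ := H.hm.frac g
  rw [map_div₀, map_div₀, h, h]

end Chart

end Pool.Agent.Work.MP_475c1a_ag
end

-- merged part: Pool.Agent.Work.MP_475c1a_ag.QEasy
section
/-! A smooth plane quartic is irreducible; generic points. -/

namespace Pool.Agent.Work.MP_475c1a_ag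

open MvPolynomial Matrix

variable {f : MvPolynomial (Fin 3) ℂ}

theorem smooth_ext (hs : IsSmoothForm f) {A : Type} [CommRing A] [IsDomain A] [Algebra ℂ A]
    {x : Fin 3 → A} (h : ∀ i, aeval x (pderiv i f) = 0) : x = 0 := by
  funext j
  have h1 : (X j : MvPolynomial (Fin 3) ℂ) ∈
      (Ideal.span (Set.range fun i => pderiv i f)).radical := by
    rw [← vanishingIdeal_zeroLocus_eq_radical (K := ℂ), mem_vanishingIdeal_iff]
    intro y hy
    by_contra hcon
    obtain ⟨i, hi⟩ := hs y (by rintro rfl; simp at hcon)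
    exact hi (hy _ (Ideal.subset_span ⟨i, rfl⟩))
  obtain ⟨n, hn⟩ := h1
  have h2 : Ideal.span (Set.range fun i => pderiv i f) ≤
      RingHom.ker (aeval x : MvPolynomial (Fin 3) ℂ →ₐ[ℂ] A) := by
    rw [Ideal.span_le]
    rintro _ ⟨i, rfl⟩
    exact h i
  have h3 := h2 hn
  rw [RingHom.mem_ker, map_pow, aeval_X] at h3
  exact eq_zero_of_pow_eq_zero h3

theorem euler {A : Type} [CommRing A] [Algebra ℂ A] {p : MvPolynomial (Fin 3) ℂ} {d : ℕ}
    (hp : p.IsHomogeneous d) (x : Fin 3 → A) :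
    x 0 * aeval x (pderiv 0 p) + x 1 * aeval x (pderiv 1 p) + x 2 * aeval x (pderiv 2 p) =
      d * aeval x p := by
  have h := congrArg (aeval x) hp.sum_X_mul_pderiv
  simpa [Fin.sum_univ_three] using h

theorem exists_generic_ideal {σ : Type} (P : Ideal (MvPolynomial σ ℂ)) [P.IsPrime] :
    ∃ (K : Type) (_ : Field K) (_ : IsAlgClosed K) (_ : Algebra ℂ K) (ξ : σ → K),
      ∀ G, aeval ξ G = 0 ↔ G ∈ P := by
  let Q := MvPolynomial σ ℂ ⧸ P
  let K := AlgebraicClosure (FractionRing Q)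
  let φ : MvPolynomial σ ℂ →+* K := (algebraMap (FractionRing Q) K).comp
    ((algebraMap Q (FractionRing Q)).comp (Ideal.Quotient.mk P))
  let _ : Algebra ℂ K := (φ.comp C).toAlgebra
  refine ⟨K, inferInstance, inferInstance, inferInstance, fun i => φ (X i), fun G => ?_⟩
  have h : aeval (fun i => φ (X i)) G = φ G := by
    rw [aeval_def, map_mvPolynomial_eq_eval₂' φ G]
    rfl
  rw [h, ← Ideal.Quotient.eq_zero_iff_mem]
  simp [φ]
where
  map_mvPolynomial_eq_eval₂' {K : Type} [Field K] (φ : MvPolynomial σ ℂ →+* K)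
      (G : MvPolynomial σ ℂ) : φ G = eval₂ (φ.comp C) (fun i => φ (X i)) G := by
    induction G using MvPolynomial.induction_on <;> simp_all

theorem exists_generic {σ : Type} {π : MvPolynomial σ ℂ} (hπ : Prime π) :
    ∃ (K : Type) (_ : Field K) (_ : IsAlgClosed K) (_ : Algebra ℂ K) (ξ : σ → K),
      ∀ G, aeval ξ G = 0 ↔ π ∣ G := by
  have := (Ideal.span_singleton_prime hπ.ne_zero).2 hπ
  obtain ⟨K, h1, h2, h3, ξ, h⟩ := exists_generic_ideal (Ideal.span {π})
  exact ⟨K, h1, h2, h3, ξ, fun G => (h G).trans Ideal.mem_span_singleton⟩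

theorem aeval_congr_of_hom {σ A B : Type} [CommRing A] [Algebra ℂ A] [CommRing B] [Algebra ℂ B]
    (φ : A →ₐ[ℂ] B) (u : σ → A) (p : MvPolynomial σ ℂ) :
    φ (aeval u p) = aeval (fun i => φ (u i)) p := by
  rw [← AlgHom.comp_apply, comp_aeval]

theorem height_of_X_mem {P : Ideal (MvPolynomial (Fin 3) ℂ)} [P.IsPrime]
    (h : ∀ j, X j ∈ P) : 3 ≤ P.height := by
  let R := MvPolynomial (Fin 3) ℂ
  let P1 : Ideal R := RingHom.ker (aeval ![0, X 1, X 2] : R →ₐ[ℂ] R)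
  let P2 : Ideal R := RingHom.ker (aeval ![0, 0, X 2] : R →ₐ[ℂ] R)
  have : P1.IsPrime := RingHom.ker_isPrime _
  have : P2.IsPrime := RingHom.ker_isPrime _
  have h1 : ⊥ < P1 := by
    refine bot_lt_iff_ne_bot.2 fun h0 => X_ne_zero (R := ℂ) (0 : Fin 3) ?_
    rw [← Ideal.mem_bot, ← h0]
    simp [P1]
  have h2 : P1 < P2 := by
    refine lt_of_le_of_ne (fun p hp => ?_) fun h0 => ?_
    · have h3 := congrArg (aeval ![0, 0, X 2] : R →ₐ[ℂ] R) (RingHom.mem_ker.1 hp)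
      rw [aeval_congr_of_hom, map_zero] at h3
      refine RingHom.mem_ker.2 (Eq.trans ?_ h3)
      congr 2
      funext i
      fin_cases i <;> simp
    · have h3 : X 1 ∈ P2 := by simp [P2]
      rw [← h0] at h3
      simp [P1, R] at h3
  have h3 : P2 < P := by
    refine lt_of_le_of_ne (fun p hp => ?_) fun h0 => ?_
    · have h3 := congrArg (Ideal.Quotient.mkₐ ℂ P) (RingHom.mem_ker.1 hp)
      rw [aeval_congr_of_hom, map_zero] at h3
      rw [← Ideal.Quotient.eq_zero_iff_mem, ← Ideal.Quotient.mkₐ_eq_mk ℂ, ← h3]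
      conv_lhs => rw [← aeval_X_left_apply p, aeval_congr_of_hom]
      congr 2
      funext i
      fin_cases i <;> simp [Ideal.Quotient.eq_zero_iff_mem, h]
    · have h3 := h 2
      rw [← h0] at h3
      simp [P2, R] at h3
  have h4 := Ideal.height_add_one_le_of_lt_of_isPrime h1
  have h5 := Ideal.height_add_one_le_of_lt_of_isPrime h2
  have h6 := Ideal.height_add_one_le_of_lt_of_isPrime h3
  rw [Ideal.height_bot] at h4
  calc (3 : ℕ∞) = 0 + 1 + 1 + 1 := by norm_num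
    _ ≤ P.height := by
      refine le_trans ?_ h6
      gcongr
      refine le_trans ?_ h5
      gcongr

theorem res_zero_hom {A : Type} [CommRing A] [Algebra ℂ A] {p : MvPolynomial (Fin 3) ℂ} {d : ℕ}
    (hp : p.IsHomogeneous d) (z : Fin 3 → A) :
    res p 0 z = Polynomial.C (aeval z p) * Polynomial.X ^ d := by
  have h := aeval_congr_of_hom (Polynomial.CAlgHom : A →ₐ[ℂ] Polynomial A) z p
  rw [res_eq, show Polynomial.C ∘ (0 : Fin 3 → A) = 0 from funext fun i => by simp, zero_add,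
    aeval_smul_hom hp, mul_comm]
  congr 1
  exact h.symm

theorem isUnit_of_factor {d : ℕ} (hf : f.IsHomogeneous d) (h0 : f ≠ 0)
    {g h : MvPolynomial (Fin 3) ℂ} (hgh : f = g * h) (hg : eval 0 g ≠ 0) : IsUnit g := by
  let R := MvPolynomial (Fin 3) ℂ
  have h1 : res g 0 (X : Fin 3 → R) * res h 0 X = Polynomial.C f * Polynomial.X ^ d := by
    have := res_zero_hom hf (X : Fin 3 → R)
    rw [aeval_X_left_apply] at this
    rw [← this, hgh, res, res, res, map_mul]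
  have h2 : (res g 0 (X : Fin 3 → R)).coeff 0 = C (eval 0 g) := by
    rw [res_coeff_zero, aeval_zero]
    simp
  have h3 : Polynomial.X ^ d ∣ res h 0 (X : Fin 3 → R) := by
    refine Polynomial.prime_X.pow_dvd_of_dvd_mul_left d ?_ ⟨_, h1.trans (mul_comm _ _)⟩
    rw [Polynomial.X_dvd_iff, h2]
    simpa using hg
  obtain ⟨H, hH⟩ := h3
  rw [hH, ← mul_assoc, mul_right_comm] at h1
  have h4 := mul_right_cancel₀ (pow_ne_zero d Polynomial.X_ne_zero) h1
  have h5 : (res g 0 (X : Fin 3 → R)).natDegree = 0 :=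
    Polynomial.natDegree_eq_zero_of_dvd_C' h4 h0
  have h6 := res_eval (f := g) (0 : Fin 3 → R) X 1
  rw [Polynomial.eq_C_of_natDegree_eq_zero h5, h2, Polynomial.eval_C, zero_add, one_smul,
    aeval_X_left_apply] at h6
  rw [← h6]
  exact (IsUnit.mk0 _ hg).map C
where
  Polynomial.natDegree_eq_zero_of_dvd_C' {R : Type} [CommRing R] [IsDomain R]
      {p q : Polynomial R} {a : R} (h : p * q = Polynomial.C a) (ha : a ≠ 0) :
      p.natDegree = 0 := by
    have h1 := Polynomial.natDegree_le_of_dvd ⟨q, h.symm⟩ (Polynomial.C_ne_zero.2 ha)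
    simpa using h1

theorem ne_zero_of_smooth (hs : IsSmoothForm f) : f ≠ 0 := by
  rintro rfl
  obtain ⟨i, hi⟩ := hs 1 one_ne_zero
  simp at hi

theorem prime_form (hf : f.IsHomogeneous 4) (hs : IsSmoothForm f) : Prime f := by
  classical
  have h0 := ne_zero_of_smooth hs
  refine Irreducible.prime ⟨fun hu => ?_, fun g h hgh => ?_⟩
  · have h1 := hu.map (aeval (0 : Fin 3 → ℂ))
    have h2 := aeval_smul_hom hf (0 : ℂ) (0 : Fin 3 → ℂ)
    rw [smul_zero, zero_pow (by norm_num), zero_mul] at h2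
    exact h1.ne_zero h2
  by_contra hcon
  push Not at hcon
  have hg : eval 0 g = 0 := by
    by_contra hg
    exact hcon.1 (isUnit_of_factor hf h0 hgh hg)
  have hh : eval 0 h = 0 := by
    by_contra hh
    exact hcon.2 (isUnit_of_factor hf h0 (hgh.trans (mul_comm _ _)) hh)
  have h1 : Ideal.span (({g, h} : Finset (MvPolynomial (Fin 3) ℂ)) : Set _) ≤
      RingHom.ker (eval (0 : Fin 3 → ℂ)) := by
    rw [Ideal.span_le]
    intro p hp
    simp only [Finset.coe_insert, Finset.coe_singleton, Set.mem_insert_iff,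
      Set.mem_singleton_iff] at hp
    rcases hp with rfl | rfl <;> assumption
  have := RingHom.ker_isPrime (eval (0 : Fin 3 → ℂ))
  obtain ⟨P, hP, -⟩ := Ideal.exists_minimalPrimes_le h1
  have hP2 := Ideal.height_le_card_of_mem_minimalPrimes_span_finset hP
  have := hP.1.1
  have hgP : g ∈ P := hP.1.2 (Ideal.subset_span (by simp))
  have hhP : h ∈ P := hP.1.2 (Ideal.subset_span (by simp))
  obtain ⟨K, _, _, _, ξ, hξ⟩ := exists_generic_ideal P
  have h2 : ξ = 0 := smooth_ext hs fun i => by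
    rw [hgh, Derivation.leibniz]
    simp [(hξ g).2 hgP, (hξ h).2 hhP]
  have h3 := height_of_X_mem (P := P) fun j => (hξ _).1 (by simp [h2])
  have h4 : (({g, h} : Finset _).card : ℕ∞) ≤ 2 := by exact_mod_cast Finset.card_le_two
  exact absurd (h3.trans (hP2.trans h4)) (by norm_num)

theorem squarefree_form (hf : f.IsHomogeneous 4) (hs : IsSmoothForm f) : Squarefree f :=
  (prime_form hf hs).squarefree

theorem pderiv_aff (f : MvPolynomial (Fin 3) ℂ) :
    pderiv 0 (aff f) = aff (pderiv 1 f) ∧ pderiv 1 (aff f) = aff (pderiv 2 f) := by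
  constructor <;> rw [aff, chain_rule] <;> simp [Fin.sum_univ_three, aff]

theorem aff_smooth (hf : f.IsHomogeneous 4) (hs : IsSmoothForm f) {p : MvPolynomial (Fin 2) ℂ}
    (h0 : p ∣ aff f) (h1 : p ∣ pderiv 0 (aff f)) (h2 : p ∣ pderiv 1 (aff f)) : IsUnit p := by
  by_contra hp
  obtain ⟨P, hP, hpP⟩ := Ideal.exists_le_maximal (Ideal.span {p})
    (by rwa [Ne, Ideal.span_singleton_eq_top])
  obtain ⟨K, _, _, _, ξ, hξ⟩ := exists_generic_ideal P
  have key : ∀ G, p ∣ aff G → aeval ![1, ξ 0, ξ 1] G = 0 := fun G hG => by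
    have h3 := (hξ _).2 (hpP (Ideal.mem_span_singleton.2 hG))
    rw [aff, aeval_congr_of_hom] at h3
    rw [← h3]
    congr 2
    funext i
    fin_cases i <;> simp
  rw [(pderiv_aff f).1] at h1
  rw [(pderiv_aff f).2] at h2
  have h3 := euler hf ![1, ξ 0, ξ 1]
  rw [key _ h0, key _ h1, key _ h2] at h3
  have h4 : ![1, ξ 0, ξ 1] = 0 := smooth_ext hs fun i => by
    fin_cases i
    exacts [by simpa using h3, key _ h1, key _ h2]
  simpa using congrFun h4 0

theorem exists_homog {σ : Type} (j : σ) (g : MvPolynomial σ ℂ) :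
    ∃ (n : ℕ) (G : MvPolynomial σ ℂ), G.IsHomogeneous n ∧ X j - 1 ∣ G - g := by
  induction g using MvPolynomial.induction_on with
  | C r => exact ⟨0, C r, isHomogeneous_C _ _, by simp⟩
  | add p q hp hq =>
    obtain ⟨m, P, hP, hp⟩ := hp
    obtain ⟨n, Q, hQ, hq⟩ := hq
    refine ⟨m + n, P * X j ^ n + X j ^ m * Q,
      (hP.mul (isHomogeneous_X_pow j n)).add ((isHomogeneous_X_pow j m).mul hQ), ?_⟩
    have h1 := sub_dvd_pow_sub_pow (X j : MvPolynomial σ ℂ) 1 n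
    have h2 := sub_dvd_pow_sub_pow (X j : MvPolynomial σ ℂ) 1 m
    have h3 := ((hp.add hq).add (h1.mul_left P)).add (h2.mul_right Q)
    convert h3 using 1
    ring
  | mul_X p i hp =>
    obtain ⟨m, P, hP, hp⟩ := hp
    exact ⟨m + 1, P * X i, hP.mul (isHomogeneous_X _ _), by
      simpa [sub_mul] using hp.mul_right (X i)⟩

theorem eq_zero_of_dvd_of_lt {σ : Type} {p G : MvPolynomial σ ℂ} {d n : ℕ} (hp : p.IsHomogeneous d)
    (h0 : p ≠ 0) (hG : G.IsHomogeneous n) (hn : n < d) (h : p ∣ G) : G = 0 := by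
  by_contra hG0
  have h1 := totalDegree_le_of_dvd_of_isDomain h hG0
  rw [hp.totalDegree h0, hG.totalDegree hG0] at h1
  omega

theorem aff_prime (hf : f.IsHomogeneous 4) (hs : IsSmoothForm f) : Prime (aff f) := by
  obtain ⟨K, _, _, _, ξ, hξ⟩ := exists_generic (prime_form hf hs)
  have h0 : ξ 0 ≠ 0 := fun h => X_ne_zero (R := ℂ) (0 : Fin 3)
    (eq_zero_of_dvd_of_lt hf (ne_zero_of_smooth hs) (isHomogeneous_X _ _) (by norm_num)
      ((hξ _).1 (by simpa using h)))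
  let η : Fin 2 → K := ![ξ 1 / ξ 0, ξ 2 / ξ 0]
  have key : ∀ {G : MvPolynomial (Fin 3) ℂ} {n : ℕ}, G.IsHomogeneous n →
      (aeval η (aff G) = 0 ↔ f ∣ G) := fun {G n} hG => by
    have h1 : aeval η (aff G) = aeval ((ξ 0)⁻¹ • ξ) G := by
      rw [aff, aeval_congr_of_hom]
      congr 2
      funext i
      fin_cases i <;> simp [η, h0, div_eq_inv_mul]
    rw [h1, aeval_smul_hom hG, ← hξ]
    simp [h0]
  have h1 : ∀ g, aeval η g = 0 ↔ aff f ∣ g := fun g => by
    refine ⟨fun hg => ?_, ?_⟩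
    · obtain ⟨n, G, hG, H, hH⟩ := exists_homog (0 : Fin 3) (rename Fin.succ g)
      have h2 : aff G = g := by
        have h3 := congrArg (aeval (![1, X 0, X 1] : Fin 3 → MvPolynomial (Fin 2) ℂ)) hH
        rw [map_sub, map_mul, aeval_rename] at h3
        have h4 : (![1, X 0, X 1] : Fin 3 → MvPolynomial (Fin 2) ℂ) ∘ Fin.succ = X := by
          funext i
          fin_cases i <;> rfl
        rw [h4, aeval_X_left_apply] at h3
        simpa [sub_eq_zero, aff] using h3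
      rw [← h2] at hg ⊢
      exact map_dvd (aeval _) ((key hG).1 hg)
    · rintro ⟨q, rfl⟩
      rw [map_mul, (key hf).2 dvd_rfl, zero_mul]
  refine ⟨fun h => ?_, fun h => ?_, fun a b h => ?_⟩
  · exact not_isUnit_zero (aff_smooth hf hs (p := 0) (by simp [h]) (by simp [h]) (by simp [h]))
  · exact (h.map (aeval η)).ne_zero ((h1 _).2 dvd_rfl)
  · simpa only [← h1, map_mul, mul_eq_zero] using h

end Pool.Agent.Work.MP_475c1a_ag
end

-- merged part: Pool.Agent.Work.MP_475c1a_ag.Cubic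
section
/-! The Weierstrass cubic, and the normal forms of the two varieties. -/

namespace Pool.Agent.Work.MP_475c1a_ag

set_option linter.unusedSectionVars false
set_option maxHeartbeats 400000

section Cubic

open Polynomial

variable {Q : Type} [CommRing Q]

/-- The Weierstrass cubic. -/
noncomputable def cub (a b : Q) : Q[X] := X ^ 3 - C (27 * a) * X - C (27 * b)

theorem cub_monic (a b : Q) : (cub a b).Monic := by
  rw [cub, sub_sub]
  exact monic_X_pow_sub (degree_linear_le.trans_lt (by decide))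

theorem cub_natDegree [Nontrivial Q] (a b : Q) : (cub a b).natDegree = 3 := by
  rw [cub, sub_sub, natDegree_sub_eq_left_of_natDegree_lt, natDegree_X_pow]
  rw [natDegree_X_pow]
  exact natDegree_linear_le.trans_lt (by decide)

theorem cub_map {Q' : Type} [CommRing Q'] (f : Q →+* Q') (a b : Q) :
    (cub a b).map f = cub (f a) (f b) := by simp [cub, map_ofNat]

theorem odd_zero [IsDomain Q] {F x y : Q[X]} (hF : F.natDegree = 3) (e : x ^ 2 = y ^ 2 * F) :
    y = 0 := by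
  by_contra hy
  have h0 : F ≠ 0 := by rintro rfl; simp at hF
  have := congrArg natDegree e
  rw [natDegree_mul (pow_ne_zero 2 hy) h0, natDegree_pow, natDegree_pow] at this
  omega

theorem cub_odd {p : Q} (hp : Prime p) (a b : Q) (x y : Q[X]) (h : C p ∣ x ^ 2 - y ^ 2 * cub a b) :
    C p ∣ y := by
  have := (Ideal.span_singleton_prime hp.ne_zero).mpr hp
  have key : ∀ z : Q[X], C p ∣ z ↔ z.map (Ideal.Quotient.mk (Ideal.span {p})) = 0 := fun z => by
    simp only [C_dvd_iff_dvd_coeff, Polynomial.ext_iff, coeff_map, coeff_zero,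
      Ideal.Quotient.eq_zero_iff_mem, Ideal.mem_span_singleton]
  rw [key] at h ⊢
  rw [Polynomial.map_sub, Polynomial.map_mul, Polynomial.map_pow, Polynomial.map_pow, cub_map,
    sub_eq_zero] at h
  exact odd_zero (cub_natDegree _ _) h

theorem cub_disc (a b : Q) : ∃ x y, x * cub a b + y * derivative (cub a b) =
    C (3 ^ 9 * (4 * a ^ 3 - b ^ 2)) := by
  refine ⟨C (3 ^ 6 * b) - C (2 * 3 ^ 5 * a) * X,
    C (2 * 3 ^ 4 * a) * X ^ 2 - C (3 ^ 5 * b) * X - C (4 * 3 ^ 6 * a ^ 2), ?_⟩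
  simp only [cub, derivative_X_pow, derivative_C, derivative_mul, derivative_X,
    map_mul, map_pow, map_sub, map_ofNat, map_natCast, derivative_ofNat]
  ring

theorem isUnit_of_dvd_cub [IsDomain Q] [CharZero Q] {a b : Q} (h : 4 * a ^ 3 - b ^ 2 ≠ 0) {p : Q[X]}
    (h1 : p ∣ cub a b) (h2 : p ∣ derivative (cub a b)) : IsUnit p := by
  obtain ⟨x, y, e⟩ := cub_disc a b
  have h3 := natDegree_le_of_dvd (e ▸ (h1.mul_left x).add (h2.mul_left y))
    (C_ne_zero.mpr (mul_ne_zero (by norm_num) h))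
  rw [natDegree_C, Nat.le_zero] at h3
  rw [eq_C_of_natDegree_eq_zero h3] at h1 ⊢
  have h4 := (C_dvd_iff_dvd_coeff _ _).mp h1 (cub a b).natDegree
  rw [coeff_natDegree, (cub_monic a b).leadingCoeff] at h4
  exact (isUnit_of_dvd_one h4).map C

theorem cub_squarefree [IsDomain Q] [CharZero Q] {a b : Q} (h : 4 * a ^ 3 - b ^ 2 ≠ 0) :
    Squarefree (cub a b) := by
  rintro p ⟨q, e⟩
  refine isUnit_of_dvd_cub h ⟨p * q, by rw [e, mul_assoc]⟩ ?_
  rw [e]
  exact ⟨2 * derivative p * q + p * derivative q, by simp only [derivative_mul]; ring⟩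

end Cubic

open MvPolynomial

/-- The del Pezzo surface as a weighted hypersurface. -/
noncomputable def dp {f : MvPolynomial (Fin 3) ℂ} (hf : f.IsHomogeneous 4) : WHyp 4 :=
  ⟨![2, 1, 1, 1], 4, X 0 ^ 2 - rename Fin.succ f, hom_delPezzo hf⟩

/-- The Weierstrass cubic in four variables. -/
noncomputable def cub4 (I J : MvPolynomial (Fin 3) ℂ) : MvPolynomial (Fin 4) ℂ :=
  X 0 ^ 3 - 27 * rename Fin.succ I * X 0 - 27 * rename Fin.succ J

theorem hom_vc {I J : MvPolynomial (Fin 3) ℂ} (hI : I.IsHomogeneous 4) (hJ : J.IsHomogeneous 6) :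
    (X 0 ^ 2 - rename Fin.succ (cub4 I J)).IsWeightedHomogeneous ![3, 2, 1, 1, 1] 6 := by
  have h : ∀ j : Fin 3, (![3, 2, 1, 1, 1] : Fin 5 → ℕ) ((Fin.succ ∘ Fin.succ) j) = 1 := fun j => by
    fin_cases j <;> rfl
  simp only [cub4, map_sub, map_mul, map_pow, rename_rename, rename_X, map_ofNat, mul_assoc]
  exact (hom_X_pow _ 0 2).sub (((hom_X_pow _ 1 3).sub (((hom_rename _ h hI).mul
    (isWeightedHomogeneous_X ℂ _ 1)).C_mul 27)).sub ((hom_rename _ h hJ).C_mul 27))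

/-- The Weierstrass model as a weighted hypersurface. -/
noncomputable def vc {I J : MvPolynomial (Fin 3) ℂ} (hI : I.IsHomogeneous 4)
    (hJ : J.IsHomogeneous 6) : WHyp 5 :=
  ⟨![3, 2, 1, 1, 1], 6, X 0 ^ 2 - rename Fin.succ (cub4 I J), hom_vc hI hJ⟩

/-- The affine form of a contravariant: its value at the line `x2 = α x1 + β x0`. -/
noncomputable def dual : MvPolynomial (Fin 3) ℂ →ₐ[ℂ] MvPolynomial (Fin 2) ℂ :=
  aeval ![-X 1, -X 0, 1]

/-- The quartic on the line at infinity. -/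
noncomputable def inf4 (f : MvPolynomial (Fin 3) ℂ) : Polynomial ℂ :=
  res (A := ℂ) f ![0, 1, 0] ![0, 0, 1]

theorem inf4_eq (f : MvPolynomial (Fin 3) ℂ) : inf4 f = aeval ![0, 1, Polynomial.X] f := by
  rw [inf4, res]
  congr 2
  funext i
  fin_cases i <;> simp

theorem not_isSquare_inf4 {f : MvPolynomial (Fin 3) ℂ} (h1 : (inf4 f).natDegree = 4)
    (h2 : (inf4 f).Separable) {A : Type} [CommRing A] [Algebra ℂ A] (x : Fin 3 → A)
    (ψ : A →ₐ[ℂ] Polynomial ℂ) (h : ψ ∘ x = ![0, 1, Polynomial.X]) : ¬ IsSquare (aeval x f) := by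
  rintro ⟨r, hr⟩
  have h3 := congrArg ψ hr
  rw [aeval_congr_of_hom, map_mul, show (fun i => ψ (x i)) = _ from h, ← inf4_eq] at h3
  have h4 := Polynomial.natDegree_eq_zero_of_isUnit (h2.squarefree _ h3.symm.dvd)
  have h5 := Polynomial.natDegree_mul_le (p := ψ r) (q := ψ r)
  rw [← h3] at h5
  omega

theorem X_dvd_of_kill {y : MvPolynomial (Fin 3) ℂ}
    (h : aeval (![0, X 0, X 1] : Fin 3 → MvPolynomial (Fin 2) ℂ) y = 0) : X 0 ∣ y := by
  have key : ∀ y : MvPolynomial (Fin 3) ℂ, X 0 ∣ y - rename Fin.succ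
      (aeval (![0, X 0, X 1] : Fin 3 → MvPolynomial (Fin 2) ℂ) y) := fun y => by
    induction y using MvPolynomial.induction_on with
    | C c => simp
    | add p q hp hq => convert hp.add hq using 1; simp only [map_add]; ring
    | mul_X p i hp =>
      fin_cases i
      · simp
      · convert hp.mul_right (X 1) using 1; simp; ring
      · convert hp.mul_right (X 2) using 1; simp; ring
  have := key y
  rwa [h, map_zero, sub_zero] at this

theorem dual_ne_zero {p : MvPolynomial (Fin 3) ℂ} {d : ℕ} (hp : p.IsHomogeneous d) (h0 : p ≠ 0) :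
    dual p ≠ 0 := fun h => by
  have h1 : X 2 * p = 0 := MvPolynomial.funext fun a => by
    by_cases ha : a 2 = 0
    · simp [ha]
    have h2 := congrArg (aeval ![-a 1 / a 2, -a 0 / a 2]) h
    rw [dual, aeval_congr_of_hom, map_zero] at h2
    have h3 := aeval_smul_hom hp (a 2)⁻¹ a
    rw [show (a 2)⁻¹ • a = fun i => aeval ![-a 1 / a 2, -a 0 / a 2]
      ((![-X 1, -X 0, 1] : Fin 3 → MvPolynomial (Fin 2) ℂ) i) from ?_, h2] at h3
    · simpa [ha] using h3
    · funext i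
      fin_cases i <;> simp [ha, div_eq_inv_mul]
  exact h0 ((mul_eq_zero.mp h1).resolve_left (X_ne_zero _))

end Pool.Agent.Work.MP_475c1a_ag
end

-- merged part: Pool.Agent.Work.MP_475c1a_ag.Pack
section
/-! The geometric data of the surface and of the threefold. -/

namespace Pool.Agent.Work.MP_475c1a_ag

open MvPolynomial

set_option linter.unusedSectionVars false
set_option maxHeartbeats 400000

theorem isUnit_two {A : Type} [CommRing A] [Algebra ℂ A] : IsUnit (2 : A) := by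
  simpa [map_ofNat] using (Ne.isUnit (two_ne_zero (α := ℂ))).map (algebraMap ℂ A)

theorem exists_alg {n : ℕ} (H : WHyp n) {L : Type} [Field L] (θ : H.Ring →+* L) :
    ∃ _ : Algebra ℂ L, ∀ p, θ (H.mk' p) = aeval (fun i => θ (H.mk' (X i))) p := by
  let _ : Algebra ℂ L := (θ.comp (algebraMap ℂ H.Ring)).toAlgebra
  let θ' : H.Ring →ₐ[ℂ] L := ⟨θ, fun _ => rfl⟩
  exact ⟨_, fun p => DFunLike.congr_fun (aeval_unique (θ'.comp H.mk')) p⟩

/-- The data attached to the del Pezzo surface. -/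
structure SPack {f : MvPolynomial (Fin 3) ℂ} (hf : f.IsHomogeneous 4) {L : Type} [Field L]
    [Algebra ℂ L] (θ : (dp hf).Ring →+* L) (P : PrimeDiv (under.obj (dp hf).scheme) → _)
    (v : _ → DV L) (pl : _) (inf : _) (u s y : L) : Prop where
  geo : Geo (dp hf).scheme (dp hf).piece θ ((dp hf).mk' (X 1)) P v pl
  chart : Chart (dp hf).piece θ ((dp hf).mk' (X 1)) P v inf
    (aeval ![s, y] : MvPolynomial (Fin 2) ℂ →ₐ[ℂ] L) u (aff f)
  theta : ∀ p, θ ((dp hf).mk' p) = aeval ![u, 1, s, y] p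
  dom : IsDomain (dp hf).Ring

theorem exists_spack {f : MvPolynomial (Fin 3) ℂ} (hf : f.IsHomogeneous 4) (hs : IsSmoothForm f)
    (h1 : (inf4 f).natDegree = 4) (h2 : (inf4 f).Separable) :
    ∃ (L : Type) (_ : Field L) (_ : Algebra ℂ L) (θ : (dp hf).Ring →+* L) (P : _) (v : _) (pl : _)
      (inf : _) (u s y : L), SPack hf θ P v pl inf u s y := by
  have hq := (dp hf).quad (F := f) rfl
  have := hq.isDomain (nonsq (by
    simpa using not_isSquare_inf4 h1 h2 X (aeval ![0, 1, Polynomial.X]) (by funext i; simp)))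
  have := hq.isIntegrallyClosed isUnit_two (squarefree_form hf hs)
  have := (dp hf).finiteType
  have e1 : ∀ i, (dp hf).base (X i) = (dp hf).mk' (X i.succ) := fun i => by
    rw [WHyp.base_apply, rename_X]
  obtain ⟨L, _, θ, P, v, pl, G⟩ := exists_geo (dp hf).piece
    ((dp hf).piece_zero fun i => by fin_cases i <;> simp [dp]) ((dp hf).X_mem 1)
    (by rw [show (dp hf).mk' (X 1) = _ from (e1 0).symm, map_ne_zero_iff _ hq.inj]; simp)
  obtain ⟨_, hθ⟩ := exists_alg (dp hf) θ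
  have e2 : ∀ p, θ ((dp hf).mk' p) =
      aeval ![θ ((dp hf).mk' (X 0)), 1, θ ((dp hf).mk' (X 2)), θ ((dp hf).mk' (X 3))] p := fun p => by
    rw [hθ]
    congr 2
    funext i
    fin_cases i
    exacts [rfl, G.hm.theta_s, rfl, rfl]
  have e3 : ∀ x, θ ((dp hf).base x) = aeval ![1, θ ((dp hf).mk' (X 2)), θ ((dp hf).mk' (X 3))] x :=
    fun x => by rw [WHyp.base_apply, e2, aeval_rename]; rfl
  have e4 : ∀ x, θ ((dp hf).base (rename Fin.succ x)) =
      aeval ![θ ((dp hf).mk' (X 2)), θ ((dp hf).mk' (X 3))] x :=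
    fun x => by rw [e3, aeval_rename]; rfl
  obtain ⟨inf, C⟩ := G.hm.chart hq (e1 0).symm (e1 0 ▸ hq.isPrime
      ((Ideal.span_singleton_prime (X_ne_zero _)).mpr X_prime) fun x y h => X_dvd_of_kill
        (nonsq (not_isSquare_inf4 h1 h2 ![0, X 0, X 1] (aeval ![1, Polynomial.X])
          (by funext i; fin_cases i <;> simp)) (aeval ![0, X 0, X 1] x) _ (by
            simpa [sub_eq_zero] using
              map_dvd (aeval (![0, X 0, X 1] : Fin 3 → MvPolynomial (Fin 2) ℂ)) h)))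
    ((dp hf).X_mem 2) (by
      rw [show (dp hf).mk' (X 1) = _ from (e1 0).symm, show (dp hf).mk' (X 2) = _ from (e1 1).symm,
        hq.dvd_iff', X_dvd_X]; decide)
    (aeval ![1, X 0, X 1] : MvPolynomial (Fin 3) ℂ →ₐ[ℂ] MvPolynomial (Fin 2) ℂ).toRingHom
    (rename Fin.succ : MvPolynomial (Fin 2) ℂ →ₐ[ℂ] MvPolynomial (Fin 3) ℂ).toRingHom (by simp)
    (fun x => by
      change aeval _ (rename _ x) = x
      rw [aeval_rename, show (![1, X 0, X 1] : Fin 3 → MvPolynomial (Fin 2) ℂ) ∘ Fin.succ = X by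
        funext i; fin_cases i <;> rfl, aeval_X_left_apply])
    (fun x => by
      change θ ((dp hf).base (rename _ (aeval _ x))) = _
      rw [e4, e3, aeval_congr_of_hom]
      congr 2
      funext i
      fin_cases i <;> simp)
    isUnit_two (aff_prime hf hs).squarefree
  refine ⟨L, _, _, θ, P, v, pl, inf, _, _, _, G, ?_, e2, ‹_›⟩
  rwa [show θ.comp _ = _ from RingHom.ext e4] at C

/-- Evaluation of polynomials in three variables. -/
noncomputable def bV {L : Type} [CommRing L] [Algebra ℂ L] (α β T : L) :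
    Polynomial (MvPolynomial (Fin 2) ℂ) →+* L :=
  Polynomial.eval₂RingHom (aeval ![α, β] : MvPolynomial (Fin 2) ℂ →ₐ[ℂ] L) T

@[simp] theorem bV_C {L : Type} [CommRing L] [Algebra ℂ L] (α β T : L)
    (p : MvPolynomial (Fin 2) ℂ) : bV α β T (Polynomial.C p) = aeval ![α, β] p := by simp [bV]

@[simp] theorem bV_X {L : Type} [CommRing L] [Algebra ℂ L] (α β T : L) :
    bV α β T Polynomial.X = T := by simp [bV]

/-- The data attached to the Weierstrass threefold. -/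
structure VPack {I J : MvPolynomial (Fin 3) ℂ} (hI : I.IsHomogeneous 4) (hJ : J.IsHomogeneous 6)
    {L : Type} [Field L] [Algebra ℂ L] (θ : (vc hI hJ).Ring →+* L)
    (P : PrimeDiv (under.obj (vc hI hJ).scheme) → _) (v : _ → DV L) (pl : _) (inf : _)
    (W T α β : L) : Prop where
  geo : Geo (vc hI hJ).scheme (vc hI hJ).piece θ ((vc hI hJ).mk' (X 4)) P v pl
  chart : Chart (vc hI hJ).piece θ ((vc hI hJ).mk' (X 4)) P v inf
    (bV α β T) W (cub (dual I) (dual J))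
  theta : ∀ p, θ ((vc hI hJ).mk' p) = aeval ![W, T, -β, -α, 1] p
  dom : IsDomain (vc hI hJ).Ring

theorem finSuccEquiv_cub4 (I J : MvPolynomial (Fin 3) ℂ) :
    finSuccEquiv ℂ 3 (cub4 I J) = cub I J := by
  simp [cub4, cub, finSuccEquiv_rename_succ, finSuccEquiv_X_zero, map_ofNat]

theorem vc_quad {I J : MvPolynomial (Fin 3) ℂ} (hI : I.IsHomogeneous 4) (hJ : J.IsHomogeneous 6) :
    ∃ a : Polynomial (MvPolynomial (Fin 3) ℂ) →+* (vc hI hJ).Ring,
      Quad a ((vc hI hJ).mk' (X 0)) (cub I J) ∧ a Polynomial.X = (vc hI hJ).mk' (X 1) ∧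
      ∀ x, a (Polynomial.C x) = (vc hI hJ).mk' (rename (Fin.succ ∘ Fin.succ) x) := by
  have hq := ((vc hI hJ).quad (F := cub4 I J) rfl).of_equiv (finSuccEquiv ℂ 3).symm.toRingEquiv
  rw [show (finSuccEquiv ℂ 3).symm.toRingEquiv.symm (cub4 I J) = _ from finSuccEquiv_cub4 I J] at hq
  refine ⟨_, hq, ?_, fun x => ?_⟩
  · change (vc hI hJ).base ((finSuccEquiv ℂ 3).symm _) = _
    rw [← finSuccEquiv_X_zero, AlgEquiv.symm_apply_apply, WHyp.base_apply, rename_X]
    rfl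
  · change (vc hI hJ).base ((finSuccEquiv ℂ 3).symm _) = _
    rw [← finSuccEquiv_rename_succ, AlgEquiv.symm_apply_apply, WHyp.base_apply, rename_rename]

theorem exists_vpack {I J : MvPolynomial (Fin 3) ℂ} (hI : I.IsHomogeneous 4)
    (hJ : J.IsHomogeneous 6) (hd : 4 * I ^ 3 - J ^ 2 ≠ 0) :
    ∃ (L : Type) (_ : Field L) (_ : Algebra ℂ L) (θ : (vc hI hJ).Ring →+* L) (P : _) (v : _)
      (pl : _) (inf : _) (W T α β : L), VPack hI hJ θ P v pl inf W T α β := by
  obtain ⟨a, hq, a1, a2⟩ := vc_quad hI hJ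
  have := hq.isDomain fun x y => odd_zero (cub_natDegree I J)
  have := hq.isIntegrallyClosed isUnit_two (cub_squarefree hd)
  have := (vc hI hJ).finiteType
  have e1 : ∀ i, a (Polynomial.C (X i)) = (vc hI hJ).mk' (X i.succ.succ) := fun i => by
    rw [a2, rename_X]; rfl
  obtain ⟨L, _, θ, P, v, pl, G⟩ := exists_geo (vc hI hJ).piece
    ((vc hI hJ).piece_zero fun i => by fin_cases i <;> simp [vc]) ((vc hI hJ).X_mem 4)
    (by rw [show (vc hI hJ).mk' (X 4) = _ from (e1 2).symm, map_ne_zero_iff _ hq.inj]; simp)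
  obtain ⟨_, hθ⟩ := exists_alg (vc hI hJ) θ
  obtain ⟨α, hα⟩ : ∃ α, θ ((vc hI hJ).mk' (X 3)) = -α := ⟨_, (neg_neg _).symm⟩
  obtain ⟨β, hβ⟩ : ∃ β, θ ((vc hI hJ).mk' (X 2)) = -β := ⟨_, (neg_neg _).symm⟩
  have e2 : ∀ p, θ ((vc hI hJ).mk' p) =
      aeval ![θ ((vc hI hJ).mk' (X 0)), θ ((vc hI hJ).mk' (X 1)), -β, -α, 1] p := fun p => by
    rw [hθ]
    congr 2
    funext i
    fin_cases i
    exacts [rfl, rfl, hβ, hα, G.hm.theta_s]
  have e3 : ∀ x, θ (a (Polynomial.C x)) = aeval ![-β, -α, 1] x :=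
    fun x => by rw [a2, e2, aeval_rename]; rfl
  let ε : MvPolynomial (Fin 2) ℂ →ₐ[ℂ] MvPolynomial (Fin 3) ℂ := aeval ![-X 1, -X 0]
  have e4 : ∀ x, θ (a (Polynomial.C (ε x))) = aeval ![α, β] x := fun x => by
    rw [e3, aeval_congr_of_hom]
    congr 2
    funext i
    fin_cases i <;> simp
  have hΔ : dual (4 * I ^ 3 - J ^ 2) ≠ 0 :=
    dual_ne_zero (d := 12) (((hI.pow 3).C_mul 4).sub (hJ.pow 2)) hd
  obtain ⟨inf, C⟩ := G.hm.chart hq (e1 2).symm (e1 2 ▸ hq.isPrime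
      ((Ideal.span_singleton_prime (Polynomial.C_ne_zero.mpr (X_ne_zero _))).mpr
        (Polynomial.prime_C_iff.mpr X_prime)) (cub_odd X_prime I J))
    ((vc hI hJ).X_mem 3) (by
      rw [show (vc hI hJ).mk' (X 4) = _ from (e1 2).symm,
        show (vc hI hJ).mk' (X 3) = _ from (e1 1).symm, hq.dvd_iff', Polynomial.C_dvd_iff_dvd_coeff]
      refine fun h => absurd (h 0) ?_
      rw [Polynomial.coeff_C_zero, X_dvd_X]
      decide)
    (Polynomial.mapRingHom dual.toRingHom) (Polynomial.mapRingHom ε.toRingHom)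
    (by simp [dual])
    (fun x => by
      rw [Polynomial.coe_mapRingHom, Polynomial.coe_mapRingHom, Polynomial.map_map,
        show dual.toRingHom.comp ε.toRingHom = RingHom.id _ from ?_, Polynomial.map_id]
      ext i
      · simp
      · fin_cases i <;> simp [ε, dual])
    (fun x => by
      refine DFunLike.congr_fun (f := θ.comp (a.comp ((Polynomial.mapRingHom ε.toRingHom).comp
        (Polynomial.mapRingHom dual.toRingHom)))) (g := θ.comp a)
        (Polynomial.ringHom_ext (fun x => ?_) (by simp)) x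
      simp only [RingHom.comp_apply, Polynomial.coe_mapRingHom, Polynomial.map_C]
      change θ (a (Polynomial.C (ε (dual x)))) = _
      rw [e4, e3, dual, aeval_congr_of_hom]
      congr 2
      funext i
      fin_cases i <;> simp)
    isUnit_two (by
      rw [Polynomial.coe_mapRingHom, cub_map]; exact cub_squarefree (by simpa [map_ofNat] using hΔ))
  refine ⟨L, _, _, θ, P, v, pl, inf, _, _, α, β, G, ?_, e2, ‹_›⟩
  rwa [Polynomial.coe_mapRingHom, cub_map, show θ.comp _ = bV α β (θ ((vc hI hJ).mk' (X 1))) from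
      Polynomial.ringHom_ext (fun x => by simp [e4]) (by simp [a1])] at C

end Pool.Agent.Work.MP_475c1a_ag
end

-- merged part: Pool.Agent.Work.MP_475c1a_ag.Jac
section
/-! Jacobian determinants and the transformation of the canonical divisor. -/

namespace Pool.Agent.Work.MP_475c1a_ag

open MvPolynomial KaehlerDifferential

set_option linter.unusedSectionVars false
set_option maxHeartbeats 400000

variable {L : Type} [Field L] [Algebra ℂ L] {n : ℕ}

theorem two_ne_zero_alg : (2 : L) ≠ 0 := by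
  simpa [map_ofNat] using (map_ne_zero (algebraMap ℂ L)).mpr (two_ne_zero (α := ℂ))

section Exists

variable {x : Fin n → L} {u : L} {F : MvPolynomial (Fin n) ℂ}
  (h : QuadF (aeval x : MvPolynomial (Fin n) ℂ →ₐ[ℂ] L).toRingHom u F)

include h

theorem exists_der : ∃ D : Fin n → Derivation ℂ L L, ∀ k j, D k (x j) = if k = j then 1 else 0 := by
  let B := MvPolynomial (Fin n) ℂ
  let _ : Algebra B L := (aeval x : B →ₐ[ℂ] L).toRingHom.toAlgebra
  have : IsScalarTower ℂ B L := .of_algebraMap_eq fun c => ((aeval x).commutes c).symm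
  have : FaithfulSMul B L := (faithfulSMul_iff_algebraMap_injective B L).mpr h.inj
  let _ := FractionRing.liftAlgebra B L
  have := FractionRing.isScalarTower_liftAlgebra B L
  have h1 : ∀ b, IsAlgebraic (FractionRing B) (algebraMap B L b) := fun b => by
    rw [IsScalarTower.algebraMap_apply B (FractionRing B) L]; exact isAlgebraic_algebraMap _
  have : Algebra.IsAlgebraic (FractionRing B) L := ⟨fun g => by
    obtain ⟨a, b, c, -, rfl⟩ := h.frac g
    rw [div_eq_mul_inv]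
    exact ((h1 a).add ((h1 b).mul (.of_pow two_pos (h.sq ▸ h1 F)))).mul (h1 c).inv⟩
  have : Algebra.FormallyEtale B (FractionRing B) := .of_isLocalization (nonZeroDivisors B)
  have : Algebra.FormallyEtale (FractionRing B) L := .of_isSeparable _ _
  have : Algebra.FormallyEtale B L := .comp B (FractionRing B) L
  refine ⟨fun k => ((((Algebra.linearMap B L).compDer (pderiv k)).liftKaehlerDifferential.liftBaseChange
    L).comp (tensorKaehlerEquivOfFormallyEtale ℂ B L).symm.toLinearMap).compDer (D ℂ L),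
    fun k j => ?_⟩
  have hx : x j = algebraMap B L (X j) := (aeval_X x j).symm
  rw [hx]
  change LinearMap.liftBaseChange L _ ((tensorKaehlerEquivOfFormallyEtale ℂ B L).symm (D ℂ L _)) = _
  rw [tensorKaehlerEquivOfFormallyEtale_symm_D_algebraMap]
  by_cases e : k = j <;> simp [B, e, Ne.symm]

theorem der_eq_zero {E : Derivation ℂ L L} (h0 : ∀ j, E (x j) = 0) (g : L) : E g = 0 := by
  have h1 : ∀ p : MvPolynomial (Fin n) ℂ, E (aeval x p) = 0 := fun p => by
    induction p using MvPolynomial.induction_on with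
    | C c => simp
    | add p q hp hq => rw [map_add, map_add, hp, hq, add_zero]
    | mul_X p i hp => rw [map_mul, E.leibniz, hp, aeval_X, h0, smul_zero, smul_zero, add_zero]
  have h2 := h1 F
  rw [show aeval x F = u ^ 2 from h.sq.symm, sq, E.leibniz, ← two_mul, smul_eq_mul] at h2
  have h3 := ((mul_eq_zero.mp h2).resolve_left two_ne_zero_alg |> mul_eq_zero.mp).resolve_left h.u_ne
  obtain ⟨a, b, c, -, rfl⟩ := h.frac g
  change E ((aeval x a + aeval x b * u) / aeval x c) = 0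
  rw [E.leibniz_div, map_add, E.leibniz, h1, h1, h1, h3]
  simp

theorem der_chain {D : Fin n → Derivation ℂ L L} (hD : ∀ k j, D k (x j) = if k = j then 1 else 0)
    (σ : L ≃ₐ[ℂ] L) (E : Derivation ℂ L L) (g : L) :
    E (σ g) = ∑ j, E (σ (x j)) * σ (D j g) := by
  let E' : Derivation ℂ L L := .mk' (σ.symm.toLinearMap ∘ₗ E.toLinearMap ∘ₗ σ.toLinearMap)
    fun a b => by simp
  have h0 : ∀ (c : Fin n → L) g, (∑ j, c j • D j) g = ∑ j, c j * D j g := fun c g => by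
    have := congrFun (map_sum Derivation.coeFnAddMonoidHom (fun j => c j • D j) Finset.univ) g
    rw [Finset.sum_apply] at this
    exact this
  have h1 := der_eq_zero h (E := E' - ∑ j, E' (x j) • D j) (fun j => by simp [h0, hD]) g
  apply σ.symm.injective
  simpa [h0, sub_eq_zero, E'] using h1

end Exists

variable (w : DV L) (z : Fin n → L) (u : L)

/-- Regular functions whose differential is a regular combination of the given differentials. -/
def Reg (g : L) : Prop := w.Ge 0 g ∧ ∃ (c₀ : L) (c : Fin n → L), w.Ge 0 c₀ ∧ (∀ l, w.Ge 0 (c l)) ∧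
  ∀ D : Derivation ℂ L L, D g = c₀ * D u + ∑ l, c l * D (z l)

variable {w z u} {g g' : L}

theorem Reg.const {c : ℂ} (h : w.Ge 0 (algebraMap ℂ L c)) : Reg w z u (algebraMap ℂ L c) :=
  ⟨h, 0, 0, DV.ge_zero 0, fun _ => DV.ge_zero 0, by simp⟩

theorem Reg.root (h : w.Ge 0 u) : Reg w z u u :=
  ⟨h, 1, 0, DV.ge_one, fun _ => DV.ge_zero 0, by simp⟩

theorem Reg.coord {l : Fin n} (h : w.Ge 0 (z l)) : Reg w z u (z l) :=
  ⟨h, 0, Pi.single l 1, DV.ge_zero 0, fun k => by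
    by_cases e : k = l <;> simp [e, DV.ge_one, DV.ge_zero], by simp [Pi.single_apply]⟩

theorem Reg.add (h : Reg w z u g) (h' : Reg w z u g') : Reg w z u (g + g') := by
  obtain ⟨a, c₀, c, a1, a2, a3⟩ := h
  obtain ⟨b, d₀, d, b1, b2, b3⟩ := h'
  refine ⟨a.add b, c₀ + d₀, c + d, a1.add b1, fun l => (a2 l).add (b2 l), fun D => ?_⟩
  simp only [map_add, a3, b3, Pi.add_apply, add_mul, Finset.sum_add_distrib]; ring

theorem Reg.smul (a : w.Ge 0 g') {m : L} (hm : w.Ge 0 m) (h : Reg w z u g)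
    (e : ∀ D : Derivation ℂ L L, D g' = m * D g) : Reg w z u g' := by
  obtain ⟨-, c₀, c, a1, a2, a3⟩ := h
  refine ⟨a, m * c₀, fun l => m * c l, hm.mul0 a1, fun l => hm.mul0 (a2 l), fun D => ?_⟩
  simp only [e, a3, mul_add, Finset.mul_sum, mul_assoc]

theorem Reg.mul (h : Reg w z u g) (h' : Reg w z u g') : Reg w z u (g * g') := by
  obtain ⟨a, c₀, c, a1, a2, a3⟩ := h
  obtain ⟨b, d₀, d, b1, b2, b3⟩ := h'
  refine ⟨a.mul0 b, g * d₀ + g' * c₀, fun l => g * d l + g' * c l, (a.mul0 b1).add (b.mul0 a1),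
    fun l => (a.mul0 (b2 l)).add (b.mul0 (a2 l)), fun D => ?_⟩
  simp only [D.leibniz, a3, b3, smul_eq_mul, add_mul, mul_add, Finset.sum_add_distrib,
    Finset.mul_sum, mul_assoc]
  ring

theorem Reg.neg (h : Reg w z u g) : Reg w z u (-g) :=
  h.smul h.1.neg DV.ge_one.neg fun D => by simp

theorem Reg.div (h : Reg w z u g) (h' : Reg w z u g') (h0 : w.v g' = 0) : Reg w z u (g / g') := by
  have h1 : w.Ge 0 g'⁻¹ := Or.inr (by simp [h0])
  rw [div_eq_mul_inv]
  exact h.mul (h'.smul h1 (h1.pow0 2).neg fun D => by simp [D.leibniz_inv])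

theorem Reg.aeval {m : ℕ} {y : Fin m → L} (hc : ∀ c, w.Ge 0 (algebraMap ℂ L c))
    (hy : ∀ i, Reg w z u (y i)) (p : MvPolynomial (Fin m) ℂ) : Reg w z u (aeval y p) := by
  induction p using MvPolynomial.induction_on with
  | C c => rw [aeval_C]; exact .const (hc c)
  | add p q hp hq => rw [map_add]; exact hp.add hq
  | mul_X p i hp => rw [map_mul, aeval_X]; exact hp.mul (hy i)

theorem ge_det {m : Type} [Fintype m] [DecidableEq m] {A : Matrix m m L}
    (h : ∀ i j, w.Ge 0 (A i j)) : w.Ge 0 A.det :=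
  show w.Ge 0 (w.O.subtype.mapMatrix (Matrix.of fun i j => ⟨A i j, h i j⟩)).det from
    (RingHom.map_det w.O.subtype (Matrix.of fun i j => ⟨A i j, h i j⟩)) ▸ Subtype.prop _

/-- The Jacobian determinant. -/
noncomputable def jac (D : Fin n → Derivation ℂ L L) (g : Fin n → L) : L :=
  (Matrix.of fun k j => D k (g j)).det

theorem jac_ge (hu : u ≠ 0) (h2 : w.v 2 = 0) (hF : Reg w z 0 (u ^ 2)) (h0 : w.Ge 0 u)
    {g : Fin n → L} (hg : ∀ j, Reg w z u (g j)) (D : Fin n → Derivation ℂ L L) :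
    ∃ m, w.Ge 0 m ∧ u * jac D g = m * jac D z := by
  obtain ⟨-, F0, F, -, F1, F2⟩ := hF
  choose c₀ c a1 a2 a3 using fun j => (hg j).2
  have h3 : (2 * u) ≠ 0 := mul_ne_zero two_ne_zero_alg hu
  have h4 : ∀ E : Derivation ℂ L L, E u = ∑ l, F l / (2 * u) * E (z l) := fun E => by
    have := F2 E
    rw [sq, E.leibniz, ← two_mul, smul_eq_mul, map_zero, mul_zero, zero_add, ← mul_assoc] at this
    simp only [div_mul_eq_mul_div, ← Finset.sum_div, ← this]
    rw [mul_div_cancel_left₀ _ h3]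
  let N : Matrix (Fin n) (Fin n) L := .of fun l j => c j l + F l / (2 * u) * c₀ j
  have h5 : jac D g = jac D z * N.det := by
    rw [jac, jac, ← Matrix.det_mul]
    congr 1
    ext k j
    simp only [Matrix.mul_apply, Matrix.of_apply, a3, h4 (D k), N, Finset.mul_sum,
      ← Finset.sum_add_distrib]
    exact Finset.sum_congr rfl fun l _ => by ring
  let U : Matrix Unit Unit L := .of fun _ _ => 2 * u
  have h6 : U.det = 2 * u := by simp [U]
  let _ : Invertible U := U.invertibleOfIsUnitDet (h6 ▸ h3.isUnit)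
  have h7 := Matrix.det_fromBlocks₂₂ (Matrix.of fun l j => c j l) (Matrix.of fun l (_ : Unit) => -F l)
    (Matrix.of fun (_ : Unit) j => c₀ j) U
  rw [h6, show (Matrix.of fun l j => c j l) - _ = N by
    ext l j
    simp [N, Matrix.mul_apply, U, div_eq_mul_inv]] at h7
  refine ⟨2 * u * N.det / 2, DV.Ge.div (m := 0) ?_ h2 le_rfl, ?_⟩
  · rw [← h7]
    refine ge_det ?_
    rintro (i | i) (j | j)
    exacts [a2 j i, (F1 i).neg, a1 j, (DV.ge_ofNat 2).mul0 h0]
  · rw [h5, mul_assoc, mul_div_cancel_left₀ _ two_ne_zero_alg]; ring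

theorem jac_self {x : Fin n → L} {D : Fin n → Derivation ℂ L L}
    (hD : ∀ k j, D k (x j) = if k = j then 1 else 0) : jac D x = 1 := by
  rw [jac, show (Matrix.of fun k j => D k (x j)) = 1 by ext k j; simp [hD, Matrix.one_apply],
    Matrix.det_one]

theorem jac_update {x : Fin n → L} {D : Fin n → Derivation ℂ L L}
    (hD : ∀ k j, D k (x j) = if k = j then 1 else 0) (k : Fin n) (u : L) :
    jac D (Function.update x k u) = D k u := by
  rw [jac, show (Matrix.of fun l j => D l (Function.update x k u j)) =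
    (1 : Matrix _ _ L).updateCol k fun l => D l u from ?_, ← Matrix.cramer_apply, Matrix.cramer_one]
  · rfl
  · ext l j
    by_cases e : j = k <;> simp [e, hD, Matrix.one_apply]

theorem exists_canonical {x : Fin n → L} {F : MvPolynomial (Fin n) ℂ}
    (h : QuadF (aeval x : MvPolynomial (Fin n) ℂ →ₐ[ℂ] L).toRingHom u F)
    {D : Fin n → Derivation ℂ L L} (hD : ∀ k j, D k (x j) = if k = j then 1 else 0) {ι : Type}
    {v : ι → DV L} {c : ι → ℤ}
    (hA : ∀ i (g : Fin n → L), (∀ j, (v i).Ge 0 (g j)) → (v i).Ge (c i) (u * jac D g))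
    (hB : ∀ i, ∃ g : Fin n → L, (∀ j, (v i).Ge 0 (g j)) ∧ jac D g ≠ 0 ∧ (v i).v (u * jac D g) = c i)
    (σ : L ≃ₐ[ℂ] L) {τ : ι → ι} (hτ : ∀ i g, (v i).v (σ g) = (v (τ i)).v g) (i₀ : ι) :
    ∃ m ≠ 0, ∀ i, (v i).v m = c i - c (τ i) := by
  have hu := h.u_ne
  have hu' : σ u ≠ 0 := by simpa using hu
  have h1 : ∀ g : Fin n → L, u * jac D (σ ∘ g) = u * jac D (σ ∘ x) / σ u * σ (u * jac D g) :=
    fun g => by
      have : jac D (σ ∘ g) = jac D (σ ∘ x) * σ (jac D g) := by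
        rw [jac, jac, jac, ← AlgEquiv.coe_toAlgHom σ, AlgHom.map_det, ← Matrix.det_mul]
        congr 1
        ext k j
        simpa [Matrix.mul_apply] using der_chain h hD σ (D k) (g j)
      rw [this, map_mul]; field_simp
  have h2 : ∀ i {k g}, (v i).Ge k (σ g) ↔ (v (τ i)).Ge k g := fun i k g => by simp [DV.Ge, hτ]
  have h3 : ∀ i, u * jac D (σ ∘ x) / σ u ≠ 0 ∧
      (v i).v (u * jac D (σ ∘ x) / σ u) + c (τ i) ≤ c i := fun i => by
    obtain ⟨g, a1, a2, a3⟩ := hB i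
    have a4 := h1 (σ.symm ∘ g)
    rw [show σ ∘ σ.symm ∘ g = g by ext; simp] at a4
    have a5 := a4 ▸ mul_ne_zero hu a2
    have a6 := (hA (τ i) (σ.symm ∘ g) fun j => (h2 i).mp (by simpa using a1 j)).le
      (by simpa using right_ne_zero_of_mul a5)
    rw [a4, DV.v_mul _ (left_ne_zero_of_mul a5) (right_ne_zero_of_mul a5), hτ] at a3
    exact ⟨left_ne_zero_of_mul a5, by omega⟩
  refine ⟨_, (h3 i₀).1, fun i => ?_⟩
  obtain ⟨g, a1, a2, a3⟩ := hB (τ i)
  have a4 : σ (u * jac D g) ≠ 0 := by simpa using ⟨hu, a2⟩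
  have a5 := hA i (σ ∘ g) fun j => (h2 i).mpr (a1 j)
  rw [h1] at a5
  have a6 := a5.le (mul_ne_zero (h3 i).1 a4)
  rw [DV.v_mul _ (h3 i).1 a4, hτ] at a6
  have := (h3 i).2
  omega

end Pool.Agent.Work.MP_475c1a_ag
end

-- merged part: Pool.Agent.Work.MP_475c1a_ag.Canon
section
/-! Automorphisms preserve the class of the divisor at infinity. -/

namespace Pool.Agent.Work.MP_475c1a_ag

open MvPolynomial

set_option linter.unusedSectionVars false
set_option maxHeartbeats 400000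

theorem QuadF.of_equiv {B B' L : Type} [CommRing B] [CommRing B'] [Field L] {ι : B →+* L} {u : L}
    {F : B} (h : QuadF ι u F) (e : B' ≃+* B) {ι' : B' →+* L} (he : ∀ x, ι' x = ι (e x)) :
    QuadF ι' u (e.symm F) :=
  ⟨by simpa [he] using h.sq, fun h1 => by rw [he, he] at h1; simpa using h.indep h1, fun a => by
    obtain ⟨x, y, z, hz, rfl⟩ := h.frac a
    exact ⟨e.symm x, e.symm y, e.symm z, by simpa, by simp [he]⟩⟩

theorem DV.exists_prime {B L : Type} [CommRing B] [IsDomain B] [UniqueFactorizationMonoid B]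
    [Field L] {w : DV L} {j : B →+* L} (h0 : ∀ p, w.Ge 0 (j p)) {a : B} (ha : a ≠ 0)
    (h : w.Ge 1 (j a)) : ∃ p, Prime p ∧ p ∣ a ∧ w.Ge 1 (j p) := by
  induction a using UniqueFactorizationMonoid.induction_on_prime with
  | h₁ => exact absurd rfl ha
  | h₂ x hx =>
    obtain ⟨y, hy⟩ := hx.exists_right_inv
    have := h.mul_right (h0 y)
    rw [← map_mul, hy, map_one] at this
    exact absurd this DV.not_ge_one
  | h₃ a p ha' hp ih =>
    rw [map_mul] at h
    rcases DV.prime_ge (h0 p) (h0 a) h with h | h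
    · exact ⟨p, hp, dvd_mul_right p a, h⟩
    · obtain ⟨q, hq, h1, h2⟩ := ih ha' h
      exact ⟨q, hq, h1.mul_left p, h2⟩

theorem whom_scale {m d : ℕ} {wt : Fin m → ℕ} {L : Type} [Field L] [Algebra ℂ L] (y : Fin m → L)
    (t : L) {p : MvPolynomial (Fin m) ℂ} (hp : p.IsWeightedHomogeneous wt d) :
    aeval (fun i => y i / t ^ wt i) p = aeval y p / t ^ d := by
  refine whom_induction (P := fun p => aeval (fun i => y i / t ^ wt i) p = aeval y p / t ^ d)
    (by simp) (fun p q h1 h2 => by rw [map_add, map_add, h1, h2, add_div]) ?_ hp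
  rintro k c rfl
  simp only [map_mul, map_prod, map_pow, aeval_X, div_pow, Finset.prod_div_distrib, ← pow_mul,
    Finset.prod_pow_eq_pow_sum, mul_div_assoc, mul_comm (wt _), aeval_C]

variable {L ι : Type} [Field L] [Algebra ℂ L] {m n : ℕ} {H : WHyp m} [IsDomain H.Ring]
  {B : Type} [CommRing B] {θ : H.Ring →+* L} {s : H.Ring} {P : ι → Ideal H.Ring} {v : ι → DV L}
  {inf : ι} {b : B →+* L} {u : L} {F : B} (Ch : Chart H.piece θ s P v inf b u F) {y : Fin m → L}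
  (hy : ∀ p, θ (H.mk' p) = aeval y p)

include Ch hy

theorem Chart.ge_const (i : ι) (c : ℂ) : (v i).Ge 0 (algebraMap ℂ L c) := by
  rw [← aeval_C y c, ← hy]
  by_cases h : i = inf
  · simpa [h] using Ch.ge_inf (H.mk_mem (isWeightedHomogeneous_C _ c))
  · exact Ch.reg h _

theorem Chart.v_const (i : ι) (c : ℂ) : (v i).v (algebraMap ℂ L c) = 0 := by
  have h1 := (Ch.ge_const hy i c).nonneg
  have h2 := (Ch.ge_const hy i c⁻¹).nonneg
  rw [map_inv₀, DV.v_inv] at h2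
  omega

theorem Chart.reg_inf {j : Fin m} (hj : H.wt j = 1) (hj' : ¬ s ∣ H.mk' (X j)) {z : Fin n → L}
    {u' : L} (h : ∀ i, Reg (v inf) z u' (y i / y j ^ H.wt i)) {g : L} (hg : (v inf).Ge 0 g) :
    Reg (v inf) z u' g := by
  obtain ⟨d, _, _, ⟨p, hp, rfl⟩, ⟨q, hq, rfl⟩, h1, rfl⟩ := Ch.loc inf hg
  rw [Ch.P_inf, Ideal.mem_span_singleton] at h1
  have h2 := Ch.v_inf (hj ▸ H.X_mem j) hj'
  have h3 := Ch.v_inf (H.mk_mem hq) h1
  have h4 := Ch.hm.ne (H.X_mem j) fun e => hj' (e ▸ dvd_zero s)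
  have h5 := Ch.hm.ne (H.mk_mem hq) fun e => h1 (by rw [show H.mk'.toLinearMap q = 0 from e]; simp)
  rw [hy] at h2 h3 h4 h5
  rw [aeval_X] at h2 h4
  change Reg _ _ _ (θ (H.mk' p) / θ (H.mk' q))
  rw [hy, hy, ← div_div_div_cancel_right₀ (pow_ne_zero d h4), ← whom_scale y _ hp,
    ← whom_scale y _ hq]
  refine (Reg.aeval (Ch.ge_const hy inf) h p).div (Reg.aeval (Ch.ge_const hy inf) h q) ?_
  rw [whom_scale y _ hq, DV.v_div _ h5 (pow_ne_zero d h4), DV.v_pow, h2, h3]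
  simp

theorem Chart.canonical {x : Fin n → L} {F' : MvPolynomial (Fin n) ℂ} (e : _ ≃+* B)
    (he : ∀ p, aeval x p = b (e p)) (hF : F' = e.symm F)
    (h1 : ∀ i ≠ inf, (v i).Ge 1 u → ∃ k, ¬ (v i).Ge 1 (aeval x (pderiv k F')))
    {z : Fin n → L} {u' : L} {k : ℤ} (h2 : ∀ l, (v inf).Ge 0 (z l)) (h3 : (v inf).v u' = 0)
    (h3' : u' ≠ 0) (h4 : Reg (v inf) z 0 (u' ^ 2)) (h5 : ∀ g, (v inf).Ge 0 g → Reg (v inf) z u' g)
    (h6 : ∀ D : Fin n → Derivation ℂ L L, (∀ k j, D k (x j) = if k = j then 1 else 0) →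
      jac D z ≠ 0 ∧ (v inf).v (u * jac D z / u') = k)
    (σ : L ≃ₐ[ℂ] L) {τ : ι → ι} (hτ : ∀ i g, (v i).v (σ g) = (v (τ i)).v g) [DecidableEq ι] :
    ∃ m ≠ 0, ∀ i, (v i).v m = (if i = inf then k else 0) - if τ i = inf then k else 0 := by
  have hq : QuadF (aeval x : MvPolynomial (Fin n) ℂ →ₐ[ℂ] L).toRingHom u F' :=
    hF ▸ Ch.quadF.of_equiv e he
  obtain ⟨D, hD⟩ := exists_der hq
  obtain ⟨h7, h8⟩ := h6 D hD
  have hu := hq.u_ne
  have t2 : ∀ i, (v i).v 2 = 0 := fun i => by simpa [map_ofNat] using Ch.v_const hy i 2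
  have a1 : ∀ i ≠ inf, ∀ p, (v i).Ge 0 (aeval x p) := fun i hi p => he p ▸ Ch.reg_b hi _
  have a2 : ∀ i ≠ inf, ∀ l, (v i).Ge 0 (x l) := fun i hi l => by simpa using a1 i hi (X l)
  have a3 : ∀ i ≠ inf, (v i).Ge 0 u := fun i hi => hq.ge_u (a1 i hi)
  have a4 : ∀ i ≠ inf, ∀ u p, Reg (v i) x u (aeval x p) := fun i hi u p =>
    Reg.aeval (Ch.ge_const hy i) (fun l => .coord (a2 i hi l)) p
  refine exists_canonical hq hD (c := fun i => if i = inf then k else 0) (fun i g hg => ?_)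
    (fun i => ?_) σ hτ inf
  · by_cases hi : i = inf
    · subst hi
      obtain ⟨m, b1, b2⟩ := jac_ge h3' (t2 i) h4 (Or.inr h3.ge) (fun j => h5 _ (hg j)) D
      rw [if_pos rfl, show u * jac D g = m * (u * jac D z / u') by
        rw [eq_comm, mul_div_assoc', div_eq_iff h3']; linear_combination -u * b2]
      exact b1.mul_left (Or.inr h8.ge)
    · have a5 : ∀ a : θ.range, Reg (v i) x u a := by
        rintro ⟨_, r, rfl⟩
        obtain ⟨p, q, e1⟩ := Ch.surj r
        change Reg _ _ _ (θ r)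
        rw [e1, ← e.apply_symm_apply p, ← e.apply_symm_apply q, ← he, ← he]
        exact (a4 i hi _ _).add ((a4 i hi _ _).mul (.root (a3 i hi)))
      obtain ⟨m, b1, b2⟩ := jac_ge hu (t2 i) (hq.sq ▸ a4 i hi 0 F') (a3 i hi) (g := g) (fun j => by
        obtain ⟨a, a', b1, b2⟩ := Ch.am.loc i hi _ (hg j)
        rw [b2]
        exact (a5 a).div (a5 a') (DV.v_eq_zero (Ch.am.reg i hi a') b1).2) D
      rwa [if_neg hi, b2, jac_self hD, mul_one]
  · by_cases hi : i = inf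
    · subst hi
      rw [DV.v_div _ (mul_ne_zero hu h7) h3', h3, sub_zero] at h8
      exact ⟨z, h2, h7, by rw [if_pos rfl, h8]⟩
    rw [if_neg hi]
    by_cases b1 : (v i).Ge 1 u
    · obtain ⟨l, hl⟩ := h1 i hi b1
      obtain ⟨b2, b3⟩ := DV.v_eq_zero (a1 i hi _) hl
      have b4 : aeval x (pderiv l F') = 2 * (u * D l u) := by
        have := chain_rule (D l) x F'
        rw [show aeval x F' = u ^ 2 from hq.sq.symm, sq, Derivation.leibniz, ← two_mul] at this
        simpa [hD] using this.symm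
      rw [b4] at b2 b3
      rw [DV.v_mul _ two_ne_zero_alg (right_ne_zero_of_mul b2), t2, zero_add] at b3
      refine ⟨Function.update x l u, fun j => ?_, ?_, by rwa [jac_update hD]⟩
      · by_cases b5 : j = l <;> simp [b5, a2 i hi, a3 i hi]
      · rw [jac_update hD]; exact right_ne_zero_of_mul (right_ne_zero_of_mul b2)
    · exact ⟨x, a2 i hi, by simp [jac_self hD],
        by rw [jac_self hD, mul_one, (DV.v_eq_zero (a3 i hi) b1).2]⟩

theorem Chart.pull_sections {σ : L ≃+* L} {τ : ι → ι} (hτ : ∀ i g, (v i).v (σ g) = (v (τ i)).v g)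
    [DecidableEq ι] {c : L} (hc : c ≠ 0) {k : ℕ}
    (h : ∀ i, (v i).v c = (if i = inf then (k : ℤ) else 0) - if τ i = inf then (k : ℤ) else 0)
    (d : ℕ) {r : H.Ring} (hr : r ∈ H.piece (d * k)) :
    ∃ p ∈ H.piece (d * k), σ (θ r) = c ^ d * θ p := by
  have h1 : ∀ i, (v i).Ge (-d * if i = inf then (k : ℤ) else 0) (σ (θ r) / c ^ d) := fun i => by
    have h2 : (v (τ i)).Ge (-d * if τ i = inf then (k : ℤ) else 0) (θ r) := by
      by_cases e : τ i = inf
      · simpa [e] using Ch.ge_inf hr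
      · simpa [e] using Ch.reg e r
    refine DV.Ge.div (m := -d * if τ i = inf then (k : ℤ) else 0) ?_ rfl
      (by rw [DV.v_pow, h]; ring_nf; rfl)
    simpa [DV.Ge, hτ] using h2
  obtain ⟨p, hp, e⟩ := Ch.sections (n := d * k) (fun i hi => by simpa [hi] using h1 i)
    (by simpa using h1 inf)
  exact ⟨p, hp, by rw [e, mul_div_cancel₀ _ (pow_ne_zero d hc)]⟩

end Pool.Agent.Work.MP_475c1a_ag
end

-- merged part: Pool.Agent.Work.MP_475c1a_ag.Place2
section
/-! Finite and infinite places of the curve `u ^ 2 = φ`. -/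

namespace Pool.Agent.Work.MP_475c1a_ag

open Polynomial

set_option linter.unusedSectionVars false
set_option maxHeartbeats 400000

variable {K M : Type} [Field K] [Field M] {ι : K[X] →+* M} {u : M} {φ : K[X]} {w w' : DV M}

theorem ge_poly (ht : ∀ c, w.v (ι (C c)) = 0) (hX : w.Ge 0 (ι X)) (p : K[X]) : w.Ge 0 (ι p) := by
  induction p using Polynomial.induction_on with
  | C c => exact Or.inr (ht c).ge
  | add p q hp hq => rw [map_add]; exact hp.add hq
  | monomial n c hc => rw [pow_succ, ← mul_assoc, map_mul]; exact hc.mul0 hX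

theorem dvd_of_ge_one (h0 : ∀ p, w.Ge 0 (ι p)) {p a : K[X]} (hp : Prime p) (h1 : w.Ge 1 (ι p))
    (ha : w.Ge 1 (ι a)) : p ∣ a := by
  by_contra hn
  obtain ⟨x, y, e⟩ := hp.irreducible.coprime_iff_not_dvd.mpr hn
  have := ((h0 x).mul_left h1).add ((h0 y).mul_left ha)
  rw [← map_mul, ← map_mul, ← map_add, e, map_one] at this
  exact DV.not_ge_one this

theorem exists_prime_ge_one (ht : ∀ c, w.v (ι (C c)) = 0) (h0 : ∀ p, w.Ge 0 (ι p)) {a : K[X]}
    (ha : a ≠ 0) (h : w.Ge 1 (ι a)) : ∃ p, Prime p ∧ p ∣ a ∧ w.Ge 1 (ι p) := by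
  induction a using UniqueFactorizationMonoid.induction_on_prime with
  | h₁ => exact absurd rfl ha
  | h₂ x hx =>
    obtain ⟨c, hc, rfl⟩ := Polynomial.isUnit_iff.mp hx
    have := h.le ((hx.map ι).ne_zero)
    rw [ht] at this
    omega
  | h₃ a p ha' hp ih =>
    rw [map_mul] at h
    rcases DV.prime_ge (h0 p) (h0 a) h with h | h
    · exact ⟨p, hp, dvd_mul_right p a, h⟩
    · obtain ⟨q, hq, h1, h2⟩ := ih ha' h
      exact ⟨q, hq, h1.mul_left p, h2⟩

theorem v_poly_inf (hi : Function.Injective ι) (ht : ∀ c, w.v (ι (C c)) = 0) (hX : w.v (ι X) < 0)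
    {p : K[X]} (hp : p ≠ 0) : w.v (ι p) = p.natDegree * w.v (ι X) := by
  have h1 : ∀ (n : ℕ) (c : K), w.Ge (n * w.v (ι X)) (ι (C c * X ^ n)) := fun n c => by
    rw [map_mul, map_pow]
    exact DV.Ge.mul_left (Or.inr (ht c).ge) ((DV.ge_self _).pow n)
  have h2 : ∀ q : K[X], w.Ge (q.natDegree * w.v (ι X)) (ι q) := fun q => by
    conv_rhs => rw [q.as_sum_range_C_mul_X_pow, map_sum]
    refine DV.ge_sum _ fun i hi => (h1 i _).mono ?_
    have : (i : ℤ) ≤ q.natDegree := by simpa [Nat.lt_succ_iff] using hi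
    nlinarith
  have h3 : ι (C p.leadingCoeff * X ^ p.natDegree) ≠ 0 := by
    rw [map_ne_zero_iff ι hi]; simpa using hp
  have h4 : w.v (ι (C p.leadingCoeff * X ^ p.natDegree)) = p.natDegree * w.v (ι X) := by
    rw [map_mul] at h3 ⊢
    rw [w.v_mul (left_ne_zero_of_mul h3) (right_ne_zero_of_mul h3), ht, map_pow, w.v_pow, zero_add]
  conv_lhs => rw [← p.eraseLead_add_C_mul_X_pow, add_comm, map_add]
  rw [(DV.add_of_lt h3 ?_).2, h4]
  rcases p.eraseLead_natDegree_lt_or_eraseLead_eq_zero with h | h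
  · refine (h2 _).mono ?_
    have : (p.eraseLead.natDegree : ℤ) + 1 ≤ p.natDegree := by exact_mod_cast h
    nlinarith
  · rw [h, map_zero]; exact DV.ge_zero _

variable (ι u) in
/-- Finite places away from the branch points. -/
structure Good (w : DV M) : Prop where
  norm : w.Norm
  triv : ∀ c, w.v (ι (C c)) = 0
  fin : w.Ge 0 (ι X)
  unit : w.v u = 0

theorem Good.ge (g : Good ι u w) (p : K[X]) : w.Ge 0 (ι p) := ge_poly g.triv g.fin p

theorem Good.comap (g : Good ι u w) (c : M ≃+* M) (h1 : ∀ x, c (ι x) = ι x) (h2 : c u = -u) :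
    Good ι u (w.comap (c : M →+* M)) :=
  ⟨g.norm.comap c, fun x => by simpa [DV.comap, h1] using g.triv x,
    by simpa [DV.comap_ge, h1] using g.fin, by simpa [DV.comap, h2] using g.unit⟩

theorem v_two (ht : ∀ c, w.v (ι (C c)) = 0) : w.v 2 = 0 := by simpa [map_ofNat] using ht 2

variable [CharZero K] (h : QuadF ι u φ)

include h

theorem QuadF.two_ne : (2 : M) ≠ 0 := by simpa [map_ofNat] using h.ne0 (x := 2) two_ne_zero

theorem QuadF.not_both (g : Good ι u w) {r : M} (h1 : w.Ge 1 (u - r)) (h2 : w.Ge 1 (u + r)) :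
    False := by
  have := (h1.add h2).le (by rw [show u - r + (u + r) = 2 * u by ring]; exact mul_ne_zero h.two_ne h.u_ne)
  rw [show u - r + (u + r) = 2 * u by ring, w.v_mul h.two_ne h.u_ne, v_two g.triv, g.unit] at this
  omega

theorem QuadF.ge_or (g : Good ι u w) {p v : K[X]} (h1 : w.Ge 1 (ι p)) (h2 : p ∣ v ^ 2 - φ) :
    w.Ge 1 (u - ι v) ∨ w.Ge 1 (u + ι v) := by
  obtain ⟨q, hq⟩ := h2
  refine DV.prime_ge ((h.ge_u g.ge).sub (g.ge v)) ((h.ge_u g.ge).add (g.ge v)) ?_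
  have := (h1.mul_right (g.ge q)).neg
  rwa [← map_mul, ← hq, map_sub, map_pow, ← h.sq, show -(ι v ^ 2 - u ^ 2) =
    (u - ι v) * (u + ι v) by ring] at this

theorem QuadF.eq_or_split (g : Good ι u w) (g' : Good ι u w') {p : K[X]} (hp : Prime p)
    (h1 : w.Ge 1 (ι p)) (h1' : w'.Ge 1 (ι p)) :
    (∀ v, w.Ge 1 (u - ι v) → w'.Ge 1 (u - ι v) → w = w') ∧ ((∀ v, ¬ p ∣ v ^ 2 - φ) → w = w') := by
  obtain ⟨S, hS, hu2, hg⟩ := h.exists_subfield
  have h2 : ∀ {w}, Good ι u w → w.Ge 1 (ι p) → ∀ a, ¬ p ∣ a → w.v (ι a) = 0 := fun g h1 a ha =>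
    (DV.v_eq_zero (g.ge a) (mt (dvd_of_ge_one g.ge hp h1) ha)).2
  have ha : 0 < w'.v (ι p) := h1'.le (h.ne0 hp.ne_zero)
  have hb : 0 < w.v (ι p) := h1.le (h.ne0 hp.ne_zero)
  have hab : ∀ x ∈ S, w'.v (ι p) * w.v x = w.v (ι p) * w'.v x := fun x hx => by
    obtain ⟨x, z, rfl⟩ := (hS x).mp hx
    exact h.prop_frac (DV.prop_of_prime h.inj hp (h2 g h1) (h2 g' h1')) x z
  refine ⟨fun v h3 h3' => ?_, fun hv => ?_⟩
  · obtain ⟨h4, h5⟩ := DV.add_of_lt h.u_ne (y := -(u - ι v)) (by rw [g.unit]; exact h3.neg)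
    rw [show u + -(u - ι v) = ι v by ring] at h4 h5
    exact DV.eq_of_split hg g.norm g'.norm ha hb hab hu2 (v_two g.triv) h.two_ne
      ((hS _).mpr ⟨v, 1, by simp⟩) h4 (h5.trans g.unit) h3 h3'
  · refine DV.eq_of_inert hg g.norm g'.norm ha hb hab hu2 (v_two g.triv) h.two_ne g.unit h.u_ne
      fun x hx h3 => ?_
    obtain ⟨h4, h5⟩ := DV.add_of_lt (w := w) (pow_ne_zero 2 h.u_ne) (y := x ^ 2 - u ^ 2)
      (by simpa [g.unit] using h3)
    rw [add_sub_cancel] at h4 h5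
    rw [w.v_pow, w.v_pow, g.unit] at h5
    obtain ⟨a, z, rfl⟩ := (hS x).mp hx
    have hz : z ≠ 0 := by rintro rfl; simp at h4
    obtain ⟨z, a, c, hr, rfl, rfl⟩ := UniqueFactorizationMonoid.exists_reduced_factors z hz a
    rw [map_mul, map_mul, mul_div_mul_left _ _ (h.ne0 (left_ne_zero_of_mul hz))] at h3 h4 h5
    have hz' := h.ne0 (right_ne_zero_of_mul hz)
    have ha' : ι a ≠ 0 := fun e => h4 (by simp [e])
    rw [w.v_div ha' hz'] at h5
    have h6 : ¬ p ∣ z := fun ⟨z', e⟩ => hp.not_isUnit (hr ⟨z', e⟩ (dvd_of_ge_one g.ge hp h1 (by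
      have := (h1.mul_right (g.ge z')).le (by rw [← map_mul, ← e]; exact hz')
      rw [← map_mul, ← e] at this
      exact Or.inr (by omega))))
    have h7 : p ∣ a ^ 2 - z ^ 2 * φ := dvd_of_ge_one g.ge hp h1 (by
      have := h3.mul_right ((g.ge z).pow0 2)
      rwa [show ((ι a / ι z) ^ 2 - u ^ 2) * ι z ^ 2 = ι (a ^ 2 - z ^ 2 * φ) by
        simp only [map_sub, map_mul, map_pow, ← h.sq]; field_simp] at this)
    obtain ⟨x, t, e⟩ := hp.irreducible.coprime_iff_not_dvd.mpr h6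
    refine hv (a * t) ?_
    have := (h7.mul_right (t ^ 2)).sub (dvd_mul_right p (x * (t * z + 1) * φ))
    convert this using 1
    linear_combination (t * z + 1) * φ * e

theorem QuadF.pair (c : M ≃+* M) (c1 : ∀ x, c (ι x) = ι x) (c2 : c u = -u) (g : Good ι u w)
    (g' : Good ι u w') {p : K[X]} (hp : Prime p) (h1 : w.Ge 1 (ι p)) (h1' : w'.Ge 1 (ι p)) :
    w' = w ∨ w' = w.comap (c : M →+* M) := by
  by_cases hv : ∃ v, p ∣ v ^ 2 - φ
  · obtain ⟨v, hv⟩ := hv
    have key : ∀ v, w'.Ge 1 (u - ι v) → w.Ge 1 (u - ι v) ∨ w.Ge 1 (u + ι v) →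
        w' = w ∨ w' = w.comap (c : M →+* M) := fun v h2 h3 => h3.imp
      (fun h3 => (h.eq_or_split g' g hp h1' h1).1 v h2 h3) fun h3 =>
        (h.eq_or_split g' (g.comap c c1 c2) hp h1' (by simpa [DV.comap_ge, c1] using h1)).1 v h2
          (by rw [DV.comap_ge]; convert h3.neg using 1; simp [c1, c2]; ring)
    rcases h.ge_or g' h1' hv with h2 | h2
    · exact key v h2 (h.ge_or g h1 hv)
    · exact key (-v) (by simpa using h2) (h.ge_or g h1 (by simpa using hv))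
  · exact Or.inl ((h.eq_or_split g' g hp h1' h1).2 fun v h2 => hv ⟨v, h2⟩)

theorem QuadF.eq_inf (hd : φ.natDegree = 4) (hl : ¬ IsSquare φ.leadingCoeff) (hn : w.Norm)
    (hn' : w'.Norm) (ht : ∀ c, w.v (ι (C c)) = 0) (ht' : ∀ c, w'.v (ι (C c)) = 0)
    (hX : w.v (ι X) < 0) (hX' : w'.v (ι X) < 0) : w = w' := by
  obtain ⟨S, hS, hu2, hg⟩ := h.exists_subfield
  have hs : ι X ∈ S := (hS _).mpr ⟨X, 1, by simp⟩
  have hs0 := h.ne0 (X_ne_zero (R := K))
  have hφ : φ ≠ 0 := by rintro rfl; simp at hd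
  have h1 := v_poly_inf h.inj ht hX hφ
  rw [← h.sq, w.v_pow, hd] at h1
  refine DV.eq_of_inert (S := S) (u := u / ι X ^ 2) (a := -w'.v (ι X)) (b := -w.v (ι X))
    (fun g => ?_) hn hn' (by omega) (by omega) (fun x hx => ?_)
    (by rw [div_pow]; exact div_mem hu2 (pow_mem (pow_mem hs 2) 2)) (v_two ht) h.two_ne
    (by rw [w.v_div h.u_ne (pow_ne_zero 2 hs0), w.v_pow]; omega)
    (div_ne_zero h.u_ne (pow_ne_zero 2 hs0)) fun x hx h2 => ?_
  · obtain ⟨x, hx, y, hy, rfl⟩ := hg g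
    exact ⟨x, hx, y * ι X ^ 2, mul_mem hy (pow_mem hs 2), by field_simp⟩
  · obtain ⟨x, z, rfl⟩ := (hS x).mp hx
    refine h.prop_frac (fun x => ?_) x z
    by_cases hx : x = 0
    · simp [hx]
    · rw [v_poly_inf h.inj ht hX hx, v_poly_inf h.inj ht' hX' hx]; ring
  · obtain ⟨a, z, rfl⟩ := (hS x).mp hx
    wlog hz : z ≠ 0 generalizing a z
    · exact this 0 1 (by simp) (by simpa [not_not.mp hz] using h2) one_ne_zero
    have hz' := h.ne0 hz
    rw [show (ι a / ι z) ^ 2 - (u / ι X ^ 2) ^ 2 = ι (a ^ 2 * X ^ 4 - z ^ 2 * φ) / ι (z ^ 2 * X ^ 4)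
      by simp only [map_sub, map_mul, map_pow, ← h.sq]; field_simp] at h2
    have h3 : (a ^ 2 * X ^ 4 - z ^ 2 * φ).degree < (z ^ 2 * φ).degree := by
      by_cases h0 : a ^ 2 * X ^ 4 - z ^ 2 * φ = 0
      · rw [h0, degree_zero, bot_lt_iff_ne_bot, Ne, degree_eq_bot]
        exact mul_ne_zero (pow_ne_zero 2 hz) hφ
      have h4 : z ^ 2 * X ^ 4 ≠ 0 := mul_ne_zero (pow_ne_zero 2 hz) (pow_ne_zero 4 X_ne_zero)
      have h5 := h2.le (div_ne_zero (h.ne0 h0) (h.ne0 h4))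
      rw [w.v_div (h.ne0 h0) (h.ne0 h4), v_poly_inf h.inj ht hX h0, v_poly_inf h.inj ht hX h4,
        natDegree_mul (pow_ne_zero 2 hz) (pow_ne_zero 4 X_ne_zero), natDegree_X_pow] at h5
      refine degree_lt_degree ?_
      rw [natDegree_mul (pow_ne_zero 2 hz) hφ, hd]
      zify at h5 ⊢
      nlinarith
    have h4 := leadingCoeff_add_of_degree_lt' h3
    rw [add_sub_cancel, leadingCoeff_mul, leadingCoeff_mul, leadingCoeff_X_pow, leadingCoeff_pow,
      leadingCoeff_pow] at h4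
    refine hl ⟨a.leadingCoeff / z.leadingCoeff, ?_⟩
    have := leadingCoeff_ne_zero.mpr hz
    field_simp
    linear_combination -h4

end Pool.Agent.Work.MP_475c1a_ag
end

-- merged part: Pool.Agent.Work.MP_475c1a_ag.LocFact
section
/-! Every Weil divisor on the del Pezzo surface is locally principal. -/

namespace Pool.Agent.Work.MP_475c1a_ag

open AlgebraicGeometry IsLocalRing MvPolynomial

set_option linter.unusedSectionVars false
set_option maxHeartbeats 400000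

theorem exists_gen {O : Type} [CommRing O] [IsLocalRing O] [IsNoetherianRing O] {a b : O}
    (hm : maximalIdeal O = Ideal.span {a, b}) {P : Ideal O} (hP : P.IsPrime) (ha : a ∉ P) :
    ∃ p ∈ P, ∀ x ∈ P, p ∣ x := by
  classical
  have h1 : a ∈ maximalIdeal O := hm ▸ Ideal.subset_span (by simp)
  have h2 : b ∈ maximalIdeal O := hm ▸ Ideal.subset_span (by simp)
  suffices ∃ p ∈ P, ∀ x ∈ P, ∃ y z, x = p * y + a * z by
    obtain ⟨p, hp, h3⟩ := this
    refine ⟨p, hp, fun x hx => Ideal.mem_span_singleton.mp (Submodule.le_of_le_smul_of_le_jacobson_bot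
      (N := Ideal.span {p}) (IsNoetherian.noetherian P) (maximalIdeal_le_jacobson ⊥)
        (fun x hx => ?_) hx)⟩
    obtain ⟨y, z, rfl⟩ := h3 x hx
    exact Submodule.add_mem_sup (Ideal.mem_span_singleton.mpr (dvd_mul_right _ _))
      (Submodule.smul_mem_smul h1 ((hP.mem_or_mem ((add_mem_cancel_left
        (P.mul_mem_right y hp)).mp hx)).resolve_left ha))
  by_cases h3 : ∃ n, ∃ x ∈ P, ¬ ∃ y z, x = b ^ n * y + a * z
  · obtain ⟨p, hp, h4⟩ := Nat.find_spec h3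
    obtain ⟨n, hn⟩ := Nat.exists_eq_succ_of_ne_zero (n := Nat.find h3) fun e =>
      h4 ⟨p, 0, by rw [e]; simp⟩
    have h5 := Nat.find_min h3 (hn ▸ n.lt_succ_self)
    push Not at h5
    obtain ⟨e, c, h6⟩ := h5 p hp
    obtain ⟨e', he⟩ := (notMem_maximalIdeal.mp fun h7 : e ∈ maximalIdeal O => by
      obtain ⟨r, t, rfl⟩ := Ideal.mem_span_pair.mp (hm ▸ h7)
      exact h4 ⟨t, c + b ^ n * r, by rw [h6, hn, pow_succ]; ring⟩).exists_right_inv
    refine ⟨p, hp, fun x hx => ?_⟩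
    obtain ⟨y, z, rfl⟩ := h5 x hx
    exact ⟨e' * y, z - c * e' * y, by rw [h6]; linear_combination (-b ^ n * y) * he⟩
  · push Not at h3
    have h4 : Ideal.span {a} ≠ ⊤ := fun e => h1 (Ideal.span_singleton_eq_top.mp e)
    have := Ideal.Quotient.nontrivial_iff.mpr h4
    have := IsLocalRing.of_surjective' _ (Ideal.Quotient.mk_surjective (I := Ideal.span {a}))
    have h5 := (Ideal.span {Ideal.Quotient.mk (Ideal.span {a}) b}).iInf_pow_eq_bot_of_isLocalRing
      fun e => by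
        obtain ⟨y, hy⟩ := (Ideal.span_singleton_eq_top.mp e).exists_right_inv
        obtain ⟨y, rfl⟩ := Ideal.Quotient.mk_surjective y
        rw [← map_mul, ← map_one (Ideal.Quotient.mk _), Ideal.Quotient.eq] at hy
        have := sub_mem (Ideal.mul_mem_right y _ h2) ((Ideal.span_singleton_le_iff_mem _).mpr h1 hy)
        simp at this
    refine ⟨0, zero_mem _, fun x hx => ?_⟩
    obtain ⟨z, hz⟩ := Ideal.mem_span_singleton.mp ((Ideal.Quotient.eq_zero_iff_mem (a := x)).mp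
      (Ideal.mem_bot.mp (h5 ▸ Ideal.mem_iInf.mpr fun n => by
        obtain ⟨y, z, rfl⟩ := h3 n x hx
        rw [Ideal.span_singleton_pow, Ideal.mem_span_singleton, map_add, map_mul, map_mul,
          Ideal.Quotient.eq_zero_iff_mem.mpr (Ideal.mem_span_singleton_self a), map_pow]
        simp)))
    exact ⟨0, z, by simpa using hz⟩

section Local

variable {R L ι : Type} [CommRing R] [IsDomain R] [Algebra ℂ R] [Field L] {𝒜 : ℕ → Submodule ℂ R}
  [GradedAlgebra 𝒜] {θ : R →+* L} {s : R} {P : ι → Ideal R} {v : ι → DV L} (H : HModel 𝒜 θ s P v)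
  {Q : Ideal R} (hQ : Q.IsPrime) {l : R} (hl : l ∈ 𝒜 1) (hlQ : l ∉ Q) {O : Subring L}
  [IsLocalRing O] [IsNoetherianRing O]
  (h : ∀ g, g ∈ O ↔ ∃ d p q, p ∈ 𝒜 d ∧ q ∈ 𝒜 d ∧ q ∉ Q ∧ g = θ p / θ q)

include H hQ h in
theorem HModel.mem_max {d : ℕ} {p q : R} (hp : p ∈ 𝒜 d) (hq : q ∈ 𝒜 d) (h1 : q ∉ Q) {a : O}
    (ha : (a : L) = θ p / θ q) : a ∈ maximalIdeal O ↔ p ∈ Q := by
  have h2 := fun {d q} (hq : q ∈ 𝒜 d) (h1 : q ∉ Q) => H.ne hq fun e => h1 (e ▸ zero_mem Q)
  refine ⟨fun h3 => by_contra fun h4 => h3 (.of_mul_eq_one ⟨_, (h _).mpr ⟨d, q, p, hq, hp, h4, rfl⟩⟩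
    (Subtype.ext ?_)), fun h3 h4 => ?_⟩
  · have := h2 hp h4
    have := h2 hq h1
    simp only [Subring.coe_mul, ha, Subring.coe_one]
    field_simp
  · obtain ⟨⟨b, hb⟩, h5⟩ := h4.exists_right_inv
    obtain ⟨e, p', q', hp', hq', h6, rfl⟩ := (h b).mp hb
    have h7 : (a : L) * (θ p' / θ q') = 1 := congrArg Subtype.val h5
    rw [ha, div_mul_div_comm, div_eq_one_iff_eq (mul_ne_zero (h2 hq h1) (h2 hq' h6)), ← map_mul,
      ← map_mul] at h7
    exact (hQ.mem_or_mem (H.inj (SetLike.mul_mem_graded hp hp') (SetLike.mul_mem_graded hq hq') h7 ▸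
      Q.mul_mem_right p' h3)).elim h1 h6

include H hQ hl hlQ h in
theorem HModel.loc_principal {a b : O} (hm : maximalIdeal O = Ideal.span {a, b}) (i : ι) :
    ∃ g ≠ 0, ∀ k, P k ≤ Q → Finsupp.single i 1 k = (v k).v g := by
  by_cases hi : P i ≤ Q
  swap
  · exact ⟨1, one_ne_zero, fun k hk => by
      rw [Finsupp.single_eq_of_ne (by rintro rfl; exact hi hk), DV.v_one]⟩
  have h1 : ∀ k, P k ≤ Q → ∀ x, (v k).Ge 0 (O.subtype x) := fun k hk x => by
    obtain ⟨d, p, q, hp, hq, h1, e⟩ := (h x).mp x.2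
    exact (H.ge_iff k _).mpr ⟨d, p, q, hp, hq, fun h2 => h1 (hk h2), e⟩
  have h2 : ∀ d, l ^ d ∈ 𝒜 d := fun d => by simpa using SetLike.pow_mem_graded d hl
  have h3 : ∀ d, l ^ d ∉ Q := fun d e => hlQ (hQ.mem_of_pow_mem d e)
  have h4 : ∀ {d p}, p ∈ 𝒜 d → θ p / θ (l ^ d) ∈ O := fun hp =>
    (h _).mpr ⟨_, _, _, hp, h2 _, h3 _, rfl⟩
  have h5 : ∀ k k', (∀ d, ∀ p ∈ 𝒜 d, p ∈ P k → p ∈ P k') → k = k' := fun k k' h5 =>
    H.P_inj ((H.min k' _ (H.prime k) (H.homog k) fun x hx => by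
      classical
      rw [← DirectSum.sum_support_decompose 𝒜 x]
      exact sum_mem fun d _ => h5 d _ (SetLike.coe_mem _) (H.homog k d hx)).resolve_left (H.ne_bot k))
  obtain ⟨t, ht, h6⟩ := H.norm i
  by_cases h7 : maximalIdeal O ≤ (v i).cen O.subtype (h1 i hi)
  · refine ⟨t, ht, fun k hk => ?_⟩
    obtain rfl := h5 k i fun d p hp h8 => (H.ge_one_iff i hp (h2 d) fun e => h3 d (hi e)).mp
      (h7 ((H.mem_max hQ h hp (h2 d) (h3 d) (a := ⟨_, h4 hp⟩) rfl).mpr (hk h8)))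
    rw [h6, Finsupp.single_eq_same]
  obtain ⟨p, hp, h8⟩ : ∃ p ∈ (v i).cen O.subtype (h1 i hi),
      ∀ x ∈ (v i).cen O.subtype (h1 i hi), p ∣ x := by
    by_cases ha : a ∈ (v i).cen O.subtype (h1 i hi)
    · refine exists_gen (hm.trans Ideal.span_pair_comm) inferInstance fun hb => h7 ?_
      rw [hm, Ideal.span_le]
      rintro _ (rfl | rfl)
      exacts [ha, hb]
    · exact exists_gen hm inferInstance ha
  obtain ⟨d, x, y, hx, hy, h9, rfl⟩ := (H.ge_iff i t).mp (Or.inr (by omega))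
  obtain ⟨c, hc⟩ := h8 ⟨_, h4 hx⟩ ((H.ge_one_iff i hx (h2 d) fun e => h3 d (hi e)).mpr
    ((H.ge_one_iff i hx hy h9).mp (Or.inr h6.ge)))
  replace hc : θ x / θ (l ^ d) = p * c := congrArg Subtype.val hc
  have h10 := DV.v_eq_zero (x := θ y / θ (l ^ d)) (h1 i hi ⟨_, h4 hy⟩) fun e =>
    h9 ((H.ge_one_iff i hy (h2 d) fun e => h3 d (hi e)).mp e)
  have h11 : (p : L) * c = θ x / θ y * (θ y / θ (l ^ d)) := by
    rw [← hc, div_mul_div_cancel₀ (div_ne_zero_iff.mp h10.1).1]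
  have h12 := h11 ▸ mul_ne_zero ht h10.1
  refine ⟨p, left_ne_zero_of_mul h12, fun k hk => ?_⟩
  by_cases e : k = i
  · have h13 := congrArg (v i).v h11
    rw [DV.v_mul _ (left_ne_zero_of_mul h12) (right_ne_zero_of_mul h12), DV.v_mul _ ht h10.1, h6,
      h10.2] at h13
    have : 1 ≤ (v i).v p := DV.Ge.le hp (left_ne_zero_of_mul h12)
    have : 0 ≤ (v i).v c := (h1 i hi c).nonneg
    rw [e, Finsupp.single_eq_same]
    omega
  · rw [Finsupp.single_eq_of_ne e]
    refine (DV.v_eq_zero (h1 k hk p) fun h13 => e (h5 i k fun d x hx h14 => ?_).symm).2.symm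
    obtain ⟨c, hc⟩ := h8 ⟨_, h4 hx⟩ ((H.ge_one_iff i hx (h2 d) fun e => h3 d (hi e)).mpr h14)
    refine (H.ge_one_iff k hx (h2 d) fun e => h3 d (hk e)).mp ?_
    rw [show θ x / θ (l ^ d) = p * c from congrArg Subtype.val hc]
    exact h13.mul_right (h1 k hk c)

end Local

theorem taylor_two {n : ℕ} (c : Fin n → ℂ) (p : MvPolynomial (Fin n) ℂ) :
    p - C (eval c p) ∈ Ideal.span (Set.range fun i => X i - C (c i)) ∧
      p - C (eval c p) - ∑ i, C (eval c (pderiv i p)) * (X i - C (c i)) ∈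
        Ideal.span (Set.range fun i => X i - C (c i)) ^ 2 := by
  classical
  induction p using MvPolynomial.induction_on with
  | C a => simp
  | add p q hp hq =>
    refine ⟨?_, ?_⟩
    · convert add_mem hp.1 hq.1 using 1; simp only [map_add]; ring
    · convert add_mem hp.2 hq.2 using 1; simp only [map_add, add_mul, Finset.sum_add_distrib]; ring
  | mul_X p i hp =>
    have h := Ideal.subset_span (s := Set.range fun i => X i - C (c i)) ⟨i, rfl⟩
    refine ⟨?_, ?_⟩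
    · convert add_mem (Ideal.mul_mem_right (C (c i)) _ hp.1) (Ideal.mul_mem_left _ p h) using 1
      simp only [map_mul, eval_X]; ring
    · convert add_mem (Ideal.mul_mem_right (C (c i)) _ hp.2)
        (show (p - C (eval c p)) * (X i - C (c i)) ∈ _ ^ 2 by
          rw [sq]; exact Ideal.mul_mem_mul hp.1 h) using 1
      simp only [Derivation.leibniz, pderiv_X, smul_eq_mul, map_add, map_mul, eval_X, Pi.single_apply,
        apply_ite (eval c), apply_ite C, map_zero, mul_ite, mul_one, mul_zero, add_mul, ite_mul,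
        zero_mul, Finset.sum_add_distrib, Finset.sum_ite_eq, Finset.mem_univ, if_true, mul_assoc,
        ← Finset.mul_sum]
      ring

theorem two_gen {O : Type} [CommRing O] [IsLocalRing O] [IsNoetherianRing O]
    (ψ : MvPolynomial (Fin 4) ℂ →+* O) {c : Fin 4 → ℂ} {F : MvPolynomial (Fin 4) ℂ} (h1 : ψ F = 0)
    (h2 : eval c F = 0) {j k : Fin 4} (h3 : j ≠ k) (h4 : ψ (X j - C (c j)) = 0)
    (h5 : eval c (pderiv k F) ≠ 0) (h6 : ∀ i, ψ (X i - C (c i)) ∈ maximalIdeal O)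
    (h7 : ∀ x ∈ maximalIdeal O, ∃ p y, eval c p = 0 ∧ x = ψ p * y) :
    ∃ a b, maximalIdeal O = Ideal.span {a, b} := by
  obtain ⟨a, b, h8⟩ := (by decide : ∀ j k : Fin 4, j ≠ k → ∃ a b : Fin 4,
    Finset.univ = {j, k, a, b} ∧ j ∉ ({k, a, b} : Finset _) ∧ k ∉ ({a, b} : Finset _) ∧
      a ∉ ({b} : Finset _)) j k h3
  have h9 : (Ideal.span (Set.range fun i => X i - C (c i))).map ψ ≤ maximalIdeal O := by
    rw [Ideal.map_le_iff_le_comap, Ideal.span_le]
    rintro _ ⟨i, rfl⟩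
    exact h6 i
  refine ⟨ψ (X a - C (c a)), ψ (X b - C (c b)), le_antisymm (Submodule.le_of_le_smul_of_le_jacobson_bot
    (IsNoetherian.noetherian _) (maximalIdeal_le_jacobson ⊥) fun x hx => ?_) ?_⟩
  · obtain ⟨p, y, hp, rfl⟩ := h7 x hx
    have h10 := (taylor_two c p).1
    rw [hp, map_zero, sub_zero] at h10
    refine Ideal.mul_mem_right _ _ (Ideal.mem_comap.mp (Ideal.span_le.mpr ?_ h10))
    rintro _ ⟨i, rfl⟩
    have ha := Ideal.mem_sup_left (T := maximalIdeal O • maximalIdeal O) (Ideal.subset_span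
      (s := {ψ (X a - C (c a)), ψ (X b - C (c b))}) (Or.inl rfl))
    have hb := Ideal.mem_sup_left (T := maximalIdeal O • maximalIdeal O) (Ideal.subset_span
      (s := {ψ (X a - C (c a)), ψ (X b - C (c b))}) (Or.inr rfl))
    have hi := h8.1 ▸ Finset.mem_univ i
    simp only [Finset.mem_insert, Finset.mem_singleton] at hi
    rw [SetLike.mem_coe, Ideal.mem_comap]
    rcases hi with rfl | rfl | rfl | rfl
    · exact h4 ▸ zero_mem _
    · have h11 := Ideal.mem_map_of_mem ψ (taylor_two c F).2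
      rw [Ideal.map_pow, h2, map_zero, sub_zero, map_sub, h1, zero_sub, neg_mem_iff, h8.1,
        Finset.sum_insert h8.2.1, Finset.sum_insert h8.2.2.1, Finset.sum_insert h8.2.2.2,
        Finset.sum_singleton] at h11
      simp only [map_add, map_mul, h4, mul_zero, zero_add] at h11
      replace h11 := Ideal.mem_sup_right (S := Ideal.span {ψ (X a - C (c a)), ψ (X b - C (c b))})
        ((Ideal.pow_right_mono h9 2).trans (sq _).le h11)
      exact (Ideal.unit_mul_mem_iff_mem _ ((h5.isUnit.map C).map ψ)).mp ((add_mem_cancel_right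
        (add_mem (Ideal.mul_mem_left _ _ ha) (Ideal.mul_mem_left _ _ hb))).mp h11)
    exacts [ha, hb]
  · rw [Ideal.span_le]
    rintro _ (rfl | rfl)
    exacts [h6 a, h6 b]

theorem weilIsCartier_of {W : CScheme} (h : ∀ (i : PrimeDiv (under.obj W)) (x : under.obj W),
    ∃ E ∈ principal (under.obj W), ∀ y : PrimeDiv (under.obj W), y.1 ⤳ x →
      Finsupp.single i 1 y = E y) : WeilIsCartier W := fun D x => by
  classical
  let S : AddSubgroup (PrimeDiv (under.obj W) →₀ ℤ) :=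
    { carrier := {D | ∃ E ∈ principal (under.obj W), ∀ y : PrimeDiv (under.obj W), y.1 ⤳ x → D y = E y}
      zero_mem' := ⟨0, zero_mem _, fun _ _ => rfl⟩
      add_mem' := fun ⟨E, a, b⟩ ⟨E', a', b'⟩ => ⟨E + E', add_mem a a', fun y hy => by
        simp [b y hy, b' y hy]⟩
      neg_mem' := fun ⟨E, a, b⟩ => ⟨-E, neg_mem a, fun y hy => by simp [b y hy]⟩ }
  obtain ⟨E, h1, h2⟩ : D ∈ S := mem_of_single fun i _ => h i x
  refine ⟨⋂ y ∈ (D - E).support, (closure {y.1})ᶜ, isOpen_biInter_finset fun y _ =>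
    isClosed_closure.isOpen_compl, Set.mem_iInter₂.mpr fun y hy h3 => ?_, E, h1, fun y hy => ?_⟩
  · simp [h2 y (specializes_iff_mem_closure.mpr h3)] at hy
  · by_contra h3
    exact Set.mem_iInter₂.mp hy y (by simpa [sub_eq_zero] using h3) (subset_closure rfl)

theorem dp_point {f : MvPolynomial (Fin 3) ℂ} (hf : f.IsHomogeneous 4) {Q : Ideal (dp hf).Ring}
    (hQ : Q.IsPrime) (h : ∃ d t, 0 < d ∧ t ∈ (dp hf).piece d ∧ t ∉ Q) :
    ∃ (c : Fin 4 → ℂ) (j : Fin 3), c j.succ ≠ 0 ∧ ∀ p, (dp hf).mk' p ∈ Q → eval c p = 0 := by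
  obtain ⟨j, hj⟩ : ∃ j : Fin 3, (dp hf).mk' (X j.succ) ∉ Q := by
    by_contra! h1
    have h2 : ∀ {n : ℕ} {wt : Fin n → ℕ} {d : ℕ} (φ : MvPolynomial (Fin n) ℂ →+* (dp hf).Ring),
        0 < d → (∀ i, φ (X i) ∈ Q) → ∀ p, p.IsWeightedHomogeneous wt d → φ p ∈ Q :=
      fun φ hd h2 p hp => whom_induction (P := fun p => φ p ∈ Q) (by simp)
        (fun p q a b => by simpa using add_mem a b) (fun m c e => by
          obtain ⟨i, hi⟩ : ∃ i, m i ≠ 0 := by_contra fun h3 => hd.ne (by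
            simp [← e, not_exists_not.mp h3])
          rw [map_mul, map_prod]
          exact Q.mul_mem_left _ (Q.mem_of_dvd (Finset.dvd_prod_of_mem _ (Finset.mem_univ i))
            (map_pow φ _ _ ▸ Q.pow_mem_of_mem (h2 i) _ (Nat.pos_of_ne_zero hi)))) hp
    obtain ⟨d, _, hd, ⟨p, hp, rfl⟩, h3⟩ := h
    refine h3 (h2 (dp hf).mk'.toRingHom hd (Fin.cases (hQ.mem_of_pow_mem 2 ?_) h1) p hp)
    exact ((dp hf).quad (F := f) rfl).sq ▸ h2 (dp hf).base four_pos
      (fun i => by rw [WHyp.base_apply, rename_X]; exact h1 i) f hf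
  have := hQ.comap (dp hf).mk'.toRingHom
  by_contra! h1
  refine hj (this.radical.le ((vanishingIdeal_zeroLocus_eq_radical (K := ℂ) _).le
    fun c hc => by_contra fun h2 => ?_))
  obtain ⟨p, h3, h4⟩ := h1 c j (by simpa using h2)
  exact h4 (by simpa using hc p h3)

theorem dp_smooth {f : MvPolynomial (Fin 3) ℂ} (hf : f.IsHomogeneous 4) (hs : IsSmoothForm f)
    {c : Fin 4 → ℂ} {j : Fin 3} (h1 : c j.succ = 1) (h2 : eval c (dp hf).eqn = 0) :
    ∃ k, j.succ ≠ k ∧ eval c (pderiv k (dp hf).eqn) ≠ 0 := by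
  by_contra! h3
  have h4 : c 0 = 0 := by
    simpa [dp, pderiv_eq_zero_of_notMem_vars (show 0 ∉ (rename Fin.succ f).vars from fun e => by
      simpa using mem_vars_rename _ _ e)] using h3 0 (Fin.succ_ne_zero j)
  have h5 : ∀ i ≠ j, eval (c ∘ Fin.succ) (pderiv i f) = 0 := fun i hi => by
    simpa [dp, pderiv_rename (Fin.succ_injective 3), eval_rename, Pi.single_eq_of_ne
      (Fin.succ_ne_zero i).symm] using h3 i.succ (by simpa using hi.symm)
  have h6 := euler hf (c ∘ Fin.succ)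
  obtain ⟨i, hi⟩ := hs (c ∘ Fin.succ) fun e => one_ne_zero (h1.symm.trans (congrFun e j))
  obtain rfl : i = j := by_contra fun e => hi (h5 i e)
  simp only [dp, map_sub, map_pow, eval_X, h4, eval_rename] at h2
  simp only [aeval_def, Algebra.algebraMap_self, eval₂_id, show eval (c ∘ Fin.succ) f = 0 by
    simpa using h2] at h6
  rw [← Fin.sum_univ_three fun i => (c ∘ Fin.succ) i * eval (c ∘ Fin.succ) (pderiv i f),
    Finset.sum_eq_single i (fun k _ hk => by rw [h5 k hk, mul_zero]) (by simp)] at h6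
  simp [h1, hi] at h6

theorem dp_cartier {f : MvPolynomial (Fin 3) ℂ} (hf : f.IsHomogeneous 4) (hs : IsSmoothForm f) :
    WeilIsCartier (delPezzo hf) := by
  have hq := (dp hf).quad (F := f) rfl
  have := hq.isDomain (nonsq fun ⟨r, e⟩ => (prime_form hf hs).not_isUnit (by
    have := squarefree_form hf hs r e.symm.dvd
    exact e ▸ this.mul this))
  have := hq.isIntegrallyClosed isUnit_two (squarefree_form hf hs)
  have := (dp hf).finiteType
  have h0 : (dp hf).mk' (X 1) ≠ 0 := by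
    rw [show (dp hf).mk' (X 1) = (dp hf).base (X 0) by rw [WHyp.base_apply, rename_X]; rfl,
      map_ne_zero_iff _ hq.inj]; simp
  have h1 : (dp hf).mk' (X 1) ∈ (dp hf).piece 1 := (dp hf).X_mem 1
  have := isIntegral_proj _ h1 h0
  have := isLocallyNoetherian_proj _ ((dp hf).piece_zero fun i => by fin_cases i <;> simp [dp])
  have : IsNoetherianRing (dp hf).Ring := Algebra.FiniteType.isNoetherianRing ℂ _
  obtain ⟨v, h2, H⟩ := exists_hmodel _ h1 h0
  refine weilIsCartier_of fun i (x : Proj (dp hf).piece) => ?_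
  obtain ⟨c, j, h3, h4⟩ := dp_point hf (pid_prime _ x) (exists_pos_notMem _ x)
  let χ : (dp hf).Ring →+* ℂ := Ideal.Quotient.lift _ (eval c) fun p hp =>
    h4 p (Ideal.Quotient.eq_zero_iff_mem.mpr hp ▸ zero_mem _)
  have hw : (dp hf).wt j.succ = 1 := by fin_cases j <;> rfl
  have hl : (dp hf).mk' (X j.succ) ∈ (dp hf).piece 1 := hw ▸ (dp hf).X_mem j.succ
  have h5 : ∀ {d p}, (dp hf).mk' p ∈ (dp hf).piece d → ((dp hf).mk' p ∈
      ((RingHom.ker χ).homogeneousCore (dp hf).piece).toIdeal ↔ eval c p = 0) := fun hp =>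
    ⟨fun e => Ideal.toIdeal_homogeneousCore_le _ _ e,
      fun e => Ideal.mem_homogeneousCore_of_homogeneous_of_mem (I := RingHom.ker χ) ⟨_, hp⟩ e⟩
  have hQ := (RingHom.ker_isPrime χ).homogeneousCore (𝒜 := (dp hf).piece)
  have hl' := (h5 hl).not.mpr (by simpa using h3)
  let z := mkPt _ _ hQ (HomogeneousIdeal.isHomogeneous _) one_pos hl hl'
  let O := (algebraMap ((Proj (dp hf).piece).presheaf.stalk z) (Proj (dp hf).piece).functionField).range
  have : IsLocalRing O := .of_surjective' _ (RingHom.rangeRestrict_surjective _)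
  have : IsNoetherianRing O := isNoetherianRing_of_surjective _ _ _ (RingHom.rangeRestrict_surjective _)
  have hO := mem_stalk_iff h1 h0 z
  obtain ⟨_, h6⟩ := exists_alg (dp hf) (theta _ h1 h0)
  generalize theta _ h1 h0 = θ at H hO h6
  have h7 := H.ne hl fun e => hl' (e ▸ zero_mem _)
  have h8 : ∀ {d p}, p.IsWeightedHomogeneous (dp hf).wt d → aeval (fun i => θ ((dp hf).mk' (X i)) /
      θ ((dp hf).mk' (X j.succ)) ^ (dp hf).wt i) p =
        θ ((dp hf).mk' p) / θ ((dp hf).mk' (X j.succ ^ d)) := fun hp => by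
    rw [whom_scale _ _ hp, ← h6, map_pow, map_pow]
  have h9 : ∀ d, (X j.succ ^ d).IsWeightedHomogeneous (dp hf).wt d := fun d => by
    simpa [hw] using hom_X_pow (dp hf).wt j.succ d
  have h10 : ∀ d, (dp hf).mk' (X j.succ ^ d) ∉ pid _ z := fun d =>
    (h5 ((dp hf).mk_mem (h9 d))).not.mpr (by simp [h3])
  have h11 : ∀ p : MvPolynomial (Fin 4) ℂ, aeval (fun i => θ ((dp hf).mk' (X i)) / θ ((dp hf).mk' (X j.succ)) ^
      (dp hf).wt i) p ∈ O := fun p => by
    rw [p.as_sum, map_sum]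
    exact sum_mem fun m _ => (hO _).mpr ⟨_, _, _, (dp hf).mk_mem (isWeightedHomogeneous_monomial
      _ _ _ rfl), (dp hf).mk_mem (h9 _), h10 _, h8 (isWeightedHomogeneous_monomial _ _ _ rfl)⟩
  have h12 : ∀ {d p}, p.IsWeightedHomogeneous (dp hf).wt d →
      eval (fun i => c i / c j.succ ^ (dp hf).wt i) p = eval c p / c j.succ ^ d := fun hp => by
    simpa [aeval_def] using whom_scale c (c j.succ) hp
  have h13 := (h12 (dp hf).hom).trans (by
    rw [h4 _ ((dp hf).mk_eq_zero.mpr dvd_rfl ▸ zero_mem _), zero_div])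
  obtain ⟨k, h14, h15⟩ := dp_smooth hf hs (j := j) (by simp [hw, h3]) h13
  obtain ⟨a, b, hm⟩ := two_gen (RingHom.codRestrict (aeval _).toRingHom O h11) (F := (dp hf).eqn)
    (Subtype.ext ((h8 (dp hf).hom).trans (by rw [(dp hf).mk_eq_zero.mpr dvd_rfl]; simp))) h13 h14
    (Subtype.ext (by simp [hw, h7, h3])) h15 (fun i => by
      have e : (X i - C (c i / c j.succ ^ (dp hf).wt i) * X j.succ ^ (dp hf).wt i).IsWeightedHomogeneous
          (dp hf).wt ((dp hf).wt i) := (weightedHomogeneousSubmodule ℂ _ _).sub_mem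
        (isWeightedHomogeneous_X ℂ _ i) (by rw [C_mul']; exact Submodule.smul_mem _ _ (h9 _))
      exact (H.mem_max hQ hO ((dp hf).mk_mem e) ((dp hf).mk_mem (h9 _)) (h10 _) (by
        rw [← h8 e]; simp [hw, h7])).mpr ((h5 ((dp hf).mk_mem e)).mpr (by simp [h3])))
    fun x hx => by
      obtain ⟨d, _, q, ⟨p, hp, rfl⟩, hq, h16, e⟩ := (hO x).mp x.2
      refine ⟨p, ⟨_, (hO _).mpr ⟨d, _, q, (dp hf).mk_mem (h9 d), hq, h16, rfl⟩⟩, ?_,
        Subtype.ext (e.trans ?_)⟩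
      · rw [h12 hp, (h5 ((dp hf).mk_mem hp)).mp ((H.mem_max hQ hO ((dp hf).mk_mem hp) hq h16 e).mp hx),
          zero_div]
      · exact ((congrArg (· * (θ ((dp hf).mk' (X j.succ ^ d)) / θ q)) (h8 hp)).trans
          (div_mul_div_cancel₀ (by simpa using fun e => absurd e h7))).symm
  obtain ⟨g, hg, h15⟩ := H.loc_principal hQ hl hl' hO hm i
  obtain ⟨E, hE⟩ := exists_div H.fin_v hg
  refine ⟨E, (mem_principal h2 E).mpr ⟨g, hg, hE⟩, fun y hy => (h15 y ?_).trans (hE y).symm⟩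
  refine ((le_iff_pid _).mp hy).trans (x.asHomogeneousIdeal.toIdeal_homogeneousCore_eq_self.ge.trans
    (Ideal.homogeneousCore_mono _ fun r hr => ?_))
  obtain ⟨p, rfl⟩ := (dp hf).mk_surj r
  exact h4 p hr

end Pool.Agent.Work.MP_475c1a_ag
end
end
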