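import Pool.Agent.Work.MP_475c1a_ag.LocFact

-- merged part: Pool.Agent.Work.MP_475c1a_ag.QTan
section
/-! Tangent lines and the gradient of the discriminant along the dual curve. -/

namespace Pool.Agent.Work.MP_475c1a_ag

open MvPolynomial Matrix

variable {f I J : MvPolynomial (Fin 3) ℂ}

section Ring

variable {A : Type} [CommRing A] [Algebra ℂ A]

/-- The gradient of `p` at `x`. -/
noncomputable def grad (p : MvPolynomial (Fin 3) ℂ) (x : Fin 3 → A) : Fin 3 → A :=
  fun i => aeval x (pderiv i p)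

theorem grad_smul {p : MvPolynomial (Fin 3) ℂ} {d : ℕ} (hp : p.IsHomogeneous (d + 1)) (c : A)
    (x : Fin 3 → A) : grad p (c • x) = c ^ d • grad p x := by
  funext i
  exact aeval_smul_hom (hp.pderiv (i := i)) c x

theorem dot_grad {p : MvPolynomial (Fin 3) ℂ} {d : ℕ} (hp : p.IsHomogeneous d) (x : Fin 3 → A) :
    x ⬝ᵥ grad p x = d * aeval x p := by
  rw [← euler hp]
  simp [dotProduct, Fin.sum_univ_three, grad]

theorem map_grad {B : Type} [CommRing B] [Algebra ℂ B] (φ : A →ₐ[ℂ] B)
    (p : MvPolynomial (Fin 3) ℂ) (x : Fin 3 → A) : φ ∘ grad p x = grad p (φ ∘ x) := by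
  funext i
  exact aeval_congr_of_hom φ x _

theorem deriv_aeval (u : Fin 3 → Polynomial A) (p : MvPolynomial (Fin 3) ℂ) :
    (Polynomial.derivative (aeval u p)).eval 0 =
      grad p (fun i => (u i).eval 0) ⬝ᵥ fun i => (Polynomial.derivative (u i)).eval 0 := by
  have h := chain_rule ((Polynomial.derivative' (R := A)).restrictScalars ℂ) u p
  simp only [Derivation.restrictScalars_apply, Polynomial.derivative'_apply, smul_eq_mul] at h
  rw [h, Polynomial.eval_finsetSum, dotProduct]
  refine Finset.sum_congr rfl fun i _ => ?_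
  rw [Polynomial.eval_mul]
  congr 1
  have h1 := aeval_congr_of_hom ((Polynomial.aeval (0 : A) : Polynomial A →ₐ[A] A).restrictScalars ℂ)
    u (pderiv i p)
  simpa only [AlgHom.coe_restrictScalars', Polynomial.coe_aeval_eq_eval, grad] using h1

theorem res_coeff_one (p : MvPolynomial (Fin 3) ℂ) (x z : Fin 3 → A) :
    (res p x z).coeff 1 = grad p x ⬝ᵥ z := by
  have h := deriv_aeval (fun i => Polynomial.C (x i) + Polynomial.C (z i) * Polynomial.X) p
  rw [← Polynomial.coeff_zero_eq_eval_zero, Polynomial.coeff_derivative] at h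
  simpa [res] using h

theorem IsIJ.var (h : IsIJ f I J) (x z y y' : Fin 3 → A) {a b c d e : A}
    (ha : (res f x z).coeff 0 = a) (hb : (res f x z).coeff 1 = b) (hc : (res f x z).coeff 2 = c)
    (hd : (res f x z).coeff 3 = d) (he : (res f x z).coeff 4 = e) :
    ∃ a' b' c' d' e' : A, a' = grad f x ⬝ᵥ y ∧
      grad I (crossProduct x z) ⬝ᵥ (crossProduct y z + crossProduct x y') =
        12 * (a' * e + a * e') - 3 * (b' * d + b * d') + 2 * c * c' ∧
      grad J (crossProduct x z) ⬝ᵥ (crossProduct y z + crossProduct x y') =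
        72 * (a' * c * e + a * c' * e + a * c * e') + 9 * (b' * c * d + b * c' * d + b * c * d') -
          27 * (a' * d ^ 2 + 2 * a * d * d') - 27 * (e' * b ^ 2 + 2 * e * b * b') -
            6 * c ^ 2 * c' := by
  let x' : Fin 3 → Polynomial A := fun i => Polynomial.C (x i) + Polynomial.C (y i) * Polynomial.X
  let z' : Fin 3 → Polynomial A := fun i => Polynomial.C (z i) + Polynomial.C (y' i) * Polynomial.X
  let π : Polynomial A →ₐ[ℂ] A :=
    (Polynomial.aeval (0 : A) : Polynomial A →ₐ[A] A).restrictScalars ℂ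
  have hπ : ∀ p, π p = p.eval 0 := fun p => by simp [π]
  have h0 : ∀ j, ((res f x' z').coeff j).eval 0 = (res f x z).coeff j := fun j => by
    have h1 := congrArg (fun r => Polynomial.coeff r j) (res_map (f := f) π x' z')
    simp only [Polynomial.coeff_map, RingHom.coe_coe, hπ] at h1
    rw [h1]
    congr 2 <;> funext i <;> simp [hπ, x', z']
  have h1 : (fun i => (crossProduct x' z' i).eval 0) = crossProduct x z := by
    funext i
    fin_cases i <;> simp [cross_apply, x', z']
  have h2 : (fun i => (Polynomial.derivative (crossProduct x' z' i)).eval 0) =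
      crossProduct y z + crossProduct x y' := by
    funext i
    fin_cases i <;> simp [cross_apply, x', z'] <;> ring
  refine ⟨(Polynomial.derivative ((res f x' z').coeff 0)).eval 0,
    (Polynomial.derivative ((res f x' z').coeff 1)).eval 0,
    (Polynomial.derivative ((res f x' z').coeff 2)).eval 0,
    (Polynomial.derivative ((res f x' z').coeff 3)).eval 0,
    (Polynomial.derivative ((res f x' z').coeff 4)).eval 0, ?_, ?_, ?_⟩
  · rw [res_coeff_zero, deriv_aeval]
    simp [x']
  · rw [← h2, ← h1, ← deriv_aeval, h.eqI]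
    simp [pI, qI, Polynomial.derivative_pow, h0, ha, hb, hc, hd, he]
    ring
  · rw [← h2, ← h1, ← deriv_aeval, h.eqJ]
    simp [pJ, qJ, Polynomial.derivative_pow, h0, ha, hb, hc, hd, he]
    ring

theorem grad_disc (I J : MvPolynomial (Fin 3) ℂ) (a : Fin 3 → A) :
    grad (4 * I ^ 3 - J ^ 2) a =
      (12 * aeval a I ^ 2) • grad I a - (2 * aeval a J) • grad J a := by
  funext i
  have h4 : pderiv i (4 : MvPolynomial (Fin 3) ℂ) = 0 := by
    rw [← map_ofNat C 4, pderiv_C]
  simp [grad, Derivation.leibniz_pow, h4, map_ofNat]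
  ring

omit [Algebra ℂ A] in
theorem eq_of_dot {u v : Fin 3 → A} (h : ∀ y, u ⬝ᵥ y = v ⬝ᵥ y) : u = v := by
  funext i
  simpa using h (Pi.single i 1)

theorem IsIJ.frame (h : IsIJ f I J) {P Z : Fin 3 → A} (h0 : (res f P Z).coeff 0 = 0)
    (h1 : (res f P Z).coeff 1 = 0) {c d e : A} (hc : (res f P Z).coeff 2 = c)
    (hd : (res f P Z).coeff 3 = d) (he : (res f P Z).coeff 4 = e) :
    aeval (crossProduct P Z) I = c ^ 2 ∧ aeval (crossProduct P Z) J = -2 * c ^ 3 ∧
    crossProduct ((3 * c) • grad I (crossProduct P Z) + grad J (crossProduct P Z)) P = 0 ∧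
    crossProduct Z ((3 * c) • grad I (crossProduct P Z) + grad J (crossProduct P Z)) =
      (-27 * (d ^ 2 - 4 * c * e)) • grad f P := by
  refine ⟨?_, ?_, eq_of_dot fun y => ?_, eq_of_dot fun y => ?_⟩
  · simp [h.eqI, pI, qI, h0, h1, hc]
  · simp [h.eqJ, pJ, qJ, h0, h1, hc]
  · obtain ⟨a', b', c', d', e', h2, h3, h4⟩ := h.var P Z 0 y h0 h1 hc hd he
    rw [dotProduct_zero] at h2
    rw [LinearMap.map_zero₂, zero_add] at h3 h4
    rw [dotProduct_comm, triple_product_permutation, add_dotProduct, smul_dotProduct, h3, h4, h2,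
      zero_dotProduct, smul_eq_mul]
    ring
  · obtain ⟨a', b', c', d', e', h2, h3, h4⟩ := h.var P Z y 0 h0 h1 hc hd he
    rw [map_zero, add_zero] at h3 h4
    rw [dotProduct_comm, triple_product_permutation, triple_product_permutation, add_dotProduct,
      smul_dotProduct, h3, h4, smul_dotProduct, ← h2, smul_eq_mul, smul_eq_mul]
    ring

end Ring

/-- The tangent direction field attached to the coordinate `j`. -/
noncomputable def tz (f : MvPolynomial (Fin 3) ℂ) (j : Fin 3) : Fin 3 → MvPolynomial (Fin 3) ℂ :=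
  crossProduct (Pi.single j 1) (grad f X)

/-- The coefficients of the restriction of `f` to the tangent line. -/
noncomputable def tco (f : MvPolynomial (Fin 3) ℂ) (j : Fin 3) (n : ℕ) : MvPolynomial (Fin 3) ℂ :=
  (res f X (tz f j)).coeff n

/-- The discriminant of the residual intersection with the tangent line. -/
noncomputable def tq (f : MvPolynomial (Fin 3) ℂ) (j : Fin 3) : MvPolynomial (Fin 3) ℂ :=
  tco f j 3 ^ 2 - 4 * tco f j 2 * tco f j 4

section Ring

variable {A : Type} [CommRing A] [Algebra ℂ A]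

theorem aeval_tz (j : Fin 3) (P : Fin 3 → A) :
    (aeval P : MvPolynomial (Fin 3) ℂ →ₐ[ℂ] A) ∘ tz f j =
      crossProduct (Pi.single j 1) (grad f P) := by
  have h := map_cross (aeval P : MvPolynomial (Fin 3) ℂ →ₐ[ℂ] A) (Pi.single j 1) (grad f X)
  rw [map_grad] at h
  refine h.trans ?_
  congr 2
  · funext i
    by_cases hi : i = j <;> simp [hi]
  · funext i
    simp

theorem aeval_tco (j : Fin 3) (n : ℕ) (P : Fin 3 → A) :
    aeval P (tco f j n) = (res f P (crossProduct (Pi.single j 1) (grad f P))).coeff n := by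
  have h := congrArg (fun r => Polynomial.coeff r n)
    (res_map (f := f) (aeval P : MvPolynomial (Fin 3) ℂ →ₐ[ℂ] A) X (tz f j))
  simp only [Polynomial.coeff_map, RingHom.coe_coe, aeval_tz] at h
  rw [tco, h]
  congr 2
  funext i
  simp

theorem cross_tz (hf : f.IsHomogeneous 4) (j : Fin 3) {P : Fin 3 → A} (h0 : aeval P f = 0) :
    crossProduct P (crossProduct (Pi.single j 1) (grad f P)) = (-P j) • grad f P := by
  rw [cross_cross_eq_smul_sub_smul', dot_grad hf, h0]
  simp

theorem IsIJ.tan_val (h : IsIJ f I J) (hf : f.IsHomogeneous 4) (j : Fin 3) {P : Fin 3 → A}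
    (h0 : aeval P f = 0) : P j ^ 4 * aeval (grad f P) I = aeval P (tco f j 2) ^ 2 ∧
      P j ^ 6 * aeval (grad f P) J = -2 * aeval P (tco f j 2) ^ 3 := by
  obtain ⟨h1, h2, -⟩ := h.frame (P := P) (Z := crossProduct (Pi.single j 1) (grad f P))
    (by rw [res_coeff_zero, h0]) (by rw [res_coeff_one, dot_cross_self])
    (aeval_tco j 2 P).symm rfl rfl
  rw [cross_tz hf j h0] at h1 h2
  rw [aeval_smul_hom h.homI] at h1
  rw [aeval_smul_hom h.homJ] at h2
  exact ⟨by rw [← h1]; ring, by rw [← h2]; ring⟩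

end Ring

section Field

variable {L : Type} [Field L] [Algebra ℂ L]

theorem IsIJ.tan_grad (h : IsIJ f I J) (hf : f.IsHomogeneous 4) (hs : IsSmoothForm f) {j : Fin 3}
    {P : Fin 3 → L} (h0 : aeval P f = 0) (hj : P j ≠ 0) :
    P j ^ 4 • ((3 * aeval P (tco f j 2)) • grad I (grad f P) + P j ^ 2 • grad J (grad f P)) =
      (27 * aeval P (tq f j)) • P := by
  obtain ⟨-, -, h1, h2⟩ := h.frame (P := P) (Z := crossProduct (Pi.single j 1) (grad f P))
    (by rw [res_coeff_zero, h0]) (by rw [res_coeff_one, dot_cross_self])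
    (aeval_tco j 2 P).symm (aeval_tco j 3 P).symm (aeval_tco j 4 P).symm
  have h3 := cross_tz hf j h0
  rw [h3, grad_smul h.homI, grad_smul h.homJ] at h1 h2
  have ha : grad f P ≠ 0 := fun ha => hj (congrFun (smooth_ext hs (congrFun ha)) j)
  have hq : aeval P (tq f j) =
      aeval P (tco f j 3) ^ 2 - 4 * aeval P (tco f j 2) * aeval P (tco f j 4) := by
    simp [tq, map_ofNat]
  rw [← hq] at h2
  generalize hG : (3 * aeval P (tco f j 2)) • (-P j) ^ 3 • grad I (grad f P) +
    (-P j) ^ 5 • grad J (grad f P) = G at h1 h2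
  have h4 : P j • G = G j • P := by
    have h5 := cross_cross_eq_smul_sub_smul' (Pi.single j 1) G P
    rw [h1, map_zero] at h5
    simpa [sub_eq_zero] using h5.symm
  have h5 : G j = -27 * aeval P (tq f j) := by
    have h6 := congrArg (crossProduct (crossProduct (Pi.single j 1) (grad f P))) h4
    rw [map_smul, map_smul, h2, ← cross_anticomm, h3, smul_smul, ← neg_smul, neg_neg, smul_smul,
      ← sub_eq_zero, ← sub_smul, smul_eq_zero] at h6
    apply mul_left_cancel₀ hj
    linear_combination -h6.resolve_right ha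
  rw [h5, ← hG] at h4
  linear_combination (norm := module) -h4

theorem IsIJ.tan_disc (h : IsIJ f I J) (hf : f.IsHomogeneous 4) (hs : IsSmoothForm f) {j : Fin 3}
    {P : Fin 3 → L} (h0 : aeval P f = 0) (hj : P j ≠ 0) :
    P j ^ 12 • grad (4 * I ^ 3 - J ^ 2) (grad f P) =
      (108 * aeval P (tco f j 2) ^ 3 * aeval P (tq f j)) • P := by
  obtain ⟨h1, h2⟩ := h.tan_val hf j h0
  have h3 := h.tan_grad hf hs h0 hj
  rw [grad_disc]
  funext i
  have h4 := congrFun h3 i
  simp only [Pi.smul_apply, Pi.add_apply, Pi.sub_apply, smul_eq_mul] at h4 ⊢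
  linear_combination 4 * aeval P (tco f j 2) ^ 3 * h4 +
    12 * P j ^ 4 * grad I (grad f P) i * (P j ^ 4 * aeval (grad f P) I + aeval P (tco f j 2) ^ 2) * h1
    - 2 * P j ^ 6 * grad J (grad f P) i * h2

theorem IsIJ.disc_grad (h : IsIJ f I J) (hf : f.IsHomogeneous 4) {P : Fin 3 → L}
    (h0 : aeval P f = 0) : aeval (grad f P) (4 * I ^ 3 - J ^ 2) = 0 := by
  by_cases hP : P = 0
  · have h1 := grad_smul hf (0 : L) P
    rw [zero_smul, ← hP, zero_pow (by norm_num)] at h1
    rw [h1, map_sub, map_mul, map_pow, map_pow, aeval_smul_hom h.homI, aeval_smul_hom h.homJ]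
    simp
  obtain ⟨j, hj⟩ := Function.ne_iff.1 hP
  obtain ⟨h1, h2⟩ := h.tan_val hf j h0
  apply mul_left_cancel₀ (pow_ne_zero 12 hj)
  simp only [map_sub, map_mul, map_pow, map_ofNat]
  have h3 : _ ^ 3 = _ ^ 3 := congrArg (· ^ 3) h1
  have h4 : _ ^ 2 = _ ^ 2 := congrArg (· ^ 2) h2
  linear_combination 4 * h3 - h4

theorem exists_double_root [IsAlgClosed L] {p : Polynomial L} (hp : p.natDegree = 4)
    (h : 4 * pI p ^ 3 - pJ p ^ 2 = 0) : ∃ r, p.eval r = 0 ∧ p.derivative.eval r = 0 := by
  have : CharZero L := charZero_of_injective_algebraMap (algebraMap ℂ L).injective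
  have h1 := IsAlgClosed.card_roots_eq_natDegree (p := p)
  have h2 := Polynomial.C_leadingCoeff_mul_prod_multiset_X_sub_C h1
  rw [hp, Multiset.card_eq_four] at h1
  obtain ⟨r1, r2, r3, r4, h1⟩ := h1
  have he : p.leadingCoeff ≠ 0 := by
    rw [Ne, Polynomial.leadingCoeff_eq_zero]
    rintro rfl
    simp at hp
  generalize p.leadingCoeff = e at h2 he
  have h3 : p = quart (e * r1 * r2 * r3 * r4)
      (-e * (r1 * r2 * r3 + r1 * r2 * r4 + r1 * r3 * r4 + r2 * r3 * r4))
      (e * (r1 * r2 + r1 * r3 + r1 * r4 + r2 * r3 + r2 * r4 + r3 * r4))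
      (-e * (r1 + r2 + r3 + r4)) e := by
    rw [← h2, h1]
    simp [quart]
    ring
  have h4 : 27 * e ^ 6 * ((r1 - r2) * (r1 - r3) * (r1 - r4) * (r2 - r3) * (r2 - r4) *
      (r3 - r4)) ^ 2 = 0 := by
    rw [← h, h3]
    simp only [pI, pJ, qI, qJ, quart_coeff]
    ring
  simp only [mul_eq_zero, OfNat.ofNat_ne_zero, pow_eq_zero_iff, he, ne_eq, not_false_eq_true,
    false_or, sub_eq_zero] at h4
  rw [h3]
  rcases h4 with ((((h4 | h4) | h4) | h4) | h4) | h4
  · exact ⟨r1, by subst h4; simp [quart]; ring, by subst h4; simp [quart]; ring⟩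
  · exact ⟨r1, by subst h4; simp [quart]; ring, by subst h4; simp [quart]; ring⟩
  · exact ⟨r1, by subst h4; simp [quart]; ring, by subst h4; simp [quart]; ring⟩
  · exact ⟨r2, by subst h4; simp [quart]; ring, by subst h4; simp [quart]; ring⟩
  · exact ⟨r2, by subst h4; simp [quart]; ring, by subst h4; simp [quart]; ring⟩
  · exact ⟨r3, by subst h4; simp [quart]; ring, by subst h4; simp [quart]; ring⟩

end Field

end Pool.Agent.Work.MP_475c1a_ag
end

-- merged part: Pool.Agent.Work.MP_475c1a_ag.QGen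
section
/-! Points of tangency; points of the curve are either constant or generic. -/

namespace Pool.Agent.Work.MP_475c1a_ag

open MvPolynomial Matrix

variable {f I J : MvPolynomial (Fin 3) ℂ} {L : Type} [Field L] [Algebra ℂ L]

omit [Algebra ℂ L] in
theorem exists_cross {a : Fin 3 → L} (ha : a ≠ 0) : ∃ x z : Fin 3 → L, crossProduct x z = a := by
  obtain ⟨j, hj⟩ := Function.ne_iff.1 ha
  fin_cases j
  · refine ⟨![-a 1 / a 0, 1, 0], ![-a 2, 0, a 0], ?_⟩
    have : a 0 ≠ 0 := hj
    funext i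
    fin_cases i <;> simp [cross_apply]
    field_simp
  · refine ⟨![0, -a 2 / a 1, 1], ![a 1, -a 0, 0], ?_⟩
    have : a 1 ≠ 0 := hj
    funext i
    fin_cases i <;> simp [cross_apply]
    field_simp
  · refine ⟨![1, 0, -a 0 / a 2], ![0, a 2, -a 1], ?_⟩
    have : a 2 ≠ 0 := hj
    funext i
    fin_cases i <;> simp [cross_apply]
    field_simp

theorem exists_frame (hf : f.IsHomogeneous 4) {a : Fin 3 → L} (ha : a ≠ 0) :
    ∃ x z : Fin 3 → L, crossProduct x z = a ∧ (res f x z = 0 ∨ (res f x z).natDegree = 4) := by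
  have : CharZero L := charZero_of_injective_algebraMap (algebraMap ℂ L).injective
  obtain ⟨x, z, h⟩ := exists_cross ha
  by_cases h0 : res f x z = 0
  · exact ⟨x, z, h, Or.inl h0⟩
  obtain ⟨s, hs⟩ : ∃ s, (res f x z).eval s ≠ 0 := by
    by_contra hcon
    push Not at hcon
    exact h0 (Polynomial.funext (by simpa using hcon))
  refine ⟨-z, x + s • z, by simp [h], Or.inr ?_⟩
  refine Polynomial.natDegree_eq_of_le_of_coeff_ne_zero (res_natDegree hf _ _) ?_
  rwa [res_coeff_four hf, ← res_eval]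

theorem IsIJ.exists_tangent [IsAlgClosed L] (h : IsIJ f I J) (hf : f.IsHomogeneous 4)
    (hs : IsSmoothForm f) {a : Fin 3 → L} (ha : a ≠ 0)
    (h0 : aeval a (4 * I ^ 3 - J ^ 2) = 0) :
    ∃ (P : Fin 3 → L) (l : L), P ≠ 0 ∧ l ≠ 0 ∧ aeval P f = 0 ∧ grad f P = l • a := by
  obtain ⟨P, Z, hPZ, h1, h2⟩ : ∃ P Z : Fin 3 → L, crossProduct P Z = a ∧
      (res f P Z).coeff 0 = 0 ∧ (res f P Z).coeff 1 = 0 := by
    obtain ⟨x, z, hxz, h1 | h1⟩ := exists_frame hf ha
    · exact ⟨x, z, hxz, by simp [h1], by simp [h1]⟩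
    · obtain ⟨r, h2, h3⟩ := exists_double_root h1 (by
        rw [← h.eqI, ← h.eqJ, hxz]
        simpa [map_ofNat] using h0)
      refine ⟨x + r • z, z, by simp [hxz], ?_, ?_⟩
      · rwa [← res_taylor, Polynomial.taylor_coeff_zero]
      · rwa [← res_taylor, Polynomial.taylor_coeff_one]
  rw [res_coeff_zero] at h1
  rw [res_coeff_one] at h2
  have hP : P ≠ 0 := by
    rintro rfl
    exact ha (by simpa using hPZ.symm)
  have hg : grad f P ≠ 0 := fun hg => hP (smooth_ext hs (congrFun hg))
  have h3 : crossProduct (grad f P) a = 0 := by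
    rw [← hPZ, cross_cross_eq_smul_sub_smul', h2, dot_grad hf, h1]
    simp
  obtain ⟨k, hk⟩ := Function.ne_iff.1 ha
  have h4 := cross_cross_eq_smul_sub_smul' (Pi.single k 1) (grad f P) a
  rw [h3, map_zero] at h4
  have h5 : grad f P = (grad f P k / a k) • a := by
    rw [div_eq_inv_mul, mul_smul, eq_inv_smul_iff₀ hk]
    simpa [sub_eq_zero] using h4.symm
  refine ⟨P, _, hP, fun hl => hg ?_, h1, h5⟩
  rw [h5, hl, zero_smul]

theorem res_zero_coeff_hom (G : MvPolynomial (Fin 3) ℂ) (k : ℕ) :
    ((res G 0 (X : Fin 3 → MvPolynomial (Fin 3) ℂ)).coeff k).IsHomogeneous k := by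
  induction G using MvPolynomial.induction_on generalizing k with
  | C r =>
    rw [res, algHom_C, Polynomial.algebraMap_apply, Polynomial.coeff_C]
    split_ifs with hk
    · exact hk ▸ isHomogeneous_C _ _
    · exact isHomogeneous_zero _ _ _
  | add p q hp hq => simpa [res] using (hp k).add (hq k)
  | mul_X p i hp =>
    have h1 : res (p * X i) 0 (X : Fin 3 → MvPolynomial (Fin 3) ℂ) =
        res p 0 (X : Fin 3 → MvPolynomial (Fin 3) ℂ) * Polynomial.C (X i) * Polynomial.X := by
      simp [res, mul_assoc]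
    rw [h1]
    cases k with
    | zero => simpa using isHomogeneous_zero (Fin 3) ℂ 0
    | succ k => simpa using (hp k).mul (isHomogeneous_X ℂ i)

/-- The homogeneous prime ideal of a point. -/
noncomputable def cone0 (P : Fin 3 → L) : Ideal (MvPolynomial (Fin 3) ℂ) :=
  RingHom.ker (aeval (fun i => Polynomial.C ((0 : Fin 3 → L) i) +
    Polynomial.C (P i) * Polynomial.X) : MvPolynomial (Fin 3) ℂ →ₐ[ℂ] Polynomial L)

theorem cone0_prime (P : Fin 3 → L) : (cone0 P).IsPrime := RingHom.ker_isPrime _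

theorem mem_cone0 {P : Fin 3 → L} {G : MvPolynomial (Fin 3) ℂ} : G ∈ cone0 P ↔ res G 0 P = 0 :=
  Iff.rfl

theorem mem_cone0_hom {P : Fin 3 → L} {G : MvPolynomial (Fin 3) ℂ} {n : ℕ}
    (hG : G.IsHomogeneous n) : G ∈ cone0 P ↔ aeval P G = 0 := by
  rw [mem_cone0, res_zero_hom hG, mul_eq_zero, Polynomial.C_eq_zero]
  simp

theorem mem_cone0_iff {P : Fin 3 → L} {G : MvPolynomial (Fin 3) ℂ} : G ∈ cone0 P ↔
    ∀ k, aeval P ((res G 0 (X : Fin 3 → MvPolynomial (Fin 3) ℂ)).coeff k) = 0 := by
  have h := res_map (f := G) (aeval P : MvPolynomial (Fin 3) ℂ →ₐ[ℂ] L) 0 X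
  rw [show (aeval P : MvPolynomial (Fin 3) ℂ →ₐ[ℂ] L) ∘ (0 : Fin 3 → _) = 0 from
    funext fun i => by simp, show (aeval P : MvPolynomial (Fin 3) ℂ →ₐ[ℂ] L) ∘ X = P from
    funext fun i => by simp] at h
  rw [mem_cone0, ← h, Polynomial.ext_iff]
  simp

theorem exists_point {Q : Ideal (MvPolynomial (Fin 3) ℂ)} [Q.IsPrime]
    {G : MvPolynomial (Fin 3) ℂ} (hG : G ∉ Q) :
    ∃ p : Fin 3 → ℂ, (∀ H ∈ Q, aeval p H = 0) ∧ aeval p G ≠ 0 := by
  rw [← IsPrime.vanishingIdeal_zeroLocus (K := ℂ) Q, mem_vanishingIdeal_iff] at hG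
  push Not at hG
  exact hG

theorem const_or_generic (hf : f.IsHomogeneous 4) (hs : IsSmoothForm f) {P : Fin 3 → L}
    (hP : P ≠ 0) (h0 : aeval P f = 0) :
    (∃ (μ : L) (p : Fin 3 → ℂ), P = μ • (algebraMap ℂ L ∘ p)) ∨
      ∀ (G : MvPolynomial (Fin 3) ℂ) (n : ℕ), G.IsHomogeneous n → aeval P G = 0 → f ∣ G := by
  by_cases h1 : cone0 P ≤ Ideal.span {f}
  · exact Or.inr fun G n hG h => Ideal.mem_span_singleton.1 (h1 ((mem_cone0_hom hG).2 h))
  left
  have hfp := prime_form hf hs
  have := (Ideal.span_singleton_prime hfp.ne_zero).2 hfp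
  have := cone0_prime P
  obtain ⟨j, hj⟩ := Function.ne_iff.1 hP
  obtain ⟨p, hp, hpj⟩ := exists_point (Q := cone0 P) (G := X j)
    (by simpa [mem_cone0_hom (isHomogeneous_X ℂ j)] using hj)
  rw [aeval_X] at hpj
  have := cone0_prime p
  have h2 : cone0 P ≤ cone0 p := fun G hG => mem_cone0_iff.2 fun k =>
    hp _ ((mem_cone0_hom (res_zero_coeff_hom G k)).2 (mem_cone0_iff.1 hG k))
  have h3 : cone0 P = cone0 p := by
    by_contra hne
    let M : Ideal (MvPolynomial (Fin 3) ℂ) :=
      RingHom.ker (aeval (0 : Fin 3 → ℂ) : MvPolynomial (Fin 3) ℂ →ₐ[ℂ] ℂ)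
    have : M.IsPrime := RingHom.ker_isPrime _
    have k1 : (⊥ : Ideal (MvPolynomial (Fin 3) ℂ)) < Ideal.span {f} :=
      bot_lt_iff_ne_bot.2 (by simpa using hfp.ne_zero)
    have k2 : Ideal.span {f} < cone0 P := lt_of_le_not_ge
      (by rwa [Ideal.span_singleton_le_iff_mem, mem_cone0_hom hf]) h1
    have k3 : cone0 P < cone0 p := lt_of_le_of_ne h2 hne
    have k4 : cone0 p < M := by
      refine lt_of_le_not_ge (fun G hG => ?_) fun hM => ?_
      · rw [RingHom.mem_ker, ← res_coeff_zero G 0 p, mem_cone0.1 hG, Polynomial.coeff_zero]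
      · exact hpj (by simpa using (mem_cone0_hom (isHomogeneous_X ℂ j)).1 (hM (by simp [M])))
    have h4 := Ideal.height_add_one_le_of_lt_of_isPrime k1
    have h5 := Ideal.height_add_one_le_of_lt_of_isPrime k2
    have h6 := Ideal.height_add_one_le_of_lt_of_isPrime k3
    have h7 := Ideal.height_add_one_le_of_lt_of_isPrime k4
    have h8 := Ideal.height_le_ringKrullDim_of_isPrime (I := M)
    rw [MvPolynomial.ringKrullDim_of_isNoetherianRing, ringKrullDim_eq_zero_of_field] at h8
    rw [Ideal.height_bot] at h4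
    have h9 : (0 + 1 + 1 + 1 + 1 : ℕ∞) ≤ M.height := by
      refine le_trans ?_ h7
      gcongr
      refine le_trans ?_ h6
      gcongr
      refine le_trans ?_ h5
      gcongr
    have h10 : M.height ≤ 3 := by
      rw [zero_add, Nat.card_eq_fintype_card, Fintype.card_fin] at h8
      exact WithBot.coe_le_coe.1 h8
    exact absurd (h9.trans h10) (by norm_num)
  refine ⟨P j / algebraMap ℂ L (p j), p, funext fun i => ?_⟩
  have h4 := (isHomogeneous_C_mul_X (p j) i).sub (isHomogeneous_C_mul_X (p i) j)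
  have h5 := (mem_cone0_hom (P := p) h4).2 (by simp [mul_comm])
  rw [← h3, mem_cone0_hom h4] at h5
  have h6 : algebraMap ℂ L (p j) ≠ 0 := by simpa using hpj
  simp only [map_sub, map_mul, algHom_C, aeval_X] at h5
  simp only [Pi.smul_apply, Function.comp_apply, smul_eq_mul]
  field_simp
  linear_combination h5

end Pool.Agent.Work.MP_475c1a_ag
end

-- merged part: Pool.Agent.Work.MP_475c1a_ag.QLoc
section
/-! The residual discriminant vanishes to order at most two at every point of the curve. -/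

namespace Pool.Agent.Work.MP_475c1a_ag

open MvPolynomial Matrix

variable {f : MvPolynomial (Fin 3) ℂ}

section Ring

variable {A : Type} [CommRing A] [Algebra ℂ A]

/-- A derivation applied to the coefficients of a polynomial. -/
noncomputable def dco (D : Derivation ℂ A A) : Derivation ℂ (Polynomial A) (Polynomial A) :=
  PolynomialModule.equivPolynomialSelf.compDer D.mapCoeffs

theorem dco_coeff (D : Derivation ℂ A A) (p : Polynomial A) (n : ℕ) :
    (dco D p).coeff n = D (p.coeff n) := rfl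

theorem dco_lin (D : Derivation ℂ A A) (a b : A) :
    dco D (Polynomial.C a + Polynomial.C b * Polynomial.X) =
      Polynomial.C (D a) + Polynomial.C (D b) * Polynomial.X := by
  ext n
  rw [dco_coeff]
  rcases n with _ | _ | n <;> simp [Polynomial.coeff_X, Polynomial.coeff_C]

/-- The polar cubic with respect to `W`. -/
noncomputable def polar (f : MvPolynomial (Fin 3) ℂ) (W : Fin 3 → ℂ) : MvPolynomial (Fin 3) ℂ :=
  ∑ i, C (W i) * pderiv i f

theorem polar_hom (hf : f.IsHomogeneous 4) (W : Fin 3 → ℂ) : (polar f W).IsHomogeneous 3 :=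
  IsHomogeneous.sum _ _ _ fun _ _ => (hf.pderiv).C_mul _

theorem aeval_polar (W : Fin 3 → ℂ) (x : Fin 3 → A) :
    aeval x (polar f W) = (algebraMap ℂ A ∘ W) ⬝ᵥ grad f x := by
  simp [polar, dotProduct, grad]

theorem res_rel (D : Derivation ℂ A A) {x z : Fin 3 → A} (hx : ∀ i, D (x i) = z i)
    {α l ν : A} {W : Fin 3 → ℂ}
    (hz : ∀ i, α * D (z i) = l * z i + ν * algebraMap ℂ A (W i)) (n : ℕ) :
    α * D ((res f x z).coeff (n + 1)) = (n + 2) * α * (res f x z).coeff (n + 2) +
      (n + 1) * l * (res f x z).coeff (n + 1) + ν * (res (polar f W) x z).coeff n := by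
  have h1 := chain_rule (dco D)
    (fun i => Polynomial.C (x i) + Polynomial.C (z i) * Polynomial.X) f
  have h2 := chain_rule ((Polynomial.derivative' (R := A)).restrictScalars ℂ)
    (fun i => Polynomial.C (x i) + Polynomial.C (z i) * Polynomial.X) f
  have h3 := aeval_polar (f := f) W
    (fun i => Polynomial.C (x i) + Polynomial.C (z i) * Polynomial.X)
  simp only [dco_lin, hx, smul_eq_mul, Fin.sum_univ_three] at h1
  simp only [Derivation.restrictScalars_apply, Polynomial.derivative'_apply, smul_eq_mul,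
    Fin.sum_univ_three, map_add, Polynomial.derivative_C, Polynomial.derivative_C_mul_X,
    zero_add] at h2
  simp only [dotProduct, Fin.sum_univ_three, grad, Function.comp_apply,
    Polynomial.algebraMap_apply] at h3
  have h4 : Polynomial.C α * dco D (res f x z) =
      Polynomial.C α * Polynomial.derivative (res f x z) +
        Polynomial.X * (Polynomial.C l * Polynomial.derivative (res f x z) +
          Polynomial.C ν * res (polar f W) x z) := by
    have k0 := congrArg Polynomial.C (hz 0)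
    have k1 := congrArg Polynomial.C (hz 1)
    have k2 := congrArg Polynomial.C (hz 2)
    simp only [map_add, map_mul] at k0 k1 k2
    rw [res, res, h1, h2, h3]
    linear_combination
      Polynomial.X * aeval (fun i => Polynomial.C (x i) + Polynomial.C (z i) * Polynomial.X)
        (pderiv 0 f) * k0 +
      Polynomial.X * aeval (fun i => Polynomial.C (x i) + Polynomial.C (z i) * Polynomial.X)
        (pderiv 1 f) * k1 +
      Polynomial.X * aeval (fun i => Polynomial.C (x i) + Polynomial.C (z i) * Polynomial.X)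
        (pderiv 2 f) * k2
  have h5 := congrArg (fun r => Polynomial.coeff r (n + 1)) h4
  simp only [Polynomial.coeff_add, Polynomial.coeff_C_mul, Polynomial.coeff_X_mul,
    Polynomial.coeff_derivative, dco_coeff] at h5
  rw [h5]
  push_cast
  ring

omit [Algebra ℂ A] in
theorem cramer3 (v a a' w : Fin 3 → A) :
    (crossProduct v a ⬝ᵥ w) • crossProduct v a' = (crossProduct v a' ⬝ᵥ w) • crossProduct v a +
      (crossProduct v a ⬝ᵥ a') • crossProduct v w := by
  funext i
  fin_cases i <;> simp [cross_apply, dotProduct, Fin.sum_univ_three] <;> ring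

theorem map_single (j : Fin 3) :
    algebraMap ℂ A ∘ (Pi.single j 1 : Fin 3 → ℂ) = Pi.single j 1 := by
  funext i
  by_cases hi : i = j <;> simp [hi]

theorem aeval_polar_single (j k : Fin 3) (x : Fin 3 → A) :
    aeval x (polar f (crossProduct (Pi.single j 1) (Pi.single k 1))) =
      -crossProduct (Pi.single j 1) (grad f x) k := by
  have h := map_cross (algebraMap ℂ A) (Pi.single j 1) (Pi.single k 1)
  rw [map_single, map_single] at h
  rw [aeval_polar, show algebraMap ℂ A ∘ crossProduct (Pi.single j 1) (Pi.single k 1) = _ from h,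
    dotProduct_comm, triple_product_permutation, triple_product_permutation,
    ← cross_anticomm (Pi.single j 1), dotProduct_neg, single_dotProduct, one_mul]

end Ring

/-- The derivation along the tangent direction field. -/
noncomputable def tD (f : MvPolynomial (Fin 3) ℂ) (j : Fin 3) :
    Derivation ℂ (MvPolynomial (Fin 3) ℂ) (MvPolynomial (Fin 3) ℂ) :=
  mkDerivation ℂ (tz f j)

theorem tD_X (j i : Fin 3) : tD f j (X i) = tz f j i := mkDerivation_X _ _ _

theorem tD_X_self (j : Fin 3) : tD f j (X j) = 0 := by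
  have h := dot_self_cross (Pi.single j 1) (grad f (X : Fin 3 → MvPolynomial (Fin 3) ℂ))
  rw [tD_X]
  simpa [tz] using h

theorem tD_self (j : Fin 3) : tD f j f = 0 := by
  have h := chain_rule (tD f j) X f
  rw [aeval_X_left_apply] at h
  rw [h, ← dot_cross_self (Pi.single j 1) (grad f (X : Fin 3 → MvPolynomial (Fin 3) ℂ))]
  simp only [tD_X]
  rfl

theorem tco_one (j : Fin 3) : tco f j 1 = 0 := by
  rw [tco, res_coeff_one, tz, dot_cross_self]

/-- The coefficients of the restriction of a polar to the tangent line. -/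
noncomputable def tps (f : MvPolynomial (Fin 3) ℂ) (j k : Fin 3) (n : ℕ) :
    MvPolynomial (Fin 3) ℂ :=
  (res (polar f (crossProduct (Pi.single j 1) (Pi.single k 1))) X (tz f j)).coeff n

theorem tps_zero (j k : Fin 3) : tps f j k 0 = -tz f j k := by
  rw [tps, res_coeff_zero, aeval_polar_single]
  rfl

theorem tan_rel (hf : f.IsHomogeneous 4) {j k : Fin 3} (hα : tz f j k ≠ 0) :
    ∃ l, tz f j k * tD f j (tco f j 2) =
        3 * tz f j k * tco f j 3 + 2 * l * tco f j 2 + 2 * tco f j 2 * tps f j k 1 ∧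
      tz f j k * tD f j (tco f j 3) =
        4 * tz f j k * tco f j 4 + 3 * l * tco f j 3 + 2 * tco f j 2 * tps f j k 2 ∧
      tz f j k * tD f j (tco f j 4) = 4 * l * tco f j 4 + 2 * tco f j 2 * tps f j k 3 := by
  let a' : Fin 3 → MvPolynomial (Fin 3) ℂ := fun i => tD f j (grad f X i)
  have h1 : ∀ i, tD f j (tz f j i) = crossProduct (Pi.single j 1) a' i := fun i => by
    fin_cases j <;> fin_cases i <;> simp [tz, cross_apply, a']
  have h2 := cramer3 (Pi.single j 1) (grad f X) a' (Pi.single k 1)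
  have h3 := map_cross (algebraMap ℂ (MvPolynomial (Fin 3) ℂ)) (Pi.single j 1) (Pi.single k 1)
  rw [map_single, map_single] at h3
  have h4 : ∀ i, tz f j k * tD f j (tz f j i) = crossProduct (Pi.single j 1) a' k * tz f j i +
      (tz f j ⬝ᵥ a') * algebraMap ℂ _ (crossProduct (Pi.single j 1) (Pi.single k 1) i) :=
    fun i => by
      have h5 := congrFun h2 i
      rw [h1, congrFun h3 i]
      simpa [tz] using h5
  have h5 := res_rel (f := f) (tD f j) (tD_X j) h4
  have k0 := h5 0
  have k1 := h5 1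
  have k2 := h5 2
  have k3 := h5 3
  have h6 : (res f X (tz f j)).coeff 5 = 0 :=
    Polynomial.coeff_eq_zero_of_natDegree_lt (lt_of_le_of_lt (res_natDegree hf _ _) (by norm_num))
  change _ * tD f j (tco f j 1) = _ * tco f j 2 + _ * tco f j 1 + _ * tps f j k 0 at k0
  change _ * tD f j (tco f j 2) = _ * tco f j 3 + _ * tco f j 2 + _ * tps f j k 1 at k1
  change _ * tD f j (tco f j 3) = _ * tco f j 4 + _ * tco f j 3 + _ * tps f j k 2 at k2
  rw [h6] at k3
  change _ * tD f j (tco f j 4) = _ + _ * tco f j 4 + _ * tps f j k 3 at k3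
  rw [tco_one, tps_zero, map_zero] at k0
  have h7 : tz f j ⬝ᵥ a' = 2 * tco f j 2 := by
    apply mul_left_cancel₀ hα
    push_cast at k0
    linear_combination k0
  rw [h7] at k1 k2 k3
  push_cast at k1 k2 k3
  exact ⟨crossProduct (Pi.single j 1) a' k, by linear_combination k1, by linear_combination k2,
    by linear_combination k3⟩

theorem exists_tz (hf : f.IsHomogeneous 4) (hs : IsSmoothForm f) {j : Fin 3} {p : Fin 3 → ℂ}
    (h0 : aeval p f = 0) (hj : p j ≠ 0) : ∃ k, aeval p (tz f j k) ≠ 0 := by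
  by_contra hcon
  push Not at hcon
  have h1 := cross_tz hf j h0
  rw [← aeval_tz, show (aeval p : _ →ₐ[ℂ] ℂ) ∘ tz f j = 0 from funext hcon, map_zero] at h1
  have h2 := (smul_eq_zero.1 h1.symm).resolve_left (neg_ne_zero.2 hj)
  exact hj (congrFun (smooth_ext hs (congrFun h2)) j)

theorem no_second_point (hf : f.IsHomogeneous 4) (hs : IsSmoothForm f) {j k : Fin 3}
    {p : Fin 3 → ℂ} (h0 : aeval p f = 0) (hj : p j ≠ 0) (hk : aeval p (tz f j k) ≠ 0) {l m : ℂ}
    (h1 : 2 * aeval p (tco f j 2) * l * m ^ 2 + aeval p (tco f j 3) * m ^ 3 = 0)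
    (h2 : 2 * aeval p (tco f j 2) * l ^ 2 * m + 3 * aeval p (tco f j 3) * l * m ^ 2 +
      4 * aeval p (tco f j 4) * m ^ 3 = 0)
    (h3 : aeval p (tps f j k 0) * l ^ 3 + aeval p (tps f j k 1) * l ^ 2 * m +
      aeval p (tps f j k 2) * l * m ^ 2 + aeval p (tps f j k 3) * m ^ 3 = 0) : m = 0 := by
  set z := crossProduct (Pi.single j 1) (grad f p) with hz
  set W : Fin 3 → ℂ := crossProduct (Pi.single j 1) (Pi.single k 1) with hW
  have hc0 : (res f p z).coeff 0 = 0 := by rw [res_coeff_zero, h0]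
  have hc1 : (res f p z).coeff 1 = 0 := by rw [res_coeff_one, dot_cross_self]
  have k1 : grad f (l • p + m • z) ⬝ᵥ p = 0 := by
    have h4 := res_frame_quart hf p z l m 1 0 hc0 hc1 (aeval_tco j 2 p).symm
      (aeval_tco j 3 p).symm (aeval_tco j 4 p).symm
    rw [one_smul, zero_smul, add_zero] at h4
    rw [← res_coeff_one, h4, (quart_coeff _ _ _ _ _).2.1]
    linear_combination h1
  have k2 : grad f (l • p + m • z) ⬝ᵥ z = 0 := by
    have h4 := res_frame_quart hf p z l m 0 1 hc0 hc1 (aeval_tco j 2 p).symm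
      (aeval_tco j 3 p).symm (aeval_tco j 4 p).symm
    rw [one_smul, zero_smul, zero_add] at h4
    rw [← res_coeff_one, h4, (quart_coeff _ _ _ _ _).2.1]
    linear_combination h2
  have hps : ∀ n, aeval p (tps f j k n) = (res (polar f W) p z).coeff n := fun n => by
    have h := congrArg (fun r => Polynomial.coeff r n)
      (res_map (f := polar f W) (aeval p : MvPolynomial (Fin 3) ℂ →ₐ[ℂ] ℂ) X (tz f j))
    simp only [Polynomial.coeff_map, RingHom.coe_coe, aeval_tz] at h
    rw [tps, h]
    congr 2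
    funext i
    simp
  have k3 : W ⬝ᵥ grad f (l • p + m • z) = 0 := by
    have h4 := aeval_line (polar_hom hf W) p z l m
    rw [aeval_polar] at h4
    simp only [hps] at h3
    refine h4.trans ?_
    simp [Finset.sum_range_succ]
    linear_combination h3
  have k4 : W ⬝ᵥ grad f p ≠ 0 := by
    have h4 := aeval_polar_single (f := f) j k p
    rw [aeval_polar] at h4
    have h5 := congrFun (aeval_tz (f := f) j p) k
    rw [Function.comp_apply] at h5
    rw [h5] at hk
    exact fun h => hk (neg_eq_zero.1 (h4.symm.trans h))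
  have k5 := cross_tz hf j h0
  have k6 : crossProduct (grad f (l • p + m • z)) (grad f p) = 0 := by
    have h4 := cross_cross_eq_smul_sub_smul' (grad f (l • p + m • z)) p z
    rw [k2, dotProduct_comm, k1, k5, map_smul] at h4
    simpa [hj] using h4
  have k7 := cross_cross_eq_smul_sub_smul' W (grad f (l • p + m • z)) (grad f p)
  rw [k6, dotProduct_comm (grad _ _) W, k3, map_zero, zero_smul, sub_zero] at k7
  have k8 := smooth_ext hs (congrFun ((smul_eq_zero.1 k7.symm).resolve_left k4))
  have k9 := congrArg (crossProduct p) k8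
  rw [map_add, map_smul, map_smul, cross_self, smul_zero, zero_add, k5, map_zero, smul_smul,
    smul_eq_zero] at k9
  have k10 : grad f p ≠ 0 := fun h => k4 (by rw [h, dotProduct_zero])
  simpa [hj] using k9.resolve_right k10

theorem local_order (hf : f.IsHomogeneous 4) (hs : IsSmoothForm f) {j : Fin 3} {p : Fin 3 → ℂ}
    (h0 : aeval p f = 0) (hj : p j ≠ 0) (q0 : aeval p (tq f j) = 0)
    (q1 : aeval p (tD f j (tq f j)) = 0) (q2 : aeval p (tD f j (tD f j (tq f j))) = 0) :
    False := by
  obtain ⟨k, hk⟩ := exists_tz hf hs h0 hj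
  obtain ⟨l, r1, r2, r3⟩ := tan_rel hf (j := j) (k := k) (fun h => hk (by rw [h, map_zero]))
  have hn := @no_second_point f hf hs j k p h0 hj hk
  rw [tps_zero] at hn
  have h4 : tD f j 4 = 0 := (tD f j).map_natCast 4
  have h6 : tD f j 6 = 0 := (tD f j).map_natCast 6
  generalize tD f j = D at *
  have hq : tq f j = tco f j 3 ^ 2 - 4 * tco f j 2 * tco f j 4 := rfl
  generalize tq f j = q, tco f j 2 = c, tco f j 3 = d, tco f j 4 = e, tz f j k = α,
    tps f j k 1 = ψ1, tps f j k 2 = ψ2, tps f j k 3 = ψ3 at *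
  have r4 : α * D q =
      -(4 * (α * e) * d) + 6 * l * q + c * (4 * d * ψ2 - 8 * e * ψ1 - 8 * c * ψ3) := by
    rw [hq]
    simp only [map_sub, Derivation.leibniz, Derivation.leibniz_pow, h4, smul_eq_mul, nsmul_eq_mul]
    push_cast
    linear_combination 2 * d * r2 - 4 * e * r1 - 4 * c * r3
  have e4 := congrArg (aeval p) r4
  have eq := congrArg (aeval p) hq
  simp only [map_sub, map_add, map_mul, map_neg, map_pow, map_ofNat, q0, q1] at e4 eq hn
  by_cases hc : aeval p c = 0
  · have hd : aeval p d = 0 := by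
      rw [hc] at eq
      simpa using eq.symm
    by_cases he : aeval p e = 0
    · obtain ⟨r, hr⟩ := IsAlgClosed.exists_root (Polynomial.C (-aeval p α) * Polynomial.X ^ 3 +
        Polynomial.C (aeval p ψ1) * Polynomial.X ^ 2 + Polynomial.C (aeval p ψ2) * Polynomial.X +
        Polynomial.C (aeval p ψ3)) (by rw [Polynomial.degree_cubic (neg_ne_zero.2 hk)]; norm_num)
      refine one_ne_zero (hn (l := r) (m := 1) (by simp [hc, hd]) (by simp [hc, hd, he]) ?_)
      simpa using hr
    · have e1 := congrArg (aeval p) r1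
      have e2 := congrArg (aeval p) r2
      have e5 := congrArg (fun r => aeval p (D r)) r4
      generalize 4 * d * ψ2 - 8 * e * ψ1 - 8 * c * ψ3 = M at e5
      simp only [map_add, map_neg, Derivation.leibniz, smul_eq_mul, map_mul, map_ofNat, h4, h6,
        q0, q1, q2, hc, hd, mul_zero, zero_mul, add_zero, zero_add] at e1 e2 e5
      have e6 : aeval p (D c) = 0 := (mul_eq_zero.1 e1).resolve_left hk
      rw [e6] at e5
      have e7 : 16 * aeval p α * aeval p e ^ 2 = 0 := by
        linear_combination e5 - 4 * aeval p e * e2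
      exact mul_ne_zero (mul_ne_zero (by norm_num) hk) (pow_ne_zero 2 he) e7
  · have h1 := hn (l := aeval p d) (m := -2 * aeval p c) (by ring)
      (by linear_combination (-8 * aeval p c ^ 2) * eq)
      (by linear_combination (-aeval p c) * e4 +
        (aeval p α * aeval p d + 2 * aeval p c * aeval p ψ1) * eq)
    exact mul_ne_zero (by norm_num) hc h1

theorem exists_curve_point (hf : f.IsHomogeneous 4) (hs : IsSmoothForm f) (j : Fin 3) :
    ∃ p : Fin 3 → ℂ, aeval p f = 0 ∧ p j ≠ 0 := by
  have hfp := prime_form hf hs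
  have := (Ideal.span_singleton_prime hfp.ne_zero).2 hfp
  obtain ⟨p, h1, h2⟩ := exists_point (Q := Ideal.span {f}) (G := X j) fun h =>
    X_ne_zero j (eq_zero_of_dvd_of_lt hf hfp.ne_zero (isHomogeneous_X _ _) (by norm_num)
      (Ideal.mem_span_singleton.1 h))
  exact ⟨p, h1 _ (Ideal.mem_span_singleton_self f), by simpa using h2⟩

theorem dvd_tD {j : Fin 3} {G : MvPolynomial (Fin 3) ℂ} (h : f ∣ G) : f ∣ tD f j G := by
  obtain ⟨H, rfl⟩ := h
  simp [tD_self]

theorem not_dvd_tq (hf : f.IsHomogeneous 4) (hs : IsSmoothForm f) (j : Fin 3) :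
    ¬f ∣ tq f j := fun h => by
  obtain ⟨p, h0, hj⟩ := exists_curve_point hf hs j
  have key : ∀ {G}, f ∣ G → aeval p G = 0 := by
    rintro _ ⟨H, rfl⟩
    rw [map_mul, h0, zero_mul]
  exact local_order hf hs h0 hj (key h) (key (dvd_tD h)) (key (dvd_tD (dvd_tD h)))

theorem not_dvd_tc (hf : f.IsHomogeneous 4) (hs : IsSmoothForm f) (j : Fin 3) :
    ¬f ∣ tco f j 2 := fun h => by
  obtain ⟨p, h0, hj⟩ := exists_curve_point hf hs j
  obtain ⟨k, hk⟩ := exists_tz hf hs h0 hj
  obtain ⟨l, r1, -⟩ := tan_rel hf (j := j) (k := k) (fun h => hk (by rw [h, map_zero]))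
  have h1 : f ∣ tz f j k * (C 3 * tco f j 3) := by
    have h2 := (((dvd_tD (j := j) h).mul_left (tz f j k)).sub (h.mul_left (2 * l))).sub
      (h.mul_left (2 * tps f j k 1))
    convert h2 using 1
    rw [map_ofNat]
    linear_combination -r1
  rcases (prime_form hf hs).dvd_or_dvd h1 with ⟨H, hH⟩ | h2
  · exact hk (by rw [hH, map_mul, h0, zero_mul])
  · rw [((IsUnit.mk0 (3 : ℂ) (by norm_num)).map C).dvd_mul_left] at h2
    exact not_dvd_tq hf hs j ((dvd_pow h2 two_ne_zero).sub ((h.mul_left _).mul_right _))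

theorem tz_hom (hf : f.IsHomogeneous 4) (j i : Fin 3) : (tz f j i).IsHomogeneous 3 := by
  have h : ∀ k, (grad f (X : Fin 3 → MvPolynomial (Fin 3) ℂ) k).IsHomogeneous 3 := fun k => by
    rw [grad, aeval_X_left_apply]
    exact hf.pderiv
  fin_cases j <;> fin_cases i <;> simp [tz, cross_apply] <;>
    first | exact isHomogeneous_zero _ _ _ | exact h _ | exact (h _).neg

theorem res_coeff_hom' {σ : Type} {p : MvPolynomial (Fin 3) ℂ} {d : ℕ} (hp : p.IsHomogeneous d)
    {x z : Fin 3 → MvPolynomial σ ℂ} {m n : ℕ} (hx : ∀ i, (x i).IsHomogeneous m)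
    (hz : ∀ i, (z i).IsHomogeneous (m + n)) (j : ℕ) :
    ((res p x z).coeff j).IsHomogeneous (d * m + j * n) := by
  revert j
  refine hom_induction
    (P := fun d p => ∀ j, ((res p x z).coeff j).IsHomogeneous (d * m + j * n)) ?_ ?_ ?_ ?_ hp
  · intro r j
    rw [res, algHom_C, Polynomial.algebraMap_apply, Polynomial.coeff_C, zero_mul]
    split_ifs with hj
    · simpa [hj] using isHomogeneous_C σ r
    · exact isHomogeneous_zero _ _ _
  · intro d j
    simpa [res] using isHomogeneous_zero _ _ _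
  · intro d p q hp hq j
    have h := (hp j).add (hq j)
    simpa [res] using h
  · intro d p i hp j
    have h1 : res (X i * p) x z = Polynomial.C (x i) * res p x z +
        Polynomial.C (z i) * (Polynomial.X * res p x z) := by
      simp only [res, map_mul, aeval_X]
      ring
    rw [h1, Polynomial.coeff_add, Polynomial.coeff_C_mul, Polynomial.coeff_C_mul]
    refine IsHomogeneous.add ?_ ?_
    · rw [show (d + 1) * m + j * n = m + (d * m + j * n) by ring]
      exact (hx i).mul (hp j)
    · cases j with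
      | zero => simpa using isHomogeneous_zero _ _ _
      | succ j =>
        rw [show (d + 1) * m + (j + 1) * n = m + n + (d * m + j * n) by ring,
          Polynomial.coeff_X_mul]
        exact (hz i).mul (hp j)

theorem tco_hom (hf : f.IsHomogeneous 4) (j : Fin 3) (n : ℕ) :
    (tco f j n).IsHomogeneous (4 * 1 + n * 2) :=
  res_coeff_hom' hf (isHomogeneous_X ℂ) (tz_hom hf j) n

theorem tq_hom (hf : f.IsHomogeneous 4) (j : Fin 3) : (tq f j).IsHomogeneous 20 :=
  ((tco_hom hf j 3).pow 2).sub (((hom_ofNat 4).mul (tco_hom hf j 2)).mul (tco_hom hf j 4))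

end Pool.Agent.Work.MP_475c1a_ag
end
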