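import Pool.Agent.Work.MP_475c1a_ag.Cover
import Pool.Agent.Work.MP_475c1a_ag.QLoc
import Pool.Agent.Work.MP_475c1a_ag.LocFact

-- merged part: Pool.Agent.Work.MP_475c1a_ag.Final
section
-- merged part: Pool.Agent.Work.MP_475c1a_ag.Cover2
section
/-! A divisor of degree two is related to a rational point of the Jacobian. -/

namespace Pool.Agent.Work.MP_475c1a_ag

open Polynomial

set_option linter.unusedSectionVars false
set_option maxHeartbeats 400000

theorem eq_quadr {K : Type} [CommRing K] {p : K[X]} (hp : p.natDegree ≤ 2) :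
    ∃ a b c, p = C a + C b * X + C c * X ^ 2 :=
  ⟨p.coeff 0, p.coeff 1, p.coeff 2, by
    conv_lhs => rw [p.as_sum_range_C_mul_X_pow' (n := 3) (by omega)]
    simp [Finset.sum_range_succ]⟩

variable {K M κ : Type} [Field K] [Field M] {ι : K[X] →+* M} {u : M} {φ : K[X]}
  {w : κ → DV M} {s : Set κ} [CharZero K] (h : QuadF ι u φ) (hs : ∀ k ∈ s, Good ι u (w k))

include h hs

theorem QuadF.isD_dep {p v q : K[X]} (e : p * q = v ^ 2 - φ) {D : κ →₀ ℤ} (hD : IsD ι u w s p v D)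
    {a b c : K} (h0 : ¬ (a = 0 ∧ b = 0 ∧ c = 0)) (h1 : C a * p + C b * v + C c * q = 0) :
    D ∈ SatOn w s := by
  have h2 : ∀ v, v ^ 2 - φ ≠ 0 := fun v h0 => by
    have := h.norm v 1
    rw [one_pow, one_mul, h0, map_zero, map_one, one_mul] at this
    refine mul_ne_zero ?_ ?_ this
    · simpa [add_comm] using h.sub_ne hs (-v)
    · exact sub_ne_zero.mpr (sub_ne_zero.mp (h.sub_ne hs v)).symm
  have hp : p ≠ 0 := left_ne_zero_of_mul (e ▸ h2 v)
  by_cases hc : c = 0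
  · have hb : b ≠ 0 := by
      rintro rfl
      exact h0 ⟨by simpa [hc, hp] using h1, rfl, hc⟩
    have h3 := hD.shift h hs (C (a / b))
    rw [show v + p * C (a / b) = 0 from mul_left_cancel₀ (C_ne_zero.mpr hb) (by
      rw [mul_add, mul_left_comm, ← map_mul, mul_div_cancel₀ _ hb]
      linear_combination h1 - q * (C_eq_zero.mpr hc))] at h3
    refine satOn_of_eq one_ne_zero fun k hk => (h3.neg k hk fun h4 => ?_).trans (DV.v_one _).symm
    exact h.not_both (hs k hk) h4 (by simpa using h4)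
  · obtain ⟨t, ht⟩ : ∃ t, b = 2 * t * c := ⟨b / (2 * c), by field_simp⟩
    obtain ⟨m, hm⟩ : ∃ m, t ^ 2 * c - a = m * c := ⟨(t ^ 2 * c - a) / c, by field_simp⟩
    have h3 := hD.shift h hs (C t)
    have h4 : p * (C m * p) = (v + p * C t) ^ 2 - φ := mul_left_cancel₀ (C_ne_zero.mpr hc) (by
      have e1 := congrArg C ht
      have e2 := congrArg C hm
      simp only [map_mul, map_sub, map_pow, map_ofNat] at e1 e2
      linear_combination C c * e - p * h1 + p * v * e1 - p ^ 2 * e2)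
    have hm0 : m ≠ 0 := by rintro rfl; exact h2 _ (by rw [← h4]; simp)
    refine satOn_of_smul two_pos ?_
    rw [two_smul]
    refine h.isD_add hs h4 h3 ⟨fun k hk h5 => ?_, h3.neg⟩
    rw [map_mul, DV.v_mul _ (h.ne0 (C_ne_zero.mpr hm0)) (h.ne0 hp), (hs k hk).triv, zero_add]
    exact h3.pos k hk h5

theorem QuadF.cover {T W : M} (hT : T = 3 * pP (taylor (ι X) (φ.map (ι.comp C))) / (4 * u ^ 2))
    (hW : W = 27 * pR (taylor (ι X) (φ.map (ι.comp C))) / (8 * u ^ 3))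
    (hT' : ∀ c, T ≠ ι (C c)) {p v q : K[X]} (hp : p.natDegree ≤ 2) (hv : v.natDegree ≤ 2)
    (hq : q.natDegree ≤ 2) (e : p * q = v ^ 2 - φ) {D : κ →₀ ℤ} (hD : IsD ι u w s p v D) :
    D ∈ SatOn w s ∨ ∃ t b : K, b ^ 2 = t ^ 3 - 27 * pI φ * t - 27 * pJ φ ∧ ∃ g ≠ 0, ∀ k ∈ s,
      ((w k).Ge 1 (W - ι (C b)) → (w k).v g = (w k).v (T - ι (C t)) - 2 * D k) ∧
        (¬ (w k).Ge 1 (W - ι (C b)) → (w k).v g = -2 * D k) := by
  obtain ⟨p0, p1, p2, rfl⟩ := eq_quadr hp
  obtain ⟨v0, v1, v2, rfl⟩ := eq_quadr hv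
  obtain ⟨q0, q1, q2, rfl⟩ := eq_quadr hq
  by_cases hd : cD p0 p1 p2 v0 v1 v2 q0 q1 q2 = 0
  · obtain ⟨x, hx, h1⟩ := Matrix.exists_vecMul_eq_zero_iff.mpr
      (show (!![p0, p1, p2; v0, v1, v2; q0, q1, q2]).det = 0 by
        rw [← hd, Matrix.det_fin_three]; simp [cD]; ring)
    have e0 := congrArg C (congrFun h1 0)
    have e1 := congrArg C (congrFun h1 1)
    have e2 := congrArg C (congrFun h1 2)
    simp [Matrix.vecMul, dotProduct, Fin.sum_univ_three] at e0 e1 e2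
    refine Or.inl (h.isD_dep hs e hD (a := x 0) (b := x 1) (c := x 2) (fun h0 => hx ?_)
      (by linear_combination e0 + X * e1 + X ^ 2 * e2))
    ext i
    fin_cases i
    exacts [h0.1, h0.2.1, h0.2.2]
  have hφ : φ = cF p0 p1 p2 v0 v1 v2 q0 q1 q2 := by rw [cF]; linear_combination e
  refine Or.inr ⟨_, _, hφ ▸ ident_curve p0 p1 p2 v0 v1 v2 q0 q1 q2, ?_⟩
  set k := ι.comp C with hk
  have hk' : ∀ c, ι (C c) = k c := fun _ => rfl
  set x := ι X
  have e1 : ∀ a b c, ι (C a + C b * X + C c * X ^ 2) = k a + k b * x + k c * x ^ 2 :=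
    fun a b c => by simp only [map_add, map_mul, map_pow]; rfl
  have hΦ : taylor x (φ.map k) = cF (k p0 + k p1 * x + k p2 * x ^ 2) (k p1 + 2 * k p2 * x) (k p2)
      (k v0 + k v1 * x + k v2 * x ^ 2) (k v1 + 2 * k v2 * x) (k v2)
      (k q0 + k q1 * x + k q2 * x ^ 2) (k q1 + 2 * k q2 * x) (k q2) := by
    simp only [hφ, cF, Polynomial.map_sub, Polynomial.map_add, Polynomial.map_mul,
      Polynomial.map_pow, map_C, map_X, taylor_mul, taylor_pow, taylor_C, taylor_X, map_sub,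
      map_add, map_mul, map_pow, map_ofNat]
    ring
  have hu : u ^ 2 = (k v0 + k v1 * x + k v2 * x ^ 2) ^ 2 - (k p0 + k p1 * x + k p2 * x ^ 2) *
      (k q0 + k q1 * x + k q2 * x ^ 2) := by
    rw [h.sq, ← e1, ← e1, ← e1, ← map_mul, e, ← map_pow, ← map_sub, sub_sub_cancel]
  have h2 := h.two_ne
  have h3 : (3 : M) ≠ 0 := by simpa [map_ofNat] using h.ne0 (x := C 3) (C_ne_zero.mpr three_ne_zero)
  have h4 := h.u_ne
  obtain ⟨n, hn⟩ : ∃ n, n = pP (taylor x (φ.map k)) - 4 * u ^ 2 *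
    k (cT p0 p1 p2 v0 v1 v2 q0 q1 q2) := ⟨_, rfl⟩
  have hT2 : T - ι (C (3 * cT p0 p1 p2 v0 v1 v2 q0 q1 q2)) = 3 * n / (2 * u) ^ 2 := by
    rw [hT, hn, hk', map_mul, map_ofNat, show (4 : M) = 2 ^ 2 by norm_num]; field_simp
  have hW2 : W - ι (C (-27 * cD p0 p1 p2 v0 v1 v2 q0 q1 q2)) = (pR (taylor x (φ.map k)) +
      8 * k (cD p0 p1 p2 v0 v1 v2 q0 q1 q2) * u ^ 3) * (3 / (2 * u)) ^ 3 := by
    rw [hW, hk', map_mul, map_neg, map_ofNat, show (8 : M) = 2 ^ 3 by norm_num]; field_simp; ring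
  have hn0 : n ≠ 0 := fun h0 => hT' _ (sub_eq_zero.mp (by rw [hT2, h0]; simp))
  have hp0 : k p0 + k p1 * x + k p2 * x ^ 2 ≠ 0 := fun h0 => by
    rw [h0, zero_mul, sub_zero, ← e1, sq_eq_sq_iff_eq_or_eq_neg, ← map_neg] at hu
    exact hu.elim (sub_ne_zero.mp (h.sub_ne hs _)) (sub_ne_zero.mp (h.sub_ne hs _))
  have hd0 : k (cD p0 p1 p2 v0 v1 v2 q0 q1 q2) ≠ 0 := h.ne0 (C_ne_zero.mpr hd)
  have hn' := hn
  rw [hΦ, show k (cT p0 p1 p2 v0 v1 v2 q0 q1 q2) = cT (k p0 + k p1 * x + k p2 * x ^ 2)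
    (k p1 + 2 * k p2 * x) (k p2) (k v0 + k v1 * x + k v2 * x ^ 2) (k v1 + 2 * k v2 * x) (k v2)
    (k q0 + k q1 * x + k q2 * x ^ 2) (k q1 + 2 * k q2 * x) (k q2) by
      simp only [cT, map_sub, map_mul, map_pow, map_ofNat]; ring] at hn'
  have hd' : k (cD p0 p1 p2 v0 v1 v2 q0 q1 q2) = cD (k p0 + k p1 * x + k p2 * x ^ 2)
    (k p1 + 2 * k p2 * x) (k p2) (k v0 + k v1 * x + k v2 * x ^ 2) (k v1 + 2 * k v2 * x) (k v2)
    (k q0 + k q1 * x + k q2 * x ^ 2) (k q1 + 2 * k q2 * x) (k q2) := by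
      simp only [cD, map_sub, map_mul, map_add]; ring
  have hG : cG (k p0 + k p1 * x + k p2 * x ^ 2) (k p1 + 2 * k p2 * x)
      (k v0 + k v1 * x + k v2 * x ^ 2) (k v1 + 2 * k v2 * x) (k q1 + 2 * k q2 * x) u ≠ 0 := fun h0 => by
    have := ident_norm _ (k p1 + 2 * k p2 * x) (k p2) _ (k v1 + 2 * k v2 * x) (k v2) _
      (k q1 + 2 * k q2 * x) (k q2) u hu
    rw [h0, ← hn', mul_zero, zero_mul] at this
    exact mul_ne_zero (pow_ne_zero 2 hp0) hn0 this.symm
  refine ⟨_, div_ne_zero hG (pow_ne_zero 2 hp0), fun i hi => ?_⟩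
  have g := hs i hi
  have g0 : ∀ c, (w i).Ge 0 (k c) := fun c => Or.inr (g.triv c).ge
  have g1 : ∀ a b c, (w i).Ge 0 (k a + k b * x + k c * x ^ 2) := fun a b c => e1 a b c ▸ g.ge _
  have g2 : ∀ a b, (w i).Ge 0 (k a + 2 * k b * x) := fun a b =>
    (g0 a).add (((DV.ge_ofNat 2).mul0 (g0 b)).mul0 g.fin)
  have g3 : (w i).v 3 = 0 := by simpa [map_ofNat] using g.triv 3
  have g4 := loc_all hu (v_two g.triv) h2 g3 h3 g.unit h4 (g1 _ _ _) (g2 _ _) (g0 _) (g1 _ _ _)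
    (g2 _ _) (g0 _) (g1 _ _ _) (g2 _ _) (g0 _) hn' (congrArg pR hΦ) hd' hn0 hd0 (g.triv _) hp0
    (D := D i) (by rw [← e1, ← e1]; exact hD.pos i hi) (by rw [← e1]; exact hD.neg i hi)
  have g5 : (w i).v (2 * u) = 0 := by rw [DV.v_mul _ h2 h4, v_two g.triv, g.unit, add_zero]
  have g6 := mul_ne_zero h2 h4
  have g7 : (w i).v ((3 / (2 * u)) ^ 3) = 0 := by rw [DV.v_pow, DV.v_div _ h3 g6, g3, g5]; rfl
  rw [hT2, hW2, DV.v_div _ hG (pow_ne_zero 2 hp0), DV.v_div _ (mul_ne_zero h3 hn0)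
    (pow_ne_zero 2 g6), DV.v_mul _ h3 hn0, DV.v_pow, DV.v_pow, g3, g5]
  refine ⟨fun e => ?_, fun e => ?_⟩
  · have := g4.1 (DV.Ge.of_mul (by rwa [mul_comm] at e) (pow_ne_zero 3 (div_ne_zero h3 g6)) g7)
    omega
  · have := g4.2 fun e' => e (e'.mul_right (Or.inr g7.ge))
    omega

end Pool.Agent.Work.MP_475c1a_ag
end

-- merged part: Pool.Agent.Work.MP_475c1a_ag.Big2
section
/-! The covering map from the pencil of genus one curves to its Jacobian. -/

namespace Pool.Agent.Work.MP_475c1a_ag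

open Polynomial Matrix

set_option linter.unusedSectionVars false
set_option maxHeartbeats 400000

theorem QuadF.lift {B L M : Type} [CommRing B] [IsDomain B] [Field L] [Field M] {ι : B →+* L} {u : L}
    {F : B} (h : QuadF ι u F) {ψ : B →+* M} (hψ : Function.Injective ψ) {c : M} (hc : c ^ 2 = ψ F)
    (hF : ∀ x y, x ^ 2 = y ^ 2 * F → y = 0) : ∃ j : L →+* M, (∀ x, j (ι x) = ψ x) ∧ j u = c := by
  obtain ⟨χ, h1, h2⟩ := h.quad.lift ψ hc
  have : IsFractionRing (quadRing ι h.sq) L := IsFractionRing.of_field _ L fun g => by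
    obtain ⟨x, y, z, -, rfl⟩ := h.frac g
    exact ⟨⟨_, x, y, rfl⟩, ⟨_, base_mem_quadRing h.sq z⟩, rfl⟩
  have h3 : Function.Injective χ := (injective_iff_map_eq_zero χ).mpr fun a ha => by
    obtain ⟨x, y, rfl⟩ := h.quad.surj a
    rw [map_add, map_mul, h1, h1, h2] at ha
    have h4 : x ^ 2 = y ^ 2 * F := hψ (by
      rw [map_mul, map_pow, map_pow, ← hc]; linear_combination (ψ x - ψ y * c) * ha)
    obtain rfl := hF x y h4
    obtain rfl : x = 0 := by simpa using h4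
    simp
  exact ⟨IsFractionRing.lift h3, fun x => (IsFractionRing.lift_algebraMap h3 _).trans (h1 x),
    (IsFractionRing.lift_algebraMap h3 _).trans h2⟩

section Rat

variable {L M : Type} [Field L] [Algebra ℂ L] [Field M] [Algebra ℂ M] {j j' : L →ₐ[ℂ] M} {α α' : M}

theorem IsRat.equiv (h : IsRat j α) (h' : IsRat j' α') :
    ∃ σ : M ≃+* M, (∀ c, σ (j c) = j' c) ∧ σ α = α' := by
  let _ := (eR j α).toAlgebra
  have : FaithfulSMul L[X] M := (faithfulSMul_iff_algebraMap_injective _ _).mpr h.inj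
  have : IsFractionRing L[X] M := IsFractionRing.of_field _ M fun g => by
    obtain ⟨p, q, -, rfl⟩ := h.frac g
    exact ⟨p, q, rfl⟩
  have h1 : ∀ p, IsFractionRing.lift h'.inj (eR j α p) = eR j' α' p :=
    IsFractionRing.lift_algebraMap h'.inj
  refine ⟨.ofBijective (IsFractionRing.lift (K := M) h'.inj) ⟨RingHom.injective _, fun g => ?_⟩,
    fun c => by simpa using h1 (C c), by simpa using h1 X⟩
  obtain ⟨p, q, -, rfl⟩ := h'.frac g
  exact ⟨eR j α p / eR j α q, by rw [map_div₀, h1, h1]⟩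

theorem IsRat.comp (h : IsRat j α) (σ : L ≃ₐ[ℂ] L) : IsRat (j.comp (σ : L →ₐ[ℂ] L)) α := by
  have h1 : ∀ p, eR (j.comp (σ : L →ₐ[ℂ] L)) α p = eR j α (mapEquiv σ.toRingEquiv p) := fun p =>
    DFunLike.congr_fun (g := (eR j α).comp (mapRingHom (σ : L →+* L)))
      (ringHom_ext' (RingHom.ext fun c => by simp) (by simp)) p
  refine ⟨fun p q e => (mapEquiv σ.toRingEquiv).injective (h.inj (by rwa [h1, h1] at e)),
    fun g => ?_⟩
  obtain ⟨p, q, hq, rfl⟩ := h.frac g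
  exact ⟨(mapEquiv σ.toRingEquiv).symm p, (mapEquiv σ.toRingEquiv).symm q, by simpa,
    by rw [h1, h1, RingEquiv.apply_symm_apply, RingEquiv.apply_symm_apply]⟩

theorem IsRat.mobius (h : IsRat j α) {a b c d : L} (h0 : a * d - b * c ≠ 0) :
    j c * α + j d ≠ 0 ∧ IsRat j ((j a * α + j b) / (j c * α + j d)) := by
  let _ := (j : L →+* M).toAlgebra
  have h1 : j c * α + j d ≠ 0 := fun e => by
    have h2 := h.inj (a₁ := C c * X + C d) (a₂ := 0) (by simpa using e)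
    exact h0 (by simp [show c = 0 by simpa using congrArg (coeff · 1) h2,
      show d = 0 by simpa using congrArg (coeff · 0) h2])
  obtain ⟨m, hm⟩ : ∃ m, m = (j a * α + j b) / (j c * α + j d) := ⟨_, rfl⟩
  have h2 : j a * j d - j b * j c ≠ 0 := by simpa using (map_ne_zero j).mpr h0
  have h3 : α = (j d * m - j b) / (j a - j c * m) := by
    have e0 := (eq_div_iff h1).mp hm
    have e : (j a - j c * m) * (j c * α + j d) = j a * j d - j b * j c := by
      linear_combination -j c * e0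
    rw [eq_div_iff (left_ne_zero_of_mul (e ▸ h2))]
    linear_combination -e0
  have h4 : ∀ S : IntermediateField L M, m ∈ S → α ∈ S := fun S hS => h3 ▸ div_mem
    (sub_mem (mul_mem (S.algebraMap_mem d) hS) (S.algebraMap_mem b))
    (sub_mem (S.algebraMap_mem a) (mul_mem (S.algebraMap_mem c) hS))
  have h5 : ∀ x p, eR j x p = aeval x p := fun x p => rfl
  refine ⟨h1, hm ▸ ⟨transcendental_iff_injective.mp fun e => transcendental_iff_injective.mpr h.inj
    (mem_algebraicClosure_iff.mp (h4 _ (mem_algebraicClosure_iff.mpr e))), fun g => ?_⟩⟩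
  obtain ⟨p, q, -, rfl⟩ := h.frac g
  have h6 : ∀ p, eR j α p ∈ IntermediateField.adjoin L {m} := fun p =>
    (Algebra.adjoin_le (S := (IntermediateField.adjoin L {m}).toSubalgebra) (by
      simpa using h4 _ (IntermediateField.mem_adjoin_simple_self L m)))
      (aeval_mem_adjoin_singleton L α)
  obtain ⟨r, t, e⟩ := (IntermediateField.mem_adjoin_simple_iff L _).mp (div_mem (h6 p) (h6 q))
  by_cases ht : t = 0
  · exact ⟨0, 1, one_ne_zero, by simp [e, ht]⟩
  · exact ⟨r, t, ht, e⟩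

end Rat

variable {M : Type} [Field M] [Algebra ℂ M]

/-- The abscissa of the covering map. -/
noncomputable def covT (f : MvPolynomial (Fin 3) ℂ) (x z : Fin 3 → M) (u : M) : M :=
  3 * pP (res f x z) / (4 * u ^ 2)

/-- The ordinate of the covering map. -/
noncomputable def covW (f : MvPolynomial (Fin 3) ℂ) (x z : Fin 3 → M) (u : M) : M :=
  27 * pR (res f x z) / (8 * u ^ 3)

variable {f I J : MvPolynomial (Fin 3) ℂ}

theorem cov_eq (h : IsIJ f I J) {x z : Fin 3 → M} {u : M} (hu : u ≠ 0)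
    (e : u ^ 2 = MvPolynomial.aeval x f) : covW f x z u ^ 2 = covT f x z u ^ 3 -
      27 * MvPolynomial.aeval (crossProduct x z) I * covT f x z u -
      27 * MvPolynomial.aeval (crossProduct x z) J := by
  have h1 : 27 * pR (res f x z) ^ 2 = pP (res f x z) ^ 3 - 48 * pI (res f x z) *
    (res f x z).coeff 0 ^ 2 * pP (res f x z) - 64 * pJ (res f x z) * (res f x z).coeff 0 ^ 3 :=
    syzygy _ _ _ _ _
  have h2 := two_ne_zero_alg (L := M)
  rw [res_coeff_zero, ← e] at h1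
  rw [h.eqI, h.eqJ, covT, covW, show (4 : M) = 2 ^ 2 by norm_num, show (8 : M) = 2 ^ 3 by norm_num]
  field_simp
  linear_combination 27 * h1

theorem cov_act (hf : f.IsHomogeneous 4) {g : Matrix (Fin 3) (Fin 3) ℂ} (hg : lin g f = f)
    (σ : M →ₐ[ℂ] M) {x z : Fin 3 → M} {u l k n : M} (hl : l ≠ 0) (hu0 : u ≠ 0)
    (hx : σ ∘ x = l • act g x) (hz : σ ∘ z = k • act g x + n • act g z) (hu : σ u = l ^ 2 * u) :
    σ (covT f x z u) = (l * n) ^ 2 * covT f x z u ∧ σ (covW f x z u) = (l * n) ^ 3 * covW f x z u := by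
  have h1 : ∀ p : M[X], σ (pP p) = pP (p.map (σ : M →+* M)) := fun p => by simp [pP, qP, map_ofNat]
  have h2 : ∀ p : M[X], σ (pR p) = pR (p.map (σ : M →+* M)) := fun p => by simp [pR, qR, map_ofNat]
  have h3 := two_ne_zero_alg (L := M)
  simp only [covT, covW, map_div₀, map_mul, map_pow, map_ofNat, h1, h2, res_map, hx, hz, hu,
    pP_frame hf, pR_frame hf, act, ← res_lin, hg]
  rw [show (4 : M) = 2 ^ 2 by norm_num, show (8 : M) = 2 ^ 3 by norm_num]
  constructor <;> field_simp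

theorem exists_sigma {L : Type} [Field L] [Algebra ℂ L] {j : L →ₐ[ℂ] M} {α : M} (h : IsRat j α)
    (hf : f.IsHomogeneous 4) {g : Matrix (Fin 3) (Fin 3) ℂ} (hg : g.det ≠ 0) (hg' : lin g f = f)
    {u s y : L} (hu : u ≠ 0) (σ : L ≃ₐ[ℂ] L) (hσ : SAct g σ u s y) :
    ∃ τ : M ≃+* M, (∀ c, τ (j c) = j (σ c)) ∧
      VAct (cof g) τ (covW f ![1, j s, j y] ![0, 1, α] (j u)) (covT f ![1, j s, j y] ![0, 1, α] (j u))
        α (j y - α * j s) := by
  have e0 : ∀ (g : Matrix (Fin 3) (Fin 3) ℂ) x i, j (act g x i) = act g (j ∘ x) i := fun g x i => by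
    simp [act, mulVec, dotProduct]
  have e1 : j ∘ ![1, s, y] = ![1, j s, j y] := by funext i; fin_cases i <;> simp
  have e2 : ∀ i, act (cof g) ![-(j y - α * j s), -α, 1] i =
      j (act (cof g) ![s, -1, 0] i) * α + j (act (cof g) ![-y, 0, 1] i) := fun i => by
    simp [act, mulVec, dotProduct, Fin.sum_univ_three]; ring
  obtain ⟨h1, h2⟩ := h.mobius (a := -act (cof g) ![s, -1, 0] 1) (b := -act (cof g) ![-y, 0, 1] 1)
    (c := act (cof g) ![s, -1, 0] 2) (d := act (cof g) ![-y, 0, 1] 2) (by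
      convert mul_ne_zero ((map_ne_zero (algebraMap ℂ L)).mpr hg) hσ.ne using 1
      simp [act, mulVec, dotProduct, Fin.sum_univ_three, cof, adjugate_fin_three, det_fin_three]
      ring)
  rw [map_neg, map_neg, neg_mul, ← neg_add, ← e2, ← e2] at h2
  rw [← e2] at h1
  obtain ⟨τ, t1, t2⟩ := h.equiv (h2.comp σ)
  replace t1 : ∀ c, τ (j c) = j (σ c) := t1
  have e3 : act (cof g) ![-(j y - α * j s), -α, 1] =
      crossProduct (act g ![1, j s, j y]) (act g ![0, 1, α]) := by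
    rw [act, act, act, cross_mulVec]
    congr 1
    simp [crossProduct]; ring
  have t3 : ∀ i, τ (![1, j s, j y] i) = act g ![1, j s, j y] i / act g ![1, j s, j y] 0 := fun i => by
    rw [← e1, Function.comp_apply, t1, hσ.x, map_div₀, e0, e0]
  have h3 : act g ![1, j s, j y] 0 ≠ 0 := by rw [← e1, ← e0]; simpa using hσ.ne
  rw [e3] at h1 t2
  obtain ⟨X, hX⟩ : ∃ X, X = act g ![1, j s, j y] := ⟨_, rfl⟩
  obtain ⟨Z, hZ⟩ : ∃ Z, Z = act g ![0, 1, α] := ⟨_, rfl⟩
  have h4 := cov_act hf hg' ⟨τ.toRingHom, fun c => by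
      rw [← j.commutes]; exact (t1 _).trans (by rw [σ.commutes])⟩ (x := ![1, j s, j y]) (z := ![0, 1, α])
    (u := j u) (l := (X 0)⁻¹) (k := -Z 0 / crossProduct X Z 2) (n := X 0 / crossProduct X Z 2)
    (hX ▸ inv_ne_zero h3) (by simpa using hu) (funext fun i => (t3 i).trans (by
      rw [hX, div_eq_inv_mul]; rfl)) (by
      rw [← hX, ← hZ] at h1 t2 ⊢
      have e4 : crossProduct X Z 2 = X 0 * Z 1 - X 1 * Z 0 := by simp [cross_apply]
      have e5 : crossProduct X Z 1 = X 2 * Z 0 - X 0 * Z 2 := by simp [cross_apply]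
      rw [e5] at t2
      generalize crossProduct X Z 2 = D at *
      funext i
      fin_cases i <;> simp [t2] <;> field_simp
      · ring
      · rw [e4]; ring
      · ring)
    ((t1 u).trans (by rw [hσ.u, map_div₀, map_pow, e0, e1, hX, inv_pow, div_eq_inv_mul]))
  rw [← hX] at h3 t3
  rw [← hX, ← hZ] at h1 t2 e3
  rw [show (X 0)⁻¹ * (X 0 / crossProduct X Z 2) = (crossProduct X Z 2)⁻¹ by field_simp] at h4
  refine ⟨τ, t1, e3 ▸ h1, fun i => ?_, ?_, ?_⟩
  · have t4 := t3 1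
    have t5 := t3 2
    rw [e3]
    have e4 : crossProduct X Z 0 * X 0 + crossProduct X Z 1 * X 1 + crossProduct X Z 2 * X 2 = 0 := by
      simp [cross_apply]; ring
    generalize crossProduct X Z = D at *
    fin_cases i <;> simp [t2] at t4 t5 ⊢
    · rw [t4, t5]; field_simp; linear_combination -e4
    · field_simp
    · field_simp
  · rw [e3, div_eq_inv_mul, ← inv_pow]; exact h4.1
  · rw [e3, div_eq_inv_mul, ← inv_pow]; exact h4.2

end Pool.Agent.Work.MP_475c1a_ag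
end

-- merged part: Pool.Agent.Work.MP_475c1a_ag.Big3
section
/-! The generic curve of the net over the field of functions of the line. -/

namespace Pool.Agent.Work.MP_475c1a_ag

open Polynomial Matrix

set_option linter.unusedSectionVars false
set_option maxHeartbeats 400000

/-- The seminvariant of weight two as a polynomial in the point. -/
noncomputable def hess {A : Type} [CommRing A] (p : A[X]) : A[X] :=
  qP p (derivative p) (hasseDeriv 2 p)

theorem pP_taylor {A : Type} [CommRing A] (p : A[X]) (x : A) : pP (taylor x p) = (hess p).eval x := by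
  simp [pP, hess, qP, taylor_coeff]

theorem hess_map {A B : Type} [CommRing A] [CommRing B] (p : A[X]) (f : A →+* B) :
    (hess p).map f = hess (p.map f) := by
  have : (hasseDeriv 2 p).map f = hasseDeriv 2 (p.map f) := by ext n; simp [hasseDeriv_coeff]
  simp [hess, qP, this]

theorem not_dvd_hess {E : Type} [Field E] [CharZero E] {p : E[X]} (h1 : p.natDegree = 4)
    (h2 : p.Separable) : ¬ p ∣ 3 * hess p := fun h => by
  have h3 : p ∣ C 9 * derivative p ^ 2 := by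
    convert h.add (dvd_mul_right p (24 * hasseDeriv 2 p)) using 1
    simp only [hess, qP, map_ofNat]; ring
  have h4 := natDegree_eq_zero_of_isUnit ((IsCoprime.pow_right (n := 2) h2).isUnit_of_dvd
    ((isUnit_C.mpr (Ne.isUnit (by norm_num))).dvd_mul_left.mp h3))
  omega

variable {f I J : MvPolynomial (Fin 3) ℂ}

theorem genRes_coeff (hf : f.IsHomogeneous 4) :
    (genRes f).coeff 4 = MvPolynomial.aeval ![0, 1, .X 0] f := res_coeff_four hf _ _

theorem genRes_IJ (h : IsIJ f I J) : pI (genRes f) = dual I ∧ pJ (genRes f) = dual J := by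
  have e : crossProduct ![1, 0, .X 1] ![0, 1, .X 0] =
    (![-.X 1, -.X 0, 1] : Fin 3 → MvPolynomial (Fin 2) ℂ) := by simp [cross_apply]
  rw [genRes, ← h.eqI, ← h.eqJ, e]
  exact ⟨rfl, rfl⟩

theorem genRes_nonsq (hf : f.IsHomogeneous 4) (h1 : (inf4 f).natDegree = 4)
    (h2 : (inf4 f).Separable) : ¬ IsSquare ((genRes f).coeff 4) :=
  genRes_coeff hf ▸ not_isSquare_inf4 h1 h2 _ (MvPolynomial.aeval ![X, 0])
    (by funext i; fin_cases i <;> simp)

theorem genRes_map (h : IsIJ f I J) (hf : f.IsHomogeneous 4) (h0 : ¬ IsSquare ((genRes f).coeff 4))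
    (hd : 4 * I ^ 3 - J ^ 2 ≠ 0) {E : Type} [Field E] [CharZero E]
    {ψ : MvPolynomial (Fin 2) ℂ →+* E} (hψ : Function.Injective ψ) :
    ((genRes f).map ψ).natDegree = 4 ∧ ((genRes f).map ψ).Separable := by
  have h1 : ((genRes f).map ψ).natDegree = 4 := by
    rw [natDegree_map_eq_of_injective hψ]
    exact natDegree_eq_of_le_of_coeff_ne_zero (res_natDegree hf _ _) fun e => h0 (e ▸ IsSquare.zero)
  refine ⟨h1, separable_of_disc h1 ?_⟩
  rw [pI_map, pJ_map, (genRes_IJ h).1, (genRes_IJ h).2]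
  simpa [map_ofNat] using (map_ne_zero_iff ψ hψ).mpr (dual_disc h.homI h.homJ hd)

variable {M : Type} [Field M] [Algebra ℂ M] {α β s u : M}

theorem taylor_genRes (α β s : M) : taylor s ((genRes f).map (MvPolynomial.aeval ![α, β] :
    _ →ₐ[ℂ] M)) = res f ![1, s, β + s * α] ![0, 1, α] := by
  rw [genRes, res_map, res_taylor]
  congr 1 <;> funext i <;> fin_cases i <;> simp

theorem covT_eq (α β s u : M) : covT f ![1, s, β + s * α] ![0, 1, α] u =
    3 * bV α β s (hess (genRes f)) / (4 * u ^ 2) := by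
  rw [covT, ← taylor_genRes, pP_taylor, ← hess_map, bV, coe_eval₂RingHom, eval₂_eq_eval_map]

variable {K : Type} [Field K] [Algebra (MvPolynomial (Fin 2) ℂ) K]
  [IsFractionRing (MvPolynomial (Fin 2) ℂ) K] [CharZero K]

/-- The curve over the field of fractions of the coordinate ring of the dual plane. -/
structure Cov (f I J : MvPolynomial (Fin 3) ℂ) (α β s u T W : M)
    (ι : K[X] →+* M) : Prop where
  map : ∀ p, ι (p.map (algebraMap _ _)) = bV α β s p
  base : QuadF (bV α β s) u (genRes f)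
  quad : QuadF ι u ((genRes f).map (algebraMap _ _))
  deg : ((genRes f).map (algebraMap _ K)).natDegree = 4
  sep : ((genRes f).map (algebraMap _ K)).Separable
  nonsq : ¬ IsSquare
    ((genRes f).map (algebraMap _ K)).leadingCoeff
  hT : T = covT f ![1, s, β + s * α] ![0, 1, α] u
  hW : W = covW f ![1, s, β + s * α] ![0, 1, α] u
  inj : Function.Injective (bV α β T)
  sq : W ^ 2 = bV α β T (cub (dual I) (dual J))

theorem exists_cov (h : IsIJ f I J) (hf : f.IsHomogeneous 4) (h0 : ¬ IsSquare ((genRes f).coeff 4))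
    (hd : 4 * I ^ 3 - J ^ 2 ≠ 0) (hq : QuadF (bV α β s) u (genRes f)) :
    ∃ ι : K[X] →+* M, Cov f I J α β s u (covT f ![1, s, β + s * α] ![0, 1, α] u)
      (covW f ![1, s, β + s * α] ![0, 1, α] u) ι := by
  let P := MvPolynomial (Fin 2) ℂ
  have h1 : Function.Injective ((bV α β s).comp C) := hq.inj.comp C_injective
  obtain ⟨k, hk⟩ : ∃ k : K →+* M, ∀ x, k (algebraMap P K x) = bV α β s (C x) :=
    ⟨IsFractionRing.lift h1, IsFractionRing.lift_algebraMap h1⟩
  have h2 : ∀ x p, eval₂RingHom k x (p.map (algebraMap P K)) = bV α β x p := fun x =>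
    bV_ext (f := (eval₂RingHom k x).comp (mapRingHom (algebraMap P K))) (by simp [hk])
      (by simp [hk]) (by simp [hk]) (by simp)
  have h3 : QuadF (eval₂RingHom k s) u ((genRes f).map (algebraMap P K)) :=
    hq.localize (ι' := eval₂RingHom k s) (m := mapRingHom (algebraMap P K)) (h2 s) fun x => by
      obtain ⟨c, hc, q, e⟩ := exists_denom (A := P) x
      exact ⟨C c, C_ne_zero.mpr hc, q, e⟩
  obtain ⟨h4, h5⟩ := genRes_map h hf h0 hd (IsFractionRing.injective P K)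
  refine ⟨eval₂RingHom k s, h2 s, hq, h3, h4, h5, ?_, rfl, rfl, ?_, ?_⟩
  · rintro ⟨r, hr⟩
    rw [leadingCoeff, h4, coeff_map] at hr
    obtain ⟨a, b, hb, rfl⟩ := IsFractionRing.div_surjective (A := P) r
    have h6 : algebraMap P K b ≠ 0 := by simpa using nonZeroDivisors.ne_zero hb
    refine nonZeroDivisors.ne_zero hb (nonsq h0 a b (IsFractionRing.injective P K ?_))
    rw [map_mul, map_pow, map_pow, hr, ← sq, div_pow, mul_div_cancel₀ _ (pow_ne_zero 2 h6)]
  · refine (injective_iff_map_eq_zero _).mpr fun p hp => by_contra fun hp0 => ?_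
    let _ := k.toAlgebra
    let _ := (eval₂RingHom k s).toAlgebra
    have : IsScalarTower K K[X] M := .of_algebraMap_eq fun c => (eval₂_C k s).symm
    have h6 : IsIntegral K (covT f ![1, s, β + s * α] ![0, 1, α] u) :=
      IsAlgebraic.isIntegral ⟨p.map (algebraMap P K),
        (Polynomial.map_ne_zero_iff (IsFractionRing.injective P K)).mpr hp0, (h2 _ p).trans hp⟩
    have h7 := h6.tower_top (A := K[X])
    rw [covT_eq, h3.sq, ← h2, hess_map, ← map_ofNat (eval₂RingHom k s) 3,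
      ← map_ofNat (eval₂RingHom k s) 4, ← map_mul, ← map_mul] at h7
    exact not_dvd_hess h4 h5 ((dvd_mul_left _ 4).trans (dvd_of_integral h3.inj
      (mul_ne_zero (OfNat.ofNat_ne_zero 4) h5.ne_zero) h7))
  · rw [cov_eq h hq.u_ne (by rw [hq.sq, bV_genRes]), show crossProduct ![1, s, β + s * α] ![0, 1, α]
      = ![-β, -α, 1] by simp [cross_apply]]
    simp [cub, aeval_dual, map_ofNat]

namespace Cov

variable {T W : M} {ι : K[X] →+* M}
  (c : Cov f I J α β s u T W ι)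

include c

theorem map_C (p : MvPolynomial (Fin 2) ℂ) :
    ι (C (algebraMap _ _ p)) = MvPolynomial.aeval ![α, β] p := by
  rw [← bV_C α β s, ← c.map, Polynomial.map_C]

theorem map_X : ι X = s := by rw [← bV_X α β s, ← c.map, Polynomial.map_X]

theorem inj_base {p : MvPolynomial (Fin 2) ℂ} (hp : p ≠ 0) : MvPolynomial.aeval ![α, β] p ≠ 0 := by
  simpa using c.base.ne0 (C_ne_zero.mpr hp)

theorem taylor_eq : taylor (ι X) (((genRes f).map (algebraMap _ _)).map (ι.comp C)) =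
    res f ![1, s, β + s * α] ![0, 1, α] := by
  rw [← taylor_genRes, c.map_X, Polynomial.map_map]
  congr 2
  exact RingHom.ext c.map_C

theorem triv_iff {w : DV M} :
    (∀ x, w.v (ι (C x)) = 0) ↔
      ∀ p : MvPolynomial (Fin 2) ℂ, w.v (MvPolynomial.aeval ![α, β] p) = 0 := by
  refine ⟨fun h p => c.map_C p ▸ h _, fun h x => ?_⟩
  obtain ⟨a, b, hb, rfl⟩ := IsFractionRing.div_surjective (A := MvPolynomial (Fin 2) ℂ) x
  by_cases ha : a = 0
  · simp [ha]
  rw [show ι (C _) = _ from map_div₀ (ι.comp C) _ _, RingHom.comp_apply, RingHom.comp_apply,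
    c.map_C, c.map_C, w.v_div (c.inj_base ha) (c.inj_base (nonZeroDivisors.ne_zero hb)), h, h,
    sub_zero]

theorem ge_T {w : DV M} (h0 : ∀ p, w.Ge 0 (bV α β s p)) (h1 : w.v u = 0) (h2 : w.v 2 = 0) :
    w.Ge 0 T := by
  rw [c.hT, covT_eq]
  refine ((DV.ge_ofNat 3).mul0 (h0 _)).div (n := 0) ?_ le_rfl
  rw [show (4 : M) * u ^ 2 = (2 * u) ^ 2 by ring, w.v_pow, w.v_mul two_ne_zero_alg c.base.u_ne]
  omega

theorem good {w : DV M} (hn : w.Norm) (h0 : ∀ x, w.v (ι (C x)) = 0) (h1 : w.Ge 0 T)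
    (h2 : w.Ge 0 (ι X)) : Good ι u w := by
  refine ⟨hn, h0, h2, (DV.v_eq_zero (c.quad.ge_u (ge_poly h0 h2)) fun h3 => ?_).2⟩
  have h4 := (h3.pow 2).mono (show (1 : ℤ) ≤ _ by norm_num)
  have h5 := h1.mul_left ((DV.ge_ofNat 4).mul_left h4)
  rw [c.hT, covT_eq, div_mul_cancel₀ _ (mul_ne_zero (by
    rw [show (4 : M) = 2 ^ 2 by norm_num]; exact pow_ne_zero 2 two_ne_zero_alg)
    (pow_ne_zero 2 c.base.u_ne)), ← c.map, hess_map, ← map_ofNat ι 3, ← map_mul] at h5
  rw [c.quad.sq] at h4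
  obtain ⟨p, hp, -, h6⟩ := exists_prime_ge_one h0 (ge_poly h0 h2) c.sep.ne_zero h4
  have h7 := dvd_of_ge_one (ge_poly h0 h2) hp h6 h4
  have h8 := (dvd_of_ge_one (ge_poly h0 h2) hp h6 h5).add (h7.mul_right (24 * hasseDeriv 2
    ((genRes f).map (algebraMap _ K))))
  rw [hess, qP, show ∀ a b c : K[X],
    3 * (3 * b ^ 2 - 8 * a * c) + a * (24 * c) = C 9 * b ^ 2 from fun a b c => by
      rw [map_ofNat]; ring] at h8
  exact hp.not_isUnit (c.sep.isUnit_of_dvd' h7 (hp.dvd_of_dvd_pow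
    ((isUnit_C.mpr (Ne.isUnit (by norm_num))).dvd_mul_left.mp h8)))

theorem exists_lift {L : Type} [Field L] [Algebra ℂ L] {W' T' α' β' : L}
    (h : QuadF (bV α' β' T') W' (cub (dual I) (dual J))) :
    ∃ j : L →ₐ[ℂ] M, j W' = W ∧ j T' = T ∧ j α' = α ∧ j β' = β := by
  obtain ⟨j, h1, h2⟩ := h.lift c.inj c.sq fun x y => odd_zero (cub_natDegree _ _)
  exact ⟨⟨j, fun x => by simpa using h1 (C (.C x))⟩, h2, by simpa using h1 X,
    by simpa using h1 (C (.X 0)), by simpa using h1 (C (.X 1))⟩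

theorem finite (h : IsIJ f I J) (hf : f.IsHomogeneous 4) (h0 : ¬ IsSquare ((genRes f).coeff 4))
    (hd : 4 * I ^ 3 - J ^ 2 ≠ 0) {L : Type} [Field L] [Algebra ℂ L] [Algebra L M]
    [IsScalarTower ℂ L M] {T' α' β' : L} (h1 : algebraMap L M T' = T) (h2 : algebraMap L M α' = α)
    (h3 : algebraMap L M β' = β) : FiniteDimensional L M := by
  have : CharZero L := charZero_of_injective_algebraMap (algebraMap ℂ L).injective
  let ψ : MvPolynomial (Fin 2) ℂ →+* L := (MvPolynomial.aeval ![α', β']).toRingHom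
  have e1 : ∀ p : (MvPolynomial (Fin 2) ℂ)[X], aeval s (p.map ψ) = bV α β s p := fun p =>
    (eR_map (IsScalarTower.toAlgHom ℂ L M) s α' β' p).trans (by simp [h2, h3])
  obtain ⟨h4, h5⟩ := genRes_map h hf h0 hd (ψ := ψ)
    ((injective_iff_map_eq_zero _).mpr fun p hp => by_contra fun e => c.inj_base e (by
      simpa [← e1, ← bV_C α β s] using congrArg (algebraMap L M) hp))
  have h6 : IsIntegral L s := IsAlgebraic.isIntegral ⟨_, fun e => not_dvd_hess h4 h5
    ⟨C (4 * T'), sub_eq_zero.mp e⟩, by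
      rw [map_sub, map_mul, map_mul, ← hess_map, e1, e1, aeval_C, map_mul, h1, c.hT, covT_eq,
        ← c.base.sq, map_ofNat, map_ofNat]
      have := two_ne_zero_alg (L := M)
      have := c.base.u_ne
      rw [show (4 : M) = 2 ^ 2 by norm_num]
      field_simp
      ring⟩
  have h7 : IsIntegral L u := .of_pow two_pos (by
    rw [c.base.sq, ← e1]
    exact adjoin_le_integralClosure h6 (aeval_mem_adjoin_singleton L s))
  have := IntermediateField.finiteDimensional_adjoin (K := L) (S := {s, u}) (by simp [h6, h7])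
  have h8 : ∀ p, bV α β s p ∈ IntermediateField.adjoin L {s, u} := fun p => e1 p ▸
    (Algebra.adjoin_le (S := (IntermediateField.adjoin L {s, u}).toSubalgebra) (by
      simpa using IntermediateField.subset_adjoin L {s, u} (by simp)))
      (aeval_mem_adjoin_singleton L s)
  refine Module.Finite.of_surjective (IntermediateField.adjoin L {s, u}).val.toLinearMap fun g => ?_
  obtain ⟨x, y, z, -, rfl⟩ := c.base.frac g
  exact ⟨⟨_, div_mem (add_mem (h8 x) (mul_mem (h8 y)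
    (IntermediateField.subset_adjoin L {s, u} (by simp)))) (h8 z)⟩, rfl⟩

end Cov

end Pool.Agent.Work.MP_475c1a_ag
end

-- merged part: Pool.Agent.Work.MP_475c1a_ag.KerV
section
/-! Places of the generic curve, and comparison with the divisors of the threefold. -/

namespace Pool.Agent.Work.MP_475c1a_ag

open Polynomial CategoryTheory

set_option linter.unusedSectionVars false
set_option maxHeartbeats 400000

section Side

variable {L M ι κ : Type} [Field L] [Field M] {v : ι → DV L} {inf : ι} {w : κ → DV M}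
  {pb : (ι →₀ ℤ) →+ (κ →₀ ℤ)} {j : L →+* M} {s : Set κ}

variable (v inf w pb) in
/-- Pullback induces an isomorphism of class groups modulo torsion and the class at infinity. -/
structure Side : Prop where
  prin : ∀ D g, g ≠ 0 → (∀ i, D i = (v i).v g) → pb D ∈ SatOn w Set.univ
  at_inf : pb (Finsupp.single inf 1) ∈ SatOn w Set.univ
  ker : ∀ D, pb D ∈ SatOn w Set.univ → D ∈ SatOn v {i | i ≠ inf}
  surj : ∀ E, ∃ N : ℤ, 0 < N ∧ ∃ D, N • E - pb D ∈ SatOn w Set.univ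

variable (w pb) in
/-- Divisors with a multiple equivalent to a pullback. -/
def Img : AddSubgroup (κ →₀ ℤ) where
  carrier := {E | ∃ N : ℤ, 0 < N ∧ ∃ D, N • E - pb D ∈ SatOn w Set.univ}
  zero_mem' := ⟨1, one_pos, 0, by simp⟩
  add_mem' := by
    rintro E E' ⟨N, hN, D, h⟩ ⟨N', hN', D', h'⟩
    refine ⟨N * N', mul_pos hN hN', N' • D + N • D', ?_⟩
    convert add_mem ((SatOn w _).zsmul_mem h N') ((SatOn w _).zsmul_mem h' N) using 1
    simp only [map_add, map_zsmul]; module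
  neg_mem' := by
    rintro E ⟨N, hN, D, h⟩
    exact ⟨N, hN, -D, by convert neg_mem h using 1; simp only [map_neg]; module⟩

theorem sat_le_img : SatOn w Set.univ ≤ Img w pb := fun E h => ⟨1, one_pos, 0, by simpa⟩

theorem img_of_smul (N : ℤ) (E : κ →₀ ℤ) (hN : 0 < N) (h : N • E ∈ Img w pb) : E ∈ Img w pb := by
  obtain ⟨N', hN', D, h⟩ := h
  exact ⟨N' * N, mul_pos hN' hN, D, by rwa [mul_smul]⟩

theorem IsPb.side (h : IsPb v w j pb) (hn : ∀ i, (v i).Norm) (hs : SatOn w s ≤ SatOn w Set.univ)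
    (h1 : ∀ k ∈ s, (∃ i ≠ inf, ∃ e, (w k).Over j (v i) e) ∨ ∀ g, (w k).v (j g) = 0)
    (h2 : ∀ D, pb D ∈ SatOn w Set.univ → D ∈ SatOn v {i | i ≠ inf}) (h3 : ∀ E, E ∈ Img w pb) :
    Side v inf w pb := by
  have h4 : ∀ k D, (∀ g, (w k).v (j g) = 0) → pb D k = 0 := fun k D h4 => h.not_over D fun i e h5 => by
    obtain ⟨p, -, hp⟩ := hn i
    have := h5.2 p
    rw [h4, hp, mul_one] at this
    exact h5.1.ne this
  refine ⟨fun D g hg hD => hs (satOn_of_eq ((map_ne_zero j).mpr hg) fun k hk => ?_),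
    hs (satOn_of_eq one_ne_zero fun k hk => ?_), h2, h3⟩
  · rcases h1 k hk with ⟨i, -, e, h5⟩ | h5
    · rw [h.of_over D h5, h5.2, hD]
    · rw [h4 k D h5, h5]
  · rcases h1 k hk with ⟨i, hi, e, h5⟩ | h5
    · rw [h.of_over _ h5, Finsupp.single_eq_of_ne hi, mul_zero, DV.v_one]
    · rw [h4 k _ h5, DV.v_one]

end Side

variable {f I J : MvPolynomial (Fin 3) ℂ} {M : Type} [Field M] [Algebra ℂ M] {α β s u T W : M}
  {K : Type} [Field K]

/-- Places of the generic curve where the covering map is finite. -/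
def Pl (ι : K[X] →+* M) (T : M) : Type :=
  {w : DV M // w.Norm ∧ (∀ x, w.v (ι (C x)) = 0) ∧ w.Ge 0 T}

/-- The valuation of a place. -/
def Pl.w {ι : K[X] →+* M} {T : M} (k : Pl ι T) : DV M := k.1

/-- The finite places. -/
def Pl.fin (ι : K[X] →+* M) (T : M) : Set (Pl ι T) := {k | k.w.Ge 0 (ι X)}

theorem Pl.w_inj {ι : K[X] →+* M} {T : M} : Function.Injective (Pl.w (ι := ι) (T := T)) :=
  Subtype.val_injective

variable [Algebra (MvPolynomial (Fin 2) ℂ) K] [IsFractionRing (MvPolynomial (Fin 2) ℂ) K]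
  [CharZero K] {ι : K[X] →+* M} (c : Cov f I J α β s u T W ι)

include c

theorem Cov.good_fin : ∀ k ∈ Pl.fin ι T, Good ι u k.w := fun k hk =>
  c.good k.2.1 k.2.2.1 k.2.2.2 hk

theorem Cov.eq_inf {k k' : Pl ι T} (hk : k ∉ Pl.fin ι T) (hk' : k' ∉ Pl.fin ι T) : k = k' :=
  Pl.w_inj (c.quad.eq_inf c.deg c.nonsq k.2.1 k'.2.1 k.2.2.1 k'.2.2.1
    (not_le.mp fun h => hk (Or.inr h)) (not_le.mp fun h => hk' (Or.inr h)))

theorem Cov.triv (k : Pl ι T) (p : MvPolynomial (Fin 2) ℂ) :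
    k.w.v (MvPolynomial.aeval ![α, β] p) = 0 := c.triv_iff.mp k.2.2.1 p

variable {σ : M ≃+* M} (c1 : ∀ x, σ (ι x) = ι x) (c2 : σ u = -u)

include c1 c2

theorem Cov.fin_supp (g : M) (hg : g ≠ 0) : {k : Pl ι T | k.w.v g ≠ 0}.Finite :=
  ((c.quad.fin_good c.good_fin Pl.w_inj σ c1 c2 hg).union (Set.Subsingleton.finite
    fun _ h _ h' => c.eq_inf h h')).subset fun k hk => by
      by_cases h : k ∈ Pl.fin ι T
      exacts [Or.inl ⟨h, hk⟩, Or.inr h]

theorem Cov.sat_le : SatOn Pl.w (Pl.fin ι T) ≤ SatOn Pl.w Set.univ := fun D hD => by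
  refine satOn_extend (c.fin_supp c1 c2) hD fun k _ hk => single_mem_satOn c.quad.u_ne ?_
    fun k' _ h => (c.good_fin k' (by_contra fun h' => h (c.eq_inf h' hk))).unit
  have h1 : k.w.v (ι X) < 0 := not_le.mp fun h => hk (Or.inr h)
  have h2 := v_poly_inf c.quad.inj k.2.2.1 h1 c.sep.ne_zero
  rw [← c.quad.sq, DV.v_pow, c.deg] at h2
  change k.1.v u ≠ 0
  change k.1.v (ι X) < 0 at h1
  omega

variable {hI : I.IsHomogeneous 4} {hJ : J.IsHomogeneous 6} {L : Type} [Field L] [Algebra ℂ L]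
  {θ : (vc hI hJ).Ring →+* L} {P : PrimeDiv (under.obj (vc hI hJ).scheme) → Ideal (vc hI hJ).Ring}
  {v : PrimeDiv (under.obj (vc hI hJ).scheme) → DV L} {pl : Aut (vc hI hJ).scheme → L ≃+* L}
  {inf : PrimeDiv (under.obj (vc hI hJ).scheme)} {W' T' α' β' : L}

theorem Cov.side_V (V : VPack hI hJ θ P v pl inf W' T' α' β') (h : IsIJ f I J) [Algebra L M]
    [IsScalarTower ℂ L M] [FiniteDimensional L M] (h0 : algebraMap L M W' = W)
    (h1 : algebraMap L M T' = T) (h2 : algebraMap L M α' = α) (h3 : algebraMap L M β' = β)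
    {pb : _ →+ (Pl ι T →₀ ℤ)} (hpb : IsPb v Pl.w (algebraMap L M) pb) : Side v inf Pl.w pb := by
  classical
  have := V.dom
  have : CharZero L := charZero_of_injective_algebraMap (algebraMap ℂ L).injective
  have e1 : ∀ p, algebraMap L M (bV α' β' T' p) = bV α β T p := fun p =>
    (map_bV (IsScalarTower.toAlgHom ℂ L M) α' β' T' p).trans (by simp [h1, h2, h3])
  have e2 : ∀ (k : Pl ι T) p, k.w.Ge 0 (bV α β T p) := fun k p =>
    DV.ge_aeval (fun q => Or.inr (c.triv k q).ge) k.2.2.2 p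
  have e3 : ∀ k : Pl ι T, ∃ i ≠ inf, ∃ e, k.w.Over (algebraMap L M) (v i) e := fun k => by
    refine V.chart.exists_over (RingEquiv.refl _) (fun p => e1 p ▸ e2 k p) ?_ fun q hq => ?_
    · by_contra! h4
      obtain ⟨g, -, hg⟩ := k.2.1
      exact one_ne_zero (hg.symm.trans (k.w.trivial_of_algebraic h4 (.of_finite L g)))
    · rw [RingEquiv.refl_apply, e1, bV_C] at hq
      by_contra h4
      have := hq.le (c.inj_base h4)
      rw [c.triv] at this
      omega
  refine hpb.side V.chart.hm.norm (c.sat_le c1 c2) (fun k _ => Or.inl (e3 k)) ?_ ?_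
  · rintro D ⟨N, hN, m, hm, hD⟩
    refine satOn_extend V.chart.am.fin (s := {i | i ≠ inf ∧
      ∀ p : MvPolynomial (Fin 2) ℂ, (v i).v (MvPolynomial.aeval ![α', β'] p) = 0})
      ⟨Module.finrank L M * N, mul_pos (by exact_mod_cast Module.finrank_pos) hN, Algebra.norm L m,
        Algebra.norm_ne_zero_iff.mpr hm, fun i hi => ?_⟩ fun i hi h4 => ?_
    · rw [mul_assoc]
      refine (DV.v_norm (V.chart.hm.norm i) hm fun w e hw h4 => ?_).symm
      let k : Pl ι T := ⟨w, hw, c.triv_iff.mpr fun p => by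
        rw [← bV_C α β T, ← e1, h4.2, bV_C, hi.2, mul_zero], by
          rw [← h1, h4.ge]; simpa using V.chart.reg_b hi.1 X⟩
      have h5 := hD k trivial
      rw [hpb.of_over (k := k) D h4] at h5
      exact h5.symm.trans (by ring)
    · obtain ⟨q, hq⟩ := not_forall.mp fun h5 => h4 ⟨hi, h5⟩
      have h5 := (V.chart.reg_b hi (C q)).nonneg
      rw [bV_C] at h5
      obtain ⟨p, hp, h6, h7⟩ := V.vertical hi (q := q) (by rintro rfl; simp at hq)
        (Or.inr (by omega))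
      exact single_mem_satOn (fun e => by simp [e] at h6) (by omega) h7
  refine c.quad.mem_top c.good_fin (c.fin_supp c1 c2) Pl.w_inj ((c.sat_le c1 c2).trans sat_le_img)
    img_of_smul (fun p r q D a1 a2 a3 a4 a5 => ?_) c.deg
  have hT' : ∀ x, T ≠ ι (C x) := fun x e => by
    obtain ⟨a, b, hb, rfl⟩ := IsFractionRing.div_surjective (A := MvPolynomial (Fin 2) ℂ) x
    have hb' := nonZeroDivisors.ne_zero hb
    rw [show ι (C _) = _ from map_div₀ (ι.comp C) _ _, RingHom.comp_apply, RingHom.comp_apply,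
      c.map_C, c.map_C, eq_div_iff (c.inj_base hb')] at e
    have h4 := c.inj (a₁ := C b * X) (a₂ := C a) (by
      rw [map_mul, bV_C, bV_C, bV_X, ← e, mul_comm])
    exact hb' (by simpa using congrArg (coeff · 1) h4)
  rcases c.quad.cover c.good_fin (T := T) (W := W) (by rw [c.taylor_eq, c.hT, covT])
    (by rw [c.taylor_eq, c.hW, covW]) hT' a1 a2 a3 a4 a5 with h4 | ⟨t, b, h4, g, hg, h5⟩
  · exact sat_le_img (c.sat_le c1 c2 h4)
  obtain ⟨d, hd, n, hn⟩ : ∃ d ≠ 0, ∃ n, algebraMap (MvPolynomial (Fin 2) ℂ) K d * t =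
      algebraMap _ K n := by
    obtain ⟨a, b, hb, rfl⟩ := IsFractionRing.div_surjective (A := MvPolynomial (Fin 2) ℂ) t
    exact ⟨b, nonZeroDivisors.ne_zero hb, a, mul_div_cancel₀ _ (by
      simpa using nonZeroDivisors.ne_zero hb)⟩
  have h6 : C d * X - C n ≠ 0 := fun e => hd (by simpa using congrArg (coeff · 1) e)
  obtain ⟨i, hi, h7⟩ := V.chart.exists_point (RingEquiv.refl _) (eval₂RingHom (algebraMap _ K) t)
    (c := b) (by
      rw [h4, pI_map, pJ_map, (genRes_IJ h).1, (genRes_IJ h).2]; simp [cub, map_ofNat])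
    ⟨_, h6, by simp [hn]⟩ (by simp)
  have h8 : bV α β T (C d * X - C n) = MvPolynomial.aeval ![α, β] d * (T - ι (C t)) := by
    rw [mul_sub, ← c.map_C d, ← map_mul, ← map_mul, hn, c.map_C, c.map_C]; simp
  have h9 := (h7 (C d * X - C n) 0).mpr (by simp [hn])
  rw [map_zero, zero_mul, add_zero] at h9
  have h10 := h9.le (V.chart.quadF.ne0 h6)
  have h11 : T - ι (C t) ≠ 0 := right_ne_zero_of_mul (h8 ▸ (map_ne_zero_iff _ c.inj).mpr h6)
  have h12 : ∀ k : Pl ι T, k.w.v (bV α β T (C d * X - C n)) = k.w.v (T - ι (C t)) := fun k => by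
    rw [h8, DV.v_mul _ (c.inj_base hd) h11, c.triv, zero_add]
  have h13 : ∀ k : Pl ι T, k.w.Ge 1 (T - ι (C t)) → ∀ p,
      k.w.Ge 1 (bV α β T p - ι (C (p.eval₂ (algebraMap _ K) t))) := fun k hk p => by
    induction p using Polynomial.induction_on with
    | C q => simp [c.map_C, DV.ge_zero]
    | add p q hp hq => convert hp.add hq using 1; simp only [eval₂_add, map_add]; ring
    | monomial m q hq =>
      convert (hq.mul_right k.2.2.2).add (DV.Ge.mul_left (Or.inr (k.2.2.1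
        ((C q * X ^ m).eval₂ (algebraMap _ K) t)).ge) hk) using 1
      simp only [pow_succ, ← mul_assoc, eval₂_mul_X, map_mul, bV_X]; ring
  have h14 : ∀ (k : Pl ι T) x, k.w.Ge 1 (ι (C x)) ↔ x = 0 := fun k x =>
    ⟨fun e => by_contra fun hx => by
      have := e.le (c.quad.ne0 (C_ne_zero.mpr hx))
      rw [show k.w.v _ = 0 from k.2.2.1 x] at this
      omega, by rintro rfl; simp [DV.ge_zero]⟩
  have h15 : ∀ k : Pl ι T, k.w.Ge 1 (W - ι (C b)) → k.w.Ge 1 (T - ι (C t)) →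
      ∃ e, k.w.Over (algebraMap L M) (v i) e := fun k a b' => by
    refine V.chart.over_of_cen hi (fun p => e1 p ▸ e2 k p) fun x y => ?_
    rw [h7, ← h14 k, map_add, map_mul, e1, e1, h0]
    have := (h13 k b' x).add (((e2 k y).mul_left a).add ((h13 k b' y).mul_right
      (Or.inr (k.2.2.1 b).ge)))
    refine ⟨fun e => ?_, fun e => ?_⟩
    · convert e.sub this using 1; simp only [map_add, map_mul, coe_eval₂RingHom]; ring
    · convert e.add this using 1; simp only [map_add, map_mul, coe_eval₂RingHom]; ring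
  have h16 : ∀ (k : Pl ι T) e, k.w.Over (algebraMap L M) (v i) e → k.w.Ge 1 (W - ι (C b)) :=
    fun k e he => by
      obtain ⟨a, a', ha', rfl⟩ := IsFractionRing.div_surjective (A := MvPolynomial (Fin 2) ℂ) b
      have ha := nonZeroDivisors.ne_zero ha'
      have := he.ge_one.mpr ((h7 (-C a) (C a')).mpr (by simp [mul_div_cancel₀, ha]))
      rw [map_add, map_mul, e1, e1, h0, map_neg, bV_C, bV_C] at this
      refine DV.Ge.of_mul (by
        rw [show ι (C _) = _ from map_div₀ (ι.comp C) _ _, RingHom.comp_apply, RingHom.comp_apply,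
          c.map_C, c.map_C, mul_sub, mul_div_cancel₀ _ (c.inj_base ha)]
        convert this using 1; ring) (c.inj_base ha) (c.triv k a')
  refine img_of_smul 2 D two_pos ⟨1, one_pos, (v i).v (bV α' β' T' (C d * X - C n)) •
    Finsupp.single i 1, c.sat_le c1 c2 (satOn_of_eq (inv_ne_zero hg) fun k hk => ?_)⟩
  have h17 : (v i).v (bV α' β' T' (C d * X - C n)) * pb (Finsupp.single i 1) k =
      if k.w.Ge 1 (W - ι (C b)) then k.w.v (T - ι (C t)) else 0 := by
    by_cases a : ∃ e, k.w.Over (algebraMap L M) (v i) e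
    · obtain ⟨e, he⟩ := a
      rw [if_pos (h16 k e he), hpb.of_over _ he, ← h12, ← e1, he.2, Finsupp.single_eq_same]; ring
    · obtain ⟨i', -, e, he⟩ := e3 k
      rw [hpb.of_over _ he, Finsupp.single_eq_of_ne (by rintro rfl; exact a ⟨e, he⟩)]
      split_ifs with a'
      · rw [show k.w.v _ = 0 from (DV.v_eq_zero (DV.Ge.sub k.2.2.2 (Or.inr (k.2.2.1 t).ge))
          fun b' => a (h15 k a' b')).2]
        ring
      · ring
  rw [DV.v_inv, map_zsmul]
  simp only [one_smul, Finsupp.sub_apply, Finsupp.smul_apply, smul_eq_mul, h17]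
  split_ifs with a
  · rw [(h5 k hk).1 a]; ring
  · rw [(h5 k hk).2 a]; ring

end Pool.Agent.Work.MP_475c1a_ag
end

-- merged part: Pool.Agent.Work.MP_475c1a_ag.Final
section
/-! From the two comparisons to the isomorphism of representations. -/

namespace Pool.Agent.Work.MP_475c1a_ag

open CategoryTheory TensorProduct

set_option linter.unusedSectionVars false
set_option maxHeartbeats 400000

/-- Valuation data of a complex scheme, compared with a family of places. -/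
structure Half (X : CScheme) {L M κ : Type} [Field L] [Field M]
    (v : PrimeDiv (under.obj X) → DV L) (inf : PrimeDiv (under.obj X)) (pl : Aut X → L ≃+* L)
    (w : κ → DV M) (j : L →+* M) (pb : (PrimeDiv (under.obj X) →₀ ℤ) →+ (κ →₀ ℤ)) : Prop where
  prin : ∀ D, D ∈ principal (under.obj X) ↔ ∃ g ≠ 0, ∀ i, D i = (v i).v g
  pl_one : ∀ g, pl 1 g = g
  pl_mul : ∀ σ τ g, pl (σ * τ) g = pl τ (pl σ g)
  v_pl : ∀ σ i g, (v i).v (pl σ g) = (v (primeMap (under.mapIso σ) i)).v g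
  isPb : IsPb v w j pb
  side : Side v inf w pb
  fin : ∀ g, g ≠ 0 → {i | (v i).v g ≠ 0}.Finite
  zero : ∀ g, (∀ i ≠ inf, (v i).v g = 0) → (v inf).v g = 0
  canon : ∀ τ [DecidableEq (PrimeDiv (under.obj X))], ∃ m ≠ 0, ∀ i, (v i).v m =
    (if i = inf then 1 else 0) - if primeMap (under.mapIso τ) i = inf then 1 else 0

/-- Two automorphisms are induced by one automorphism of a common extension. -/
structure Rel {G G' L L' M : Type} [Field L] [Field L'] [Field M] (pl : G → L ≃+* L)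
    (pl' : G' → L' ≃+* L') (j : L →+* M) (j' : L' →+* M) (τ : G) (τ' : G') (σ : M ≃+* M) : Prop where
  fst : ∀ g, σ (j g) = j (pl τ g)
  snd : ∀ g, σ (j' g) = j' (pl' τ' g)

section

variable {X : CScheme} {L M κ : Type} [Field L] [Field M] {v : PrimeDiv (under.obj X) → DV L}
  {inf : PrimeDiv (under.obj X)} {pl : Aut X → L ≃+* L} {w : κ → DV M} {j : L →+* M}
  {pb : (PrimeDiv (under.obj X) →₀ ℤ) →+ (κ →₀ ℤ)}

theorem primeMap_bij {X Y : AlgebraicGeometry.Scheme.{0}} (e : X ≅ Y) :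
    Function.Bijective (primeMap e) :=
  Function.bijective_iff_has_inverse.mpr ⟨_, primeMap_symm e, primeMap_symm e.symm⟩

theorem Half.split (h : Half X v inf pl w j pb) (τ₀ : Aut X) (h0 : ∀ τ, τ₀ * τ = τ * τ₀)
    (σ₀ : M ≃+* M) (h1 : ∀ g, σ₀ (j g) = j (pl τ₀ g)) {ρ₀ : κ → κ} (h2 : Function.Bijective ρ₀)
    (h3 : ∀ k g, (w k).v (σ₀ g) = (w (ρ₀ k)).v g)
    (h4 : ∀ D : κ →₀ ℤ, D + D.mapDomain ρ₀ ∈ SatOn w Set.univ) :
    ∃ e : ClC (under.obj X) ≃ₗ[ℂ] ℂ × (ℂ ⊗[ℤ] ((κ →₀ ℤ) ⧸ SatOn w Set.univ)),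
      ∀ τ (σ : M ≃+* M) ρ (h2 : Function.Bijective ρ) (h3 : ∀ k g, (w k).v (σ g) = (w (ρ k)).v g),
        (∀ g, σ (j g) = j (pl τ g)) → ∀ x, e (clRep X τ x) = ((e x).1,
          (QuotientAddGroup.map _ _ (Finsupp.mapDomain.addMonoidHom ρ) fun _ =>
            satOn_mapDomain h2 σ h3).toIntLinearMap.baseChange ℂ (e x).2) := by
  classical
  let a : Cl (under.obj X) →+ (κ →₀ ℤ) ⧸ SatOn w Set.univ :=
    QuotientAddGroup.map _ _ pb fun D hD => by
      obtain ⟨g, hg, h5⟩ := (h.prin D).mp hD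
      exact h.side.prin D g hg h5
  let A : ClC (under.obj X) →ₗ[ℂ] _ := a.toIntLinearMap.baseChange ℂ
  let H : Cl (under.obj X) := QuotientAddGroup.mk (Finsupp.single inf 1)
  have h5 : ∀ τ : Aut X, clRep X τ (1 ⊗ₜ H) = 1 ⊗ₜ H := fun τ => by
    refine congrArg ((1 : ℂ) ⊗ₜ[ℤ] ·) (QuotientAddGroup.eq_iff_sub_mem.mpr ?_)
    obtain ⟨m, hm, h5⟩ := h.canon τ.symm
    refine (h.prin _).mpr ⟨m⁻¹, inv_ne_zero hm, fun i => ?_⟩
    rw [DV.v_inv, h5, Finsupp.mapDomain.addMonoidHom_apply, Finsupp.mapDomain_single,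
      Finsupp.sub_apply, Finsupp.single_apply, Finsupp.single_apply, neg_sub]
    congr 1
    · refine if_congr ⟨?_, ?_⟩ rfl rfl <;> rintro rfl
      exacts [primeMap_symm (under.mapIso τ) inf, primeMap_symm (under.mapIso τ).symm i]
    · exact if_congr eq_comm rfl rfl
  have h6 : ∀ τ (σ : M ≃+* M) ρ (h2 : Function.Bijective ρ)
      (h3 : ∀ k g, (w k).v (σ g) = (w (ρ k)).v g), (∀ g, σ (j g) = j (pl τ g)) →
      ∀ x, A (clRep X τ x) =
        (QuotientAddGroup.map _ _ (Finsupp.mapDomain.addMonoidHom ρ) fun _ =>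
          satOn_mapDomain h2 σ h3).toIntLinearMap.baseChange ℂ (A x) :=
    fun τ σ ρ h2 h3 h6 x => by
      induction x using TensorProduct.induction_on with
      | zero =>
        exact (A ∘ₗ clRep X τ).map_zero.trans ((congrArg _ A.map_zero).trans (map_zero _)).symm
      | add x y hx hy =>
        exact ((A ∘ₗ clRep X τ).map_add x y).trans ((congrArg₂ _ hx hy).trans
          ((congrArg _ (A.map_add x y)).trans (map_add _ _ _)).symm)
      | tmul c y =>
        obtain ⟨D, rfl⟩ := QuotientAddGroup.mk_surjective y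
        exact congrArg (fun E => c ⊗ₜ[ℤ] (QuotientAddGroup.mk E : (κ →₀ ℤ) ⧸ SatOn w Set.univ))
          (h.isPb.mapDomain (primeMap_bij _) h2 (pl τ) σ (h.v_pl τ) h6 h3 D)
  obtain ⟨e, e1, e2⟩ := exists_split A
    (baseChange_surj a fun c => by
      obtain ⟨E, rfl⟩ := QuotientAddGroup.mk_surjective c
      obtain ⟨N, hN, D, h7⟩ := h.side.surj E
      exact ⟨N, hN, QuotientAddGroup.mk D, (QuotientAddGroup.eq_iff_sub_mem.mpr h7).symm⟩)
    (H := 1 ⊗ₜ H) (tmul_ne_zero H fun m hm => by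
      obtain ⟨g, -, h7⟩ := (h.prin _).mp ((QuotientAddGroup.eq_zero_iff _).mp hm)
      have := h7 inf
      rw [h.zero g fun i hi => by rw [← h7]; simp [hi]] at this
      simpa using this)
    ((congrArg ((1 : ℂ) ⊗ₜ[ℤ] ·) ((QuotientAddGroup.eq_zero_iff _).mpr h.side.at_inf)).trans
      (TensorProduct.tmul_zero _ _))
    (baseChange_ker a H fun x hx => by
      obtain ⟨D, rfl⟩ := QuotientAddGroup.mk_surjective x
      obtain ⟨N, hN, g, hg, h7⟩ := h.side.ker D ((QuotientAddGroup.eq_zero_iff _).mp hx)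
      refine ⟨N, hN, N * D inf - (v inf).v g, QuotientAddGroup.eq_iff_sub_mem.mpr
        ((h.prin _).mpr ⟨g, hg, fun i => ?_⟩)⟩
      by_cases hi : i = inf
      · simp [hi]
      · simp [hi, h7 i hi])
    (clRep X τ₀) (h5 τ₀) fun x => by
      rw [h6 τ₀ σ₀ ρ₀ h2 h3 h1]
      induction A x using TensorProduct.induction_on with
      | zero => simp
      | add x y hx hy => rw [map_add, hx, hy, neg_add]
      | tmul c y =>
        obtain ⟨D, rfl⟩ := QuotientAddGroup.mk_surjective y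
        rw [← TensorProduct.tmul_neg]
        exact congrArg (c ⊗ₜ[ℤ] ·) (eq_neg_of_add_eq_zero_right
          ((QuotientAddGroup.eq_zero_iff _).mpr (h4 D)))
  refine ⟨e, fun τ σ ρ h2 h3 h7 x => Prod.ext (e2 _ (h5 τ) (fun x => ?_) x) ?_⟩
  · rw [← Module.End.mul_apply, ← map_mul, ← h0, map_mul, Module.End.mul_apply]
  · rw [e1, e1, h6 τ σ ρ h2 h3 h7]

end

theorem sameClRep_of_half {V S : CScheme} {L L' M κ : Type} [Field L] [Field L'] [Field M]
    {v : PrimeDiv (under.obj V) → DV L} {inf} {pl : Aut V → L ≃+* L} {w : κ → DV M} {j : L →+* M}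
    {pb} {v' : PrimeDiv (under.obj S) → DV L'} {inf'} {pl' : Aut S → L' ≃+* L'} {j' : L' →+* M}
    {pb'} (h : Half V v inf pl w j pb) (h' : Half S v' inf' pl' w j' pb')
    (r1 : ∀ τ, ∃ τ' σ, Rel pl pl' j j' τ τ' σ) (r2 : ∀ τ', ∃ τ σ, Rel pl pl' j j' τ τ' σ)
    (r3 : ∀ τ σ, Rel pl pl' j j' τ 1 σ → τ = 1) (r4 : ∀ τ' σ, Rel pl pl' j j' 1 τ' σ → τ' = 1)
    (r5 : ∀ τ τ' σ, Rel pl pl' j j' τ τ' σ → ∀ k, ∃ k', w k' = (w k).comap (σ : M →+* M))
    (hw : Function.Injective w)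
    (r6 : ∃ τ τ' σ, Rel pl pl' j j' τ τ' σ ∧ (∀ τ'', τ' * τ'' = τ'' * τ') ∧
      ∀ ρ : κ → κ, (∀ k, w (ρ k) = (w k).comap (σ : M →+* M)) →
        ∀ D : κ →₀ ℤ, D + D.mapDomain ρ ∈ SatOn w Set.univ) :
    SameClRep V S := by
  let Γ : Subgroup (Aut V × Aut S) :=
    { carrier := {x | ∃ σ, Rel pl pl' j j' x.1 x.2 σ}
      one_mem' := ⟨.refl M, fun g => by simp [h.pl_one], fun g => by simp [h'.pl_one]⟩
      mul_mem' := fun ⟨σ, a⟩ ⟨σ', a'⟩ => ⟨σ.trans σ', fun g => by simp [a.fst, a'.fst, h.pl_mul],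
        fun g => by simp [a.snd, a'.snd, h'.pl_mul]⟩
      inv_mem' := fun ⟨σ, a⟩ => ⟨σ.symm, fun g => by
        rw [σ.symm_apply_eq, a.fst, ← h.pl_mul]; simp [h.pl_one], fun g => by
        rw [σ.symm_apply_eq, a.snd, ← h'.pl_mul]; simp [h'.pl_one]⟩ }
  let p := MulEquiv.ofBijective ((MonoidHom.fst _ _).comp Γ.subtype) ⟨(injective_iff_map_eq_one _).mpr
    fun ⟨⟨τ, τ'⟩, σ, a⟩ e => Subtype.ext (Prod.ext e (r4 τ' σ (e ▸ a))), fun τ =>
      (r1 τ).elim fun τ' a => ⟨⟨(τ, τ'), a⟩, rfl⟩⟩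
  let p' := MulEquiv.ofBijective ((MonoidHom.snd _ _).comp Γ.subtype) ⟨(injective_iff_map_eq_one _).mpr
    fun ⟨⟨τ, τ'⟩, σ, a⟩ e => Subtype.ext (Prod.ext (r3 τ σ (e ▸ a)) e), fun τ' =>
      (r2 τ').elim fun τ a => ⟨⟨(τ, τ'), a⟩, rfl⟩⟩
  have h1 : ∀ τ τ' σ, Rel pl pl' j j' τ τ' σ → ∃ ρ : κ → κ, Function.Bijective ρ ∧
      ∀ k, w (ρ k) = (w k).comap (σ : M →+* M) := fun τ τ' σ a => by
    choose ρ hρ using r5 τ τ' σ a
    choose ρ' hρ' using r5 τ⁻¹ τ'⁻¹ σ.symm ⟨fun g => by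
      rw [σ.symm_apply_eq, a.fst, ← h.pl_mul]; simp [h.pl_one], fun g => by
      rw [σ.symm_apply_eq, a.snd, ← h'.pl_mul]; simp [h'.pl_one]⟩
    refine ⟨ρ, Function.bijective_iff_has_inverse.mpr ⟨ρ', fun k => hw ?_, fun k => hw ?_⟩, hρ⟩ <;>
      ext <;> simp [hρ, hρ']
  obtain ⟨τ₀, τ₀', σ₀, a, h2, h3⟩ := r6
  obtain ⟨ρ₀, h4, h5⟩ := h1 _ _ _ a
  obtain ⟨e, he⟩ := h.split τ₀ (fun τ => (p.symm.trans p').injective (by
    rw [map_mul, map_mul, show (p.symm.trans p') τ₀ = τ₀' from congrArg p'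
      (p.symm_apply_apply ⟨(τ₀, τ₀'), σ₀, a⟩), h2])) σ₀ a.fst h4 (by simp [h5]) (h3 ρ₀ h5)
  obtain ⟨e', he'⟩ := h'.split τ₀' h2 σ₀ a.snd h4 (by simp [h5]) (h3 ρ₀ h5)
  refine ⟨p.symm.trans p', e.trans e'.symm, fun τ x => ?_⟩
  obtain ⟨⟨⟨τ, τ'⟩, σ, b⟩, rfl⟩ := p.surjective τ
  obtain ⟨ρ, h6, h7⟩ := h1 _ _ _ b
  rw [MulEquiv.trans_apply, p.symm_apply_apply, LinearEquiv.trans_apply, LinearEquiv.trans_apply,
    e'.symm_apply_eq]
  exact (he τ σ ρ h6 (by simp [h7]) b.fst x).trans ((he' τ' σ ρ h6 (by simp [h7]) b.snd _).trans (by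
    rw [e'.apply_symm_apply])).symm

end Pool.Agent.Work.MP_475c1a_ag
end
end

-- merged part: Pool.Agent.Work.MP_475c1a_ag.Main
section
-- merged part: Pool.Agent.Work.MP_475c1a_ag.QSing
section
/-! The discriminant of the line sections is squarefree; bitangents; biduality. -/

namespace Pool.Agent.Work.MP_475c1a_ag

open MvPolynomial Matrix

variable {f f' I J : MvPolynomial (Fin 3) ℂ}

section Field

variable {L : Type} [Field L] [Algebra ℂ L]

/-- A generic point of the curve. -/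
def IsGen (f : MvPolynomial (Fin 3) ℂ) (P : Fin 3 → L) : Prop :=
  ∀ (G : MvPolynomial (Fin 3) ℂ) (n : ℕ), G.IsHomogeneous n → aeval P G = 0 → f ∣ G

theorem IsGen.ne (hf : f.IsHomogeneous 4) (hs : IsSmoothForm f) {P : Fin 3 → L} (h : IsGen f P)
    (j : Fin 3) : P j ≠ 0 ∧ aeval P (tco f j 2) ≠ 0 ∧ aeval P (tq f j) ≠ 0 :=
  ⟨fun h0 => X_ne_zero j (eq_zero_of_dvd_of_lt hf (ne_zero_of_smooth hs) (isHomogeneous_X _ _)
      (by norm_num) (h _ _ (isHomogeneous_X _ _) (by simpa using h0))),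
    fun h0 => not_dvd_tc hf hs j (h _ _ (tco_hom hf j 2) h0),
    fun h0 => not_dvd_tq hf hs j (h _ _ (tq_hom hf j) h0)⟩

theorem exists_isGen (hf : f.IsHomogeneous 4) (hs : IsSmoothForm f) :
    ∃ (K : Type) (_ : Field K) (_ : IsAlgClosed K) (_ : Algebra ℂ K) (ξ : Fin 3 → K),
      aeval ξ f = 0 ∧ IsGen f ξ := by
  obtain ⟨K, h1, h2, h3, ξ, h⟩ := exists_generic (prime_form hf hs)
  exact ⟨K, h1, h2, h3, ξ, (h f).2 dvd_rfl, fun G _ _ hG => (h G).1 hG⟩

theorem IsIJ.disc_hom (h : IsIJ f I J) : (4 * I ^ 3 - J ^ 2).IsHomogeneous 12 :=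
  ((hom_ofNat 4).mul (h.homI.pow 3)).sub (h.homJ.pow 2)

theorem IsIJ.grad_gen (h : IsIJ f I J) (hf : f.IsHomogeneous 4) (hs : IsSmoothForm f)
    {P : Fin 3 → L} (h0 : aeval P f = 0) (hP : IsGen f P) :
    ∃ κ : L, κ ≠ 0 ∧ grad (4 * I ^ 3 - J ^ 2) (grad f P) = κ • P := by
  have : CharZero L := charZero_of_injective_algebraMap (algebraMap ℂ L).injective
  obtain ⟨h1, h2, h3⟩ := hP.ne hf hs 0
  refine ⟨(P 0 ^ 12)⁻¹ * (108 * aeval P (tco f 0 2) ^ 3 * aeval P (tq f 0)), by simp [h1, h2, h3],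
    ?_⟩
  rw [mul_smul, ← h.tan_disc hf hs h0 h1, inv_smul_smul₀ (pow_ne_zero _ h1)]

theorem IsIJ.sing [IsAlgClosed L] (h : IsIJ f I J) (hf : f.IsHomogeneous 4) (hs : IsSmoothForm f)
    {a : Fin 3 → L} (h0 : aeval a (4 * I ^ 3 - J ^ 2) = 0)
    (h1 : grad (4 * I ^ 3 - J ^ 2) a = 0) :
    ∃ (μ : L) (p : Fin 3 → ℂ), a = μ • (algebraMap ℂ L ∘ p) := by
  by_cases ha : a = 0
  · exact ⟨0, 0, by simp [ha]⟩
  obtain ⟨P, l, hP, hl, h2, h3⟩ := h.exists_tangent hf hs ha h0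
  rcases const_or_generic hf hs hP h2 with ⟨μ, p, rfl⟩ | hg
  · refine ⟨l⁻¹ * μ ^ 3, grad f p, ?_⟩
    have h4 := map_grad (Algebra.ofId ℂ L) f p
    rw [grad_smul hf] at h3
    rw [mul_smul, eq_inv_smul_iff₀ hl, ← h3]
    exact congrArg _ h4.symm
  · obtain ⟨κ, hκ, h4⟩ := h.grad_gen hf hs h2 hg
    rw [h3, grad_smul h.disc_hom, h1, smul_zero] at h4
    exact absurd h4.symm (smul_ne_zero hκ hP)

theorem jac_zero {σ : Type} {π : MvPolynomial σ ℂ} {a : σ → L}
    (h : ∀ G, aeval a G = 0 ↔ π ∣ G) {G G' : MvPolynomial σ ℂ} (hG : aeval a G = 0)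
    (hG' : aeval a G' = 0) (i k : σ) : aeval a (pderiv i G) * aeval a (pderiv k G') =
      aeval a (pderiv k G) * aeval a (pderiv i G') := by
  obtain ⟨H, rfl⟩ := (h G).1 hG
  obtain ⟨H', rfl⟩ := (h G').1 hG'
  simp [(h π).2 dvd_rfl]
  ring

theorem not_const {π : MvPolynomial (Fin 3) ℂ} {a : Fin 3 → L}
    (h : ∀ G, aeval a G = 0 ↔ π ∣ G) (μ : L) (p : Fin 3 → ℂ) :
    a ≠ μ • (algebraMap ℂ L ∘ p) := by
  rintro rfl
  have key : ∀ i j, aeval (μ • (algebraMap ℂ L ∘ p))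
      (C (p i) * X j - C (p j) * X i : MvPolynomial (Fin 3) ℂ) = 0 := fun i j => by
    simp
    ring
  have h0 : p 0 = 0 := by simpa [pderiv_X] using jac_zero h (key 0 1) (key 0 2) 1 2
  have h1 : p 1 = 0 := by simpa [pderiv_X] using jac_zero h (key 1 0) (key 1 2) 0 2
  simpa [pderiv_X] using jac_zero h (G := X 0) (G' := X 1) (by simp [h0]) (by simp [h1]) 0 1

end Field

theorem IsIJ.squarefree (h : IsIJ f I J) (hf : f.IsHomogeneous 4) (hs : IsSmoothForm f) :
    Squarefree (4 * I ^ 3 - J ^ 2) := by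
  rw [squarefree_iff_irreducible_sq_not_dvd_of_exists_irreducible
    ⟨_, (X_prime (i := (0 : Fin 3))).irreducible⟩]
  rintro π hπ ⟨H, hH⟩
  obtain ⟨K, _, _, _, a, ha⟩ := exists_generic hπ.prime
  have h0 := (ha π).2 dvd_rfl
  obtain ⟨μ, p, hp⟩ := h.sing hf hs (a := a) (by simp [hH, h0])
    (funext fun i => by simp [grad, hH, h0])
  exact not_const ha μ p hp

theorem IsIJ.disc_dvd (h : IsIJ f I J) (hf : f.IsHomogeneous 4) (hs : IsSmoothForm f)
    {H : MvPolynomial (Fin 3) ℂ} {n : ℕ} (hH : H.IsHomogeneous n)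
    (h0 : ∀ p : Fin 3 → ℂ, aeval p f = 0 → aeval (grad f p) H = 0) : 4 * I ^ 3 - J ^ 2 ∣ H := by
  have h1 : H ∈ (Ideal.span {4 * I ^ 3 - J ^ 2}).radical := by
    rw [← vanishingIdeal_zeroLocus_eq_radical (K := ℂ), mem_vanishingIdeal_iff]
    intro a ha
    have h2 := ha _ (Ideal.mem_span_singleton_self _)
    by_cases ha0 : a = 0
    · have h3 := grad_smul hf (0 : ℂ) 0
      have h4 := aeval_smul_hom hf (0 : ℂ) (0 : Fin 3 → ℂ)
      rw [smul_zero, zero_pow (by norm_num)] at h3 h4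
      have h5 := h0 0 (by rw [h4, zero_mul])
      rwa [h3, zero_smul, ← ha0] at h5
    · obtain ⟨P, l, -, hl, h3, h4⟩ := h.exists_tangent hf hs ha0 h2
      have h5 := h0 P h3
      rw [h4, aeval_smul_hom hH] at h5
      exact (mul_eq_zero.1 h5).resolve_left (pow_ne_zero _ hl)
  obtain ⟨k, hk⟩ := h1
  exact (h.squarefree hf hs).isRadical k H (Ideal.mem_span_singleton.1 hk)

theorem IsIJ.eq_zero_of_gen (h : IsIJ f I J) (hf : f.IsHomogeneous 4) (hs : IsSmoothForm f)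
    {L : Type} [Field L] [Algebra ℂ L] {P : Fin 3 → L} (hP : IsGen f P)
    {H : MvPolynomial (Fin 3) ℂ} {n : ℕ} (hH : H.IsHomogeneous n) (hn : n < 12)
    (h0 : aeval (grad f P) H = 0) : H = 0 := by
  refine eq_zero_of_dvd_of_lt h.disc_hom (h.squarefree hf hs).ne_zero hH hn
    (h.disc_dvd hf hs hH fun p hp => ?_)
  obtain ⟨G, hG⟩ := hP (aeval (fun i => pderiv i f) H) _ (hH.aeval _ fun i => hf.pderiv)
    (by rw [aeval_congr_of_hom]; exact h0)
  have h1 := congrArg (aeval p) hG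
  rwa [aeval_congr_of_hom, map_mul, hp, zero_mul] at h1

theorem eq_C_mul_of_dvd {p q : MvPolynomial (Fin 3) ℂ} {n : ℕ} (hp : p.IsHomogeneous n)
    (hq : q.IsHomogeneous n) (h : p ∣ q) : ∃ κ : ℂ, q = C κ * p := by
  by_cases hq0 : q = 0
  · exact ⟨0, by simp [hq0]⟩
  obtain ⟨G, rfl⟩ := h
  have h1 := totalDegree_mul_of_isDomain (left_ne_zero_of_mul hq0) (right_ne_zero_of_mul hq0)
  rw [hq.totalDegree hq0, hp.totalDegree (left_ne_zero_of_mul hq0)] at h1
  exact ⟨G.coeff 0, by rw [mul_comm, ← totalDegree_eq_zero_iff_eq_C.1 (by omega)]⟩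

theorem exists_transversal (hf : f.IsHomogeneous 4) (hs : IsSmoothForm f) :
    ∃ g : Matrix (Fin 3) (Fin 3) ℂ, g.det ≠ 0 ∧
      (res (A := ℂ) (lin g f) ![0, 1, 0] ![0, 0, 1]).natDegree = 4 ∧
      (res (A := ℂ) (lin g f) ![0, 1, 0] ![0, 0, 1]).Separable := by
  obtain ⟨I, J, h⟩ := exists_IJ hf
  obtain ⟨a, ha⟩ : ∃ a : Fin 3 → ℂ, aeval a (4 * I ^ 3 - J ^ 2) ≠ 0 := by
    by_contra hcon
    push Not at hcon
    exact (h.squarefree hf hs).ne_zero (MvPolynomial.funext fun x => by simpa using hcon x)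
  have ha0 : a ≠ 0 := by
    rintro rfl
    have h4 := aeval_smul_hom h.disc_hom (0 : ℂ) (0 : Fin 3 → ℂ)
    rw [smul_zero, zero_pow (by norm_num), zero_mul] at h4
    exact ha h4
  obtain ⟨x, z, hxz, h1⟩ := exists_frame hf ha0
  have h2 : 4 * pI (res f x z) ^ 3 - pJ (res f x z) ^ 2 ≠ 0 := by
    rw [← h.eqI, ← h.eqJ, hxz]
    simpa only [map_sub, map_mul, map_pow, map_ofNat] using ha
  have h3 : (res f x z).natDegree = 4 := h1.resolve_left fun h0 => h2 (by simp [h0, pI, pJ, qI, qJ])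
  obtain ⟨i, hi⟩ := Function.ne_iff.1 ha0
  have h4 : res (A := ℂ) (lin (Matrix.of ![Pi.single i 1, x, z])ᵀ f) ![0, 1, 0] ![0, 0, 1] =
      res f x z := by
    rw [res_lin]
    congr 1 <;> funext k <;> simp [Matrix.mulVec, dotProduct, Fin.sum_univ_three]
  refine ⟨(Matrix.of ![Pi.single i 1, x, z])ᵀ, ?_, h4 ▸ h3, h4 ▸ separable_of_disc h3 h2⟩
  rw [Matrix.det_transpose]
  have h5 := triple_product_eq_det (Pi.single i 1) x z
  rw [hxz, single_dotProduct, one_mul] at h5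
  exact fun h0 => hi (h5.trans h0)

theorem IsIJ.sing_of_sq (h : IsIJ f I J) {A : Type} [CommRing A] [Algebra ℂ A] {x z : Fin 3 → A}
    {u : Polynomial A} (hu : u.natDegree ≤ 2) (h0 : res f x z = u ^ 2) :
    aeval (crossProduct x z) (4 * I ^ 3 - J ^ 2) = 0 ∧
      crossProduct (grad (4 * I ^ 3 - J ^ 2) (crossProduct x z)) x = 0 ∧
      crossProduct z (grad (4 * I ^ 3 - J ^ 2) (crossProduct x z)) = 0 := by
  have h1 : res f x z = quart (u.coeff 0 ^ 2) (2 * u.coeff 0 * u.coeff 1)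
      (u.coeff 1 ^ 2 + 2 * u.coeff 0 * u.coeff 2) (2 * u.coeff 1 * u.coeff 2) (u.coeff 2 ^ 2) := by
    rw [h0]
    conv_lhs => rw [u.as_sum_range' 3 (by omega)]
    simp only [quart, Finset.sum_range_succ, ← Polynomial.C_mul_X_pow_eq_monomial,
      Finset.range_zero, Finset.sum_empty, map_add, map_mul, map_pow, map_ofNat]
    ring
  generalize u.coeff 0 = a, u.coeff 1 = b, u.coeff 2 = c at h1
  obtain ⟨k0, k1, k2, k3, k4⟩ := quart_coeff (a ^ 2) (2 * a * b) (b ^ 2 + 2 * a * c) (2 * b * c)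
    (c ^ 2)
  rw [← h1] at k0 k1 k2 k3 k4
  have hI : aeval (crossProduct x z) I = (b ^ 2 - 4 * a * c) ^ 2 := by
    rw [h.eqI, pI, qI, k0, k1, k2, k3, k4]
    ring
  have hJ : aeval (crossProduct x z) J = -2 * (b ^ 2 - 4 * a * c) ^ 3 := by
    rw [h.eqJ, pJ, qJ, k0, k1, k2, k3, k4]
    ring
  have key : ∀ y y', grad (4 * I ^ 3 - J ^ 2) (crossProduct x z) ⬝ᵥ
      (crossProduct y z + crossProduct x y') = 0 := fun y y' => by
    obtain ⟨a', b', c', d', e', -, h3, h4⟩ := h.var x z y y' k0 k1 k2 k3 k4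
    rw [grad_disc, sub_dotProduct, smul_dotProduct, smul_dotProduct, h3, h4, hI, hJ, smul_eq_mul,
      smul_eq_mul]
    ring
  refine ⟨?_, eq_of_dot fun y => ?_, eq_of_dot fun y => ?_⟩
  · simp only [map_sub, map_mul, map_pow, map_ofNat, hI, hJ]
    ring
  · have h2 := key 0 y
    rw [LinearMap.map_zero₂, zero_add] at h2
    rw [dotProduct_comm, triple_product_permutation, h2, zero_dotProduct]
  · have h2 := key y 0
    rw [map_zero, add_zero] at h2
    rw [dotProduct_comm, triple_product_permutation, triple_product_permutation, h2,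
      zero_dotProduct]

/-- No curve of lines consists of bitangents. -/
theorem genRes_nonsquare (hf : f.IsHomogeneous 4) (hs : IsSmoothForm f)
    {p : MvPolynomial (Fin 2) ℂ} (hp : Prime p) {a b : Polynomial (MvPolynomial (Fin 2) ℂ)}
    (h : Polynomial.C p ∣ a ^ 2 - b ^ 2 * genRes f) : Polynomial.C p ∣ b := by
  obtain ⟨I, J, hIJ⟩ := exists_IJ hf
  obtain ⟨K, _, _, _, η, hη⟩ := exists_generic hp
  let θ : MvPolynomial (Fin 2) ℂ →ₐ[ℂ] K := aeval η
  have key : ∀ r : Polynomial (MvPolynomial (Fin 2) ℂ),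
      Polynomial.C p ∣ r ↔ r.map (θ : MvPolynomial (Fin 2) ℂ →+* K) = 0 := fun r => by
    rw [Polynomial.C_dvd_iff_dvd_coeff, Polynomial.ext_iff]
    simp [θ, hη]
  by_contra hb
  rw [key] at h hb
  have h1 : (genRes f).map (θ : MvPolynomial (Fin 2) ℂ →+* K) = res f ![1, 0, η 1] ![0, 1, η 0] := by
    rw [genRes, res_map]
    congr 1 <;> funext i <;> fin_cases i <;> simp [θ]
  rw [Polynomial.map_sub, Polynomial.map_mul, Polynomial.map_pow, Polynomial.map_pow, h1,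
    sub_eq_zero] at h
  obtain ⟨u, hu⟩ := (IsIntegrallyClosed.pow_dvd_pow_iff two_ne_zero).1 ⟨_, h⟩
  rw [hu, mul_pow] at h
  have h2 := (mul_left_cancel₀ (pow_ne_zero 2 hb) h).symm
  have h3 : u.natDegree ≤ 2 := by
    have h4 := res_natDegree hf ![1, 0, η 1] ![0, 1, η 0]
    rw [h2, Polynomial.natDegree_pow] at h4
    omega
  obtain ⟨k0, k1, k2⟩ := hIJ.sing_of_sq h3 h2
  have h4 : grad (4 * I ^ 3 - J ^ 2) (crossProduct ![1, 0, η 1] ![0, 1, η 0]) = 0 := by
    generalize grad (4 * I ^ 3 - J ^ 2) (crossProduct ![1, 0, η 1] ![0, 1, η 0]) = G at k1 k2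
    have m1 : G 1 = 0 := by simpa [cross_apply] using congrFun k1 2
    have m0 : G 0 = 0 := by simpa [cross_apply] using congrFun k2 2
    have m2 : G 2 = 0 := by simpa [cross_apply, m1] using congrFun k2 0
    funext i
    fin_cases i
    exacts [m0, m1, m2]
  obtain ⟨μ, q, hq⟩ := hIJ.sing hf hs k0 h4
  have m0 : -η 1 = μ * algebraMap ℂ K (q 0) := by simpa [cross_apply] using congrFun hq 0
  have m1 : -η 0 = μ * algebraMap ℂ K (q 1) := by simpa [cross_apply] using congrFun hq 1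
  have m2 : 1 = μ * algebraMap ℂ K (q 2) := by simpa [cross_apply] using congrFun hq 2
  have m3 := jac_zero hη (G := C (q 2) * X 0 + C (q 1)) (G' := C (q 2) * X 1 + C (q 0))
    (by simp; linear_combination -algebraMap ℂ K (q 2) * m1 + algebraMap ℂ K (q 1) * m2)
    (by simp; linear_combination -algebraMap ℂ K (q 2) * m0 + algebraMap ℂ K (q 0) * m2) 0 1
  have m4 : q 2 = 0 := by simpa [pderiv_X] using m3
  simp [m4] at m2

/-- Biduality. -/
theorem IsIJ.bidual (h : IsIJ f I J) (h' : IsIJ f' I J) (hf : f.IsHomogeneous 4)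
    (hs : IsSmoothForm f) (hf' : f'.IsHomogeneous 4) (hs' : IsSmoothForm f') : f' = f := by
  obtain ⟨K, _, _, _, ξ, h0, hξ⟩ := exists_isGen hf hs
  have : CharZero K := charZero_of_injective_algebraMap (algebraMap ℂ K).injective
  obtain ⟨h1, h2, -⟩ := hξ.ne hf hs 0
  have ha : grad f ξ ≠ 0 := fun ha => h1 (congrFun (smooth_ext hs (congrFun ha)) 0)
  obtain ⟨κ, hκ, h3⟩ := h.grad_gen hf hs h0 hξ
  obtain ⟨P, l, hP, hl, h4, h5⟩ := h'.exists_tangent hf' hs' ha (h.disc_grad hf h0)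
  obtain ⟨k, hk⟩ := Function.ne_iff.1 hP
  have h6 := h'.tan_disc hf' hs' h4 hk
  rw [h5, grad_smul h.disc_hom, h3, smul_smul, smul_smul] at h6
  have h7 := congrArg (fun x => aeval x f') h6
  simp only [aeval_smul_hom hf', h4, mul_zero] at h7
  have h8 : aeval ξ f' = 0 := (mul_eq_zero.1 h7).resolve_left
    (pow_ne_zero _ (mul_ne_zero (mul_ne_zero (pow_ne_zero _ hk) (pow_ne_zero _ hl)) hκ))
  obtain ⟨c, rfl⟩ := eq_C_mul_of_dvd hf hf' (hξ _ _ hf' h8)
  set z := crossProduct (Pi.single 0 1) (grad f ξ)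
  obtain ⟨k1, k2, -⟩ := h.frame (P := ξ) (Z := z) (by rw [res_coeff_zero, h0])
    (by rw [res_coeff_one, dot_cross_self]) (aeval_tco 0 2 ξ).symm rfl rfl
  have k3 : res (C c * f) ξ z = Polynomial.C (algebraMap ℂ K c) * res f ξ z := by simp [res]
  obtain ⟨k4, k5, -⟩ := h'.frame (P := ξ) (Z := z) (by rw [res_coeff_zero, h8])
    (by rw [k3, Polynomial.coeff_C_mul, res_coeff_one, dot_cross_self, mul_zero])
    (c := algebraMap ℂ K c * aeval ξ (tco f 0 2))
    (by rw [k3, Polynomial.coeff_C_mul, aeval_tco]) rfl rfl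
  have k6 : algebraMap ℂ K c ^ 2 = 1 := by
    apply mul_right_cancel₀ (pow_ne_zero 2 h2)
    linear_combination k1 - k4
  have k7 : algebraMap ℂ K c ^ 3 = 1 := by
    apply mul_right_cancel₀ (pow_ne_zero 3 h2)
    linear_combination (k5 - k2) / 2
  have k8 : algebraMap ℂ K c = 1 := by linear_combination k7 - algebraMap ℂ K c * k6
  rw [(map_eq_one_iff _ (algebraMap ℂ K).injective).1 k8, map_one, one_mul]

theorem IsIJ.exists_lift (h : IsIJ f I J) (hf : f.IsHomogeneous 4) (hs : IsSmoothForm f)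
    {γ : Matrix (Fin 3) (Fin 3) ℂ} (hγ : γ.det ≠ 0) (hI : MP_475c1a_ag.lin γ I = I)
    (hJ : MP_475c1a_ag.lin γ J = J) :
    ∃ g : Matrix (Fin 3) (Fin 3) ℂ, g.det ≠ 0 ∧ cof g = γ ∧ MP_475c1a_ag.lin g f = f := by
  obtain ⟨δ, hδ⟩ := IsAlgClosed.exists_pow_nat_eq γ.det two_pos
  have hδ0 : δ ≠ 0 := by
    rintro rfl
    exact hγ (by simpa using hδ.symm)
  have h1 : (δ⁻¹ • cof γ).det ≠ 0 := by
    simp [cof, det_adjugate, hγ, hδ0]
  have h2 : cof (δ⁻¹ • cof γ) = γ := by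
    rw [cof, cof, adjugate_smul, ← adjugate_transpose, adjugate_adjugate', ← hδ]
    simp [smul_smul, hδ0]
  refine ⟨_, h1, h2, h.bidual ?_ hf hs (lin_hom _ hf) (smooth_lin hs h1)⟩
  have h3 := h.lin (δ⁻¹ • cof γ)
  rwa [h2, hI, hJ] at h3

end Pool.Agent.Work.MP_475c1a_ag
end

-- merged part: Pool.Agent.Work.MP_475c1a_ag.Rel
section
/-! The correspondence between the two automorphism groups. -/

namespace Pool.Agent.Work.MP_475c1a_ag

open Polynomial CategoryTheory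

set_option linter.unusedSectionVars false
set_option maxHeartbeats 400000

theorem VAct.map {L M : Type} [Field L] [Algebra ℂ L] [Field M] [Algebra ℂ M]
    {g : Matrix (Fin 3) (Fin 3) ℂ} {τ : L → L} {W T α β : L} (h : VAct g τ W T α β) (j : L →ₐ[ℂ] M)
    {σ : M → M} (e : ∀ x, σ (j x) = j (τ x)) : VAct g σ (j W) (j T) (j α) (j β) := by
  have e0 : ∀ i, j (act g ![-β, -α, 1] i) = act g ![-j β, -j α, 1] i := fun i => by
    simp [act, Matrix.mulVec, dotProduct, Fin.sum_univ_three]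
  refine ⟨e0 2 ▸ (map_ne_zero j).mpr h.ne, fun i => ?_, by rw [e, h.T, map_div₀, map_pow, e0],
    by rw [e, h.W, map_div₀, map_pow, e0]⟩
  rw [← e0, ← e0, ← map_div₀, ← h.x, ← e]
  fin_cases i <;> simp

theorem act_eq {A : Type} [CommRing A] [Algebra ℂ A] (g : Matrix (Fin 3) (Fin 3) ℂ) (a b : A)
    (i : Fin 3) : act g ![-b, -a, 1] i = MvPolynomial.aeval ![a, b] (dual (lin g (.X i))) := by
  rw [aeval_dual, aeval_lin_X]

theorem det_cof {g : Matrix (Fin 3) (Fin 3) ℂ} (hg : g.det ≠ 0) : (cof g).det ≠ 0 := by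
  rw [cof, Matrix.det_transpose, Matrix.det_adjugate]
  exact pow_ne_zero _ hg

variable {f I J : MvPolynomial (Fin 3) ℂ} {hf : f.IsHomogeneous 4} {hI : I.IsHomogeneous 4}
  {hJ : J.IsHomogeneous 6} {L L' M K : Type} [Field L] [Algebra ℂ L] [Field L'] [Algebra ℂ L']
  [Field M] [Algebra ℂ M] [Field K] [Algebra (MvPolynomial (Fin 2) ℂ) K]
  [IsFractionRing (MvPolynomial (Fin 2) ℂ) K] [CharZero K]
  {θ : (vc hI hJ).Ring →+* L} {P : PrimeDiv (under.obj (vc hI hJ).scheme) → Ideal (vc hI hJ).Ring}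
  {v : PrimeDiv (under.obj (vc hI hJ).scheme) → DV L} {pl : Aut (vc hI hJ).scheme → L ≃+* L}
  {inf : PrimeDiv (under.obj (vc hI hJ).scheme)} {W' T' α' β' : L}
  {θ' : (dp hf).Ring →+* L'} {P' : PrimeDiv (under.obj (dp hf).scheme) → Ideal (dp hf).Ring}
  {v' : PrimeDiv (under.obj (dp hf).scheme) → DV L'} {pl' : Aut (dp hf).scheme → L' ≃+* L'}
  {inf' : PrimeDiv (under.obj (dp hf).scheme)} {u s y : L'} {j : L →ₐ[ℂ] M} {j' : L' →ₐ[ℂ] M}
  {α T W : M} {ι : K[X] →+* M}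

variable (θ P v pl inf W' T' α' β' θ' P' v' pl' inf' u s y j j' α T W ι) in
/-- All the data of the comparison. -/
structure Big : Prop where
  V : VPack hI hJ θ P v pl inf W' T' α' β'
  S : SPack hf θ' P' v' pl' inf' u s y
  ij : IsIJ f I J
  sm : IsSmoothForm f
  disc : 4 * I ^ 3 - J ^ 2 ≠ 0
  rat : IsRat j' α
  cov : Cov f I J α (j' y - α * j' s) (j' s) (j' u) T W ι
  hW : j W' = W
  hT : j T' = T
  hα : j α' = α
  hβ : j β' = j' y - α * j' s

namespace Big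

variable (b : Big θ P v pl inf W' T' α' β' θ' P' v' pl' inf' u s y j j' α T W ι)

include b

theorem eq_TW : T = covT f ![1, j' s, j' y] ![0, 1, α] (j' u) ∧
    W = covW f ![1, j' s, j' y] ![0, 1, α] (j' u) := by
  rw [b.cov.hT, b.cov.hW, show j' y - α * j' s + j' s * α = j' y by ring]
  exact ⟨rfl, rfl⟩

theorem vact {g τ} (h : VAct g (pl τ) W' T' α' β') {σ : M → M} (e : ∀ x, σ (j x) = j (pl τ x)) :
    VAct g σ W T α (j' y - α * j' s) :=
  b.hW ▸ b.hT ▸ b.hβ ▸ b.hα ▸ h.map j e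

theorem exists_rel {g : Matrix (Fin 3) (Fin 3) ℂ} (h1 : g.det ≠ 0) (h2 : lin g f = f) {τ τ'}
    (h3 : SAct g (pl' τ') u s y) (h4 : VAct (cof g) (pl τ) W' T' α' β') :
    ∃ σ, Rel pl pl' (j : L →+* M) (j' : L' →+* M) τ τ' σ := by
  have := b.S.dom
  obtain ⟨σ, h5, h6⟩ := exists_sigma b.rat hf h1 h2 b.S.chart.quadF.u_ne
    { pl' τ' with commutes' := b.S.const τ' } h3
  rw [← b.eq_TW.1, ← b.eq_TW.2] at h6
  have h7 : ∀ x, Function.extend j (j ∘ pl τ) id (j x) = j (pl τ x) :=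
    j.injective.extend_apply _ _
  have h8 := b.vact h4 h7
  refine ⟨σ, b.V.hom_ext (k := (σ : M →+* M).comp j) (k' := (j : L →+* M).comp (pl τ : L →+* L))
    (fun c => ?_) ?_ ?_ ?_ ?_, h5⟩
  · simpa [b.V.const, b.S.const] using h5 (algebraMap ℂ L' c)
  · simpa [← b.hW, h7] using h6.W.trans h8.W.symm
  · simpa [← b.hT, h7] using h6.T.trans h8.T.symm
  · have : σ (-α) = Function.extend j _ id (-α) := (h6.x 1).trans (h8.x 1).symm
    rw [← b.hα, map_neg, ← map_neg j, h7, map_neg, map_neg] at this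
    exact neg_injective this
  · have : σ (-_) = Function.extend j _ id (-_) := (h6.x 0).trans (h8.x 0).symm
    rw [← b.hβ, map_neg, ← map_neg j, h7, map_neg, map_neg] at this
    exact neg_injective this

theorem lin_cof {g : Matrix (Fin 3) (Fin 3) ℂ} (h : lin g f = f) :
    lin (cof g) I = I ∧ lin (cof g) J = J := by
  have := b.ij.lin g
  rw [h] at this
  exact this.unique b.ij

theorem rel_S (τ') : ∃ τ σ, Rel pl pl' (j : L →+* M) (j' : L' →+* M) τ τ' σ := by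
  obtain ⟨g, h1, h2, h3⟩ := b.S.aut b.sm τ'
  obtain ⟨τ, h4⟩ := b.V.real (det_cof h1) (b.lin_cof h2).1 (b.lin_cof h2).2
  exact ⟨τ, b.exists_rel h1 h2 h3 h4⟩

theorem rel_V (τ) : ∃ τ' σ, Rel pl pl' (j : L →+* M) (j' : L' →+* M) τ τ' σ := by
  obtain ⟨γ, h1, h2, h3, h4⟩ := b.V.aut b.disc τ
  obtain ⟨g, h5, rfl, h6⟩ := b.ij.exists_lift hf b.sm h1 h2 h3
  obtain ⟨τ', h7⟩ := b.S.real h5 h6
  exact ⟨τ', b.exists_rel h5 h6 h7 h4⟩

theorem inj_V (τ σ) (h : Rel pl pl' (j : L →+* M) (j' : L' →+* M) τ 1 σ) : τ = 1 := by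
  obtain ⟨g, -, -, -, h1⟩ := b.V.aut b.disc τ
  have h2 := b.vact h1 h.fst
  have h3 : ∀ x, σ (j' x) = j' x := fun x => (h.snd x).trans (congrArg j' (b.S.geo.pl_one x))
  have h4 := (eq_div_iff h2.ne).mp (h2.x 0)
  have h5 := (eq_div_iff h2.ne).mp (h2.x 1)
  simp only [Matrix.cons_val_zero, Matrix.cons_val_one, map_neg, map_sub, map_mul, h3] at h4 h5
  have h6 := b.cov.base.inj (a₁ := C (dual (lin g (.X 0)) + dual (lin g (.X 2)) * .X 1))
    (a₂ := C (-dual (lin g (.X 1)) - dual (lin g (.X 2)) * .X 0) * X) (by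
      simp only [map_mul, map_add, map_sub, map_neg, bV_C, bV_X, ← act_eq, ← h4, ← h5,
        MvPolynomial.aeval_X, Matrix.cons_val_zero, Matrix.cons_val_one]
      ring)
  have h7 := congrArg (fun p => MvPolynomial.aeval ![α, j' y - α * j' s] (p.coeff 1)) h6
  simp only [coeff_C_succ, coeff_C_mul, coeff_X_one, mul_one] at h7
  simp only [map_zero, map_sub, map_neg, map_mul,
    ← act_eq, ← h5, MvPolynomial.aeval_X, Matrix.cons_val_zero] at h7
  have h8 : σ α = α := mul_right_cancel₀ h2.ne (by linear_combination -h7)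
  have h9 : ∀ p, σ (eR j' α p) = eR j' α p := fun p =>
    DFunLike.congr_fun (f := (σ : M →+* M).comp (eR j' α)) (ringHom_ext (by simp [h3]) (by simp [h8])) p
  refine b.V.geo.pl_inj _ _ fun x => j.injective ?_
  rw [b.V.geo.pl_one]
  refine (h.fst x).symm.trans ?_
  obtain ⟨p, q, -, e⟩ := b.rat.frac (j x)
  exact (congrArg σ e).trans (by rw [map_div₀, h9, h9]; exact e.symm)

theorem inj_S (τ' σ) (h : Rel pl pl' (j : L →+* M) (j' : L' →+* M) 1 τ' σ) : τ' = 1 := by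
  have := b.V.dom
  have h1 : ∀ x, σ (j x) = j x := fun x => (h.fst x).trans (congrArg j (b.V.geo.pl_one x))
  have h2 : ∀ x, σ (j' x) = j' (pl' τ' x) := h.snd
  have h3 : σ α = α := b.hα ▸ h1 _
  have h4 := h1 β'
  rw [b.hβ, map_sub, map_mul, h2, h2, h3] at h4
  have h5 := b.rat.inj (a₁ := C (pl' τ' y - y)) (a₂ := C (pl' τ' s - s) * X) (by
    simp only [map_mul, eR_C, eR_X, map_sub]; linear_combination h4)
  have h6 : pl' τ' s = s := sub_eq_zero.mp (by simpa using (congrArg (coeff · 1) h5).symm)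
  have h7 : pl' τ' y = y := by simpa [sub_eq_zero, h6] using h5
  let a : L' →ₐ[ℂ] L' := ⟨(pl' τ' : L' →+* L'), b.S.const τ'⟩
  have h8 : pl' τ' u ^ 2 = u ^ 2 := by
    rw [← map_pow, b.S.sq]
    refine (aeval_congr_of_hom a _ f).trans ?_
    congr 2
    funext i
    fin_cases i
    exacts [map_one a, h6, h7]
  refine b.S.geo.pl_inj _ _ fun x => (b.S.hom_ext (k := (pl' τ' : L' →+* L')) (k' := .id _)
    (b.S.const τ') ((sq_eq_sq_iff_eq_or_eq_neg.mp h8).resolve_right fun h9 => ?_) h6 h7 x).trans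
      (b.S.geo.pl_one x).symm
  let a' : M →ₐ[ℂ] M := ⟨(σ : M →+* M), fun c => by simpa using h1 (algebraMap ℂ L c)⟩
  have h10 := h1 W'
  have h11 : ∀ p : M[X], σ (pR p) = pR (p.map (a' : M →+* M)) := fun p => by
    simp [pR, qR, map_ofNat, a']
  have h12 : j W' ≠ 0 := (map_ne_zero j).mpr b.V.chart.quadF.u_ne
  rw [b.hW, b.eq_TW.2, covW] at h10 h12
  rw [map_div₀, map_mul, map_mul, map_pow, h2, h9, h11, res_map, map_ofNat, map_ofNat,
    show a' ∘ ![1, j' s, j' y] = ![1, j' s, j' y] by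
      funext i; fin_cases i
      exacts [map_one a', (h2 s).trans (congrArg j' h6), (h2 y).trans (congrArg j' h7)],
    show a' ∘ ![0, 1, α] = ![0, 1, α] by
      funext i; fin_cases i
      exacts [map_zero a', map_one a', h3], map_neg, Odd.neg_pow (by decide), mul_neg, div_neg] at h10
  exact mul_ne_zero two_ne_zero_alg h12 (by linear_combination -h10)

theorem perm (τ τ' σ) (h : Rel pl pl' (j : L →+* M) (j' : L' →+* M) τ τ' σ) (k : Pl ι T) :
    ∃ k' : Pl ι T, k'.w = k.w.comap (σ : M →+* M) := by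
  obtain ⟨g, -, -, -, h1⟩ := b.V.aut b.disc τ
  have h2 := b.vact h1 h.fst
  have h3 : ∀ i, ∃ x, act g ![-(j' y - α * j' s), -α, 1] i = ι (C x) := fun i =>
    ⟨_, (act_eq _ _ _ _).trans (b.cov.map_C _).symm⟩
  have h4 : ∀ i, ∃ x, σ (![-(j' y - α * j' s), -α, 1] i) = ι (C x) := fun i => by
    obtain ⟨x, hx⟩ := h3 i
    obtain ⟨z, hz⟩ := h3 2
    exact ⟨x / z, by rw [h2.x, hx, hz]; exact (map_div₀ (ι.comp C) _ _).symm⟩
  refine ⟨⟨_, k.2.1.comap σ, b.cov.triv_iff.mpr fun p => ?_, DV.comap_ge.mpr ?_⟩, rfl⟩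
  · suffices ∃ x, σ (MvPolynomial.aeval ![α, j' y - α * j' s] p) = ι (C x) by
      obtain ⟨x, hx⟩ := this
      exact (congrArg _ hx).trans (k.2.2.1 x)
    induction p using MvPolynomial.induction_on with
    | C c => exact ⟨algebraMap _ _ (MvPolynomial.C c : MvPolynomial (Fin 2) ℂ), by
        simpa [b.cov.map_C, b.V.const] using h.fst (algebraMap ℂ L c)⟩
    | add p q hp hq =>
      obtain ⟨x, hx⟩ := hp
      obtain ⟨z, hz⟩ := hq
      exact ⟨x + z, by simp only [map_add, hx, hz]⟩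
    | mul_X p i hp =>
      obtain ⟨x, hx⟩ := hp
      obtain ⟨z, hz⟩ := h4 (![1, 0] i)
      refine ⟨x * -z, ?_⟩
      rw [map_mul, map_mul, hx, map_mul, map_mul, map_neg, map_neg, ← hz, ← map_neg]
      fin_cases i <;> simp
  · obtain ⟨z, hz⟩ := h3 2
    rw [show (σ : M →+* M) T = _ from h2.T, hz]
    exact DV.Ge.div (n := 0) k.2.2.2 (by rw [DV.v_pow, k.2.2.1 z, mul_zero])
      le_rfl

theorem conj : ∃ τ τ' σ, Rel pl pl' (j : L →+* M) (j' : L' →+* M) τ τ' σ ∧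
    (∀ τ'', τ' * τ'' = τ'' * τ') ∧ (∀ x, σ (ι x) = ι x) ∧ σ (j' u) = -j' u := by
  have h1 : (Complex.I • (1 : Matrix (Fin 3) (Fin 3) ℂ)).det ≠ 0 := by simp
  have h2 : lin (Complex.I • 1) f = f := by rw [lin_smul _ _ hf, lin_one]; simp
  obtain ⟨τ', h3⟩ := b.S.real h1 h2
  obtain ⟨τ, h4⟩ := b.V.real (det_cof h1) (b.lin_cof h2).1 (b.lin_cof h2).2
  obtain ⟨σ, h⟩ := b.exists_rel h1 h2 h3 h4
  have h5 := (b.vact h4 h.fst).x
  have h6 := h3.x
  have h7 := h3.u
  have h8 := (map_ne_zero (algebraMap ℂ L')).mpr Complex.I_ne_zero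
  rw [act_smul, act_one] at h6 h7
  rw [show cof (Complex.I • 1) = (-1 : ℂ) • 1 by simp [cof, Matrix.adjugate_smul], act_smul,
    act_one] at h5
  have hs : pl' τ' s = s := by simpa [h8] using h6 1
  have hy : pl' τ' y = y := by simpa [h8] using h6 2
  have hu : pl' τ' u = -u := by simpa [← map_pow, div_neg] using h7
  have hα : σ α = α := by simpa [div_neg] using h5 1
  have h9 : ∀ x, σ (j' x) = j' (pl' τ' x) := h.snd
  refine ⟨τ, τ', σ, h, fun τ'' => b.S.geo.pl_inj _ _ fun x => ?_, fun x => ?_, by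
    rw [h9, hu, map_neg]⟩
  · obtain ⟨g, -, -, h10⟩ := b.S.aut b.sm τ''
    have h11 : ∀ i, pl' τ' (act g ![1, s, y] i) = act g ![1, s, y] i := fun i => by
      simp [act, Matrix.mulVec, dotProduct, Fin.sum_univ_three, hs, hy, b.S.const]
    rw [b.S.geo.pl_mul, b.S.geo.pl_mul]
    refine b.S.hom_ext (k := (pl' τ'' : L' →+* L').comp (pl' τ' : L' →+* L'))
      (k' := (pl' τ' : L' →+* L').comp (pl' τ'' : L' →+* L')) (by simp [b.S.const]) ?_ ?_ ?_ x
    · simp [hu, h10.u, h11, neg_div]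
    · simp [hs, show pl' τ'' s = _ from h10.x 1, h11]
    · simp [hy, show pl' τ'' y = _ from h10.x 2, h11]
  · refine DFunLike.congr_fun (f := (σ : M →+* M).comp ι) (ringHom_ext' (IsFractionRing.ringHom_ext
      (A := MvPolynomial (Fin 2) ℂ) fun p => ?_) (by simp [b.cov.map_X, h9, hs])) x
    let a' : M →ₐ[ℂ] M := ⟨(σ : M →+* M), fun c => by simpa [b.S.const] using h9 (algebraMap ℂ L' c)⟩
    simp only [RingHom.comp_apply, b.cov.map_C]
    refine (aeval_congr_of_hom a' _ p).trans ?_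
    congr 2
    funext i
    fin_cases i <;> simp [a', hα, h9, hs, hy]

end Big

end Pool.Agent.Work.MP_475c1a_ag
end

-- merged part: Pool.Agent.Work.MP_475c1a_ag.Gauss
section
/-! Gauss valuations on a rational function field. -/

namespace Pool.Agent.Work.MP_475c1a_ag

open Polynomial

set_option linter.unusedSectionVars false
set_option maxHeartbeats 400000

variable {L M : Type} [Field L] [Algebra ℂ L] [Field M] [Algebra ℂ M] {j : L →ₐ[ℂ] M} {α : M}
  {u : DV L} {w w' : DV M} {e e' : ℤ}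

theorem eR_sum (j : L →ₐ[ℂ] M) (α : M) (p : L[X]) :
    eR j α p = ∑ n ∈ Finset.range (p.natDegree + 1), j (p.coeff n) * α ^ n :=
  eval₂_eq_sum_range _ _

theorem ge_eR {n : ℤ} (hα : w.Ge 0 α) {p : L[X]} (h : ∀ m, w.Ge n (j (p.coeff m))) :
    w.Ge n (eR j α p) :=
  eR_sum j α p ▸ DV.ge_sum _ fun m _ => (h m).mul_right (hα.pow0 m)

theorem eR_denom (S : Submonoid L) {A : Subring M} (hα : α ∈ A) (p : L[X])
    (hp : ∀ n, ∃ d ∈ S, j d ∈ A ∧ j (d * p.coeff n) ∈ A) : ∃ d ∈ S, j d * eR j α p ∈ A := by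
  choose d h1 h2 h3 using hp
  refine ⟨∏ n ∈ Finset.range (p.natDegree + 1), d n, prod_mem fun n _ => h1 n, ?_⟩
  rw [eR_sum, Finset.mul_sum]
  refine sum_mem fun n hn => ?_
  rw [← Finset.prod_erase_mul _ _ hn, map_mul, map_prod, mul_assoc, ← mul_assoc (j _), ← map_mul]
  exact mul_mem (prod_mem fun m _ => h2 m) (mul_mem (h3 n) (pow_mem hα n))

variable (u) in
/-- Integral polynomials with nonzero reduction. -/
def Prim (p : L[X]) : Prop := (∀ n, u.Ge 0 (p.coeff n)) ∧ ∃ n, ¬ u.Ge 1 (p.coeff n)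

theorem exists_prim {p : L[X]} (hp : p ≠ 0) : ∃ c ≠ 0, ∃ q, Prim u q ∧ p = C c * q := by
  obtain ⟨n, hn, h⟩ := p.support.exists_min_image (fun n => u.v (p.coeff n))
    (support_nonempty.mpr hp)
  rw [mem_support_iff] at hn
  refine ⟨_, hn, C (p.coeff n)⁻¹ * p, ⟨fun m => ?_, n, ?_⟩, ?_⟩
  · rw [coeff_C_mul, ← div_eq_inv_mul]
    by_cases hm : p.coeff m = 0
    · simp [hm, DV.ge_zero]
    · exact (DV.ge_self _).div rfl (by have := h m (mem_support_iff.mpr hm); omega)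
  · rw [coeff_C_mul, inv_mul_cancel₀ hn]; exact DV.not_ge_one
  · rw [← mul_assoc, ← C_mul, mul_inv_cancel₀ hn, C_1, one_mul]

variable (j α u w) in
/-- Primitive polynomials are units. -/
def IsGauss : Prop := ∀ p, Prim u p → w.v (eR j α p) = 0

namespace IsRat

variable (h : IsRat j α)

include h

theorem ne0 {p : L[X]} (hp : p ≠ 0) : eR j α p ≠ 0 := (map_ne_zero_iff _ h.inj).mpr hp

theorem eq_of_mul (hw : w.Norm) (hw' : w'.Norm) {a b : ℤ} (ha : 0 < a) (hb : 0 < b)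
    (h1 : ∀ p ≠ 0, a * w.v (eR j α p) = b * w'.v (eR j α p)) : w = w' := by
  refine DV.eq_of_mul hw hw' ha hb fun g => ?_
  obtain ⟨p, q, hq, rfl⟩ := h.frac g
  by_cases hp : p = 0
  · simp [hp]
  rw [DV.v_div _ (h.ne0 hp) (h.ne0 hq), DV.v_div _ (h.ne0 hp) (h.ne0 hq), mul_sub, mul_sub,
    h1 p hp, h1 q hq]

theorem eq_gauss (hw : w.Norm) (hw' : w'.Norm) (o : w.Over (j : L →+* M) u e)
    (o' : w'.Over (j : L →+* M) u e') (g : IsGauss j α u w) (g' : IsGauss j α u w') : w = w' := by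
  refine h.eq_of_mul hw hw' o'.1 o.1 fun p hp => ?_
  obtain ⟨c, hc, q, hq, rfl⟩ := exists_prim (u := u) hp
  have h1 := h.ne0 (C_ne_zero.mpr hc)
  have h2 := h.ne0 (right_ne_zero_of_mul hp)
  rw [map_mul, DV.v_mul _ h1 h2, DV.v_mul _ h1 h2, g q hq, g' q hq, eR_C]
  rw [show w.v (j c) = _ from o.2 c, show w'.v (j c) = _ from o'.2 c]
  ring

theorem exists_gauss (hu : u.Norm) :
    ∃ w : DV M, w.Norm ∧ w.Over (j : L →+* M) u 1 ∧ IsGauss j α u w := by
  have := hu.isDVR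
  obtain ⟨t, ht, h1⟩ := id hu
  let τ : u.O := ⟨t, Or.inr (by omega)⟩
  have h2 : ∀ x : u.O, τ ∣ x ↔ u.Ge 1 (x : L) := fun x =>
    ⟨by rintro ⟨y, rfl⟩; exact DV.Ge.mul_right (Or.inr h1.ge) y.2,
      fun hx => ⟨⟨x / t, hx.div h1 le_rfl⟩, Subtype.ext (mul_div_cancel₀ _ ht).symm⟩⟩
  have h3 : Prime τ := ⟨fun e => ht (congrArg Subtype.val e), fun e => DV.not_ge_one
    ((h2 1).mp e.dvd), fun a b e => by
      rw [h2, h2]; exact DV.prime_ge a.2 b.2 ((h2 _).mp e)⟩
  obtain ⟨w, h4, h5, h6⟩ := DV.exists_ofPrime ((eR j α).comp (mapRingHom (algebraMap u.O L)))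
    (h.inj.comp (map_injective _ Subtype.val_injective)) (fun g => by
      obtain ⟨p, q, hq, rfl⟩ := h.frac g
      obtain ⟨c, hc, a, ha⟩ := exists_denom (A := u.O) p
      obtain ⟨d, hd, b, hb⟩ := exists_denom (A := u.O) q
      have i1 := fun {x : u.O[X]} (hx : x ≠ 0) => h.ne0 ((map_ne_zero_iff (mapRingHom
        (algebraMap u.O L)) (map_injective _ Subtype.val_injective)).mpr hx)
      have i2 := i1 (C_ne_zero.mpr hc)
      have i3 := i1 (C_ne_zero.mpr hd)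
      have i4 := h.ne0 hq
      refine ⟨C d * a, C c * b, mul_ne_zero (C_ne_zero.mpr hc) fun e => ?_, ?_⟩
      · rw [e, map_zero] at hb
        exact mul_ne_zero i3 i4 (by rw [← map_mul, hb, map_zero])
      · simp only [RingHom.comp_apply, map_mul, ← ha, ← hb]
        field_simp) (prime_C_iff.mpr h3)
  have h7 : w.v (j t) = 1 := by simpa using! h4
  obtain ⟨e, o⟩ := DV.over_of_ge (w := w) (j := (j : L →+* M)) hu
    (fun x hx => by simpa using! h5 (C ⟨x, hx⟩)) ⟨t, by simp [h7]⟩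
  obtain rfl : e = 1 := by simpa [h7, h1] using (o.2 t).symm
  refine ⟨w, ⟨_, (map_ne_zero j).mpr ht, h7⟩, o, fun p ⟨h8, n, hn⟩ => ?_⟩
  obtain ⟨q, rfl⟩ := (lifts_iff_coeff_lifts (f := algebraMap u.O L) p).mpr fun n => ⟨⟨_, h8 n⟩, rfl⟩
  refine (DV.v_eq_zero (h5 q) fun h9 => hn ?_).2
  simpa using! (h2 _).mp ((C_dvd_iff_dvd_coeff _ _).mp ((h6 q).mp h9) n)

theorem eq_of_prime (hw : w.Norm) (hw' : w'.Norm) (t : ∀ c, w.v (j c) = 0) (t' : ∀ c, w'.v (j c) = 0)
    (a : w.Ge 0 α) (a' : w'.Ge 0 α) {p : L[X]} (hp : Prime p) (g : w.Ge 1 (eR j α p))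
    (g' : w'.Ge 1 (eR j α p)) : w = w' := by
  have h1 : ∀ {w : DV M}, (∀ c, w.v (j c) = 0) → w.Ge 0 α → w.Ge 1 (eR j α p) →
      ∀ a, ¬ p ∣ a → w.v (eR j α a) = 0 := fun t a g q hq =>
    have h0 := fun q => ge_eR a (p := q) fun _ => Or.inr (t _).ge
    (DV.v_eq_zero (h0 q) fun e => hq (dvd_of_ge_one h0 hp g e)).2
  exact h.eq_of_mul hw hw' (g'.le (h.ne0 hp.ne_zero)) (g.le (h.ne0 hp.ne_zero)) fun q _ =>
    DV.prop_of_prime h.inj hp (h1 t a g) (h1 t' a' g') q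

theorem exists_prime (hw : w.Norm) (t : ∀ c, w.v (j c) = 0) (a : w.Ge 0 α) :
    ∃ p, Prime p ∧ w.Ge 1 (eR j α p) := by
  have h0 := fun q => ge_eR a (p := q) fun _ => Or.inr (t _).ge
  obtain ⟨g, hg, h1⟩ := hw
  obtain ⟨p, q, hq, rfl⟩ := h.frac g
  have hp : p ≠ 0 := by rintro rfl; simp at hg
  rw [DV.v_div _ (h.ne0 hp) (h.ne0 hq)] at h1
  obtain ⟨r, h2, -, h3⟩ := DV.exists_prime h0 hp (Or.inr (by have := (h0 q).nonneg; omega))
  exact ⟨r, h2, h3⟩

theorem of_prime {p : L[X]} (hp : Prime p) : ∃ w : DV M, w.Norm ∧ (∀ c, w.v (j c) = 0) ∧ w.Ge 0 α ∧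
    ∀ a, w.Ge 1 (eR j α a) ↔ p ∣ a := by
  obtain ⟨w, h1, h2, h3⟩ := DV.exists_ofPrime _ h.inj h.frac hp
  refine ⟨w, ⟨_, h.ne0 hp.ne_zero, h1⟩, fun c => ?_, by simpa using h2 X, h3⟩
  have h4 := (h2 (C c)).nonneg
  have h5 := (h2 (C c⁻¹)).nonneg
  rw [eR_C] at h4 h5
  rw [map_inv₀, DV.v_inv] at h5
  omega

end IsRat

theorem IsGauss.ge (g : IsGauss j α u w) : w.Ge 0 α := by
  refine Or.inr (Eq.ge ?_)
  simpa using g X ⟨fun n => by rw [coeff_X]; split_ifs; exacts [DV.ge_one, DV.ge_zero _],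
    1, by simpa using DV.not_ge_one⟩

theorem root_of_ge (t : ∀ c, w.v (algebraMap ℂ M c) = 0) {x : M} (hx : w.Ge 0 x) {q : ℂ[X]}
    (hq : q ≠ 0) (h : w.Ge 1 (aeval x q)) : ∃ c, w.Ge 1 (x - algebraMap ℂ M c) := by
  have h0 : ∀ p, w.Ge 0 ((aeval x : ℂ[X] →ₐ[ℂ] M).toRingHom p) :=
    ge_poly (by simpa using t) (by simpa using hx)
  obtain ⟨p, hp, -, h1⟩ := DV.exists_prime h0 hq h
  obtain ⟨c, hc⟩ := IsAlgClosed.exists_root p (degree_pos_of_irreducible hp.irreducible).ne'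
  obtain ⟨r, hr⟩ := ((prime_X_sub_C c).irreducible.dvd_symm hp.irreducible (dvd_iff_isRoot.mpr hc))
  refine ⟨c, ?_⟩
  have h2 := h1.mul_right (h0 r)
  rw [← map_mul, ← hr] at h2
  simpa using h2

theorem chi_ne {p r : MvPolynomial (Fin 2) ℂ} (hp : Prime p) : chi (C r) ≠ C p := fun e => by
  have h1 : ∀ a b t : MvPolynomial (Fin 2) ℂ,
      MvPolynomial.aeval ![t, b + t * a] p = MvPolynomial.aeval ![a, b] r := fun a b t => by
    rw [← bV_C _ _ a, ← e, bV_chi, bV_C, show b + t * a - a * t = b by ring]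
  have h2 := h1 0 (.X 1) (.X 0)
  have h3 := h1 0 (.X 1) 1
  have h4 := h1 (.X 1) 0 1
  have h5 := h1 (.X 1) 0 0
  simp only [mul_zero, add_zero, zero_add, one_mul, zero_mul] at h2 h3 h4 h5
  rw [← h3, h4, ← h5, show (![.X 0, .X 1] : Fin 2 → MvPolynomial (Fin 2) ℂ) = .X by
    funext i; fin_cases i <;> rfl, MvPolynomial.aeval_X_left_apply,
    show (![0, 0] : Fin 2 → MvPolynomial (Fin 2) ℂ) = 0 by funext i; fin_cases i <;> rfl,
    MvPolynomial.aeval_zero] at h2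
  by_cases h6 : MvPolynomial.constantCoeff p = 0
  · exact hp.ne_zero (by rw [h2, h6, map_zero])
  · exact hp.not_isUnit (h2 ▸ (Ne.isUnit h6).map _)

theorem not_dvd_chi {p q : MvPolynomial (Fin 2) ℂ} (hp : Prime p) (hq : q ≠ 0) :
    ¬ C p ∣ chi (C q) := fun h => by
  have h1 := map_dvd chi.symm h
  rw [chi.symm_apply_apply] at h1
  have h2 := eq_C_of_natDegree_eq_zero (Nat.le_zero.mp ((natDegree_le_of_dvd h1
    (C_ne_zero.mpr hq)).trans (natDegree_C q).le))
  exact chi_ne hp (by rw [← h2, chi.apply_symm_apply])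

end Pool.Agent.Work.MP_475c1a_ag
end

-- merged part: Pool.Agent.Work.MP_475c1a_ag.KerS
section
/-! Comparison of the places of the generic curve with the divisors of the surface. -/

namespace Pool.Agent.Work.MP_475c1a_ag

open Polynomial

set_option linter.unusedSectionVars false
set_option maxHeartbeats 400000

theorem IsPb.single_of_not {L M ι κ : Type} [Field L] [Field M] {v : ι → DV L} {w : κ → DV M}
    {pb : (ι →₀ ℤ) →+ (κ →₀ ℤ)} {j : L →+* M} (h : IsPb v w j pb) {i : ι} {k : κ}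
    (hk : ∀ e, ¬ (w k).Over j (v i) e) : pb (Finsupp.single i 1) k = 0 := by
  by_cases a : ∃ i e, (w k).Over j (v i) e
  · obtain ⟨i', e, he⟩ := a
    rw [h.of_over _ he, Finsupp.single_eq_of_ne (by rintro rfl; exact hk e he), mul_zero]
  · exact h.not_over _ fun i e he => a ⟨i, e, he⟩

variable {f I J : MvPolynomial (Fin 3) ℂ} {L M K R κ : Type} [Field L] [Algebra ℂ L] [Field M]
  [Algebra ℂ M] [Field K] [Algebra (MvPolynomial (Fin 2) ℂ) K]
  [IsFractionRing (MvPolynomial (Fin 2) ℂ) K] [CharZero K] [CommRing R] [IsDomain R] [Algebra ℂ R]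
  {𝒜 : ℕ → Submodule ℂ R} [GradedAlgebra 𝒜] {θ : R →+* L} {s₀ : R} {P : κ → Ideal R} {v : κ → DV L}
  {inf : κ} {u s y : L} {j : L →ₐ[ℂ] M} {α T W : M} {ι : K[X] →+* M}

theorem bV_eq (j : L →ₐ[ℂ] M) (α : M) (s y : L) (p : (MvPolynomial (Fin 2) ℂ)[X]) :
    bV α (j y - α * j s) (j s) p =
      eR j α ((chi p).map (MvPolynomial.aeval ![s, y] : _ →ₐ[ℂ] L)) := by
  rw [eR_map, bV_chi]

theorem bV_symm (j : L →ₐ[ℂ] M) (α : M) (s y : L) (p : MvPolynomial (Fin 2) ℂ) :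
    bV α (j y - α * j s) (j s) (chi.symm (C p)) = j (MvPolynomial.aeval ![s, y] p) := by
  rw [bV_eq, chi.apply_symm_apply, Polynomial.map_C, eR_C]; rfl

variable (H : Chart 𝒜 θ s₀ P v inf (MvPolynomial.aeval ![s, y] : MvPolynomial (Fin 2) ℂ →ₐ[ℂ] L) u
  (aff f)) (h : IsRat j α) (c : Cov f I J α (j y - α * j s) (j s) (j u) T W ι)

namespace Cov

include c

theorem alpha_mem : α ∈ quadRing _ c.base.sq := by
  simpa using base_mem_quadRing c.base.sq (C (.X 0))

theorem v_alpha (k : Pl ι T) : k.w.Ge 0 α := Or.inr (by simpa using (c.triv k (.X 0)).ge)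

theorem ge_bV {k : Pl ι T} (hk : k ∈ Pl.fin ι T) (p) : k.w.Ge 0 (bV α (j y - α * j s) (j s) p) :=
  c.map p ▸ (c.good_fin k hk).ge _

theorem eq_zero (k : Pl ι T) (q : MvPolynomial (Fin 2) ℂ)
    (hq : k.w.Ge 1 (MvPolynomial.aeval ![α, j y - α * j s] q)) : q = 0 := by
  by_contra h4
  have := hq.le (c.inj_base h4)
  rw [c.triv] at this
  omega

theorem mk_place {w : DV M} (hn : w.Norm) (h0 : ∀ p, w.Ge 0 (bV α (j y - α * j s) (j s) p))
    (h1 : w.v (j u) = 0) (h2 : ∀ q : MvPolynomial (Fin 2) ℂ,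
      w.Ge 1 (MvPolynomial.aeval ![α, j y - α * j s] q) → q = 0) :
    ∃ k : Pl ι T, k.w = w := by
  have h3 : ∀ q : MvPolynomial (Fin 2) ℂ, w.v (MvPolynomial.aeval ![α, j y - α * j s] q) = 0 :=
    fun q => by
      by_cases hq : q = 0
      · simp [hq]
      · exact (DV.v_eq_zero (by simpa using h0 (C q)) fun e => hq (h2 q e)).2
  exact ⟨⟨w, hn, c.triv_iff.mpr h3, c.ge_T h0 h1 (by simpa [map_ofNat] using h3 2)⟩, rfl⟩

include H

theorem theta_mem (r : R) : j (θ r) ∈ quadRing _ c.base.sq := by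
  obtain ⟨a, b, e⟩ := H.surj r
  exact ⟨chi.symm (C a), chi.symm (C b), by rw [bV_symm, bV_symm, e, map_add, map_mul]; rfl⟩

theorem exists_poly {g : M} (hg : g ∈ quadRing _ c.base.sq) :
    ∃ p, eR j α p = g ∧ ∀ i ≠ inf, ∀ n, (v i).Ge 0 (p.coeff n) := by
  obtain ⟨a, b, rfl⟩ := hg
  refine ⟨(chi a).map _ + (chi b).map _ * C u, by rw [map_add, map_mul, eR_C, bV_eq, bV_eq],
    fun i hi n => ?_⟩
  rw [coeff_add, coeff_mul_C, coeff_map, coeff_map]
  exact (H.reg_b hi _).add ((H.reg_b hi _).mul0 (H.quadF.ge_u (H.reg_b hi)))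

theorem over_or (k : Pl ι T) (hk : k ∈ Pl.fin ι T) :
    (∃ i ≠ inf, ∃ e, k.w.Over (j : L →+* M) (v i) e) ∨ ∀ g, k.w.v ((j : L →+* M) g) = 0 := by
  by_contra! h1
  have h2 : ∀ p, k.w.Ge 0 (j (MvPolynomial.aeval ![s, y] p)) := fun p => bV_symm j α s y p ▸
    c.ge_bV hk _
  have h3 : ∀ e : ℂ[X][X] ≃ₐ[ℂ] MvPolynomial (Fin 2) ℂ,
      ∃ a, k.w.Ge 1 (j (MvPolynomial.aeval ![s, y] (e (C X))) - algebraMap ℂ M a) := fun e => by
    by_contra! h3
    obtain ⟨i, hi, n, h4⟩ := H.exists_over (k := (j : L →+* M)) e.toRingEquiv h2 h1.2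
      fun q hq => by_contra fun h4 => by
        obtain ⟨a, ha⟩ := root_of_ge (fun a => by simpa using c.triv k (.C a)) (h2 (e (C X))) h4 (by
          convert hq using 1
          exact DFunLike.congr_fun (f := aeval (j (MvPolynomial.aeval ![s, y] (e (C X)))))
            (g := (j.comp (MvPolynomial.aeval ![s, y])).comp ((e : ℂ[X][X] →ₐ[ℂ] _).comp CAlgHom))
            (algHom_ext (by simp)) q)
        exact h3 a ha
    exact h1.1 i hi n h4
  obtain ⟨a, ha⟩ := h3 (Bivariate.equivMvPolynomial ℂ)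
  obtain ⟨b, hb⟩ := h3 (Bivariate.swap.trans (Bivariate.equivMvPolynomial ℂ))
  have h4 := c.eq_zero k (.X 1 + .X 0 * .C a - .C b) (by
    convert hb.sub ((c.v_alpha k).mul_left ha) using 1
    simp [Bivariate.swap_C]; ring)
  simpa using congrArg (MvPolynomial.aeval ![0, b + 1]) h4

include h

theorem gauss_place {i : κ} (hi : i ≠ inf) (hu : ¬ (v i).Ge 1 u) :
    ∃ k : Pl ι T, k.w.Over (j : L →+* M) (v i) 1 ∧ IsGauss j α (v i) k.w := by
  obtain ⟨w, h1, h2, h3⟩ := h.exists_gauss (H.am.norm i)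
  have h4 : ∀ (p : (MvPolynomial (Fin 2) ℂ)[X]) n, (v i).Ge 0 ((p.map
    (MvPolynomial.aeval ![s, y] : _ →ₐ[ℂ] L)).coeff n) := fun p n => by
      rw [coeff_map]; exact H.reg_b hi _
  obtain ⟨k, rfl⟩ := c.mk_place h1 (fun p => bV_eq j α s y p ▸ ge_eR h3.ge fun n =>
    h2.ge.mpr (h4 _ n)) (by
      rw [show w.v (j u) = _ from h2.2 u, (DV.v_eq_zero (H.quadF.ge_u (H.reg_b hi)) hu).2, mul_zero])
    fun q hq => by_contra fun h5 => by
      have h6 := hq.le (c.inj_base h5)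
      rw [← bV_C _ _ (j s), bV_eq] at h6
      have h7 : ∀ n, (v i).Ge 1 (MvPolynomial.aeval ![s, y] ((chi (C q)).coeff n)) := fun n =>
        by_contra fun h7 => by
          rw [h3 _ ⟨h4 _, n, by rwa [coeff_map]⟩] at h6
          omega
      have h8 : chi (C q) ≠ 0 := by simpa using h5
      obtain ⟨p, hp, -, h9⟩ := DV.exists_prime (H.reg_b hi) (leadingCoeff_ne_zero.mpr h8) (h7 _)
      exact not_dvd_chi hp h5 ((C_dvd_iff_dvd_coeff _ _).mpr fun n => H.dvd_of_cen hi hp h9 (h7 n))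
  exact ⟨k, h2, h3⟩

theorem isGauss {k : Pl ι T} (hk : k ∈ Pl.fin ι T) {i : κ} (hi : i ≠ inf) {e : ℤ}
    (o : k.w.Over (j : L →+* M) (v i) e) : IsGauss j α (v i) k.w := fun p hp => by
  obtain ⟨G, h1, h2⟩ := c.gauss_place H h hi fun h1 => by
    exact absurd (((o.ge_one.mpr h1).le c.base.u_ne).trans_eq (c.good_fin k hk).unit) (by decide)
  have h3 := c.base.dim_one G.2.1 (fun p => bV_eq j α s y p ▸ ge_eR h2.ge fun n =>
    h1.ge.mpr (by rw [coeff_map]; exact H.reg_b hi _)) (c.ge_bV hk) (fun g hg h3 => by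
      obtain ⟨q, rfl, hq⟩ := c.exists_poly H hg
      by_cases h4 : q = 0
      · simp [h4, DV.ge_zero]
      refine ge_eR (c.v_alpha k) fun n => o.ge_one.mpr (by_contra fun h5 => ?_)
      have := h3.le (h.ne0 h4)
      rw [show G.1.v _ = 0 from h2 q ⟨hq i hi, n, h5⟩] at this
      omega) fun q hq => c.eq_zero k q (by simpa using hq)
  refine (DV.v_eq_zero (ge_eR (c.v_alpha k) fun n => o.ge.mpr (hp.1 n)) fun h4 => ?_).2
  obtain ⟨d, ⟨h5, h6⟩, h7⟩ := eR_denom (j := j) ⟨⟨{d | d ≠ 0 ∧ (v i).v d = 0}, fun a b =>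
    ⟨mul_ne_zero a.1 b.1, by rw [DV.v_mul _ a.1 b.1, a.2, b.2, add_zero]⟩⟩, by simp⟩
    c.alpha_mem p fun n => by
      obtain ⟨⟨_, a, rfl⟩, ⟨_, b, rfl⟩, h5, h6⟩ := H.am.loc i hi _ (hp.1 n)
      have h7 := DV.v_eq_zero (H.reg hi b) h5
      refine ⟨θ b, h7, c.theta_mem H b, ?_⟩
      rw [show p.coeff n = θ a / θ b from h6, mul_div_cancel₀ _ h7.1]
      exact c.theta_mem H a
  have h8 : p ≠ 0 := by rintro rfl; exact hp.2.elim fun n hn => hn (by simp [DV.ge_zero])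
  have h9 := (h3 _ h7 ((o.ge.mpr (Or.inr h6.ge)).mul_left h4)).le
    (mul_ne_zero ((map_ne_zero j).mpr h5) (h.ne0 h8))
  rw [DV.v_mul _ ((map_ne_zero j).mpr h5) (h.ne0 h8), show G.1.v (j d) = _ from h1.2 d,
    show G.1.v _ = 0 from h2 p hp, h6] at h9
  omega

variable (hf : f.IsHomogeneous 4) (hs : IsSmoothForm f)

include hf hs in
theorem eq_mul_of_prime {p : L[X]} (hp : Prime p) (h1 : ∀ k : Pl ι T, (∀ x, k.w.v (j x) = 0) →
    ¬ ∀ a, k.w.Ge 1 (eR j α a) ↔ p ∣ a) : ∃ x r, eR j α p = j x * ι (C r) := by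
  obtain ⟨w, h2, t, a, g⟩ := h.of_prime hp
  have h0 : ∀ p, w.Ge 0 (bV α (j y - α * j s) (j s) p) := fun p =>
    bV_eq j α s y p ▸ ge_eR a fun n => Or.inr (t _).ge
  obtain ⟨q, h3, h4⟩ : ∃ q : MvPolynomial (Fin 2) ℂ,
      w.Ge 1 (MvPolynomial.aeval ![α, j y - α * j s] q) ∧ q ≠ 0 := by
    by_contra! h3
    obtain ⟨k, rfl⟩ := c.mk_place h2 h0 (t u) h3
    exact h1 k t g
  obtain ⟨r, hr, -, h5⟩ := DV.exists_prime (j := (MvPolynomial.aeval ![α, j y - α * j s]).toRingHom)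
    (fun p => by simpa using h0 (C p)) h4 h3
  have h6 := bV_eq j α s y (C r)
  obtain ⟨p', h7⟩ := (g _).mp (by rw [← h6, bV_C]; exact h5)
  rw [h7, map_mul] at h6
  have h8 : ∀ p : L[X], ∃ d ≠ 0, j d ∈ quadRing _ c.base.sq ∧
      j d * eR j α p ∈ quadRing _ c.base.sq := fun p => by
    obtain ⟨d, ⟨h8, h9⟩, h10⟩ := eR_denom (j := j) (nonZeroDivisors L ⊓
      (quadRing _ c.base.sq).toSubmonoid.comap j) c.alpha_mem p fun n => by
        obtain ⟨⟨_, a, rfl⟩, ⟨_, b, rfl⟩, h8, h9⟩ := H.am.frac (p.coeff n)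
        have h10 : θ b ≠ 0 := H.am.ne0 h8
        refine ⟨θ b, ⟨mem_nonZeroDivisors_of_ne_zero h10, c.theta_mem H b⟩, c.theta_mem H b, ?_⟩
        rw [show p.coeff n = θ a / θ b from h9, mul_div_cancel₀ _ h10]
        exact c.theta_mem H a
    exact ⟨d, nonZeroDivisors.ne_zero h8, h9, h10⟩
  obtain ⟨d, hd, a1, a2⟩ := h8 p
  obtain ⟨d', hd', a1', a2'⟩ := h8 p'
  have h9 : p' ≠ 0 := by
    rintro rfl
    exact c.base.ne0 (C_ne_zero.mpr hr.ne_zero) (by simpa using h6)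
  rcases (c.base.quad.isPrime ((Ideal.span_singleton_prime (C_ne_zero.mpr hr.ne_zero)).mpr
    (prime_C_iff.mpr hr)) fun _ _ => genRes_nonsquare hf hs hr).mem_or_mem (x := ⟨_, a2⟩)
      (y := ⟨_, a2'⟩) (Ideal.mem_span_singleton.mpr ⟨⟨_, mul_mem a1 a1'⟩, Subtype.ext (by
        change _ * _ = bV _ _ _ _ * _
        rw [h6]; ring)⟩) with h10 | h10 <;>
    obtain ⟨⟨_, h11⟩, h10⟩ := Ideal.mem_span_singleton.mp h10 <;>
    obtain ⟨q', rfl, -⟩ := c.exists_poly H h11 <;>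
    replace h10 : _ * _ = bV _ _ _ _ * eR j α q' := congrArg Subtype.val h10 <;>
    rw [h6, ← eR_C j α, ← map_mul, ← map_mul, ← map_mul, h.inj.eq_iff] at h10
  · have h12 := eq_C_of_natDegree_eq_zero (Nat.le_zero.mp ((natDegree_le_of_dvd (p := p') ⟨q',
      mul_left_cancel₀ hp.ne_zero (by rw [mul_comm, h10, mul_assoc])⟩
      (C_ne_zero.mpr hd)).trans (natDegree_C d).le))
    rw [h12, eR_C] at h6
    rw [h12, C_ne_zero] at h9
    exact ⟨(p'.coeff 0)⁻¹, algebraMap _ _ r, by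
      rw [c.map_C, ← bV_C _ _ (j s), h6, map_inv₀, mul_comm (eR _ _ _), inv_mul_cancel_left₀
        ((map_ne_zero j).mpr h9)]⟩
  · exact absurd (isUnit_of_dvd_unit ⟨q', mul_right_cancel₀ h9 (by rw [h10]; ring)⟩
      (isUnit_C.mpr hd'.isUnit)) hp.not_isUnit

include hf hs in
theorem eq_mul {p q : L[X]} (hp : p ≠ 0) (hq : IsRelPrime p q) (h1 : ∀ k : Pl ι T,
    (∀ x, k.w.v (j x) = 0) → k.w.v (eR j α p) = k.w.v (eR j α q)) :
    ∃ x r, eR j α p = j x * ι (C r) := by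
  have : ∀ a : L[X], a ∣ p → ∃ x r, eR j α a = j x * ι (C r) := fun a ha => by
    induction a using UniqueFactorizationMonoid.induction_on_prime with
    | h₁ => exact ⟨0, 0, by simp⟩
    | h₂ a h2 =>
      obtain ⟨x, -, rfl⟩ := isUnit_iff.mp h2
      exact ⟨x, 1, by simp⟩
    | h₃ a b _ hb ih =>
      obtain ⟨x, r, e⟩ := ih ((dvd_mul_left _ _).trans ha)
      obtain ⟨x', r', e'⟩ := c.eq_mul_of_prime H h hf hs hb fun k t g => by
        have h2 := (dvd_mul_right _ _).trans ha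
        have h3 := ((g p).mpr h2).le (h.ne0 hp)
        rw [h1 k t, (DV.v_eq_zero (ge_eR (c.v_alpha k) fun _ => Or.inr (t _).ge) fun h4 =>
          hb.not_isUnit (hq h2 ((g q).mp h4))).2] at h3
        omega
      exact ⟨x' * x, r' * r, by simp only [map_mul, e, e']; ring⟩
  exact this p dvd_rfl

variable {σ : M ≃+* M} (c1 : ∀ x, σ (ι x) = ι x) (c2 : σ (j u) = -j u)
  {pb : (κ →₀ ℤ) →+ (Pl ι T →₀ ℤ)} (hpb : IsPb v Pl.w (j : L →+* M) pb)

include c1 c2 hpb

theorem img_S (E : Pl ι T →₀ ℤ) : E ∈ Img Pl.w pb := by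
  have h0 := (c.sat_le c1 c2).trans (sat_le_img (pb := pb))
  have h1 : ∀ k ∉ Pl.fin ι T, Finsupp.single k 1 ∈ Img Pl.w pb := fun k hk =>
    h0 (satOn_of_eq one_ne_zero fun k' hk' => by
      rw [Finsupp.single_eq_of_ne (by rintro rfl; exact hk hk'), DV.v_one])
  have h2 : ∀ k ∈ Pl.fin ι T, ∀ i ≠ inf, ∀ e, k.w.Over (j : L →+* M) (v i) e →
      Finsupp.single k 1 ∈ Img Pl.w pb := fun k hk i hi e o => by
    refine img_of_smul e _ o.1 ⟨1, one_pos, Finsupp.single i 1, c.sat_le c1 c2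
      (satOn_of_eq one_ne_zero fun k' hk' => ?_)⟩
    rw [DV.v_one, one_smul, Finsupp.sub_apply, Finsupp.smul_apply]
    by_cases a : k' = k
    · rw [a, hpb.of_over _ o]; simp
    · rw [hpb.single_of_not fun e' o' => a (Pl.w_inj (h.eq_gauss k'.2.1 k.2.1 o' o
        (c.isGauss H h hk' hi o') (c.isGauss H h hk hi o))), Finsupp.single_eq_of_ne a]
      simp
  refine mem_of_single fun k _ => ?_
  by_cases hk : k ∈ Pl.fin ι T
  swap
  · exact h1 k hk
  rcases c.over_or H k hk with ⟨i, hi, e, o⟩ | t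
  · exact h2 k hk i hi e o
  obtain ⟨p, hp, h3⟩ := h.exists_prime k.2.1 t (c.v_alpha k)
  have h4 := h.ne0 hp.ne_zero
  obtain ⟨D, hD⟩ := exists_div (c.fin_supp c1 c2) h4
  refine img_of_smul (D k) _ (hD k ▸ h3.le h4) ?_
  rw [← sub_sub_cancel D (_ • _)]
  refine sub_mem (h0 (satOn_of_eq h4 fun k _ => hD k)) (mem_of_single fun k' h5 => ?_)
  by_cases hk' : k' ∈ Pl.fin ι T
  swap
  · exact h1 k' hk'
  rcases c.over_or H k' hk' with ⟨i, hi, e, o⟩ | t'
  · exact h2 k' hk' i hi e o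
  have a : k' ≠ k := by rintro rfl; simp at h5
  refine absurd (Pl.w_inj (h.eq_of_prime k'.2.1 k.2.1 t' t (c.v_alpha k') (c.v_alpha k) hp
    (by_contra fun h6 => h5 ?_) h3)) a
  rw [Finsupp.sub_apply, Finsupp.smul_apply, Finsupp.single_eq_of_ne a, hD,
    show k'.w.v _ = 0 from (DV.v_eq_zero (ge_eR (c.v_alpha k') fun _ => Or.inr (t' _).ge) h6).2]
  simp

include hf hs in
theorem side_S : Side v inf Pl.w pb := by
  refine hpb.side H.am.norm (c.sat_le c1 c2) (c.over_or H) ?_ (c.img_S H h c1 c2 hpb)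
  rintro D ⟨N, hN, m, hm, hD⟩
  obtain ⟨p, q, hq, rfl⟩ := h.frac m
  obtain ⟨p, q, a, h1, rfl, rfl⟩ := UniqueFactorizationMonoid.exists_reduced_factors' p q hq
  rw [map_mul, map_mul, mul_div_mul_left _ _ (h.ne0 (left_ne_zero_of_mul hq))] at hm hD
  replace hq := right_ne_zero_of_mul hq
  have hp : p ≠ 0 := by rintro rfl; simp at hm
  have h2 : ∀ k : Pl ι T, (∀ x, k.w.v (j x) = 0) → k.w.v (eR j α p) = k.w.v (eR j α q) :=
    fun k t => by
      have h2 := hD k trivial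
      rw [hpb.not_over D fun i e o => by
        obtain ⟨x, -, hx⟩ := H.am.norm i
        have := o.2 x
        rw [hx, mul_one] at this
        exact o.1.ne ((t x).symm.trans this), DV.v_div _ (h.ne0 hp) (h.ne0 hq)] at h2
      omega
  obtain ⟨x, r, e⟩ := c.eq_mul H h hf hs hp h1 h2
  obtain ⟨x', r', e'⟩ := c.eq_mul H h hf hs hq h1.symm fun k t => (h2 k t).symm
  have h3 := e ▸ h.ne0 hp
  have h4 := e' ▸ h.ne0 hq
  have h5 := (map_ne_zero j).mp (left_ne_zero_of_mul h3)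
  have h6 := (map_ne_zero j).mp (left_ne_zero_of_mul h4)
  refine satOn_extend H.am.fin (s := {i | i ≠ inf ∧ ¬ (v i).Ge 1 u})
    ⟨N, hN, x / x', div_ne_zero h5 h6, fun i hi => ?_⟩ fun i hi h7 => ?_
  · obtain ⟨k, o, -⟩ := c.gauss_place H h hi.1 hi.2
    have h7 := hD k trivial
    rw [hpb.of_over D o, e, e', DV.v_div _ h3 h4, DV.v_mul _ (left_ne_zero_of_mul h3)
      (right_ne_zero_of_mul h3), DV.v_mul _ (left_ne_zero_of_mul h4) (right_ne_zero_of_mul h4),
      show k.w.v (j x) = _ from o.2 x, show k.w.v (j x') = _ from o.2 x',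
      show k.w.v _ = 0 from k.2.2.1 r, show k.w.v _ = 0 from k.2.2.1 r'] at h7
    rw [DV.v_div _ h5 h6]
    linarith
  · have h8 : (v i).Ge 1 u := by_contra fun h8 => h7 ⟨hi, h8⟩
    exact single_mem_satOn H.quadF.u_ne (by have := h8.le H.quadF.u_ne; omega)
      (H.v_root hi (aff_prime hf hs) h8)

end Cov

end Pool.Agent.Work.MP_475c1a_ag
end

-- merged part: Pool.Agent.Work.MP_475c1a_ag.QRig
section
/-! A Weierstrass form is determined by its discriminant curve. -/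

namespace Pool.Agent.Work.MP_475c1a_ag

open MvPolynomial Matrix

variable {f I J : MvPolynomial (Fin 3) ℂ}

theorem exists_taylor (p : Fin 3 → ℂ) (G : MvPolynomial (Fin 3) ℂ) :
    ∃ g : Fin 3 → MvPolynomial (Fin 3) ℂ, G = C (aeval p G) + ∑ m, (X m - C (p m)) * g m := by
  induction G using MvPolynomial.induction_on with
  | C r => exact ⟨0, by simp⟩
  | add G H hG hH =>
    obtain ⟨g, hg⟩ := hG
    obtain ⟨h, hh⟩ := hH
    refine ⟨g + h, ?_⟩
    simp only [map_add, Pi.add_apply, mul_add, Finset.sum_add_distrib]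
    linear_combination hg + hh
  | mul_X G i hG =>
    obtain ⟨g, hg⟩ := hG
    refine ⟨fun m => g m * X i + Pi.single (M := fun _ => MvPolynomial (Fin 3) ℂ) i
      (C (aeval p G)) m, ?_⟩
    have h1 : ∑ m, (X m - C (p m)) * Pi.single (M := fun _ => MvPolynomial (Fin 3) ℂ) i
        (C (aeval p G)) m = (X i - C (p i)) * C (aeval p G) := by
      rw [Finset.sum_eq_single i (fun m _ hm => by simp [hm]) (by simp), Pi.single_eq_same]
    simp only [map_mul, aeval_X, mul_add, Finset.sum_add_distrib, ← mul_assoc, ← Finset.sum_mul, h1]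
    linear_combination X i * hg

theorem sum_three {M : Type} [AddCommMonoid M] {j k : Fin 3} (h : k ≠ j) :
    ∃ i, ∀ F : Fin 3 → M, ∑ m, F m = F i + F j + F k := by
  obtain ⟨i, h1, h2, h3⟩ : ∃ i, i ≠ j ∧ i ≠ k ∧ Finset.univ = {i, j, k} := by
    revert j k
    decide
  refine ⟨i, fun F => ?_⟩
  rw [h3, Finset.sum_insert (by simp [h1, h2]), Finset.sum_pair h.symm, add_assoc]

section Val

variable {N : Type} [Field N] [Algebra ℂ N]

theorem exists_uniformizer (hf : f.IsHomogeneous 4) (hs : IsSmoothForm f) {x : Fin 3 → N}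
    {j : Fin 3} (hj : x j = 1) (h0 : aeval x f = 0) {p : Fin 3 → ℂ} (hpj : p j = 1)
    (hp : aeval p f = 0) : ∃ τ g : MvPolynomial (Fin 3) ℂ, aeval p τ = 0 ∧ aeval p g ≠ 0 ∧
      ∀ G : MvPolynomial (Fin 3) ℂ, aeval p G = 0 → ∃ G' : MvPolynomial (Fin 3) ℂ,
        aeval x g * aeval x G = aeval x τ * aeval x G' := by
  obtain ⟨k, hkj, hk⟩ : ∃ k, k ≠ j ∧ grad f p k ≠ 0 := by
    by_contra hcon
    push Not at hcon
    have h1 := dot_grad hf p
    rw [hp, mul_zero, dotProduct, Finset.sum_eq_single j (fun m _ hm => by simp [hcon m hm])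
      (by simp), hpj, one_mul] at h1
    have h2 : p = 0 := smooth_ext hs fun i => by
      by_cases hi : i = j
      · exact hi ▸ h1
      · exact hcon i hi
    simp [h2] at hpj
  obtain ⟨i, hi⟩ := sum_three (M := MvPolynomial (Fin 3) ℂ) hkj
  obtain ⟨g, hg⟩ := exists_taylor p f
  refine ⟨X i - C (p i), g k, by simp, ?_, fun G hG => ?_⟩
  · have h1 := congrArg (fun r => aeval p (pderiv k r)) hg
    simp only [map_add, pderiv_C, map_sum, Derivation.leibniz, smul_eq_mul, map_mul, map_sub,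
      aeval_X, algHom_C, Algebra.algebraMap_self, RingHom.id_apply, sub_self, zero_mul, zero_add,
      sub_zero] at h1
    rw [Finset.sum_eq_single k (fun m _ hm => by simp [pderiv_X, hm]) (by simp)] at h1
    simp only [pderiv_X_self, map_one, mul_one] at h1
    exact h1 ▸ hk
  · obtain ⟨h, hh⟩ := exists_taylor p G
    rw [hi, hp] at hg
    rw [hi, hG] at hh
    have h1 := congrArg (aeval x) hg
    have h2 := congrArg (aeval x) hh
    simp only [map_add, map_mul, map_sub, aeval_X, hj, hpj, map_one, map_zero, h0] at h1 h2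
    refine ⟨g k * h i - g i * h k, ?_⟩
    simp only [map_mul, map_sub, aeval_X]
    linear_combination aeval x (g k) * h2 - aeval x (h k) * h1

theorem IsGen.tD_stable {x : Fin 3 → N} (hg : IsGen f x) {j : Fin 3} (hj : x j = 1)
    (h0 : aeval x f = 0) {G : MvPolynomial (Fin 3) ℂ} (hG : aeval x G = 0) :
    aeval x (tD f j G) = 0 := by
  obtain ⟨n, H, hH, k, hk⟩ := exists_homog j G
  have h1 := congrArg (aeval x) hk
  rw [map_sub, map_mul, map_sub, aeval_X, hj, map_one, sub_self, zero_mul, hG, sub_zero] at h1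
  obtain ⟨l, rfl⟩ := hg H n hH h1
  obtain rfl : G = f * l - (X j - 1) * k := by linear_combination -hk
  simp [tD_self, tD_X_self, h0, hj]

variable {Γ : Type} [LinearOrderedCommGroupWithZero Γ] (v : Valuation N Γ)

theorem val_aeval_le (hv : ∀ c : ℂ, v (algebraMap ℂ N c) ≤ 1) {x : Fin 3 → N}
    (hx : ∀ i, v (x i) ≤ 1) (G : MvPolynomial (Fin 3) ℂ) : v (aeval x G) ≤ 1 := by
  induction G using MvPolynomial.induction_on with
  | C r => simpa using hv r
  | add p q hp hq => rw [map_add]; exact v.map_add_le hp hq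
  | mul_X p i hp => rw [map_mul, map_mul, aeval_X]; exact mul_le_one' hp (hx i)

theorem one_le_val (hf : f.IsHomogeneous 4) (hs : IsSmoothForm f)
    (hv : ∀ c : ℂ, v (algebraMap ℂ N c) ≤ 1) {x : Fin 3 → N} (hx : ∀ i, v (x i) ≤ 1) {j : Fin 3}
    (hj : x j = 1) (h0 : aeval x f = 0) (hg : IsGen f x) {t : N}
    {G1 G2 : MvPolynomial (Fin 3) ℂ} {n : ℕ} (hG1 : G1.IsHomogeneous n) (h1 : aeval x G1 ≠ 0)
    (ht : t * aeval x G2 = aeval x G1) (hq : v (aeval x (tq f j)) ≤ v t ^ 3) : 1 ≤ v t := by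
  have hle := val_aeval_le v hv hx
  let P : Ideal (MvPolynomial (Fin 3) ℂ) :=
    { carrier := {G | v (aeval x G) < 1}
      add_mem' := fun {a b} ha hb => by
        rw [Set.mem_ofPred_eq, map_add]
        exact v.map_add_lt ha hb
      zero_mem' := by simp
      smul_mem' := fun c a ha => by
        rw [Set.mem_ofPred_eq, smul_eq_mul, map_mul, map_mul]
        exact mul_lt_one_of_nonneg_of_lt_one_right (hle c) zero_le ha }
  have hP : ∀ G, G ∈ P ↔ v (aeval x G) < 1 := fun G => Iff.rfl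
  have : P.IsPrime := ⟨fun h => by simpa [hP] using (Ideal.eq_top_iff_one P).1 h,
    fun {a b} h => by
      by_contra hcon
      rw [hP, hP, not_or, not_lt, not_lt] at hcon
      rw [hP, map_mul, map_mul] at h
      exact absurd h (not_lt.2 (one_le_mul hcon.1 hcon.2))⟩
  obtain ⟨K, _, _, _, ξ, hξ⟩ := exists_generic_ideal P
  have hξj : ξ j = 1 := by
    have h := (hξ (X j - 1)).2 (by simp [hP, hj])
    rwa [map_sub, aeval_X, map_one, sub_eq_zero] at h
  have hvt := congrArg v ht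
  rw [map_mul] at hvt
  by_contra hlt
  rw [not_le] at hlt
  rcases const_or_generic hf hs (P := ξ) (by rintro rfl; simp at hξj)
    ((hξ f).2 (by simp [hP, h0])) with ⟨μ, p', hp'⟩ | hgen
  swap
  · obtain ⟨H, rfl⟩ := hgen G1 n hG1 ((hξ _).2 ((hP _).2
      (hvt ▸ mul_lt_one_of_nonneg_of_lt_one_left zero_le hlt (hle G2))))
    exact h1 (by rw [map_mul, h0, zero_mul])
  obtain ⟨p, hpj, hp⟩ : ∃ p : Fin 3 → ℂ, p j = 1 ∧
      ∀ G : MvPolynomial (Fin 3) ℂ, aeval p G = 0 ↔ v (aeval x G) < 1 := by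
    have h2 : μ * algebraMap ℂ K (p' j) = 1 := by simpa [hp'] using hξj
    have h3 : p' j ≠ 0 := fun h => by simp [h] at h2
    refine ⟨(p' j)⁻¹ • p', by simp [h3], fun G => ?_⟩
    have h4 := aeval_congr_of_hom (Algebra.ofId ℂ K) ((p' j)⁻¹ • p') G
    have h5 : (fun i => Algebra.ofId ℂ K (((p' j)⁻¹ • p') i)) = ξ := by
      funext i
      simp [hp', eq_inv_of_mul_eq_one_left h2]
    rw [h5] at h4
    rw [← hP, ← hξ, ← h4, Algebra.ofId_apply, map_eq_zero_iff _ (algebraMap ℂ K).injective]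
  have hpf : aeval p f = 0 := (hp f).2 (by simp [h0])
  obtain ⟨τ, g, hτ, hg0, hdiv⟩ := exists_uniformizer hf hs hj h0 hpj hpf
  have hγ := (hp τ).1 hτ
  have hg1 : v (aeval x g) = 1 := le_antisymm (hle g) (not_lt.1 fun h => hg0 ((hp g).2 h))
  have step : ∀ G : MvPolynomial (Fin 3) ℂ, v (aeval x G) < 1 → ∃ G' : MvPolynomial (Fin 3) ℂ,
      aeval x g * aeval x G = aeval x τ * aeval x G' ∧
      v (aeval x G) = v (aeval x τ) * v (aeval x G') := fun G hG => by
    obtain ⟨G', hG'⟩ := hdiv G ((hp G).2 hG)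
    exact ⟨G', hG', by rw [← map_mul, ← hG', map_mul, hg1, one_mul]⟩
  generalize hγ' : v (aeval x τ) = γ at hγ step
  let Q : Γ → Ideal (MvPolynomial (Fin 3) ℂ) := fun δ =>
    { carrier := {G | v (aeval x G) ≤ δ}
      add_mem' := fun {a b} ha hb => by
        rw [Set.mem_ofPred_eq, map_add]
        exact v.map_add_le ha hb
      zero_mem' := by simp
      smul_mem' := fun c a ha => by
        rw [Set.mem_ofPred_eq, smul_eq_mul, map_mul, map_mul]
        exact (mul_le_of_le_one_left' (hle c)).trans ha }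
  have hQ : ∀ δ G, G ∈ Q δ ↔ v (aeval x G) ≤ δ := fun _ _ => Iff.rfl
  have ord : ∀ (M : Ideal (MvPolynomial (Fin 3) ℂ)) (G : MvPolynomial (Fin 3) ℂ),
      M = Q (v (aeval x G)) →
      v (aeval x G) ≠ 0 → ∃ n, v (aeval x G) = γ ^ n := by
    intro M
    induction M using (wellFounded_gt (α := Ideal (MvPolynomial (Fin 3) ℂ))).induction with
    | _ M ih =>
      rintro G rfl hG
      rcases (hle G).eq_or_lt with h2 | h2
      · exact ⟨0, by rw [h2, pow_zero]⟩
      obtain ⟨G', -, h3⟩ := step G h2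
      have h4 : v (aeval x G') ≠ 0 := right_ne_zero_of_mul (h3 ▸ hG)
      have h5 : v (aeval x G) < v (aeval x G') := by
        rw [h3]
        exact mul_lt_of_lt_one_left (zero_lt_iff.2 h4) hγ
      obtain ⟨n, hn⟩ := ih (Q (v (aeval x G'))) (lt_of_le_not_ge
        (fun H hH => (hQ _ _).2 (((hQ _ _).1 hH).trans h5.le))
        fun hH => not_le.2 h5 ((hQ _ _).1 (hH ((hQ _ G').2 le_rfl)))) G' rfl h4
      exact ⟨n + 1, by rw [h3, hn, pow_succ']⟩
  have k1 : v (aeval x G1) ≠ 0 := by simpa using h1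
  have k2 : v (aeval x G2) ≠ 0 := right_ne_zero_of_mul (hvt ▸ k1)
  have k3 : v t ≠ 0 := left_ne_zero_of_mul (hvt ▸ k1)
  obtain ⟨m, hm⟩ := ord _ G1 rfl k1
  obtain ⟨l, hl⟩ := ord _ G2 rfl k2
  rw [hm, hl] at hvt
  rw [hl] at k2
  have k4 : v t ≤ γ := by
    rcases le_or_gt m l with h | h
    · have h2 := pow_le_pow_of_le_one zero_le hγ.le h
      rw [← hvt] at h2
      exact absurd h2 (not_le.2 (mul_lt_of_lt_one_left (zero_lt_iff.2 k2) hlt))
    · have h2 := pow_le_pow_of_le_one zero_le hγ.le (Nat.succ_le_of_lt h)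
      rw [← hvt, pow_succ'] at h2
      exact le_of_mul_le_mul_right h2 (zero_lt_iff.2 k2)
  have k5 : 0 < γ := (zero_lt_iff.2 k3).trans_le k4
  have step' : ∀ (G : MvPolynomial (Fin 3) ℂ) n, v (aeval x G) ≤ γ ^ (n + 1) →
      ∃ G' : MvPolynomial (Fin 3) ℂ,
      aeval x g * aeval x G = aeval x τ * aeval x G' ∧ v (aeval x G') ≤ γ ^ n := fun G n hG => by
    obtain ⟨G', h2, h3⟩ := step G (hG.trans_lt (pow_lt_one₀ zero_le hγ n.succ_ne_zero))
    rw [h3, pow_succ'] at hG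
    exact ⟨G', h2, le_of_mul_le_mul_left hG k5⟩
  obtain ⟨q1, r1, s1⟩ := step' (tq f j) 2 (hq.trans (pow_le_pow_left₀ zero_le k4 3))
  obtain ⟨q2, r2, s2⟩ := step' q1 1 s1
  obtain ⟨q3, r3, -⟩ := step' q2 0 s2
  have e0 : aeval x (g ^ 3 * tq f j - τ * τ * τ * q3) = 0 := by
    simp only [map_sub, map_mul, map_pow]
    linear_combination aeval x g ^ 2 * r1 + aeval x g * aeval x τ * r2 + aeval x τ ^ 2 * r3
  have e1 := hg.tD_stable hj h0 e0
  have e2 := hg.tD_stable hj h0 e1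
  have hB : aeval p (g ^ 3) ≠ 0 := by rw [map_pow]; exact pow_ne_zero 3 hg0
  generalize g ^ 3 = B at e0 e1 e2 hB
  have e3 := (hp _).2 (by rw [e0, map_zero]; exact zero_lt_one)
  have e4 := (hp _).2 (by rw [e1, map_zero]; exact zero_lt_one)
  have e5 := (hp _).2 (by rw [e2, map_zero]; exact zero_lt_one)
  simp only [map_sub, map_add, map_mul, Derivation.leibniz, smul_eq_mul, hτ, mul_zero, zero_mul,
    add_zero, sub_zero] at e3 e4 e5
  have q0 := (mul_eq_zero.1 e3).resolve_left hB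
  rw [q0, zero_mul, add_zero] at e4
  have q1 := (mul_eq_zero.1 e4).resolve_left hB
  simp only [q0, q1, zero_mul, mul_zero, add_zero] at e5
  exact local_order hf hs hpf (by simp [hpj]) q0 q1 ((mul_eq_zero.1 e5).resolve_left hB)

theorem mem_range_of_valuation {y : N}
    (h : ∀ O : ValuationSubring N, (∀ c : ℂ, algebraMap ℂ N c ∈ O) → y ∈ O) :
    ∃ c : ℂ, algebraMap ℂ N c = y := by
  have h1 : y ∈ (integralClosure (Subring.closure ((algebraMap ℂ N).range : Set N)) N).toSubring := by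
    rw [← iInf_valuationSubring_superset, Subring.mem_iInf]
    exact fun O => h O.1 fun c => O.2 ⟨c, rfl⟩
  rw [Subring.closure_eq] at h1
  let _ : Algebra ℂ (algebraMap ℂ N).range := (algebraMap ℂ N).rangeRestrict.toAlgebra
  have : IsScalarTower ℂ (algebraMap ℂ N).range N := IsScalarTower.of_algebraMap_eq fun _ => rfl
  have : Algebra.IsIntegral ℂ (algebraMap ℂ N).range :=
    Algebra.isIntegral_of_surjective (algebraMap ℂ N).rangeRestrict_surjective
  have h2 : IsIntegral ℂ y := isIntegral_trans (A := (algebraMap ℂ N).range) y h1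
  exact minpoly.mem_range_of_degree_eq_one ℂ y
    (IsAlgClosed.degree_eq_one_of_irreducible ℂ (minpoly.irreducible h2))

end Val

theorem IsIJ.rigid (h : IsIJ f I J) (hf : f.IsHomogeneous 4) (hs : IsSmoothForm f)
    {U V : MvPolynomial (Fin 3) ℂ} (hU : U.IsHomogeneous 4) (hV : V.IsHomogeneous 6)
    (hUV : 4 * U ^ 3 - V ^ 2 = 4 * I ^ 3 - J ^ 2) :
    ∃ t : ℂ, t ≠ 0 ∧ U = C (t ^ 2) * I ∧ V = C (t ^ 3) * J := by
  obtain ⟨K, _, _, _, ξ, h0, hξ⟩ := exists_isGen hf hs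
  have : CharZero K := charZero_of_injective_algebraMap (algebraMap ℂ K).injective
  obtain ⟨k1, k2, -⟩ := hξ.ne hf hs 0
  obtain ⟨k3, k4⟩ := h.tan_val hf 0 h0
  have hI : aeval (grad f ξ) I ≠ 0 := right_ne_zero_of_mul (k3 ▸ pow_ne_zero 2 k2)
  have hJ : aeval (grad f ξ) J ≠ 0 :=
    right_ne_zero_of_mul (k4 ▸ mul_ne_zero (by norm_num) (pow_ne_zero 3 k2))
  have d1 := h.disc_grad hf h0
  have d2 := h.disc_grad hf h0
  rw [← hUV] at d2
  simp only [map_sub, map_mul, map_pow, map_ofNat] at d1 d2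
  have hU0 : aeval (grad f ξ) U ≠ 0 := fun hU0 => by
    obtain ⟨κ, hκ, k5⟩ := h.grad_gen hf hs h0 hξ
    have hV0 : aeval (grad f ξ) V = 0 := by simpa [hU0] using d2
    rw [← hUV, grad_disc, hU0, hV0] at k5
    have k6 := congrFun k5 0
    simp [hκ, k1] at k6
  obtain ⟨t, ht2, ht3⟩ : ∃ t : K, aeval (grad f ξ) U = t ^ 2 * aeval (grad f ξ) I ∧
      aeval (grad f ξ) V = t ^ 3 * aeval (grad f ξ) J := by
    generalize aeval (grad f ξ) U = u, aeval (grad f ξ) V = w, aeval (grad f ξ) I = i,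
      aeval (grad f ξ) J = j at *
    have k5 : u = (w * i / (u * j)) ^ 2 * i := by
      field_simp
      linear_combination (-u ^ 3) * d1 + i ^ 3 * d2
    refine ⟨w * i / (u * j), k5, ?_⟩
    rw [pow_succ, mul_right_comm, mul_assoc, mul_div_assoc', mul_div_assoc', eq_div_iff
      (mul_ne_zero hU0 hJ)]
    linear_combination (w * j) * k5
  have ht0 : t ≠ 0 := fun ht0 => hU0 (by simp [ht2, ht0])
  obtain ⟨c, hc⟩ := mem_range_of_valuation (y := t⁻¹) fun O hO => by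
    have hv : ∀ c : ℂ, O.valuation (algebraMap ℂ K c) ≤ 1 := fun c =>
      (O.valuation_le_one_iff _).2 (hO c)
    obtain ⟨j, hj⟩ := Finite.exists_max fun i => O.valuation (ξ i)
    have m1 := (hξ.ne hf hs j).1
    have m2 : 0 < O.valuation (ξ j) := by simpa [zero_lt_iff] using m1
    obtain ⟨x, hxξ⟩ : ∃ x, x = (ξ j)⁻¹ • ξ := ⟨_, rfl⟩
    have hx : ∀ i, O.valuation (x i) ≤ 1 := fun i => by
      rw [hxξ, Pi.smul_apply, smul_eq_mul, map_mul, map_inv₀, inv_mul_le_one₀ m2]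
      exact hj i
    have hxj : x j = 1 := by simp [hxξ, m1]
    have hx0 : aeval x f = 0 := by rw [hxξ, aeval_smul_hom hf, h0, mul_zero]
    have hxg : IsGen f x := fun G n hG hG0 => by
      rw [hxξ, aeval_smul_hom hG] at hG0
      exact hξ G n hG ((mul_eq_zero.1 hG0).resolve_left (pow_ne_zero _ (inv_ne_zero m1)))
    have m3 : aeval (grad f x) U = t ^ 2 * aeval (grad f x) I := by
      rw [hxξ, grad_smul hf, aeval_smul_hom hU, aeval_smul_hom h.homI, ht2]
      ring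
    have m4 : aeval (grad f x) V = t ^ 3 * aeval (grad f x) J := by
      rw [hxξ, grad_smul hf, aeval_smul_hom hV, aeval_smul_hom h.homJ, ht3]
      ring
    obtain ⟨m5, m6⟩ := h.tan_val hf j hx0
    have m7 := congrFun (h.tan_disc hf hs hx0 (j := j) (by simp [hxj])) j
    obtain ⟨-, m8, -⟩ := hxg.ne hf hs j
    rw [hxj, one_pow, one_mul] at m5 m6
    rw [← hUV, grad_disc, hxj, one_pow, one_smul, m3, m4, m5, m6] at m7
    simp only [Pi.sub_apply, Pi.smul_apply, smul_eq_mul, hxj, mul_one] at m7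
    have key : ∀ G : MvPolynomial (Fin 3) ℂ,
        aeval x (aeval (fun i => pderiv i f) G) = aeval (grad f x) G := fun G =>
      aeval_congr_of_hom _ _ G
    have hle : ∀ G : MvPolynomial (Fin 3) ℂ, O.valuation (aeval (grad f x) G) ≤ 1 := fun G =>
      key G ▸ val_aeval_le O.valuation hv hx _
    have m9 : O.valuation (t * aeval x (tco f j 2)) ≤ 1 := by
      have n1 := hle U
      rw [m3, m5, ← mul_pow, map_pow] at n1
      exact (pow_le_one_iff_of_nonneg zero_le two_ne_zero).1 n1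
    have m10 : aeval x (tq f j) = t ^ 3 * (algebraMap ℂ K (1 / 9) *
        (t * aeval x (tco f j 2) * grad U (grad f x) j) +
          algebraMap ℂ K (1 / 27) * grad V (grad f x) j) := by
      apply mul_left_cancel₀ (mul_ne_zero (by norm_num : (108 : K) ≠ 0) (pow_ne_zero 3 m8))
      simp only [map_div₀, map_one, map_ofNat]
      linear_combination -m7
    have m11 := one_le_val O.valuation hf hs hv hx hxj hx0 hxg (t := t)
      (G1 := aeval (fun i => pderiv i f) (V * I)) (G2 := aeval (fun i => pderiv i f) (U * J))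
      ((hV.mul h.homI).aeval _ fun i => hf.pderiv)
      (by rw [key, map_mul, m4, m5, m6]; simp [ht0, m8])
      (by rw [key, key, map_mul, map_mul, m3, m4]; ring)
      (by
        rw [m10, map_mul, map_pow]
        refine mul_le_of_le_one_right' (O.valuation.map_add_le ?_ ?_)
        · rw [map_mul, map_mul]
          exact mul_le_one' (hv _) (mul_le_one' m9 (hle _))
        · rw [map_mul]
          exact mul_le_one' (hv _) (hle _))
    rw [← O.valuation_le_one_iff, map_inv₀]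
    exact inv_le_one_of_one_le₀ m11
  have hc0 : c ≠ 0 := fun hc0 => inv_ne_zero ht0 (by rw [← hc, hc0, map_zero])
  have hc1 : algebraMap ℂ K c⁻¹ = t := by rw [map_inv₀, hc, inv_inv]
  refine ⟨c⁻¹, inv_ne_zero hc0, sub_eq_zero.1 ?_, sub_eq_zero.1 ?_⟩
  · refine h.eq_zero_of_gen hf hs hξ (hU.sub (h.homI.C_mul _)) (by norm_num) ?_
    rw [map_sub, map_mul, algHom_C, map_pow, hc1, ht2, sub_self]
  · refine h.eq_zero_of_gen hf hs hξ (hV.sub (h.homJ.C_mul _)) (by norm_num) ?_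
    rw [map_sub, map_mul, algHom_C, map_pow, hc1, ht3, sub_self]

/-- The threefold is determined by its discriminant curve. -/
theorem IsIJ.of_discIsDual (h : IsIJ f I J) (hf : f.IsHomogeneous 4) (hs : IsSmoothForm f)
    {c : ℂ} (hc : c ≠ 0) {q r s : MvPolynomial (Fin 3) ℂ} (hq : q.IsHomogeneous 2)
    (hr : r.IsHomogeneous 4) (hs6 : s.IsHomogeneous 6) (hd : DiscIsDual f c q r s) :
    ∃ l : ℂ, l ≠ 0 ∧ C (3 * c) * r - q ^ 2 = C (-81 * c ^ 2 * l ^ 2) * I ∧
      C (27 * c ^ 2) * s - C (9 * c) * q * r + 2 * q ^ 3 = C (-729 * c ^ 3 * l ^ 3) * J := by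
  obtain ⟨U, hUe⟩ : ∃ U, U = q ^ 2 - C (3 * c) * r := ⟨_, rfl⟩
  obtain ⟨V, hVe⟩ : ∃ V, V = C (27 * c ^ 2) * s - C (9 * c) * q * r + 2 * q ^ 3 := ⟨_, rfl⟩
  have hU : U.IsHomogeneous 4 := hUe ▸ (hq.pow 2).sub (hr.C_mul _)
  have hV : V.IsHomogeneous 6 :=
    hVe ▸ ((hs6.C_mul _).sub ((hq.C_mul _).mul hr)).add ((hom_ofNat 2).mul (hq.pow 3))
  have hE : (4 * U ^ 3 - V ^ 2).IsHomogeneous 12 :=
    ((hom_ofNat 4).mul (hU.pow 3)).sub (hV.pow 2)
  have h1 : ∀ a : Fin 3 → ℂ, aeval a (4 * U ^ 3 - V ^ 2) =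
      27 * c ^ 2 * (Cubic.mk c (eval a q) (eval a r) (eval a s)).discr := fun a => by
    simp [hUe, hVe, Cubic.discr, map_ofNat]
    ring
  have h2 : ∀ {G : MvPolynomial (Fin 3) ℂ}, G.IsHomogeneous 12 → aeval (0 : Fin 3 → ℂ) G = 0 :=
    fun hG => by
      have h4 := aeval_smul_hom hG (0 : ℂ) (0 : Fin 3 → ℂ)
      rwa [smul_zero, zero_pow (by norm_num), zero_mul] at h4
  obtain ⟨κ, hκ⟩ := eq_C_mul_of_dvd h.disc_hom hE (h.disc_dvd hf hs hE fun p hp => by
    by_cases hg : grad f p = 0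
    · rw [hg, h2 hE]
    · have hp0 : p ≠ 0 := by
        rintro rfl
        have h3 := grad_smul hf (0 : ℂ) 0
        rw [smul_zero, zero_pow (by norm_num), zero_smul] at h3
        exact hg h3
      rw [h1, (hd _ hg).2 ⟨p, hp0, hp, 1, fun i => (one_mul _).symm⟩, mul_zero])
  have hκ0 : κ ≠ 0 := by
    rintro rfl
    refine (h.squarefree hf hs).ne_zero (MvPolynomial.funext fun a => ?_)
    change aeval a (4 * I ^ 3 - J ^ 2) = aeval a 0
    rw [map_zero]
    by_cases ha : a = 0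
    · rw [ha, h2 h.disc_hom]
    have h3 := h1 a
    rw [hκ, map_zero, zero_mul, map_zero] at h3
    obtain ⟨x, hx, hx0, l, hl⟩ := (hd a ha).1 ((mul_eq_zero.1 h3.symm).resolve_left (by simp [hc]))
    have h4 : grad f x = l • a := funext hl
    have h5 := h.disc_grad hf (P := x) hx0
    have hl0 : l ≠ 0 := by
      rintro rfl
      exact hx (smooth_ext hs (congrFun (h4.trans (zero_smul _ _))))
    rw [h4, aeval_smul_hom h.disc_hom] at h5
    exact (mul_eq_zero.1 h5).resolve_left (pow_ne_zero _ hl0)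
  obtain ⟨ρ, hρ⟩ := IsAlgClosed.exists_pow_nat_eq κ (n := 6) (by norm_num)
  have hρ0 : ρ ≠ 0 := by
    rintro rfl
    exact hκ0 (by simpa using hρ.symm)
  have h3 : (C ρ⁻¹ : MvPolynomial (Fin 3) ℂ) * C ρ = 1 := by rw [← map_mul]; simp [hρ0]
  obtain ⟨t, ht, h4, h5⟩ := h.rigid hf hs (hU.C_mul (ρ⁻¹ ^ 2)) (hV.C_mul (ρ⁻¹ ^ 3)) (by
    rw [← hρ] at hκ
    have h6 : (C ρ⁻¹ * C ρ : MvPolynomial (Fin 3) ℂ) ^ 6 = 1 := by rw [h3, one_pow]
    simp only [map_pow] at hκ ⊢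
    linear_combination C ρ⁻¹ ^ 6 * hκ + (4 * I ^ 3 - J ^ 2) * h6)
  have h6 : U = C ((ρ * t) ^ 2) * I := by
    have h7 : (C ρ⁻¹ * C ρ : MvPolynomial (Fin 3) ℂ) ^ 2 = 1 := by rw [h3, one_pow]
    simp only [map_pow, map_mul] at h4 ⊢
    linear_combination C ρ ^ 2 * h4 - U * h7
  have h7 : V = C ((ρ * t) ^ 3) * J := by
    have h7 : (C ρ⁻¹ * C ρ : MvPolynomial (Fin 3) ℂ) ^ 3 = 1 := by rw [h3, one_pow]
    simp only [map_pow, map_mul] at h5 ⊢
    linear_combination C ρ ^ 3 * h5 - V * h7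
  refine ⟨-(ρ * t) / (9 * c), by simp [hρ0, ht, hc], ?_, ?_⟩
  · rw [show -81 * c ^ 2 * (-(ρ * t) / (9 * c)) ^ 2 = -(ρ * t) ^ 2 by field_simp; norm_num,
      map_neg, neg_mul, ← h6, hUe, neg_sub]
  · rw [show -729 * c ^ 3 * (-(ρ * t) / (9 * c)) ^ 3 = (ρ * t) ^ 3 by field_simp; norm_num,
      ← h7, hVe]

end Pool.Agent.Work.MP_475c1a_ag
end

-- merged part: Pool.Agent.Work.MP_475c1a_ag.Transport
section
/-! Reduction of the theorem to the normal forms. -/

namespace Pool.Agent.Work.MP_475c1a_ag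

open MvPolynomial CategoryTheory

theorem IsVariety.of_iso {V V' : CScheme} (e : V ≅ V') (h : IsVariety V') : IsVariety V := by
  obtain ⟨h1, h2⟩ := h
  have e1 := under.mapIso e
  have : Nonempty (under.obj V) := ⟨e1.inv (genericPoint (under.obj V'))⟩
  exact ⟨AlgebraicGeometry.isIntegral_of_isOpenImmersion e1.hom,
    AlgebraicGeometry.isLocallyNoetherian_of_isOpenImmersion e1.hom⟩

/-- The isomorphism of complexified class groups induced by an isomorphism. -/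
noncomputable def clCEquiv {X Y : AlgebraicGeometry.Scheme.{0}} (e : X ≅ Y) : ClC X ≃ₗ[ℂ] ClC Y :=
  LinearEquiv.ofLinearMap (clCMap e) (clCMap e.symm)
    (by rw [← clCMap_trans, Iso.symm_self_id, clCMap_refl])
    (by rw [← clCMap_trans, Iso.self_symm_id, clCMap_refl])

theorem sameClRep_of_iso {V V' : CScheme} (e : V ≅ V') : SameClRep V V' := by
  refine ⟨e.conjAut, clCEquiv (under.mapIso e), fun σ v => ?_⟩
  have key : ∀ τ : V ≅ V, (clCMap (under.mapIso e)).comp (clCMap (under.mapIso τ)) =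
      (clCMap (under.mapIso (e.symm ≪≫ τ ≪≫ e))).comp (clCMap (under.mapIso e)) := fun τ => by
    rw [← clCMap_trans, ← clCMap_trans, ← Functor.mapIso_trans, ← Functor.mapIso_trans,
      Iso.self_symm_id_assoc]
  have h := LinearMap.congr_fun (key σ) v
  rw [← Iso.conjAut_apply] at h
  exact h

theorem SameClRep.trans {U V W : CScheme} (h : SameClRep U V) (h' : SameClRep V W) :
    SameClRep U W := by
  obtain ⟨φ, e, h⟩ := h
  obtain ⟨φ', e', h'⟩ := h'
  exact ⟨φ.trans φ', e.trans e', fun σ v => by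
    rw [LinearEquiv.trans_apply, h, h', LinearEquiv.trans_apply, MulEquiv.trans_apply]⟩

theorem SameClRep.of_iso {V V' S S' : CScheme} (e : V ≅ V') (e' : S ≅ S') (h : SameClRep V' S') :
    SameClRep V S := ((sameClRep_of_iso e).trans h).trans (sameClRep_of_iso e'.symm)

theorem WHyp.exists_iso {n : ℕ} (H H' : WHyp n) (hw : H'.wt = H.wt)
    (g g' : Fin n → MvPolynomial (Fin n) ℂ)
    (hg : ∀ i, (g i).IsWeightedHomogeneous H.wt (H.wt i))
    (hg' : ∀ i, (g' i).IsWeightedHomogeneous H.wt (H.wt i)) (h1 : ∀ i, aeval g (g' i) = X i)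
    (h2 : ∀ i, aeval g' (g i) = X i) {c : ℂ} (hc : c ≠ 0) (he : aeval g H.eqn = C c * H'.eqn) :
    Nonempty (H.scheme ≅ H'.scheme) := by
  obtain ⟨e, -, e2, e3⟩ := H.exists_equiv H' hw g g' hg hg' h1 h2 hc he
  exact ⟨(grIsoC e e2 e3).symm⟩

theorem lin_lin_inv {g : Matrix (Fin 3) (Fin 3) ℂ} (hg : g.det ≠ 0) (i : Fin 3) :
    lin g (lin g⁻¹ (X i)) = X i ∧ lin g⁻¹ (lin g (X i)) = X i := by
  rw [lin_lin, lin_lin, Matrix.nonsing_inv_mul _ hg.isUnit, Matrix.mul_nonsing_inv _ hg.isUnit,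
    lin_one]
  exact ⟨rfl, rfl⟩

theorem dp_iso {f : MvPolynomial (Fin 3) ℂ} (hf : f.IsHomogeneous 4)
    {g : Matrix (Fin 3) (Fin 3) ℂ} (hg : g.det ≠ 0) :
    Nonempty ((dp hf).scheme ≅ (dp (lin_hom g hf)).scheme) := by
  let G : Matrix (Fin 3) (Fin 3) ℂ → Fin 4 → MvPolynomial (Fin 4) ℂ := fun g =>
    Fin.cons (X 0) fun j => rename Fin.succ (lin g (X j))
  have h1 : ∀ g i, (G g i).IsWeightedHomogeneous (dp hf).wt ((dp hf).wt i) := fun g i => by
    refine Fin.cases (isWeightedHomogeneous_X ℂ _ 0) (fun j => ?_) i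
    rw [show (dp hf).wt j.succ = 1 by fin_cases j <;> rfl]
    exact hom_rename Fin.succ (fun j => by fin_cases j <;> rfl) (lin_hom g (isHomogeneous_X ℂ j))
  have h2 : ∀ g p, aeval (G g) (rename Fin.succ p) = rename Fin.succ (lin g p) := fun g p =>
    DFunLike.congr_fun (f := (aeval (G g)).comp (rename Fin.succ))
      (g := (rename Fin.succ).comp (lin g)) (algHom_ext fun j => by simp [G]) p
  exact (dp hf).exists_iso (dp (lin_hom g hf)) rfl (G g) (G g⁻¹) (h1 g) (h1 g⁻¹)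
    (Fin.cases (by simp [G]) fun j => (h2 _ _).trans (by rw [(lin_lin_inv hg j).1, rename_X]))
    (Fin.cases (by simp [G]) fun j => (h2 _ _).trans (by rw [(lin_lin_inv hg j).2, rename_X]))
    one_ne_zero (by
      change aeval _ (X 0 ^ 2 - rename _ f) = C 1 * (X 0 ^ 2 - rename _ (lin g f))
      rw [map_sub, h2]; simp [G])

theorem vc_iso {I J : MvPolynomial (Fin 3) ℂ} (hI : I.IsHomogeneous 4) (hJ : J.IsHomogeneous 6)
    {g : Matrix (Fin 3) (Fin 3) ℂ} (hg : g.det ≠ 0) :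
    Nonempty ((vc hI hJ).scheme ≅ (vc (lin_hom g hI) (lin_hom g hJ)).scheme) := by
  let G : Matrix (Fin 3) (Fin 3) ℂ → Fin 5 → MvPolynomial (Fin 5) ℂ := fun g =>
    Fin.cons (X 0) (Fin.cons (X 1) fun j => rename (Fin.succ ∘ Fin.succ) (lin g (X j)))
  have h1 : ∀ g i, (G g i).IsWeightedHomogeneous (vc hI hJ).wt ((vc hI hJ).wt i) := fun g i => by
    refine Fin.cases (isWeightedHomogeneous_X ℂ _ 0) (Fin.cases (isWeightedHomogeneous_X ℂ _ 1)
      fun j => ?_) i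
    rw [show (vc hI hJ).wt j.succ.succ = 1 by fin_cases j <;> rfl]
    exact hom_rename _ (fun j => by fin_cases j <;> rfl) (lin_hom g (isHomogeneous_X ℂ j))
  have h2 : ∀ g p, aeval (G g) (rename (Fin.succ ∘ Fin.succ) p) =
      rename (Fin.succ ∘ Fin.succ) (lin g p) := fun g p =>
    DFunLike.congr_fun (f := (aeval (G g)).comp (rename (Fin.succ ∘ Fin.succ)))
      (g := (rename (Fin.succ ∘ Fin.succ)).comp (lin g)) (algHom_ext fun j => by simp [G]) p
  exact (vc hI hJ).exists_iso (vc (lin_hom g hI) (lin_hom g hJ)) rfl (G g) (G g⁻¹) (h1 g) (h1 g⁻¹)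
    (Fin.cases (aeval_X _ _) (Fin.cases (aeval_X _ _) fun j =>
      (h2 _ _).trans (by rw [(lin_lin_inv hg j).1, rename_X]; rfl)))
    (Fin.cases (aeval_X _ _) (Fin.cases (aeval_X _ _) fun j =>
      (h2 _ _).trans (by rw [(lin_lin_inv hg j).2, rename_X]; rfl)))
    one_ne_zero (by
      change aeval _ (X 0 ^ 2 - rename _ (cub4 I J)) =
        C 1 * (X 0 ^ 2 - rename _ (cub4 (lin g I) (lin g J)))
      simp only [cub4, map_sub, map_mul, map_pow, rename_rename, h2, rename_X, aeval_X,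
        map_ofNat, map_one, one_mul]
      rfl)

theorem cone_iso {I J : MvPolynomial (Fin 3) ℂ} (hI : I.IsHomogeneous 4) (hJ : J.IsHomogeneous 6)
    {c : ℂ} (hc : c ≠ 0) {q r s : MvPolynomial (Fin 3) ℂ} (hq : q.IsHomogeneous 2)
    (hr : r.IsHomogeneous 4) (hs : s.IsHomogeneous 6) {l : ℂ} (hl : l ≠ 0)
    (e1 : C (3 * c) * r - q ^ 2 = C (-81 * c ^ 2 * l ^ 2) * I)
    (e2 : C (27 * c ^ 2) * s - C (9 * c) * q * r + 2 * q ^ 3 = C (-729 * c ^ 3 * l ^ 3) * J) :
    Nonempty (cone c hq hr hs ≅ (vc hI hJ).scheme) := by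
  obtain ⟨μ, hμ⟩ := IsAlgClosed.exists_pow_nat_eq (c * l ^ 3) two_pos
  have hk : c * l ^ 3 ≠ 0 := mul_ne_zero hc (pow_ne_zero 3 hl)
  have hμ0 : μ ≠ 0 := by rintro rfl; exact hk (by simpa using hμ.symm)
  let ι : Fin 3 → Fin 5 := Fin.succ ∘ Fin.succ
  have hι : Fin.natAdd 2 = ι := by funext j; fin_cases j <;> rfl
  let G : ℂ → ℂ → ℂ → Fin 5 → MvPolynomial (Fin 5) ℂ := fun a b d =>
    Fin.cons (C a * X 0) (Fin.cons (C b * X 1 + C d * rename ι q) fun j => X (ι j))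
  have h1 : ∀ a b d i, (G a b d i).IsWeightedHomogeneous ![3, 2, 1, 1, 1]
      ((![3, 2, 1, 1, 1] : Fin 5 → ℕ) i) := fun a b d i => by
    refine Fin.cases ((isWeightedHomogeneous_X ℂ _ 0).C_mul a) (Fin.cases
      (((isWeightedHomogeneous_X ℂ _ 1).C_mul b).add ((hom_rename ι
        (fun j => by fin_cases j <;> rfl) hq).C_mul d)) fun j => isWeightedHomogeneous_X ℂ _ _) i
  have h2 : ∀ a b d p, aeval (G a b d) (rename ι p) = rename ι p := fun a b d p =>
    DFunLike.congr_fun (f := (aeval (G a b d)).comp (rename ι)) (g := rename ι)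
      (algHom_ext fun j => by simp [G, ι]) p
  have h3 : ∀ a b d a' b' d' : ℂ, a' * a = 1 → b' * b = 1 → b' * d + d' = 0 → ∀ i,
      aeval (G a b d) (G a' b' d' i) = X i := fun a b d a' b' d' k1 k2 k3 => by
    refine Fin.cases ?_ (Fin.cases ?_ fun j => ?_)
    · change aeval (G a b d) (C a' * X 0) = X 0
      rw [map_mul, aeval_X, algHom_C, show G a b d 0 = C a * X 0 from rfl, algebraMap_eq,
        ← mul_assoc, ← map_mul, k1, map_one, one_mul]
    · change aeval (G a b d) (C b' * X 1 + C d' * rename ι q) = X 1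
      rw [map_add, map_mul, map_mul, h2, aeval_X, algHom_C, algHom_C,
        show G a b d 1 = C b * X 1 + C d * rename ι q from rfl, algebraMap_eq, mul_add,
        ← mul_assoc, ← mul_assoc, ← map_mul, ← map_mul, k2, add_assoc, ← add_mul, ← map_add, k3]
      simp
    · exact aeval_X _ _
  refine WHyp.exists_iso ⟨![3, 2, 1, 1, 1], 6, X 0 ^ 2 - branch c q r s, hom_cone c hq hr hs⟩
    (vc hI hJ) rfl (G μ l (-1 / (3 * c))) (G μ⁻¹ l⁻¹ (1 / (3 * c * l))) (h1 _ _ _) (h1 _ _ _)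
    (h3 _ _ _ _ _ _ (inv_mul_cancel₀ hμ0) (inv_mul_cancel₀ hl) (by field_simp; ring))
    (h3 _ _ _ _ _ _ (mul_inv_cancel₀ hμ0) (mul_inv_cancel₀ hl) (by field_simp; ring)) hk ?_
  change aeval _ (X 0 ^ 2 - branch c q r s) =
    C (c * l ^ 3) * (X 0 ^ 2 - rename Fin.succ (cub4 I J))
  have f1 := congrArg (rename ι) e1
  have f2 := congrArg (rename ι) e2
  obtain ⟨d, hd⟩ : ∃ d : ℂ, d = -1 / (3 * c) := ⟨_, rfl⟩
  have f3 : (C c * C d * 3 : MvPolynomial (Fin 5) ℂ) = -1 := by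
    rw [← map_mul, show (3 : MvPolynomial (Fin 5) ℂ) = C 3 from rfl, ← map_mul, hd,
      show c * (-1 / (3 * c)) * 3 = -1 by field_simp, map_neg, map_one]
  have f4 : (C μ ^ 2 : MvPolynomial (Fin 5) ℂ) = C c * C l ^ 3 := by
    rw [← map_pow, hμ, map_mul, map_pow]
  rw [← hd]
  simp only [branch, hι, cub4, map_sub, map_add, map_mul, map_pow, rename_rename, h2, rename_X,
    aeval_X, map_ofNat, algHom_C, algebraMap_eq, map_neg] at f1 f2 ⊢
  rw [show G μ l d 0 = C μ * X 0 from rfl, show G μ l d 1 = C l * X 1 + C d * rename ι q from rfl,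
    show (Fin.succ 0 : Fin 5) = 1 from rfl]
  generalize rename ι q = Q at f1 f2 ⊢
  generalize rename ι r = R at f1 f2 ⊢
  generalize rename ι s = S at f1 f2 ⊢
  change _ = _ * (_ - (_ - 27 * rename ι I * _ - 27 * rename ι J))
  generalize rename ι I = I at f1 f2 ⊢
  generalize rename ι J = J at f1 f2 ⊢
  have g1 : R + C d * Q ^ 2 + 27 * C c * C l ^ 2 * I = 0 := by
    linear_combination (-C d) * f1 + (R + 27 * C c * C l ^ 2 * I) * f3
  have g2 : 3 * S + 3 * C d * Q * R + 2 * C d ^ 2 * Q ^ 3 + 81 * C c * C l ^ 3 * J = 0 := by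
    linear_combination C d ^ 2 * f2 -
      ((3 * C c * C d - 1) * (3 * S + 81 * C c * C l ^ 3 * J) - 3 * C d * Q * R) * f3
  refine mul_left_cancel₀ (a := 3) (by norm_num) ?_
  linear_combination 3 * X 0 ^ 2 * f4 - (3 * C l ^ 2 * Q * X 1 ^ 2 + 3 * C l * X 1 * C d * Q ^ 2 +
    C d ^ 2 * Q ^ 3) * f3 - 3 * C l * X 1 * g1 - g2

theorem result_of_normal
    (H : ∀ (f I J : MvPolynomial (Fin 3) ℂ) (hf : f.IsHomogeneous 4) (_ : IsSmoothForm f)
      (_ : (inf4 f).natDegree = 4) (_ : (inf4 f).Separable) (h : IsIJ f I J),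
      IsVariety (vc h.homI h.homJ).scheme ∧ IsVariety (dp hf).scheme ∧
        SameClRep (vc h.homI h.homJ).scheme (dp hf).scheme)
    (f : MvPolynomial (Fin 3) ℂ) (hf : f.IsHomogeneous 4) (hsm : IsSmoothForm f)
    (c : ℂ) (hc : c ≠ 0) (q r s : MvPolynomial (Fin 3) ℂ) (hq : q.IsHomogeneous 2)
    (hr : r.IsHomogeneous 4) (hs : s.IsHomogeneous 6) (hd : DiscIsDual f c q r s) :
    IsVariety (cone c hq hr hs) ∧ IsVariety (delPezzo hf) ∧
      SameClRep (cone c hq hr hs) (delPezzo hf) := by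
  obtain ⟨I, J, h⟩ := exists_IJ hf
  obtain ⟨g, hg, h1, h2⟩ := exists_transversal hf hsm
  obtain ⟨l, hl, e1, e2⟩ := h.of_discIsDual hf hsm hc hq hr hs hd
  obtain ⟨k1, k2, k3⟩ := H _ _ _ (lin_hom g hf) (smooth_lin hsm hg) h1 h2 (h.lin g)
  obtain ⟨a⟩ := cone_iso h.homI h.homJ hc hq hr hs hl e1 e2
  obtain ⟨b⟩ := vc_iso h.homI h.homJ (g := cof g) (by
    rw [cof, Matrix.det_transpose, Matrix.det_adjugate]; exact pow_ne_zero _ hg)
  obtain ⟨d⟩ := dp_iso hf hg
  exact ⟨k1.of_iso (a ≪≫ b), k2.of_iso d, k3.of_iso (a ≪≫ b) d⟩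

end Pool.Agent.Work.MP_475c1a_ag
end

-- merged part: Pool.Agent.Work.MP_475c1a_ag.Main
section
/-! The main theorem. -/

namespace Pool.Agent.Work.MP_475c1a_ag

open Polynomial CategoryTheory

set_option maxHeartbeats 400000

theorem exists_frac (A : Type) [CommRing A] [IsDomain A] [CharZero A] :
    ∃ (K : Type) (_ : Field K) (_ : Algebra A K) (_ : IsFractionRing A K), CharZero K :=
  ⟨FractionRing A, inferInstance, inferInstance, inferInstance,
    charZero_of_injective_algebraMap (IsFractionRing.injective A _)⟩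

theorem normal_case (f I J : MvPolynomial (Fin 3) ℂ) (hf : f.IsHomogeneous 4) (hs : IsSmoothForm f)
    (h1 : (inf4 f).natDegree = 4) (h2 : (inf4 f).Separable) (h : IsIJ f I J) :
    IsVariety (vc h.homI h.homJ).scheme ∧ IsVariety (dp hf).scheme ∧
      SameClRep (vc h.homI h.homJ).scheme (dp hf).scheme := by
  have hd := (h.squarefree hf hs).ne_zero
  have h0 := genRes_nonsq hf h1 h2
  obtain ⟨L, _, _, θ, P, v, pl, inf, W', T', α', β', V⟩ := exists_vpack h.homI h.homJ hd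
  obtain ⟨L', _, _, θ', P', v', pl', inf', u, s, y, S⟩ := exists_spack hf hs h1 h2
  refine ⟨V.geo.variety, S.geo.variety, ?_⟩
  have := V.dom
  have := S.dom
  obtain ⟨M, _, _, j', α, hr⟩ := exists_isRat L'
  obtain ⟨K, _, _, _, _⟩ := exists_frac (MvPolynomial (Fin 2) ℂ)
  obtain ⟨T, W, ι, c⟩ : ∃ T W, ∃ ι : K[X] →+* M,
      Cov f I J α (j' y - α * j' s) (j' s) (j' u) T W ι :=
    ⟨_, _, exists_cov h hf h0 hd (hr.quadF S.chart.quadF)⟩
  obtain ⟨j, e0, e1, e2, e3⟩ := c.exists_lift V.chart.quadF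
  have b : Big θ P v pl inf W' T' α' β' θ' P' v' pl' inf' u s y j j' α T W ι :=
    ⟨V, S, h, hs, hd, hr, c, e0, e1, e2, e3⟩
  obtain ⟨τ, τ', σ, a1, a2, c1, c2⟩ := b.conj
  obtain ⟨pb, hp⟩ := exists_pb (j := (j : L →+* M)) V.chart.am.norm V.chart.am.v_inj
    (c.fin_supp c1 c2)
  obtain ⟨pb', hp'⟩ := exists_pb (j := (j' : L' →+* M)) S.chart.am.norm S.chart.am.v_inj
    (c.fin_supp c1 c2)
  let _ := (j : L →+* M).toAlgebra
  have : IsScalarTower ℂ L M := .of_algebraMap_eq fun x => (j.commutes x).symm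
  have := c.finite h hf h0 hd e1 e2 e3
  exact sameClRep_of_half
    ⟨V.geo.prin, V.geo.pl_one, V.geo.pl_mul, V.geo.v_pl, hp, c.side_V c1 c2 V h e0 e1 e2 e3 hp,
      V.chart.am.fin, fun _ => V.chart.v_inf_eq_zero, fun τ _ => V.canonical_one hd τ⟩
    ⟨S.geo.prin, S.geo.pl_one, S.geo.pl_mul, S.geo.v_pl, hp', c.side_S S.chart hr hf hs c1 c2 hp',
      S.chart.am.fin, fun _ => S.chart.v_inf_eq_zero, fun τ _ => S.canonical hs τ⟩
    b.rel_V b.rel_S b.inj_V b.inj_S b.perm Pl.w_inj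
    ⟨τ, τ', σ, a1, a2, fun ρ hρ D => c.sat_le c1 c2 (c.quad.add_conj c.good_fin Pl.w_inj σ c1 c2 hρ
      (fun k => by simp [Pl.fin, hρ, DV.comap_ge, c1]) D)⟩

theorem main (f : MvPolynomial (Fin 3) ℂ) (hf : f.IsHomogeneous 4) (hsm : IsSmoothForm f)
    (c : ℂ) (hc : c ≠ 0) (q r s : MvPolynomial (Fin 3) ℂ) (hq : q.IsHomogeneous 2)
    (hr : r.IsHomogeneous 4) (hs : s.IsHomogeneous 6) (hd : DiscIsDual f c q r s) :
    IsVariety (cone c hq hr hs) ∧ IsVariety (delPezzo hf) ∧ WeilIsCartier (delPezzo hf) ∧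
      SameClRep (cone c hq hr hs) (delPezzo hf) :=
  have h := result_of_normal normal_case f hf hsm c hc q r s hq hr hs hd
  ⟨h.1, h.2.1, dp_cartier hf hsm, h.2.2⟩

end Pool.Agent.Work.MP_475c1a_ag
end
end
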