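import Mathlib

/-! Pullback of rational functions along an isomorphism of integral schemes. -/

namespace Pool.Agent.Work.MP_475c1a_ag

open AlgebraicGeometry CategoryTheory

theorem ord_ringEquiv {R S : Type*} [CommRing R] [CommRing S] (e : R ≃+* S) (x : R) :
    Ring.ord S (e x) = Ring.ord R x := by
  let _ : Algebra R S := (e : R →+* S).toAlgebra
  let q : (R ⧸ Ideal.span {x}) ≃+* (S ⧸ Ideal.span {e x}) :=
    Ideal.quotientEquiv _ _ e (by simp [Ideal.map_span])
  have h1 : Module.length R (S ⧸ Ideal.span {e x}) = Module.length S (S ⧸ Ideal.span {e x}) :=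
    Module.length_eq_of_surjective (S := R) (R := S) e.surjective
  let l : (R ⧸ Ideal.span {x}) ≃ₗ[R] (S ⧸ Ideal.span {e x}) :=
    { q with
      map_smul' := fun r y => by
        obtain ⟨y, rfl⟩ := Ideal.Quotient.mk_surjective y
        change q (Ideal.Quotient.mk _ (r * y)) = Ideal.Quotient.mk _ (e r * e y)
        rw [← map_mul e]
        rfl }
  rw [Ring.ord, Ring.ord, ← h1, l.length_eq]

theorem ordFrac_ringEquiv {R S K L : Type*} [CommRing R] [CommRing S] [IsDomain R] [IsDomain S]
    [IsNoetherianRing R] [IsNoetherianRing S] [Ring.KrullDimLE 1 R] [Ring.KrullDimLE 1 S]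
    [Field K] [Field L] [Algebra R K] [Algebra S L] [IsFractionRing R K] [IsFractionRing S L]
    (e : R ≃+* S) (p : K →+* L) (h : ∀ a, p (algebraMap R K a) = algebraMap S L (e a)) (g : K) :
    Ring.ordFrac S (p g) = Ring.ordFrac R g := by
  have h1 : ∀ a : R, Ring.ordFrac S (algebraMap S L (e a)) = Ring.ordFrac R (algebraMap R K a) := by
    intro a
    by_cases ha : a = 0
    · simp [ha]
    · have hb : e a ≠ 0 := by simpa using ha
      rw [Ring.ordFrac_eq_ord _ ha, Ring.ordFrac_eq_ord _ hb,
        Ring.ordMonoidWithZeroHom_eq_ord (mem_nonZeroDivisors_of_ne_zero ha),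
        Ring.ordMonoidWithZeroHom_eq_ord (mem_nonZeroDivisors_of_ne_zero hb), ord_ringEquiv]
  obtain ⟨a, b, -, rfl⟩ := IsFractionRing.div_surjective (A := R) g
  rw [map_div₀, h, h, map_div₀, map_div₀, h1, h1]

variable {X Y Z : Scheme.{0}}

section

variable [IsIntegral X] [IsIntegral Y] [IsIntegral Z]

/-- The generic point as a morphism. -/
noncomputable def gen (X : Scheme.{0}) [IsIntegral X] : Spec X.functionField ⟶ X :=
  X.fromSpecStalk (genericPoint X)

instance : Mono (gen X) := by
  unfold gen; infer_instance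

instance : IsDominant (gen X) := by
  refine ⟨?_⟩
  have h : genericPoint X ∈ Set.range (gen X) := ⟨_, Scheme.fromSpecStalk_closedPoint⟩
  rw [DenseRange, dense_iff_closure_eq, ← Set.univ_subset_iff, ← (genericPoint_spec X)]
  exact closure_mono (Set.singleton_subset_iff.mpr h)

/-- The pullback of rational functions. -/
noncomputable def pullHom (e : X ≅ Y) : Y.functionField ⟶ X.functionField :=
  Y.presheaf.stalkSpecializes (specializes_of_eq (genericPoint_eq_of_isOpenImmersion e.hom)) ≫
    e.hom.stalkMap (genericPoint X)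

theorem pull_gen (e : X ≅ Y) : Spec.map (pullHom e) ≫ gen Y = gen X ≫ e.hom := by
  rw [pullHom, Spec.map_comp, Category.assoc, gen, Scheme.SpecMap_stalkSpecializes_fromSpecStalk,
    Scheme.SpecMap_stalkMap_fromSpecStalk, gen]

theorem pullHom_unique (e : X ≅ Y) {p : Y.functionField ⟶ X.functionField}
    (h : Spec.map p ≫ gen Y = gen X ≫ e.hom) : p = pullHom e := by
  apply Spec.map_injective
  rw [← cancel_mono (gen Y), h, pull_gen]

theorem pullHom_trans (e : X ≅ Y) (e' : Y ≅ Z) : pullHom (e ≪≫ e') = pullHom e' ≫ pullHom e := by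
  symm
  apply pullHom_unique
  rw [Spec.map_comp, Category.assoc, pull_gen, ← Category.assoc, pull_gen]
  simp

theorem pullHom_refl : pullHom (Iso.refl X) = 𝟙 _ := by
  symm
  apply pullHom_unique
  simp

theorem hom_eq_of_pullHom [Y.IsSeparated] {e e' : X ≅ Y} (h : pullHom e = pullHom e') : e = e' := by
  ext1
  refine ext_of_isDominant (gen X) ?_
  rw [← pull_gen, ← pull_gen, h]

/-- The pullback of rational functions as a ring isomorphism. -/
noncomputable def pull (e : X ≅ Y) : Y.functionField ≃+* X.functionField :=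
  Iso.commRingCatIsoToRingEquiv
    ⟨pullHom e, pullHom e.symm, by rw [← pullHom_trans, Iso.symm_self_id, pullHom_refl],
      by rw [← pullHom_trans, Iso.self_symm_id, pullHom_refl]⟩

theorem pull_apply (e : X ≅ Y) (g : Y.functionField) : pull e g = pullHom e g := rfl

theorem pull_trans (e : X ≅ Y) (e' : Y ≅ Z) (g : Z.functionField) :
    pull (e ≪≫ e') g = pull e (pull e' g) := by
  rw [pull_apply, pullHom_trans]; rfl

theorem pull_refl (g : X.functionField) : pull (Iso.refl X) g = g := by
  rw [pull_apply, pullHom_refl]; rfl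

theorem eq_of_pull [Y.IsSeparated] {e e' : X ≅ Y} (h : ∀ g, pull e g = pull e' g) : e = e' :=
  hom_eq_of_pullHom (by ext g; exact h g)

theorem pull_stalk (e : X ≅ Y) (x : X) (a : Y.presheaf.stalk (e.hom x)) :
    pull e (algebraMap _ Y.functionField a) =
      algebraMap _ X.functionField (e.hom.stalkMap x a) := by
  have h : Y.presheaf.stalkSpecializes ((genericPoint_spec Y).specializes trivial) ≫ pullHom e =
      e.hom.stalkMap x ≫
        X.presheaf.stalkSpecializes ((genericPoint_spec X).specializes trivial) := by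
    apply Spec.map_injective
    rw [← cancel_mono (Y.fromSpecStalk (e.hom x)), Spec.map_comp, Spec.map_comp, Category.assoc,
      Category.assoc, Scheme.SpecMap_stalkSpecializes_fromSpecStalk,
      Scheme.SpecMap_stalkMap_fromSpecStalk, ← Category.assoc,
      Scheme.SpecMap_stalkSpecializes_fromSpecStalk]
    exact pull_gen e
  exact DFunLike.congr_fun (CommRingCat.hom_ext_iff.mp h) a

theorem ord_pull [IsLocallyNoetherian X] [IsLocallyNoetherian Y] (e : X ≅ Y)
    (g : Y.functionField) (x : X) : X.ord (pull e g) x = Y.ord g (e.hom x) := by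
  have hc : Order.coheight (e.hom x) = Order.coheight x := coheight_eq_of_isOpenImmersion e.hom
  by_cases hx : Order.coheight x = 1
  · have hy := hc.trans hx
    rw [Scheme.ord_eq_ordHom_of_coheight_eq_one hx, Scheme.ord_eq_ordHom_of_coheight_eq_one hy]
    have := krullDimLE_of_coheight_le hx.le
    have := krullDimLE_of_coheight_le hy.le
    have h := ordFrac_ringEquiv (asIso (e.hom.stalkMap x)).commRingCatIsoToRingEquiv
      (pull e : Y.functionField →+* X.functionField) (pull_stalk e x) g
    congr 2
  · rw [Scheme.ord_eq_zero_of_coheight_neq_one hx,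
      Scheme.ord_eq_zero_of_coheight_neq_one (hc ▸ hx)]

end

end Pool.Agent.Work.MP_475c1a_ag
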